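import Pool.Agent.Helper5.RD.Stm

/-! # Project RD: package K, the choice of the constants -/

set_option autoImplicit false
set_option maxHeartbeats 1000000

namespace Pool.Agent.Helper5.RD

open Finset Filter Topology

lemma ev_lin (a c : ℝ) (ha : 0 < a) : ∀ᶠ l : ℝ in atTop, c ≤ a * l :=
  (tendsto_id.const_mul_atTop ha).eventually_ge_atTop c

lemma ev_exp (a c : ℝ) (ha : 0 < a) : ∀ᶠ l : ℝ in atTop, c ≤ Real.exp (a * l) :=
  (Real.tendsto_exp_atTop.comp (tendsto_id.const_mul_atTop ha)).eventually_ge_atTop c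

lemma ex_nat (γ c : ℝ) (hγ : 0 < γ) (hc : 0 < c) (m : ℕ) : ∃ K : ℕ, m ≤ K ∧ 1 ≤ K ∧ (K : ℝ) ^ (-γ) ≤ c := by
  have h1 : Tendsto (fun K : ℕ => (K : ℝ) ^ (-γ)) atTop (𝓝 0) :=
    (tendsto_rpow_neg_atTop hγ).comp tendsto_natCast_atTop_atTop
  obtain ⟨K, h2, h3, h4⟩ := ((eventually_ge_atTop m).and ((eventually_ge_atTop 1).and
    (h1.eventually (ge_mem_nhds hc)))).exists
  exact ⟨K, h2, h3, h4⟩

/-- the binomial coefficients -/
lemma choose_core (g k F f m A : ℕ) (c : ℝ) (hm : m ≤ g) (hf : f ≤ F + 1) (hfk : f ≤ k)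
    (hc : c ≤ 8 ^ f) (h : 8 * ((A : ℝ) * g * f) ≤ ((F : ℝ) + 2 - f) * ((k : ℝ) + 1 - f)) :
    c * ((A ^ f * m.choose f : ℕ) : ℝ) ≤ (((F + 1).choose f * k.choose f : ℕ) : ℝ) := by
  have h1 : ((m.choose f : ℕ) : ℝ) ≤ (g : ℝ) ^ f / f.factorial := by
    have h2 : ((m.choose f : ℕ) : ℝ) ≤ ((g.choose f : ℕ) : ℝ) := by exact_mod_cast Nat.choose_le_choose f hm
    exact h2.trans (Nat.choose_le_pow_div f g)
  have hfac : (0 : ℝ) < f.factorial := by exact_mod_cast f.factorial_pos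
  have h3 : ((F : ℝ) + 2 - f) ^ f / f.factorial ≤ (((F + 1).choose f : ℕ) : ℝ) := by
    have h4 := Nat.pow_le_choose (α := ℝ) f (F + 1)
    rw [Nat.cast_sub (by omega)] at h4
    push_cast at h4
    have e : (F : ℝ) + 1 + 1 - f = F + 2 - f := by ring
    rwa [e] at h4
  have h5 : ((k : ℝ) + 1 - f) ^ f / f.factorial ≤ ((k.choose f : ℕ) : ℝ) := by
    have h4 := Nat.pow_le_choose (α := ℝ) f k
    rw [Nat.cast_sub (by omega)] at h4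
    push_cast at h4
    exact h4
  have hF0 : (0 : ℝ) ≤ (F : ℝ) + 2 - f := by
    have : (f : ℝ) ≤ F + 1 := by exact_mod_cast hf
    linarith
  have hk0 : (0 : ℝ) ≤ (k : ℝ) + 1 - f := by
    have : (f : ℝ) ≤ k := by exact_mod_cast hfk
    linarith
  have h6 : (f.factorial : ℝ) ≤ (f : ℝ) ^ f := by exact_mod_cast Nat.factorial_le_pow f
  have h7 : (8 : ℝ) ^ f * ((A : ℝ) ^ f * (g : ℝ) ^ f * (f : ℝ) ^ f) ≤
      ((F : ℝ) + 2 - f) ^ f * ((k : ℝ) + 1 - f) ^ f := by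
    rw [← mul_pow, ← mul_pow, ← mul_pow, ← mul_pow]
    exact pow_le_pow_left₀ (by positivity) h f
  push_cast
  calc c * ((A : ℝ) ^ f * (m.choose f : ℝ)) ≤ 8 ^ f * ((A : ℝ) ^ f * ((g : ℝ) ^ f / f.factorial)) := by
        gcongr
    _ = (8 ^ f * ((A : ℝ) ^ f * (g : ℝ) ^ f * f.factorial)) / (f.factorial * f.factorial) := by
        field_simp
    _ ≤ (8 ^ f * ((A : ℝ) ^ f * (g : ℝ) ^ f * (f : ℝ) ^ f)) / (f.factorial * f.factorial) := by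
        gcongr
    _ ≤ (((F : ℝ) + 2 - f) ^ f * ((k : ℝ) + 1 - f) ^ f) / (f.factorial * f.factorial) := by
        gcongr
    _ = (((F : ℝ) + 2 - f) ^ f / f.factorial) * (((k : ℝ) + 1 - f) ^ f / f.factorial) := by
        field_simp
    _ ≤ _ := by gcongr

/-- (d) -/
lemma k_d (ε h l δ ρ θ : ℝ) (L M g H : ℕ) (hε : 0 < ε) (hh : 1 ≤ h) (hL : (0 : ℝ) < L) (l0 : 0 < l)
    (hρ : ρ = Real.exp (-(ε / (36 * h)))) (hρ1 : ρ < 1) (hδ0 : 0 < δ) (hδ1 : δ ≤ 1)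
    (hδ2 : δ / (1 - ρ) ≤ ε / (48 * L)) (hθa : θ * (-Real.log δ) ≤ ε / 24)
    (g1 : (g : ℝ) ≤ θ * l) (M1 : (M : ℝ) ≤ 4 * l) (H2 : (H : ℝ) ≤ 2 * h * l) :
    (1 + δ / (1 - ρ)) ^ (L * M) ≤ Real.exp (ε / 4 * l) * (δ ^ (2 * g) * ρ ^ H) := by
  have h1 : 0 ≤ δ / (1 - ρ) := div_nonneg hδ0.le (by linarith)
  have h2 : (1 + δ / (1 - ρ)) ^ (L * M) ≤ Real.exp (ε / 12 * l) := by
    calc (1 + δ / (1 - ρ)) ^ (L * M) ≤ (Real.exp (δ / (1 - ρ))) ^ (L * M) := by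
          gcongr
          linarith [Real.add_one_le_exp (δ / (1 - ρ))]
      _ = Real.exp (((L * M : ℕ) : ℝ) * (δ / (1 - ρ))) := by rw [Real.exp_nat_mul]
      _ ≤ Real.exp (ε / 12 * l) := by
          rw [Real.exp_le_exp]
          push_cast
          calc (L : ℝ) * M * (δ / (1 - ρ)) ≤ L * (4 * l) * (ε / (48 * L)) := by gcongr
            _ = ε / 12 * l := by field_simp; ring
  have h3 : δ ^ (2 * g) = Real.exp (((2 * g : ℕ) : ℝ) * Real.log δ) := by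
    rw [Real.exp_nat_mul, Real.exp_log hδ0]
  have h4 : ρ ^ H = Real.exp ((H : ℝ) * (-(ε / (36 * h)))) := by
    rw [hρ, Real.exp_nat_mul]
  refine h2.trans ?_
  rw [h3, h4, ← Real.exp_add, ← Real.exp_add, Real.exp_le_exp]
  push_cast
  have hl : Real.log δ ≤ 0 := Real.log_nonpos hδ0.le hδ1
  have h5 : 2 * (g : ℝ) * (-Real.log δ) ≤ ε / 12 * l := by
    calc 2 * (g : ℝ) * (-Real.log δ) ≤ 2 * (θ * l) * (-Real.log δ) := by
          gcongr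
          linarith
      _ = θ * (-Real.log δ) * (2 * l) := by ring
      _ ≤ ε / 24 * (2 * l) := by gcongr
      _ = ε / 12 * l := by ring
  have h8 : (H : ℝ) * (ε / (36 * h)) ≤ ε / 18 * l := by
    calc (H : ℝ) * (ε / (36 * h)) ≤ 2 * h * l * (ε / (36 * h)) := by gcongr
      _ = ε / 18 * l := by field_simp; ring
  have h9 : 0 ≤ ε * l := by positivity
  have e1 : 2 * (g : ℝ) * Real.log δ = -(2 * (g : ℝ) * (-Real.log δ)) := by ring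
  have e2 : (H : ℝ) * (-(ε / (36 * h))) = -((H : ℝ) * (ε / (36 * h))) := by ring
  rw [e1, e2]
  linarith

/-- the common factor -/
lemma k_pow (ε κ η γ l : ℝ) (hκ : 0 < κ) (hγ : 0 < γ) (hη1 : η ≤ 1) (l0 : 0 < l) (c : ℝ)
    (hc : γ * (2 + 1 / ε) ≤ c) :
    (κ * Real.exp ((1 + η) * l) * Real.exp (1 / ε * l)) ^ γ ≤ κ ^ γ * Real.exp (c * l) := by
  rw [Real.mul_rpow (by positivity) (by positivity), Real.mul_rpow (by positivity) (by positivity),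
    ← Real.exp_mul, ← Real.exp_mul, mul_assoc, ← Real.exp_add]
  gcongr
  have h0 : 0 ≤ (1 - η) * (l * γ) := mul_nonneg (by linarith) (by positivity)
  have h4 : (1 + η) * l * γ + 1 / ε * l * γ = (γ * (2 + 1 / ε)) * l - (1 - η) * (l * γ) := by ring
  rw [h4]
  have h5 : (γ * (2 + 1 / ε)) * l ≤ c * l := by gcongr
  linarith

lemma k_base (u c l : ℝ) (g : ℕ) (hu : 0 ≤ u) (h : (g : ℝ) * u ≤ c * l) :
    (1 + u) ^ g ≤ Real.exp (c * l) := by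
  calc (1 + u) ^ g ≤ (Real.exp u) ^ g := by
        gcongr
        linarith [Real.add_one_le_exp u]
    _ = Real.exp ((g : ℝ) * u) := by rw [Real.exp_nat_mul]
    _ ≤ _ := Real.exp_le_exp.2 h

lemma two_pow_exp (k : ℕ) : (2 : ℝ) ^ k = Real.exp (k * Real.log 2) := by
  rw [mul_comm, Real.exp_mul, Real.exp_log (by norm_num), Real.rpow_natCast]

/-- (e) -/
lemma k_e (ε κ η γ l u θ T : ℝ) (g k : ℕ) (hκ : 0 < κ) (hγ : 0 < γ) (hη1 : η ≤ 1) (l0 : 0 < l)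
    (hT : 0 < T) (hθ : 0 < θ) (hη2 : η ≤ θ / (48 * T)) (hγ1 : γ * (2 + 1 / ε) ≤ θ / (48 * T))
    (hu0 : 0 ≤ u) (hu1 : u ≤ 1 / (96 * T)) (g1 : (g : ℝ) ≤ θ * l) (k2 : θ * l / (4 * T) ≤ k)
    (eκ : 8 * T ^ 2 * κ * κ ^ γ ≤ Real.exp (θ / (16 * T) * l)) :
    8 * T ^ 2 * (κ * Real.exp (η * l)) * ((1 + 2 * u) ^ g *
        (κ * Real.exp ((1 + η) * l) * Real.exp (1 / ε * l)) ^ γ) ≤ 2 ^ k := by
  have hlog2 : 0.6931 < Real.log 2 := by linarith [Real.log_two_gt_d9]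
  have h2 : (1 + 2 * u) ^ g ≤ Real.exp (θ / (48 * T) * l) := by
    refine k_base (2 * u) _ _ g (by positivity) ?_
    calc (g : ℝ) * (2 * u) ≤ θ * l * (2 * (1 / (96 * T))) := by gcongr
      _ = θ / (48 * T) * l := by field_simp; ring
  have h3 := k_pow ε κ η γ l hκ hγ hη1 l0 _ hγ1
  have h5 : Real.exp (η * l) ≤ Real.exp (θ / (48 * T) * l) := by
    rw [Real.exp_le_exp]
    gcongr
  calc 8 * T ^ 2 * (κ * Real.exp (η * l)) * ((1 + 2 * u) ^ g *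
      (κ * Real.exp ((1 + η) * l) * Real.exp (1 / ε * l)) ^ γ) ≤
      8 * T ^ 2 * (κ * Real.exp (θ / (48 * T) * l)) * (Real.exp (θ / (48 * T) * l) *
      (κ ^ γ * Real.exp (θ / (48 * T) * l))) := by gcongr
    _ = (8 * T ^ 2 * κ * κ ^ γ) * (Real.exp (θ / (48 * T) * l) * Real.exp (θ / (48 * T) * l) *
        Real.exp (θ / (48 * T) * l)) := by ring
    _ ≤ Real.exp (θ / (16 * T) * l) * (Real.exp (θ / (48 * T) * l) * Real.exp (θ / (48 * T) * l) *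
        Real.exp (θ / (48 * T) * l)) := by gcongr
    _ = Real.exp (θ * l / (4 * T) / 2) := by
        rw [← Real.exp_add, ← Real.exp_add, ← Real.exp_add]
        congr 1
        field_simp
        ring
    _ ≤ 2 ^ k := by
        rw [two_pow_exp, Real.exp_le_exp]
        have h6 : (k : ℝ) * 0.6931 ≤ k * Real.log 2 := by gcongr
        have h7 : (0 : ℝ) ≤ k := Nat.cast_nonneg k
        linarith

/-- (f) -/
lemma k_f (κ η l θ φ ψ : ℝ) (g k F f T A : ℕ) (hκ : 0 < κ) (l0 : 0 < l)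
    (hT : (0 : ℝ) < T) (hθ : 0 < θ) (hφ : 0 < φ) (hψ : 0 < ψ) (hψ1 : 256 * (T : ℝ) * A * ψ ≤ φ)
    (hψ2 : 8 * (T : ℝ) * ψ ≤ θ) (hψ3 : 4 * ψ ≤ φ) (hη3 : η ≤ ψ / 2)
    (g1 : (g : ℝ) ≤ θ * l) (k2 : θ * l / (4 * T) ≤ k) (F2 : φ * l / 2 ≤ F) (f1 : (f : ℝ) ≤ ψ * l)
    (f2 : ψ * l / 2 ≤ f) (eκ : 8 * (T : ℝ) ^ 2 * κ ≤ Real.exp (ψ / 2 * l)) (m : ℕ) (hm : m ≤ g) :
    8 * (T : ℝ) ^ 2 * (κ * Real.exp (η * l)) * (((A ^ f * m.choose f : ℕ) : ℝ)) ≤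
          (((F + 1).choose f * k.choose f : ℕ) : ℝ) := by
  have hlog2 : 0.6931 < Real.log 2 := by linarith [Real.log_two_gt_d9]
  have hk0 : (0 : ℝ) ≤ k := Nat.cast_nonneg k
  have hF0 : (0 : ℝ) ≤ F := Nat.cast_nonneg F
  have hfk : (f : ℝ) ≤ k / 2 := by
    refine f1.trans ?_
    have h1 : ψ * l ≤ θ * l / (4 * T) / 2 := by
      rw [div_div, le_div_iff₀ (by positivity)]
      have := mul_le_mul_of_nonneg_right hψ2 l0.le
      linarith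
    linarith
  have hfF : (f : ℝ) ≤ F / 2 := by
    have := mul_le_mul_of_nonneg_right hψ3 l0.le
    linarith
  refine choose_core g k F f m A _ hm ?_ ?_ ?_ ?_
  · have : (f : ℝ) ≤ F + 1 := by linarith
    exact_mod_cast this
  · have : (f : ℝ) ≤ k := by linarith
    exact_mod_cast this
  · -- `8 T² κ e^{η l} ≤ 8 ^ f`
    have h1 : (8 : ℝ) ^ f = Real.exp (f * (3 * Real.log 2)) := by
      have e : (8 : ℝ) = 2 ^ 3 := by norm_num
      rw [e, ← pow_mul, two_pow_exp]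
      congr 1
      push_cast
      ring
    rw [h1]
    calc 8 * (T : ℝ) ^ 2 * (κ * Real.exp (η * l)) = (8 * (T : ℝ) ^ 2 * κ) * Real.exp (η * l) := by ring
      _ ≤ Real.exp (ψ / 2 * l) * Real.exp (ψ / 2 * l) := by gcongr
      _ = Real.exp (ψ * l / 2 * 2) := by
          rw [← Real.exp_add]; congr 1; ring
      _ ≤ _ := by
          rw [Real.exp_le_exp]
          have h2 : (f : ℝ) * 2 ≤ f * (3 * Real.log 2) := by gcongr; linarith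
          linarith
  · have hg0 : (0 : ℝ) ≤ g := Nat.cast_nonneg g
    have hA0 : (0 : ℝ) ≤ A := Nat.cast_nonneg A
    have hf0 : (0 : ℝ) ≤ f := Nat.cast_nonneg f
    have h1 : (φ * l / 4) * (θ * l / (8 * T)) ≤ ((F : ℝ) + 2 - f) * ((k : ℝ) + 1 - f) := by
      have h2 : θ * l / (8 * T) = θ * l / (4 * T) / 2 := by field_simp; ring
      apply mul_le_mul
      · linarith
      · rw [h2]; linarith
      · positivity
      · linarith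
    refine le_trans ?_ h1
    calc 8 * ((A : ℝ) * g * f) ≤ 8 * ((A : ℝ) * (θ * l) * (ψ * l)) := by gcongr
      _ = (256 * (T : ℝ) * A * ψ) * (θ * l ^ 2 / (32 * T)) := by field_simp; ring
      _ ≤ φ * (θ * l ^ 2 / (32 * T)) := by gcongr
      _ = (φ * l / 4) * (θ * l / (8 * T)) := by field_simp; ring

/-- (g) -/
lemma k_g (ε κ η γ l u θ φ : ℝ) (g F K1 : ℕ) (hκ : 0 < κ) (hγ : 0 < γ) (hη1 : η ≤ 1) (l0 : 0 < l)
    (hε : 0 < ε) (hθ1 : θ ≤ 1) (hγ2 : γ * (2 + 1 / ε) ≤ ε / 16) (hu0 : 0 ≤ u) (hu2 : u ≤ ε / 48)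
    (hK1 : 1 ≤ K1) (hφ1 : φ * Real.log K1 ≤ ε / 16) (g1 : (g : ℝ) ≤ θ * l) (F1 : (F : ℝ) ≤ φ * l)
    (eκ : κ ^ γ ≤ Real.exp (ε / 16 * l)) :
    (1 + 3 * u) ^ g * (κ * Real.exp ((1 + η) * l) * Real.exp (1 / ε * l)) ^ γ * (K1 : ℝ) ^ F ≤
        Real.exp (ε / 4 * l) := by
  have h2 : (1 + 3 * u) ^ g ≤ Real.exp (ε / 16 * l) := by
    refine k_base (3 * u) _ _ g (by positivity) ?_
    have h1 : (g : ℝ) ≤ 1 * l := g1.trans (by gcongr)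
    calc (g : ℝ) * (3 * u) ≤ (1 * l) * (3 * (ε / 48)) := by gcongr
      _ = ε / 16 * l := by ring
  have h3 : (κ * Real.exp ((1 + η) * l) * Real.exp (1 / ε * l)) ^ γ ≤
      Real.exp (ε / 16 * l) * Real.exp (ε / 16 * l) := by
    refine (k_pow ε κ η γ l hκ hγ hη1 l0 _ hγ2).trans ?_
    gcongr
  have hK0 : (0 : ℝ) < K1 := by exact_mod_cast hK1
  have h5 : (K1 : ℝ) ^ F ≤ Real.exp (ε / 16 * l) := by
    have h6 : (K1 : ℝ) ^ F = Real.exp ((F : ℝ) * Real.log K1) := by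
      rw [Real.exp_nat_mul, Real.exp_log hK0]
    rw [h6, Real.exp_le_exp]
    have h7 : 0 ≤ Real.log K1 := Real.log_natCast_nonneg K1
    calc (F : ℝ) * Real.log K1 ≤ φ * l * Real.log K1 := by gcongr
      _ = φ * Real.log K1 * l := by ring
      _ ≤ ε / 16 * l := by gcongr
  calc (1 + 3 * u) ^ g * (κ * Real.exp ((1 + η) * l) * Real.exp (1 / ε * l)) ^ γ * (K1 : ℝ) ^ F ≤
      Real.exp (ε / 16 * l) * (Real.exp (ε / 16 * l) * Real.exp (ε / 16 * l)) * Real.exp (ε / 16 * l) := by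
        gcongr
    _ = Real.exp (ε / 4 * l) := by
        rw [← Real.exp_add, ← Real.exp_add, ← Real.exp_add]
        congr 1
        ring

/-- the inequalities for a given real `l = log N` -/
lemma k_core (ε h κ : ℝ) (L : ℕ) (hε : 0 < ε) (hh : 1 ≤ h) (hκ : 1 ≤ κ) (hL : 1 ≤ L)
    (ρ δ θ γ u φ ψ η : ℝ) (T A K1 : ℕ) (hρ : ρ = Real.exp (-(ε / (36 * h))))
    (hδ0 : 0 < δ) (hδ1 : δ ≤ 1) (hρ1 : ρ < 1)
    (hδ2 : δ / (1 - ρ) ≤ ε / (48 * L)) (hθ : 0 < θ) (hθ1 : θ ≤ 1) (hθa : θ * (-Real.log δ) ≤ ε / 24)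
    (hT : 1 ≤ T) (hTθ : 8 * (L : ℝ) ≤ T * θ) (hγ : 0 < γ) (hγ1 : γ * (2 + 1 / ε) ≤ θ / (48 * T))
    (hγ2 : γ * (2 + 1 / ε) ≤ ε / 16) (hu0 : 0 ≤ u) (hu1 : u ≤ 1 / (96 * T)) (hu2 : u ≤ ε / 48)
    (hK1 : 1 ≤ K1) (hφ : 0 < φ) (hφ1 : φ * Real.log K1 ≤ ε / 16)
    (hψ : 0 < ψ) (hψ1 : 256 * (T : ℝ) * A * ψ ≤ φ) (hψ2 : 8 * (T : ℝ) * ψ ≤ θ) (hψ3 : 4 * ψ ≤ φ)
    (hη1 : η ≤ 1) (hη2 : η ≤ θ / (48 * T)) (hη3 : η ≤ ψ / 2) :
    ∀ᶠ l : ℝ in atTop, ∃ g k F f M H : ℕ, 1 ≤ g ∧ L * M ≤ T * g ∧ T * k ≤ g ∧ f ≤ k ∧ f ≤ F + 1 ∧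
      κ * Real.exp ((1 + η) * l) ≤ 2 ^ M ∧ h * (1 + l) ≤ H ∧
      (1 + δ / (1 - ρ)) ^ (L * M) ≤ Real.exp (ε / 4 * l) * (δ ^ (2 * g) * ρ ^ H) ∧
      8 * (T : ℝ) ^ 2 * (κ * Real.exp (η * l)) * ((1 + 2 * u) ^ g *
        (κ * Real.exp ((1 + η) * l) * Real.exp (1 / ε * l)) ^ γ) ≤ 2 ^ k ∧
      (∀ m : ℕ, m ≤ g → 8 * (T : ℝ) ^ 2 * (κ * Real.exp (η * l)) *
        (((A ^ f * m.choose f : ℕ) : ℝ)) ≤
          (((F + 1).choose f * k.choose f : ℕ) : ℝ)) ∧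
      (1 + 3 * u) ^ g * (κ * Real.exp ((1 + η) * l) * Real.exp (1 / ε * l)) ^ γ * (K1 : ℝ) ^ F ≤
        Real.exp (ε / 4 * l) := by
  have hT0 : (0 : ℝ) < T := by exact_mod_cast hT
  have hL0 : (0 : ℝ) < L := by exact_mod_cast hL
  have hκ0 : 0 < κ := by linarith
  have hlog2 : 0.6931 < Real.log 2 := by linarith [Real.log_two_gt_d9]
  filter_upwards [eventually_ge_atTop (2 : ℝ), ev_lin (θ / 2) 1 (by positivity),
    ev_lin (φ / 2) 1 (by positivity), ev_lin (ψ / 2) 1 (by positivity),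
    ev_lin (θ / (4 * T)) 4 (by positivity), ev_lin (1 / 2) (Real.log κ + 1) (by positivity),
    ev_exp (θ / (16 * T)) (8 * (T : ℝ) ^ 2 * κ * κ ^ γ) (by positivity),
    ev_exp (ε / 16) (κ ^ γ) (by positivity),
    ev_exp (ψ / 2) (8 * (T : ℝ) ^ 2 * κ) (by positivity)] with l l2 lθ lφ lψ lk lκ eκ1 eκ2 eκ3
  have l0 : 0 < l := by linarith
  -- the numbers
  obtain ⟨g, hg⟩ : ∃ g : ℕ, g = ⌊θ * l⌋₊ := ⟨_, rfl⟩
  obtain ⟨F, hF⟩ : ∃ F : ℕ, F = ⌊φ * l⌋₊ := ⟨_, rfl⟩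
  obtain ⟨f, hf⟩ : ∃ f : ℕ, f = ⌊ψ * l⌋₊ := ⟨_, rfl⟩
  obtain ⟨M, hM⟩ : ∃ M : ℕ, M = ⌊4 * l⌋₊ := ⟨_, rfl⟩
  obtain ⟨H, hH⟩ : ∃ H : ℕ, H = ⌈h * (1 + l)⌉₊ := ⟨_, rfl⟩
  obtain ⟨k, hk⟩ : ∃ k : ℕ, k = g / T := ⟨_, rfl⟩
  have g1 : (g : ℝ) ≤ θ * l := by rw [hg]; exact Nat.floor_le (by positivity)
  have g2 : θ * l / 2 ≤ g := by
    have := Nat.lt_floor_add_one (θ * l)
    rw [← hg] at this
    linarith
  have F1 : (F : ℝ) ≤ φ * l := by rw [hF]; exact Nat.floor_le (by positivity)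
  have F2 : φ * l / 2 ≤ F := by
    have := Nat.lt_floor_add_one (φ * l)
    rw [← hF] at this
    linarith
  have f1 : (f : ℝ) ≤ ψ * l := by rw [hf]; exact Nat.floor_le (by positivity)
  have f2 : ψ * l / 2 ≤ f := by
    have := Nat.lt_floor_add_one (ψ * l)
    rw [← hf] at this
    linarith
  have M1 : (M : ℝ) ≤ 4 * l := by rw [hM]; exact Nat.floor_le (by positivity)
  have M2 : 4 * l - 1 ≤ M := by
    have := Nat.lt_floor_add_one (4 * l)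
    rw [← hM] at this
    linarith
  have H1 : h * (1 + l) ≤ H := by rw [hH]; exact Nat.le_ceil _
  have H2 : (H : ℝ) ≤ 2 * h * l := by
    have h1 := (Nat.ceil_lt_add_one (a := h * (1 + l)) (by positivity)).le
    rw [← hH] at h1
    have h2 : h * 2 ≤ h * l := by gcongr
    linarith
  have k1 : T * k ≤ g := by rw [hk]; exact Nat.mul_div_le g T
  have k2 : θ * l / (4 * T) ≤ k := by
    have h1 : g < T * (k + 1) := by
      rw [hk]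
      exact Nat.lt_mul_div_succ g hT
    have h2 : (g : ℝ) < T * (k + 1) := by exact_mod_cast h1
    have h4 : T * (θ / (4 * T) * l) = θ * l / 4 := by field_simp
    have h6 : 4 * (T : ℝ) ≤ θ * l / 4 := by
      have := mul_le_mul_of_nonneg_left lk hT0.le
      rw [h4] at this
      linarith
    rw [div_le_iff₀ (by positivity)]
    linarith
  have hfk : f ≤ k := by
    have h1 : (f : ℝ) ≤ k := by
      refine f1.trans (le_trans ?_ k2)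
      rw [le_div_iff₀ (by positivity)]
      have := mul_le_mul_of_nonneg_right hψ2 l0.le
      have h0 : 0 < θ * l := by positivity
      linarith
    exact_mod_cast h1
  have hfF : f ≤ F + 1 := by
    have h1 : (f : ℝ) ≤ F + 1 := by
      have := mul_le_mul_of_nonneg_right hψ3 l0.le
      have h0 : 0 < φ * l := by positivity
      linarith
    exact_mod_cast h1
  refine ⟨g, k, F, f, M, H, ?_, ?_, k1, hfk, hfF, ?_, H1,
    k_d ε h l δ ρ θ L M g H hε hh hL0 l0 hρ hρ1 hδ0 hδ1 hδ2 hθa g1 M1 H2,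
    k_e ε κ η γ l u θ T g k hκ0 hγ hη1 l0 hT0 hθ hη2 hγ1 hu0 hu1 g1 k2 eκ1,
    fun m hm => k_f κ η l θ φ ψ g k F f T A hκ0 l0 hT0 hθ hφ hψ hψ1 hψ2 hψ3 hη3 g1 k2 F2 f1 f2 eκ3 m hm,
    k_g ε κ η γ l u θ φ g F K1 hκ0 hγ hη1 l0 hε hθ1 hγ2 hu0 hu2 hK1 hφ1 g1 F1 eκ2⟩
  · -- `1 ≤ g`
    have : (1 : ℝ) ≤ g := by linarith
    exact_mod_cast this
  · -- `L * M ≤ T * g`
    have h1 : (L : ℝ) * M ≤ T * g := by
      calc (L : ℝ) * M ≤ L * (4 * l) := by gcongr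
        _ = 8 * L * l / 2 := by ring
        _ ≤ T * θ * l / 2 := by gcongr
        _ = T * (θ * l / 2) := by ring
        _ ≤ T * g := by gcongr
    exact_mod_cast h1
  · -- (b)
    have h2 : κ = Real.exp (Real.log κ) := (Real.exp_log hκ0).symm
    rw [two_pow_exp]
    calc κ * Real.exp ((1 + η) * l) = Real.exp (Real.log κ + (1 + η) * l) := by
          rw [Real.exp_add, ← h2]
      _ ≤ _ := by
          rw [Real.exp_le_exp]
          have h3 : (4 * l - 1) * 0.6931 ≤ M * Real.log 2 :=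
            mul_le_mul M2 hlog2.le (by norm_num) (Nat.cast_nonneg M)
          have h4 : (1 + η) * l ≤ 2 * l := by
            gcongr
            linarith
          linarith

/-- **Package K** -/
theorem p_K : S_K := by
  intro ε h κ L hε hε1 hh hκ hL
  have hL0 : (0 : ℝ) < L := by exact_mod_cast hL
  have hL1 : (1 : ℝ) ≤ L := by exact_mod_cast hL
  obtain ⟨ρ, hρ⟩ : ∃ ρ : ℝ, ρ = Real.exp (-(ε / (36 * h))) := ⟨_, rfl⟩
  have hρ0 : 0 < ρ := by rw [hρ]; exact Real.exp_pos _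
  have hρ1 : ρ < 1 := by
    rw [hρ, Real.exp_lt_one_iff]
    have : 0 < ε / (36 * h) := by positivity
    linarith
  have h1ρ : 0 < 1 - ρ := by linarith
  obtain ⟨δ, hδ⟩ : ∃ δ : ℝ, δ = (1 - ρ) * (ε / (48 * L)) := ⟨_, rfl⟩
  have hδ0 : 0 < δ := by rw [hδ]; positivity
  have hδ2 : δ / (1 - ρ) ≤ ε / (48 * L) := by rw [hδ, mul_div_cancel_left₀ _ h1ρ.ne']
  have hδ3 : δ ≤ 1 / 2 := by
    rw [hδ]
    have h1 : ε / (48 * L) ≤ 1 / 2 := by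
      rw [div_le_iff₀ (by positivity)]
      linarith
    have h2 : 0 ≤ ε / (48 * L) := by positivity
    nlinarith
  have hlogδ : 0 < -Real.log δ := by
    have := Real.log_neg hδ0 (by linarith)
    linarith
  obtain ⟨θ, hθ⟩ : ∃ θ : ℝ, θ = min 1 (ε / (24 * (-Real.log δ))) := ⟨_, rfl⟩
  have hθ0 : 0 < θ := by rw [hθ]; positivity
  have hθ1 : θ ≤ 1 := by rw [hθ]; exact min_le_left _ _
  have hθa : θ * (-Real.log δ) ≤ ε / 24 := by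
    have h1 : θ ≤ ε / (24 * (-Real.log δ)) := by rw [hθ]; exact min_le_right _ _
    calc θ * (-Real.log δ) ≤ ε / (24 * (-Real.log δ)) * (-Real.log δ) := by gcongr
      _ = ε / 24 := by rw [← div_div, div_mul_cancel₀ _ hlogδ.ne']
  obtain ⟨T, hT⟩ : ∃ T : ℕ, T = ⌈8 * (L : ℝ) / θ⌉₊ + 1 := ⟨_, rfl⟩
  have hT1 : 1 ≤ T := by omega
  have hT0 : (0 : ℝ) < T := by exact_mod_cast hT1
  have hTθ : 8 * (L : ℝ) ≤ T * θ := by
    have h1 : 8 * (L : ℝ) / θ ≤ T := by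
      rw [hT]
      push_cast
      linarith [Nat.le_ceil (8 * (L : ℝ) / θ)]
    rwa [div_le_iff₀ hθ0] at h1
  have hs : 0 < 2 + 1 / ε := by positivity
  obtain ⟨γ, hγ⟩ : ∃ γ : ℝ, γ = min (θ / (48 * T)) (ε / 16) / (2 + 1 / ε) := ⟨_, rfl⟩
  have hγ0 : 0 < γ := by rw [hγ]; positivity
  have hγe : γ * (2 + 1 / ε) = min (θ / (48 * T)) (ε / 16) := by rw [hγ, div_mul_cancel₀ _ hs.ne']
  have hγ1 : γ * (2 + 1 / ε) ≤ θ / (48 * T) := by rw [hγe]; exact min_le_left _ _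
  have hγ2 : γ * (2 + 1 / ε) ≤ ε / 16 := by rw [hγe]; exact min_le_right _ _
  obtain ⟨K0, -, hK0, hK0c⟩ := ex_nat γ (min (1 / (96 * T)) (ε / 48)) hγ0 (by positivity) 1
  have hK00 : (0 : ℝ) < K0 := by exact_mod_cast hK0
  obtain ⟨u, hu⟩ : ∃ u : ℝ, u = (K0 : ℝ) ^ (-γ) := ⟨_, rfl⟩
  have hu0 : 0 < u := by rw [hu]; positivity
  have hu1 : u ≤ 1 / (96 * T) := by rw [hu]; exact hK0c.trans (min_le_left _ _)
  have hu2 : u ≤ ε / 48 := by rw [hu]; exact hK0c.trans (min_le_right _ _)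
  obtain ⟨K1, hK01, hK1, hK1c⟩ := ex_nat γ (u / K0) hγ0 (by positivity) K0
  have hK10 : (0 : ℝ) < K1 := by exact_mod_cast hK1
  obtain ⟨K2, -, hK2, hK2c⟩ := ex_nat γ (u / K1) hγ0 (by positivity) 1
  have hlogK : 0 ≤ Real.log K1 := Real.log_natCast_nonneg K1
  obtain ⟨φ, hφ⟩ : ∃ φ : ℝ, φ = ε / (16 * (1 + Real.log K1)) := ⟨_, rfl⟩
  have hφ0 : 0 < φ := by rw [hφ]; positivity
  have hφ1 : φ * Real.log K1 ≤ ε / 16 := by
    rw [hφ, div_mul_eq_mul_div, div_le_div_iff₀ (by positivity) (by norm_num)]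
    nlinarith
  obtain ⟨A, hA⟩ : ∃ A : ℕ, A = (K1 * K2) ^ 2 := ⟨_, rfl⟩
  obtain ⟨ψ, hψ⟩ : ∃ ψ : ℝ, ψ = min (φ / (256 * T * (A + 1))) (θ / (8 * T)) := ⟨_, rfl⟩
  have hψ0 : 0 < ψ := by rw [hψ]; positivity
  have hψa : ψ * (256 * T * (A + 1)) ≤ φ := by
    have h1 : ψ ≤ φ / (256 * T * (A + 1)) := by rw [hψ]; exact min_le_left _ _
    rwa [le_div_iff₀ (by positivity)] at h1
  have hA0 : (0 : ℝ) ≤ A := Nat.cast_nonneg A
  have hT1' : (1 : ℝ) ≤ T := by exact_mod_cast hT1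
  have hψT : ψ ≤ ψ * T := le_mul_of_one_le_right hψ0.le hT1'
  have hψTA : 0 ≤ ψ * T * A := by positivity
  have hψ1 : 256 * (T : ℝ) * A * ψ ≤ φ := by nlinarith
  have hψ3 : 4 * ψ ≤ φ := by nlinarith
  have hψ2 : 8 * (T : ℝ) * ψ ≤ θ := by
    have h1 : ψ ≤ θ / (8 * T) := by rw [hψ]; exact min_le_right _ _
    rw [le_div_iff₀ (by positivity)] at h1
    linarith
  obtain ⟨η, hη⟩ : ∃ η : ℝ, η = min 1 (min (θ / (48 * T)) (ψ / 2)) := ⟨_, rfl⟩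
  have hη0 : 0 < η := by rw [hη]; positivity
  have hη1 : η ≤ 1 := by rw [hη]; exact min_le_left _ _
  have hη2 : η ≤ θ / (48 * T) := by rw [hη]; exact (min_le_right _ _).trans (min_le_left _ _)
  have hη3 : η ≤ ψ / 2 := by rw [hη]; exact (min_le_right _ _).trans (min_le_right _ _)
  have key := k_core ε h κ L hε hh hκ hL ρ δ θ γ u φ ψ η T A K1 hρ hδ0 (by linarith) hρ1 hδ2 hθ0 hθ1
    hθa hT1 hTθ hγ0 hγ1 hγ2 hu0.le hu1 hu2 hK1 hφ0 hφ1 hψ0 hψ1 hψ2 hψ3 hη1 hη2 hη3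
  have key2 := (Real.tendsto_log_atTop.comp tendsto_natCast_atTop_atTop).eventually key
  obtain ⟨N1, hN1⟩ := eventually_atTop.1 key2
  refine ⟨⟨K0, K1, K2⟩, γ, 1 + 3 * u, η, δ, ρ, T, max N1 2, hK0, hK01, hK2, hγ0, hη0, hη1, hδ0,
    by linarith, hρ0, hρ1, hT1, le_max_right _ _, ?_, ?_⟩
  · change 1 + (K0 : ℝ) * (K1 : ℝ) ^ (-γ) + (K1 : ℝ) * (K2 : ℝ) ^ (-γ) + (K0 : ℝ) ^ (-γ) ≤ 1 + 3 * u
    have h1 : (K0 : ℝ) * (K1 : ℝ) ^ (-γ) ≤ u := by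
      calc (K0 : ℝ) * (K1 : ℝ) ^ (-γ) ≤ K0 * (u / K0) := by gcongr
        _ = u := by field_simp
    have h2 : (K1 : ℝ) * (K2 : ℝ) ^ (-γ) ≤ u := by
      calc (K1 : ℝ) * (K2 : ℝ) ^ (-γ) ≤ K1 * (u / K1) := by gcongr
        _ = u := by field_simp
    rw [← hu]
    linarith
  · intro N hN
    have hN2 : 2 ≤ N := (le_max_right _ _).trans hN
    have hN0 : (0 : ℝ) < N := by exact_mod_cast (by omega : 0 < N)
    obtain ⟨g, k, F, f, M, H, c1, c2, c3, c4, c5, c6, c7, c8, c9, c10, c11⟩ := hN1 N ((le_max_left _ _).trans hN)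
    simp only [Function.comp_apply] at c6 c7 c8 c9 c10 c11
    have hpow : ∀ x : ℝ, Real.exp (x * Real.log N) = (N : ℝ) ^ x := fun x => by
      rw [Real.rpow_def_of_pos hN0, mul_comm]
    simp only [hpow] at c6 c7 c8 c9 c10 c11
    refine ⟨g, k, F, f, M, H, c1, c2, c3, c4, c5, c6, c7, c8, ?_, ?_, c11⟩
    · change 8 * (T : ℝ) ^ 2 * (κ * (N : ℝ) ^ η) * ((1 + 2 * (K0 : ℝ) ^ (-γ)) ^ g *
        (κ * (N : ℝ) ^ (1 + η) * (N : ℝ) ^ (1 / ε)) ^ γ) ≤ 2 ^ k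
      rw [← hu]
      exact c9
    · intro m hm
      have h1 := c10 m hm
      rw [hA] at h1
      exact h1

end Pool.Agent.Helper5.RD
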