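import Pool.Agent.Helper5.RD.Stm

/-! # Project RD: package D1 -/

namespace Pool.Agent.Helper5.RD

open Finset Classical

namespace D1

lemma mem_cls {Q : ℕ} {X : Finset ℤ} {t y : ℤ} : y ∈ cls Q X t ↔ y ∈ X ∧ (Q : ℤ) ∣ y - t := by
  unfold cls
  exact Finset.mem_filter

lemma self_mem {Q : ℕ} {X : Finset ℤ} {t : ℤ} (h : t ∈ X) : t ∈ cls Q X t :=
  mem_cls.2 ⟨h, by rw [sub_self]; exact dvd_zero _⟩

lemma cls_sub {Q : ℕ} {X : Finset ℤ} {t : ℤ} : cls Q X t ⊆ X := fun _ hy => (mem_cls.1 hy).1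

lemma cls_congr {Q : ℕ} (X : Finset ℤ) {t t' : ℤ} (h : (Q : ℤ) ∣ t - t') :
    cls Q X t = cls Q X t' := by
  ext y
  rw [mem_cls, mem_cls]
  refine and_congr_right fun _ => ⟨fun h1 => ?_, fun h1 => ?_⟩
  · have := dvd_add h1 h
    rwa [sub_add_sub_cancel] at this
  · have := dvd_sub h1 h
    rwa [sub_sub_sub_cancel_right] at this

lemma light_congr {p K J : ℕ} {X : Finset ℤ} {x x' : ℤ} (h : ((p ^ J : ℕ) : ℤ) ∣ x - x')
    (hl : light p K X x J) : light p K X x' J := by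
  unfold light at hl ⊢
  rwa [cls_congr X h] at hl

lemma fst_spec {p K : ℕ} {X : Finset ℤ} {x : ℤ} (h : ∃ J, light p K X x J) :
    light p K X x (fst p K X x) := Nat.sInf_mem (s := {J | light p K X x J}) h

lemma fst_le {p K J : ℕ} {X : Finset ℤ} {x : ℤ} (h : light p K X x J) :
    fst p K X x ≤ J := Nat.sInf_le (s := {J | light p K X x J}) h

/-- Congruent points have the same first light level. -/
lemma key {p K : ℕ} {X : Finset ℤ} {x x' : ℤ} (h : ∃ J, light p K X x J)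
    (hd : ((p ^ fst p K X x : ℕ) : ℤ) ∣ x - x') (hle : fst p K X x ≤ fst p K X x') :
    fst p K X x' = fst p K X x :=
  le_antisymm (fst_le (light_congr hd (fst_spec h))) hle

lemma dvd_of_mem {Q Q' : ℕ} {X : Finset ℤ} {x x' : ℤ} (hx' : x' ∈ X)
    (h : cls Q X x = cls Q' X x') : (Q : ℤ) ∣ x - x' := by
  have h1 : x' ∈ cls Q X x := by
    rw [h]
    exact self_mem hx'
  have h2 := (mem_cls.1 h1).2
  rwa [← neg_sub, dvd_neg]

/-- Equal classes have equal levels. -/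
lemma lev_eq {p K : ℕ} {X : Finset ℤ} {x x' : ℤ} (hx : x ∈ X) (hx' : x' ∈ X)
    (hl : ∃ J, light p K X x J) (hl' : ∃ J, light p K X x' J)
    (h : cls (p ^ fst p K X x) X x = cls (p ^ fst p K X x') X x') :
    fst p K X x = fst p K X x' := by
  rcases le_total (fst p K X x) (fst p K X x') with h1 | h1
  · exact (key hl (dvd_of_mem hx' h) h1).symm
  · exact key hl' (dvd_of_mem hx h.symm) h1

/-- Intersecting first light classes are equal. -/
lemma cls_eq_of {p K : ℕ} {X : Finset ℤ} {x x' y : ℤ}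
    (hl : ∃ J, light p K X x J) (hl' : ∃ J, light p K X x' J)
    (h : y ∈ cls (p ^ fst p K X x) X x) (h' : y ∈ cls (p ^ fst p K X x') X x') :
    cls (p ^ fst p K X x) X x = cls (p ^ fst p K X x') X x' := by
  have d1 := (mem_cls.1 h).2
  have d2 := (mem_cls.1 h').2
  rcases le_total (fst p K X x) (fst p K X x') with h1 | h1
  · have d3 : ((p ^ fst p K X x : ℕ) : ℤ) ∣ y - x' :=
      (Int.natCast_dvd_natCast.2 (pow_dvd_pow p h1)).trans d2
    have d4 : ((p ^ fst p K X x : ℕ) : ℤ) ∣ x - x' := by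
      have := dvd_sub d3 d1
      rwa [sub_sub_sub_cancel_left] at this
    rw [key hl d4 h1]
    exact cls_congr X d4
  · have d3 : ((p ^ fst p K X x' : ℕ) : ℤ) ∣ y - x :=
      (Int.natCast_dvd_natCast.2 (pow_dvd_pow p h1)).trans d1
    have d4 : ((p ^ fst p K X x' : ℕ) : ℤ) ∣ x' - x := by
      have := dvd_sub d3 d2
      rwa [sub_sub_sub_cancel_left] at this
    rw [key hl' d4 h1]
    exact (cls_congr X d4).symm

/-- Few disjoint large subsets. -/
lemma disj_card {S : Finset (Finset ℤ)} {X : Finset ℤ} {K : ℕ} (hs : ∀ s ∈ S, s ⊆ X)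
    (hn : ∀ s ∈ S, s.Nonempty) (hc : ∀ s ∈ S, X.card ≤ s.card * K)
    (hd : ∀ s ∈ S, ∀ t ∈ S, ∀ y, y ∈ s → y ∈ t → s = t) : S.card ≤ K := by
  rcases S.eq_empty_or_nonempty with rfl | ⟨s0, hs0⟩
  · exact Nat.zero_le _
  · have hX : 0 < X.card := Finset.card_pos.2 ((hn s0 hs0).mono (hs s0 hs0))
    have h1 : ∑ s ∈ S, s.card ≤ X.card := by
      rw [← Finset.card_biUnion]
      · exact Finset.card_le_card (Finset.biUnion_subset.2 hs)
      · intro s hs' t ht' hne
        rw [Function.onFun, Finset.disjoint_left]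
        intro y hy hy'
        exact hne (hd s hs' t ht' y hy hy')
    have h2 : S.card * X.card ≤ (∑ s ∈ S, s.card) * K := by
      rw [Finset.sum_mul, ← smul_eq_mul]
      exact Finset.card_nsmul_le_sum _ _ _ hc
    have h3 : S.card * X.card ≤ K * X.card :=
      h2.trans ((Nat.mul_le_mul_right K h1).trans (le_of_eq (mul_comm _ _)))
    exact Nat.le_of_mul_le_mul_right h3 hX

/-- The cells of the heavy points of type 0. -/
noncomputable def cells (P : Par) (p e : ℕ) (X B : Finset ℤ) : Finset (Finset ℤ × Finset ℤ) :=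
  ((X ×ˢ B).filter (fun q => H0 P p e X B q.1 q.2)).image (fun q => nxt0 P p e X B q.1 q.2)

lemma mem_cells {P : Par} {p e : ℕ} {X B : Finset ℤ} {c : Finset ℤ × Finset ℤ} :
    c ∈ cells P p e X B ↔ ∃ x ∈ X, ∃ b ∈ B, H0 P p e X B x b ∧ nxt0 P p e X B x b = c := by
  unfold cells
  constructor
  · intro h
    obtain ⟨q, hq, rfl⟩ := Finset.mem_image.1 h
    obtain ⟨h1, h2⟩ := Finset.mem_filter.1 hq
    obtain ⟨h3, h4⟩ := Finset.mem_product.1 h1
    exact ⟨q.1, h3, q.2, h4, h2, rfl⟩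
  · rintro ⟨x, hx, b, hb, h, rfl⟩
    exact Finset.mem_image.2 ⟨(x, b), Finset.mem_filter.2 ⟨Finset.mem_product.2 ⟨hx, hb⟩, h⟩, rfl⟩

lemma card_cells (P : Par) (p e : ℕ) (X B : Finset ℤ) :
    (cells P p e X B).card ≤ P.K1 * P.K2 := by
  have h1 : ((cells P p e X B).image Prod.fst).card ≤ P.K2 := by
    have hm : ∀ s ∈ (cells P p e X B).image Prod.fst, ∃ x ∈ X, (∃ J, light p P.K0 X x J) ∧
        ¬ light p P.K2 X x (fst p P.K0 X x) ∧ s = cls (p ^ fst p P.K0 X x) X x := by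
      intro s hs
      obtain ⟨c, hc, rfl⟩ := Finset.mem_image.1 hs
      obtain ⟨x, hx, b, hb, h, rfl⟩ := mem_cells.1 hc
      exact ⟨x, hx, h.1.1, h.2, rfl⟩
    apply disj_card (X := X)
    · intro s hs
      obtain ⟨x, hx, -, -, rfl⟩ := hm s hs
      exact cls_sub
    · intro s hs
      obtain ⟨x, hx, -, -, rfl⟩ := hm s hs
      exact ⟨x, self_mem hx⟩
    · intro s hs
      obtain ⟨x, hx, -, h, rfl⟩ := hm s hs
      exact not_lt.1 h
    · intro s hs t ht y hy hy'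
      obtain ⟨x, hx, hl, -, rfl⟩ := hm s hs
      obtain ⟨x', hx', hl', -, rfl⟩ := hm t ht
      exact cls_eq_of hl hl' hy hy'
  have h2 : ∀ c0 ∈ (cells P p e X B).image Prod.fst,
      ((cells P p e X B).filter fun c => c.1 = c0).card ≤ P.K1 := by
    intro c0 _
    have h3 : ((cells P p e X B).filter fun c => c.1 = c0).card =
        (((cells P p e X B).filter fun c => c.1 = c0).image Prod.snd).card := by
      rw [Finset.card_image_of_injOn]
      intro c hc c' hc' h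
      have e1 := (Finset.mem_filter.1 (Finset.mem_coe.1 hc)).2
      have e2 := (Finset.mem_filter.1 (Finset.mem_coe.1 hc')).2
      exact Prod.ext (e1.trans e2.symm) h
    rw [h3]
    have hm : ∀ s ∈ ((cells P p e X B).filter fun c => c.1 = c0).image Prod.snd,
        ∃ x ∈ X, ∃ b ∈ B, H0 P p e X B x b ∧ cls (p ^ fst p P.K0 X x) X x = c0 ∧
          s = cls (p ^ (fst p P.K0 X x + e)) B b := by
      intro s hs
      obtain ⟨c, hc, rfl⟩ := Finset.mem_image.1 hs
      obtain ⟨hc1, hc2⟩ := Finset.mem_filter.1 hc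
      obtain ⟨x, hx, b, hb, h, rfl⟩ := mem_cells.1 hc1
      exact ⟨x, hx, b, hb, h, hc2, rfl⟩
    apply disj_card (X := B)
    · intro s hs
      obtain ⟨x, hx, b, hb, -, -, rfl⟩ := hm s hs
      exact cls_sub
    · intro s hs
      obtain ⟨x, hx, b, hb, -, -, rfl⟩ := hm s hs
      exact ⟨b, self_mem hb⟩
    · intro s hs
      obtain ⟨x, hx, b, hb, h, -, rfl⟩ := hm s hs
      exact not_lt.1 h.1.2
    · intro s hs t ht y hy hy'
      obtain ⟨x, hx, b, hb, h, hc, rfl⟩ := hm s hs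
      obtain ⟨x', hx', b', hb', h', hc', rfl⟩ := hm t ht
      have hlev := lev_eq hx hx' h.1.1 h'.1.1 (hc.trans hc'.symm)
      rw [← hlev] at hy' ⊢
      apply cls_congr
      have d1 := (mem_cls.1 hy).2
      have d2 := (mem_cls.1 hy').2
      have := dvd_sub d2 d1
      rwa [sub_sub_sub_cancel_left] at this
  exact (Finset.card_le_mul_card_image _ _ h2).trans (Nat.mul_le_mul_left _ h1)

end D1

open D1 in
/-- The non generic dilations of a cell. -/
theorem p_D1 : S_D1 := by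
  intro P p e X B _ _ hp
  have hpp : Prime (p : ℤ) := Nat.prime_iff_prime_int.1 hp
  set Z : Finset ℕ := (Finset.range p).filter (fun z => ∃ u : ℕ, ¬ p ∣ u ∧
    ¬ Gen P p e (p ^ e * u) X B ∧ u % p = z) with hZ
  refine ⟨Z, ?_, fun u hu hg => Finset.mem_filter.2
    ⟨Finset.mem_range.2 (Nat.mod_lt _ hp.pos), u, hu, hg, rfl⟩⟩
  have hw : ∀ z ∈ Z, ∃ (u : ℕ) (x b x' b' : ℤ), ¬ p ∣ u ∧ u % p = z ∧ x ∈ X ∧ b ∈ B ∧ x' ∈ X ∧
      b' ∈ B ∧ H0 P p e X B x b ∧ H0 P p e X B x' b' ∧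
      ((p ^ e * u : ℕ) : ℤ) * x + b = ((p ^ e * u : ℕ) : ℤ) * x' + b' ∧
      nxt0 P p e X B x b ≠ nxt0 P p e X B x' b' := by
    intro z hz
    obtain ⟨-, u, hu, hg, rfl⟩ := Finset.mem_filter.1 hz
    unfold Gen at hg
    push Not at hg
    obtain ⟨x, hx, b, hb, x', hx', b', hb', h1, h2, h3, h4⟩ := hg
    exact ⟨u, x, b, x', b', hu, rfl, hx, hb, hx', hb', h1, h2, h3, h4⟩
  choose! u x b x' b' hu huz hx hb hx' hb' hH hH' heq hne using hw
  set φ : ℕ → (Finset ℤ × Finset ℤ) × (Finset ℤ × Finset ℤ) := fun z =>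
    (nxt0 P p e X B (x z) (b z), nxt0 P p e X B (x' z) (b' z)) with hφ
  have hmaps : ∀ z ∈ Z, φ z ∈ cells P p e X B ×ˢ cells P p e X B := fun z hz =>
    Finset.mem_product.2 ⟨mem_cells.2 ⟨_, hx z hz, _, hb z hz, hH z hz, rfl⟩,
      mem_cells.2 ⟨_, hx' z hz, _, hb' z hz, hH' z hz, rfl⟩⟩
  have hinj : Set.InjOn φ (Z : Set ℕ) := by
    intro z1 hz1 z2 hz2 h12
    have hz1' := Finset.mem_coe.1 hz1
    have hz2' := Finset.mem_coe.1 hz2
    by_contra hzne
    have c1 : nxt0 P p e X B (x z1) (b z1) = nxt0 P p e X B (x z2) (b z2) :=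
      congrArg Prod.fst h12
    have c2 : nxt0 P p e X B (x' z1) (b' z1) = nxt0 P p e X B (x' z2) (b' z2) :=
      congrArg Prod.snd h12
    have c1X : cls (p ^ fst p P.K0 X (x z1)) X (x z1) =
      cls (p ^ fst p P.K0 X (x z2)) X (x z2) := congrArg Prod.fst c1
    have c1B : cls (p ^ (fst p P.K0 X (x z1) + e)) B (b z1) =
      cls (p ^ (fst p P.K0 X (x z2) + e)) B (b z2) := congrArg Prod.snd c1
    have c2X : cls (p ^ fst p P.K0 X (x' z1)) X (x' z1) =
      cls (p ^ fst p P.K0 X (x' z2)) X (x' z2) := congrArg Prod.fst c2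
    have c2B : cls (p ^ (fst p P.K0 X (x' z1) + e)) B (b' z1) =
      cls (p ^ (fst p P.K0 X (x' z2) + e)) B (b' z2) := congrArg Prod.snd c2
    have d1 := dvd_of_mem (hx z2 hz2') c1X
    have d2 := dvd_of_mem (hb z2 hz2') c1B
    have d3 := dvd_of_mem (hx' z2 hz2') c2X
    have d4 := dvd_of_mem (hb' z2 hz2') c2B
    set j := fst p P.K0 X (x z1) with hj
    set j' := fst p P.K0 X (x' z1) with hj'
    -- the common level
    obtain ⟨J, hJ1, hJ2, hJ3⟩ : ∃ J, J ≤ j ∧ J ≤ j' ∧ (J = j ∨ J = j') := by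
      rcases le_total j j' with h | h
      · exact ⟨j, le_rfl, h, Or.inl rfl⟩
      · exact ⟨j', h, le_rfl, Or.inr rfl⟩
    have pd : ∀ {a b : ℕ}, a ≤ b → (((p ^ a : ℕ) : ℤ)) ∣ ((p ^ b : ℕ) : ℤ) := fun h =>
      Int.natCast_dvd_natCast.2 (pow_dvd_pow p h)
    have k1 : ((p ^ J : ℕ) : ℤ) ∣ x z1 - x z2 := (pd hJ1).trans d1
    have k3 : ((p ^ J : ℕ) : ℤ) ∣ x' z1 - x' z2 := (pd hJ2).trans d3
    have k2 : ((p ^ (J + e) : ℕ) : ℤ) ∣ b z1 - b z2 := (pd (by omega)).trans d2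
    have k4 : ((p ^ (J + e) : ℕ) : ℤ) ∣ b' z1 - b' z2 := (pd (by omega)).trans d4
    have e1 := heq z1 hz1'
    have e2 := heq z2 hz2'
    push_cast at e1 e2 k1 k2 k3 k4
    have hp0 : (p : ℤ) ^ e ≠ 0 := pow_ne_zero _ hpp.ne_zero
    -- the product of the differences
    have m1 : (p : ℤ) ^ J ∣ (u z1 : ℤ) * (x z1 - x' z1) - (u z2 : ℤ) * (x z2 - x' z2) := by
      have h1 : (p : ℤ) ^ (J + e) ∣ (p : ℤ) ^ e *
          ((u z1 : ℤ) * (x z1 - x' z1) - (u z2 : ℤ) * (x z2 - x' z2)) := by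
        have h2 := dvd_sub k4 k2
        have h3 : (p : ℤ) ^ e * ((u z1 : ℤ) * (x z1 - x' z1) - (u z2 : ℤ) * (x z2 - x' z2)) =
            (b' z1 - b' z2) - (b z1 - b z2) := by linear_combination e1 - e2
        rw [h3]
        exact h2
      rw [pow_add, mul_comm ((p : ℤ) ^ J)] at h1
      exact (mul_dvd_mul_iff_left hp0).1 h1
    have m2 : (p : ℤ) ^ J ∣ ((u z1 : ℤ) - u z2) * (x z1 - x' z1) := by
      have h1 : (p : ℤ) ^ J ∣ (u z2 : ℤ) * ((x z1 - x z2) - (x' z1 - x' z2)) :=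
        (dvd_sub k1 k3).mul_left _
      have h2 : ((u z1 : ℤ) - u z2) * (x z1 - x' z1) =
          ((u z1 : ℤ) * (x z1 - x' z1) - (u z2 : ℤ) * (x z2 - x' z2)) -
            (u z2 : ℤ) * ((x z1 - x z2) - (x' z1 - x' z2)) := by ring
      rw [h2]
      exact dvd_sub m1 h1
    have hcop : IsCoprime ((p : ℤ) ^ J) ((u z1 : ℤ) - u z2) := by
      apply IsCoprime.pow_left
      rw [Prime.coprime_iff_not_dvd hpp]
      intro hd
      apply hzne
      rw [← huz z1 hz1', ← huz z2 hz2']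
      have := (Int.emod_emod_of_dvd (u z1) (dvd_refl (p : ℤ)))
      have h5 : (u z1 : ℤ) ≡ u z2 [ZMOD p] := (Int.modEq_iff_dvd.2 hd).symm
      exact_mod_cast h5
    have m3 : (p : ℤ) ^ J ∣ x z1 - x' z1 := hcop.dvd_of_dvd_mul_left m2
    have m4 : (p : ℤ) ^ (J + e) ∣ b z1 - b' z1 := by
      have h1 : b z1 - b' z1 = -((p : ℤ) ^ e * (u z1 * (x z1 - x' z1))) := by
        linear_combination e1
      rw [h1, dvd_neg, pow_add, mul_comm ((p : ℤ) ^ J)]
      exact mul_dvd_mul_left _ (m3.mul_left _)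
    have hl1 : ∃ J, light p P.K0 X (x z1) J := (hH z1 hz1').1.1
    have hl2 : ∃ J, light p P.K0 X (x' z1) J := (hH' z1 hz1').1.1
    have hjj : j = J ∧ j' = J := by
      rcases hJ3 with h | h
      · refine ⟨h.symm, ?_⟩
        rw [h, hj, hj']
        apply key hl1
        · rw [← hj, ← h]
          push_cast
          exact m3
        · rw [← hj, ← hj', ← h]
          exact hJ2
      · refine ⟨?_, h.symm⟩
        rw [h, hj, hj']
        apply key hl2
        · rw [← hj', ← h]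
          push_cast
          rw [← neg_sub, dvd_neg]
          exact m3
        · rw [← hj, ← hj', ← h]
          exact hJ1
    apply hne z1 hz1'
    have n1 : nxt0 P p e X B (x z1) (b z1) =
      (cls (p ^ j) X (x z1), cls (p ^ (j + e)) B (b z1)) := rfl
    have n2 : nxt0 P p e X B (x' z1) (b' z1) =
      (cls (p ^ j') X (x' z1), cls (p ^ (j' + e)) B (b' z1)) := rfl
    rw [n1, n2, hjj.1, hjj.2]
    refine Prod.ext ?_ ?_
    · exact cls_congr X (by push_cast; exact m3)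
    · exact cls_congr B (by push_cast; exact m4)
  calc Z.card ≤ (cells P p e X B ×ˢ cells P p e X B).card :=
        Finset.card_le_card_of_injOn φ hmaps hinj
    _ = (cells P p e X B).card ^ 2 := by rw [Finset.card_product, sq]
    _ ≤ (P.K1 * P.K2) ^ 2 := Nat.pow_le_pow_left (card_cells P p e X B) 2

end Pool.Agent.Helper5.RD
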