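import Pool.Agent.Helper5.RD.PD1

/-! # Project RD: package D2 -/

namespace Pool.Agent.Helper5.RD

open Finset Classical

/-- The number of non generic steps of a run. -/
theorem p_D2 (hD1 : S_D1) : S_D2 := by
  intro P hK1 hK2 ps
  induction ps with
  | nil =>
    intro _ _ l C x b
    refine ⟨fun _ => ∅, fun _ => by simp, fun s _ _ => ?_⟩
    simp [bads]
  | cons p ps ih =>
    intro hnd hpr l C x b
    have hp : p.Prime := hpr p (List.mem_cons_self ..)
    obtain ⟨hpn, hnd'⟩ := List.nodup_cons.1 hnd
    cases l with
    | nil =>
      refine ⟨fun _ => ∅, fun _ => by simp, fun s _ h => ?_⟩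
      simp at h
    | cons e l =>
      obtain ⟨Z', hZ1, hZ2⟩ := ih hnd' (fun q hq => hpr q (List.mem_cons_of_mem _ hq)) l
        (stp P p e C x b) x b
      obtain ⟨Z0, hZ3, hZ4⟩ := hD1 P p e C.1 C.2 hK1 hK2 hp
      refine ⟨fun q => if q = p then Z0 else Z' q, fun q => ?_, fun s hs h => ?_⟩
      · by_cases hq : q = p
        · simp only [hq, if_true]
          exact hZ3
        · simp only [hq, if_false]
          exact hZ1 q
      · rw [List.map_cons, List.cons.injEq] at h
        obtain ⟨he, hl⟩ := h
        have h1 := hZ2 s hs hl
        rw [List.zip_cons_cons]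
        have h2 : bads P s ((p, e) :: ps.zip l) C x b =
            (if H0 P p e C.1 C.2 x b ∧ ¬ Gen P p e s C.1 C.2 then 1 else 0) +
              bads P s (ps.zip l) (stp P p e C x b) x b := rfl
        rw [h2, List.toFinset_cons]
        have hpn' : p ∉ ps.toFinset := fun h => hpn (List.mem_toFinset.1 h)
        have h3 : ps.toFinset.filter (fun q => (s / q ^ s.factorization q) % q ∈
            (if q = p then Z0 else Z' q)) =
            ps.toFinset.filter (fun q => (s / q ^ s.factorization q) % q ∈ Z' q) := by
          apply Finset.filter_congr
          intro q hq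
          have hqp : q ≠ p := fun h => hpn' (h ▸ hq)
          rw [if_neg hqp]
        by_cases hb : H0 P p e C.1 C.2 x b ∧ ¬ Gen P p e s C.1 C.2
        · rw [if_pos hb]
          have hu : ¬ p ∣ s / p ^ e := by
            rw [← he]
            exact Nat.not_dvd_ordCompl hp hs
          have hsu : p ^ e * (s / p ^ e) = s := by
            rw [← he]
            exact Nat.ordProj_mul_ordCompl_eq_self s p
          have h4 : (s / p ^ e) % p ∈ Z0 := hZ4 _ hu (by rw [hsu]; exact hb.2)
          have h5 : (s / p ^ s.factorization p) % p ∈ (if p = p then Z0 else Z' p) := by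
            rw [if_pos rfl, he]
            exact h4
          beta_reduce
          rw [Finset.filter_insert, if_pos h5, h3,
            Finset.card_insert_of_notMem (fun h => hpn' (Finset.mem_filter.1 h).1)]
          omega
        · rw [if_neg hb, zero_add]
          refine h1.trans ?_
          beta_reduce
          rw [← h3]
          apply Finset.card_le_card
          exact Finset.filter_subset_filter _ (Finset.subset_insert _ _)

end Pool.Agent.Helper5.RD
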