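import Pool.Agent.Helper5.RD.Stm

/-! # Project RD: basic lemmas on classes and light classes -/

namespace Pool.Agent.Helper5.RD

open Finset Classical

noncomputable section

theorem mem_cls {Q : ℕ} {X : Finset ℤ} {t y : ℤ} : y ∈ cls Q X t ↔ y ∈ X ∧ (Q : ℤ) ∣ y - t := by
  simp [cls]

theorem cls_subset (Q : ℕ) (X : Finset ℤ) (t : ℤ) : cls Q X t ⊆ X := filter_subset _ _

theorem self_mem_cls {Q : ℕ} {X : Finset ℤ} {x : ℤ} (hx : x ∈ X) : x ∈ cls Q X x :=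
  mem_cls.2 ⟨hx, by simp⟩

theorem cls_congr {Q : ℕ} {X : Finset ℤ} {x x' : ℤ} (h : (Q : ℤ) ∣ x - x') :
    cls Q X x = cls Q X x' := by
  ext y
  rw [mem_cls, mem_cls]
  constructor
  · rintro ⟨h1, h2⟩; exact ⟨h1, by simpa using dvd_add h2 h⟩
  · rintro ⟨h1, h2⟩; exact ⟨h1, by have := dvd_sub h2 h; simpa using this⟩

theorem cls_anti {Q Q' : ℕ} {X : Finset ℤ} {x : ℤ} (h : Q ∣ Q') : cls Q' X x ⊆ cls Q X x := by
  intro y hy
  rw [mem_cls] at hy ⊢
  exact ⟨hy.1, (Int.natCast_dvd_natCast.2 h).trans hy.2⟩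

theorem light_mono {p K : ℕ} {X : Finset ℤ} {x : ℤ} {J J' : ℕ} (h : light p K X x J)
    (hJ : J ≤ J') : light p K X x J' :=
  lt_of_le_of_lt (Nat.mul_le_mul_right _ (card_le_card (cls_anti (pow_dvd_pow p hJ)))) h

theorem light_congr {p K : ℕ} {X : Finset ℤ} {x x' : ℤ} {J : ℕ} (h : ((p ^ J : ℕ) : ℤ) ∣ x - x')
    {J' : ℕ} (hJ : J' ≤ J) : light p K X x J' ↔ light p K X x' J' := by
  unfold light
  rw [cls_congr ((Int.natCast_dvd_natCast.2 (pow_dvd_pow p hJ)).trans h)]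

theorem fst_light {p K : ℕ} {X : Finset ℤ} {x : ℤ} (h : ∃ J, light p K X x J) :
    light p K X x (fst p K X x) := Nat.sInf_mem (s := {J | light p K X x J}) h

theorem fst_le {p K : ℕ} {X : Finset ℤ} {x : ℤ} {J : ℕ} (h : light p K X x J) :
    fst p K X x ≤ J := Nat.sInf_le (s := {J | light p K X x J}) h

theorem fst_le_of_congr {p K : ℕ} {X : Finset ℤ} {x x' : ℤ} (h : ∃ J, light p K X x J)
    (hd : ((p ^ fst p K X x : ℕ) : ℤ) ∣ x - x') : fst p K X x' ≤ fst p K X x :=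
  fst_le ((light_congr hd le_rfl).1 (fst_light h))

theorem exists_light_of_lt {p K : ℕ} (hp : 2 ≤ p) {X : Finset ℤ} {x : ℤ}
    (h : K < X.card) : ∃ J, light p K X x J := by
  -- for `J` large the class is `{x}`
  set M : ℕ := ∑ y ∈ X, (y - x).natAbs with hM
  refine ⟨M + 1, ?_⟩
  have h1 : cls (p ^ (M + 1)) X x ⊆ {x} := by
    intro y hy
    rw [mem_cls] at hy
    rw [mem_singleton]
    by_contra hne
    have h2 : (y - x).natAbs ≤ M := Finset.single_le_sum (f := fun y => (y - x).natAbs)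
      (fun _ _ => Nat.zero_le _) hy.1
    have h3 : p ^ (M + 1) ∣ (y - x).natAbs := by
      have := hy.2
      rwa [Int.natCast_dvd] at this
    have h4 : p ^ (M + 1) ≤ (y - x).natAbs := Nat.le_of_dvd (by
      rw [Nat.pos_iff_ne_zero]
      intro h0
      exact hne (by have := Int.natAbs_eq_zero.1 h0; linarith)) h3
    have h5 : M + 1 < 2 ^ (M + 1) := Nat.lt_two_pow_self
    have h6 : 2 ^ (M + 1) ≤ p ^ (M + 1) := Nat.pow_le_pow_left hp _
    omega
  have h2 : (cls (p ^ (M + 1)) X x).card ≤ 1 := (card_le_card h1).trans (by simp)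
  unfold light
  nlinarith

theorem not_light_zero {p K : ℕ} (hK : 1 ≤ K) {X : Finset ℤ} {x : ℤ} : ¬ light p K X x 0 := by
  unfold light
  have : cls (p ^ 0) X x = X := by
    ext y; rw [mem_cls]; simp
  rw [this]
  nlinarith

theorem lt_card_of_light {p K : ℕ} {X : Finset ℤ} {x : ℤ} (hx : x ∈ X) {J : ℕ}
    (h : light p K X x J) : K < X.card := by
  have h1 : 1 ≤ (cls (p ^ J) X x).card := card_pos.2 ⟨x, self_mem_cls hx⟩
  unfold light at h
  nlinarith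

/-- Disjoint heavy sets are few. -/
theorem card_le_of_heavy {ι : Type*} [DecidableEq ι] (S : Finset ι) (X : Finset ℤ) (K : ℕ)
    (f : ι → Finset ℤ) (hf : ∀ i ∈ S, f i ⊆ X) (hh : ∀ i ∈ S, X.card ≤ (f i).card * K)
    (hd : ∀ i ∈ S, ∀ j ∈ S, i ≠ j → Disjoint (f i) (f j)) (hX : X.Nonempty) : S.card ≤ K := by
  have h1 : ∑ i ∈ S, (f i).card ≤ X.card := by
    rw [← card_biUnion (fun i hi j hj hij => hd i hi j hj hij)]
    exact card_le_card (biUnion_subset.2 hf)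
  have h2 : S.card * X.card ≤ K * X.card := by
    calc S.card * X.card = ∑ i ∈ S, X.card := by rw [sum_const, smul_eq_mul]
      _ ≤ ∑ i ∈ S, (f i).card * K := sum_le_sum hh
      _ = (∑ i ∈ S, (f i).card) * K := by rw [sum_mul]
      _ ≤ X.card * K := Nat.mul_le_mul_right _ h1
      _ = K * X.card := by ring
  exact Nat.le_of_mul_le_mul_right h2 (card_pos.2 hX)

/-- Two points of type 1 on a line whose next cells meet in `X` have the same next cell. -/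
theorem nxt1_eq {P : Par} {p e u : ℕ} {X B : Finset ℤ} {n x b x' b' : ℤ}
    (h1 : ((p ^ e * u : ℕ) : ℤ) * x + b = n) (h2 : ((p ^ e * u : ℕ) : ℤ) * x' + b' = n)
    (t1 : T1 P p e X B x b) (hle : fst p P.K1 B b ≤ fst p P.K1 B b')
    (hd : ((p ^ (fst p P.K1 B b - e) : ℕ) : ℤ) ∣ x - x') :
    nxt1 P p e X B x b = nxt1 P p e X B x' b' := by
  have h3 : ((p ^ fst p P.K1 B b : ℕ) : ℤ) ∣ b - b' := by
    have h4 : b - b' = ((p ^ e * u : ℕ) : ℤ) * (x' - x) := by linear_combination h1 - h2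
    rw [h4]
    have h5 : ((p ^ fst p P.K1 B b : ℕ) : ℤ) ∣ ((p ^ e : ℕ) : ℤ) * (x' - x) := by
      have h6 : ((p ^ fst p P.K1 B b : ℕ) : ℤ) ∣
          ((p ^ e : ℕ) : ℤ) * ((p ^ (fst p P.K1 B b - e) : ℕ) : ℤ) := by
        rw [← Nat.cast_mul, ← pow_add, Int.natCast_dvd_natCast]
        exact pow_dvd_pow _ (by omega)
      refine h6.trans (mul_dvd_mul_left _ ?_)
      rw [← neg_sub, dvd_neg]; exact hd
    have h8 : ((p ^ e * u : ℕ) : ℤ) * (x' - x) = (u : ℤ) * (((p ^ e : ℕ) : ℤ) * (x' - x)) := by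
      push_cast; ring
    rw [h8]
    exact h5.mul_left (u : ℤ)
  have h7 : fst p P.K1 B b' = fst p P.K1 B b := le_antisymm (fst_le_of_congr t1.1 h3) hle
  unfold nxt1
  rw [h7, cls_congr h3, cls_congr hd]

/-- Two points of type 0 on a line: if the `x` agree modulo the smaller of the two first light
levels then the next cells agree. -/
theorem nxt0_eq {P : Par} {p e u : ℕ} {X B : Finset ℤ} {n x b x' b' : ℤ}
    (h1 : ((p ^ e * u : ℕ) : ℤ) * x + b = n) (h2 : ((p ^ e * u : ℕ) : ℤ) * x' + b' = n)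
    (t1 : T0 P p e X B x b) (hle : fst p P.K0 X x ≤ fst p P.K0 X x')
    (hd : ((p ^ fst p P.K0 X x : ℕ) : ℤ) ∣ x - x') :
    nxt0 P p e X B x b = nxt0 P p e X B x' b' := by
  have h3 : ((p ^ (fst p P.K0 X x + e) : ℕ) : ℤ) ∣ b - b' := by
    have h4 : b - b' = ((p ^ e * u : ℕ) : ℤ) * (x' - x) := by linear_combination h1 - h2
    rw [h4]
    have h5 : ((p ^ (fst p P.K0 X x + e) : ℕ) : ℤ) ∣ ((p ^ e : ℕ) : ℤ) * (x' - x) := by
      rw [add_comm, pow_add, Nat.cast_mul]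
      refine mul_dvd_mul_left _ ?_
      rw [← neg_sub, dvd_neg]; exact hd
    have h8 : ((p ^ e * u : ℕ) : ℤ) * (x' - x) = (u : ℤ) * (((p ^ e : ℕ) : ℤ) * (x' - x)) := by
      push_cast; ring
    rw [h8]
    exact h5.mul_left (u : ℤ)
  have h7 : fst p P.K0 X x' = fst p P.K0 X x := le_antisymm (fst_le_of_congr t1.1 hd) hle
  unfold nxt0
  rw [h7, cls_congr h3, cls_congr hd]

theorem dvd_of_mul_pow_dvd {p : ℕ} (hp : p.Prime) {u : ℕ} (hu : ¬ p ∣ u) {e j : ℕ} {y : ℤ}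
    (h : ((p ^ (j + e) : ℕ) : ℤ) ∣ ((p ^ e * u : ℕ) : ℤ) * y) : ((p ^ j : ℕ) : ℤ) ∣ y := by
  have h1 : ((p ^ j : ℕ) : ℤ) ∣ (u : ℤ) * y := by
    have h2 : ((p ^ e : ℕ) : ℤ) * ((p ^ j : ℕ) : ℤ) ∣ ((p ^ e : ℕ) : ℤ) * ((u : ℤ) * y) := by
      have h3 : ((p ^ e : ℕ) : ℤ) * ((p ^ j : ℕ) : ℤ) = ((p ^ (j + e) : ℕ) : ℤ) := by
        push_cast; ring
      have h4 : ((p ^ e : ℕ) : ℤ) * ((u : ℤ) * y) = ((p ^ e * u : ℕ) : ℤ) * y := by
        push_cast; ring
      rw [h3, h4]; exact h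
    exact (mul_dvd_mul_iff_left (by
      have := hp.pos
      exact_mod_cast (pow_pos this e).ne')).1 h2
  have hc : IsCoprime ((p ^ j : ℕ) : ℤ) (u : ℤ) := by
    rw [Nat.isCoprime_iff_coprime]
    exact Nat.Coprime.pow_left _ ((Nat.Prime.coprime_iff_not_dvd hp).2 hu)
  exact hc.dvd_of_dvd_mul_left h1

end

end Pool.Agent.Helper5.RD
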