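import Mathlib

/-!
# Robust dilates: the definitions of project RD (MP_cc0731_co)

`X`, `B` finite sets of integers (a cell), `(x, b)` a point of `X × B`, `p` a prime, `e` the exact
exponent of `p` in the dilation `s`.
-/

namespace Pool.Agent.Helper5.RD

open Finset Classical

noncomputable section

/-- The class of `t` modulo `Q` in `X`. -/
def cls (Q : ℕ) (X : Finset ℤ) (t : ℤ) : Finset ℤ := X.filter (fun y => (Q : ℤ) ∣ y - t)

/-- The class of `x` modulo `p ^ J` has less than `1/K` of the elements of `X`. -/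
def light (p K : ℕ) (X : Finset ℤ) (x : ℤ) (J : ℕ) : Prop := (cls (p ^ J) X x).card * K < X.card

/-- The first `J` at which the class of `x` is light. -/
def fst (p K : ℕ) (X : Finset ℤ) (x : ℤ) : ℕ := sInf {J | light p K X x J}

/-- The three thresholds. -/
structure Par where
  /-- lower threshold -/
  K0 : ℕ
  /-- middle threshold -/
  K1 : ℕ
  /-- upper threshold -/
  K2 : ℕ

/-- Type 1: the first light class of `b` has a heavy trace on `X`. -/
def T1 (P : Par) (p e : ℕ) (X B : Finset ℤ) (x b : ℤ) : Prop :=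
  (∃ J, light p P.K1 B b J) ∧ ¬ light p P.K0 X x (fst p P.K1 B b - e)

/-- Type 0: the first light class of `x` has a heavy trace on `B`. -/
def T0 (P : Par) (p e : ℕ) (X B : Finset ℤ) (x b : ℤ) : Prop :=
  (∃ J, light p P.K0 X x J) ∧ ¬ light p P.K1 B b (fst p P.K0 X x + e)

/-- The cell of a point of type 1. -/
def nxt1 (P : Par) (p e : ℕ) (X B : Finset ℤ) (x b : ℤ) : Finset ℤ × Finset ℤ :=
  (cls (p ^ (fst p P.K1 B b - e)) X x, cls (p ^ fst p P.K1 B b) B b)

/-- The cell of a point of type 0. -/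
def nxt0 (P : Par) (p e : ℕ) (X B : Finset ℤ) (x b : ℤ) : Finset ℤ × Finset ℤ :=
  (cls (p ^ fst p P.K0 X x) X x, cls (p ^ (fst p P.K0 X x + e)) B b)

/-- Type 0, heavy: the first `K0`-light class of `x` is not `K2`-light. -/
def H0 (P : Par) (p e : ℕ) (X B : Finset ℤ) (x b : ℤ) : Prop :=
  T0 P p e X B x b ∧ ¬ light p P.K2 X x (fst p P.K0 X x)

/-- The dilation `s` is generic for the cell: two heavy type 0 points on the same line
`s x + b = n` have the same cell. -/
def Gen (P : Par) (p e s : ℕ) (X B : Finset ℤ) : Prop :=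
  ∀ x ∈ X, ∀ b ∈ B, ∀ x' ∈ X, ∀ b' ∈ B, H0 P p e X B x b → H0 P p e X B x' b' →
    (s : ℤ) * x + b = s * x' + b' → nxt0 P p e X B x b = nxt0 P p e X B x' b'

/-- One step. -/
def stp (P : Par) (p e : ℕ) (C : Finset ℤ × Finset ℤ) (x b : ℤ) : Finset ℤ × Finset ℤ :=
  if T1 P p e C.1 C.2 x b then nxt1 P p e C.1 C.2 x b
  else if T0 P p e C.1 C.2 x b then nxt0 P p e C.1 C.2 x b
  else C

/-- The run along a list of pairs (prime, exponent). -/
def run (P : Par) : List (ℕ × ℕ) → Finset ℤ × Finset ℤ → ℤ → ℤ → Finset ℤ × Finset ℤ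
  | [], C, _, _ => C
  | q :: L, C, x, b => run P L (stp P q.1 q.2 C x b) x b

/-- The cell is small. -/
def Fin1 (P : Par) (C : Finset ℤ × Finset ℤ) : Prop := C.1.card ≤ P.K0 ∧ C.2.card ≤ P.K1

/-- The number of steps at a heavy type 0 point where `s` is not generic. -/
def bads (P : Par) (s : ℕ) : List (ℕ × ℕ) → Finset ℤ × Finset ℤ → ℤ → ℤ → ℕ
  | [], _, _, _ => 0
  | q :: L, C, x, b =>
      (if H0 P q.1 q.2 C.1 C.2 x b ∧ ¬ Gen P q.1 q.2 s C.1 C.2 then 1 else 0) +
        bads P s L (stp P q.1 q.2 C x b) x b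

/-- The `Q`-part of `d`. -/
def part (Q : Finset ℕ) (d : ℕ) : ℕ := ∏ q ∈ Q, q ^ d.factorization q

end

end Pool.Agent.Helper5.RD
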