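import Pool.Agent.Helper5.RD.Stm2

/-! # Project RD, second part: large exponents.  Definitions -/

namespace Pool.Agent.Helper5.RD

open Finset Classical

noncomputable section

/-- Type 1 with thresholds `t ^ A` (light in `B`) and `2 t` (heavy in `X`). -/
def U1 (t A p e : ℕ) (X B : Finset ℤ) (x b : ℤ) : Prop :=
  (∃ J, light p (t ^ A) B b J) ∧ ¬ light p (2 * t) X x (fst p (t ^ A) B b - e)

/-- Type 0 with thresholds `t` (light in `X`) and `2 t ^ A` (heavy in `B`). -/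
def U0 (t A p e : ℕ) (X B : Finset ℤ) (x b : ℤ) : Prop :=
  (∃ J, light p t X x J) ∧ ¬ light p (2 * t ^ A) B b (fst p t X x + e)

/-- The next cell, type 1. -/
def m1 (t A p e : ℕ) (X B : Finset ℤ) (x b : ℤ) : Finset ℤ × Finset ℤ :=
  (cls (p ^ (fst p (t ^ A) B b - e)) X x, cls (p ^ fst p (t ^ A) B b) B b)

/-- The next cell, type 0. -/
def m0 (t p e : ℕ) (X B : Finset ℤ) (x b : ℤ) : Finset ℤ × Finset ℤ :=
  (cls (p ^ fst p t X x) X x, cls (p ^ (fst p t X x + e)) B b)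

/-- `v` is a branching level of the tree of `K`-heavy classes of `X`. -/
def Br (p K : ℕ) (X : Finset ℤ) (v : ℕ) : Prop :=
  ∃ y ∈ X, ∃ y' ∈ X, ((p ^ v : ℕ) : ℤ) ∣ y - y' ∧ ¬ ((p ^ (v + 1) : ℕ) : ℤ) ∣ y - y' ∧
    X.card ≤ (cls (p ^ (v + 1)) X y).card * K ∧ X.card ≤ (cls (p ^ (v + 1)) X y').card * K

/-- The exponent `e` is generic for the cell. -/
def Gen2 (t A p e : ℕ) (X B : Finset ℤ) : Prop :=
  ∀ v, Br p (t ^ (A ^ 2)) X v → ¬ Br p (2 * t ^ A) B (e + v)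

/-- One step. -/
def st2 (t A p e : ℕ) (C : Finset ℤ × Finset ℤ) (x b : ℤ) : Finset ℤ × Finset ℤ :=
  if U1 t A p e C.1 C.2 x b then m1 t A p e C.1 C.2 x b
  else if U0 t A p e C.1 C.2 x b ∧
    (light p (t ^ (A ^ 2)) C.1 x (fst p t C.1 x) ∨ Gen2 t A p e C.1 C.2) then m0 t p e C.1 C.2 x b
  else C

/-- `R` steps with the same prime. -/
def mul2 (t A p e : ℕ) : ℕ → Finset ℤ × Finset ℤ → ℤ → ℤ → Finset ℤ × Finset ℤ
  | 0, C, _, _ => C
  | R + 1, C, x, b => mul2 t A p e R (st2 t A p e C x b) x b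

/-- The run along a list of triples (prime, threshold, exponent). -/
def run2 (A R : ℕ) : List (ℕ × ℕ × ℕ) → Finset ℤ × Finset ℤ → ℤ → ℤ → Finset ℤ × Finset ℤ
  | [], C, _, _ => C
  | q :: L, C, x, b => run2 A R L (mul2 q.2.1 A q.1 q.2.2 R C x b) x b

/-- The cell is small. -/
def Fin2 (Y : ℕ) (C : Finset ℤ × Finset ℤ) : Prop := C.1.card ≤ Y ∧ C.2.card ≤ Y

/-- The bound for the number of stuck exponents. -/
def bd (t A R : ℕ) : ℕ :=
  (Nat.log 2 (t * t ^ R) + 1) * (Nat.log 2 (t ^ A * t ^ R) + 1) +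
    (Nat.log 2 (t ^ R) + 1) ^ 2 * (2 * t ^ (A ^ 2)) ^ 2 * (2 * (2 * t ^ A)) ^ 2

/-- The triples (prime, threshold, exponent) of a list of indices. -/
def trip (t w : ℕ → ℕ) (ps l : List ℕ) : List (ℕ × ℕ × ℕ) :=
  (ps.zip l).map (fun q => (q.1, t q.1, w q.1 * q.2))

/-- The coarse `Q`-part of `d`: exponents rounded down to multiples of `w q`. -/
def prt2 (w : ℕ → ℕ) (Q : Finset ℕ) (d : ℕ) : ℕ := ∏ q ∈ Q, q ^ (w q * (d.factorization q / w q))

/-- The logarithmic size of the large exponents of `a` at the primes of `Q`. -/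
def lam (q0 : ℕ) (Q : Finset ℕ) (a : ℕ) : ℕ :=
  ∑ p ∈ Q.filter (fun p => 2 ^ q0 ≤ a.factorization p), Nat.log 2 (a.factorization p)

/-- The scale vector of `a`. -/
def sv (q0 : ℕ) (Q : Finset ℕ) (a : ℕ) : ℕ → ℕ := fun p =>
  if p ∈ Q ∧ 2 ^ q0 ≤ a.factorization p then Nat.log 2 (a.factorization p) else 0

end

end Pool.Agent.Helper5.RD
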