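import Pool.Agent.Helper5.RD.Bas

/-! # Project RD: packages A1, A2 -/

namespace Pool.Agent.Helper5.RD

open Finset Classical

noncomputable section

theorem p_A1 : S_A1 := by
  intro P p e u X B n hp hu
  by_cases hX : X.Nonempty
  · set S := (X ×ˢ B).filter (fun q => ((p ^ e * u : ℕ) : ℤ) * q.1 + q.2 = n ∧
      T1 P p e X B q.1 q.2) with hS
    refine card_le_of_heavy _ X P.K0 (fun C => C.1) ?_ ?_ ?_ hX
    · intro C hC
      obtain ⟨q, hq, rfl⟩ := mem_image.1 hC
      exact cls_subset _ _ _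
    · intro C hC
      obtain ⟨q, hq, rfl⟩ := mem_image.1 hC
      rw [hS, mem_filter] at hq
      have := hq.2.2.2
      unfold light at this
      exact not_lt.1 this
    · intro C hC C' hC' hne
      obtain ⟨q, hq, rfl⟩ := mem_image.1 hC
      obtain ⟨q', hq', rfl⟩ := mem_image.1 hC'
      rw [hS, mem_filter] at hq hq'
      rw [Finset.disjoint_left]
      intro y hy hy'
      apply hne
      simp only [nxt1, mem_cls] at hy hy'
      rcases le_total (fst p P.K1 B q.2) (fst p P.K1 B q'.2) with hle | hle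
      · refine nxt1_eq hq.2.1 hq'.2.1 hq.2.2 hle ?_
        have h1 : ((p ^ (fst p P.K1 B q.2 - e) : ℕ) : ℤ) ∣ y - q'.1 :=
          (Int.natCast_dvd_natCast.2 (pow_dvd_pow p (Nat.sub_le_sub_right hle e))).trans hy'.2
        have := dvd_sub h1 hy.2
        simpa using this
      · refine (nxt1_eq hq'.2.1 hq.2.1 hq'.2.2 hle ?_).symm
        have h1 : ((p ^ (fst p P.K1 B q'.2 - e) : ℕ) : ℤ) ∣ y - q.1 :=
          (Int.natCast_dvd_natCast.2 (pow_dvd_pow p (Nat.sub_le_sub_right hle e))).trans hy.2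
        have := dvd_sub h1 hy'.2
        simpa using this
  · rw [not_nonempty_iff_eq_empty] at hX
    subst hX
    simp

theorem p_A2 : S_A2 := by
  intro P p e u X B n hp hu
  by_cases hB : B.Nonempty
  · set S := (X ×ˢ B).filter (fun q => ((p ^ e * u : ℕ) : ℤ) * q.1 + q.2 = n ∧
      T0 P p e X B q.1 q.2) with hS
    refine card_le_of_heavy _ B P.K1 (fun C => C.2) ?_ ?_ ?_ hB
    · intro C hC
      obtain ⟨q, hq, rfl⟩ := mem_image.1 hC
      exact cls_subset _ _ _
    · intro C hC
      obtain ⟨q, hq, rfl⟩ := mem_image.1 hC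
      rw [hS, mem_filter] at hq
      have := hq.2.2.2
      unfold light at this
      exact not_lt.1 this
    · intro C hC C' hC' hne
      obtain ⟨q, hq, rfl⟩ := mem_image.1 hC
      obtain ⟨q', hq', rfl⟩ := mem_image.1 hC'
      rw [hS, mem_filter] at hq hq'
      rw [Finset.disjoint_left]
      intro y hy hy'
      apply hne
      simp only [nxt0, mem_cls] at hy hy'
      rcases le_total (fst p P.K0 X q.1) (fst p P.K0 X q'.1) with hle | hle
      · refine nxt0_eq hq.2.1 hq'.2.1 hq.2.2 hle ?_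
        have h1 : ((p ^ (fst p P.K0 X q.1 + e) : ℕ) : ℤ) ∣ y - q'.2 :=
          (Int.natCast_dvd_natCast.2 (pow_dvd_pow p (Nat.add_le_add_right hle e))).trans hy'.2
        have h2 : ((p ^ (fst p P.K0 X q.1 + e) : ℕ) : ℤ) ∣ q.2 - q'.2 := by
          have := dvd_sub h1 hy.2
          simpa using this
        refine dvd_of_mul_pow_dvd hp hu (e := e) ?_
        have h3 : ((p ^ e * u : ℕ) : ℤ) * (q.1 - q'.1) = -(q.2 - q'.2) := by
          linear_combination hq.2.1 - hq'.2.1
        rw [h3, dvd_neg]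
        exact h2
      · refine (nxt0_eq hq'.2.1 hq.2.1 hq'.2.2 hle ?_).symm
        have h1 : ((p ^ (fst p P.K0 X q'.1 + e) : ℕ) : ℤ) ∣ y - q.2 :=
          (Int.natCast_dvd_natCast.2 (pow_dvd_pow p (Nat.add_le_add_right hle e))).trans hy.2
        have h2 : ((p ^ (fst p P.K0 X q'.1 + e) : ℕ) : ℤ) ∣ q'.2 - q.2 := by
          have := dvd_sub h1 hy'.2
          simpa using this
        refine dvd_of_mul_pow_dvd hp hu (e := e) ?_
        have h3 : ((p ^ e * u : ℕ) : ℤ) * (q'.1 - q.1) = -(q'.2 - q.2) := by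
          linear_combination hq'.2.1 - hq.2.1
        rw [h3, dvd_neg]
        exact h2
  · rw [not_nonempty_iff_eq_empty] at hB
    subst hB
    simp

end

end Pool.Agent.Helper5.RD
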