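import Pool.Agent.Helper5.RD.PA

/-! # Project RD: package A3 -/

namespace Pool.Agent.Helper5.RD

open Finset Classical

noncomputable section

namespace PA3

theorem card_le_cells {S : Finset (ℤ × ℤ)} {nx : ℤ × ℤ → Finset ℤ × Finset ℤ} {k : ℕ} {R : ℝ}
    (hR : 0 ≤ R) (hk : (S.image nx).card ≤ k)
    (h : ∀ q ∈ S, ((S.filter (fun q' => nx q' = nx q)).card : ℝ) ≤ R) : (S.card : ℝ) ≤ k * R := by
  rw [card_eq_sum_card_image nx S]
  push_cast
  calc ∑ C ∈ S.image nx, ((S.filter (fun q' => nx q' = C)).card : ℝ)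
      ≤ ∑ C ∈ S.image nx, R := by
        refine sum_le_sum fun C hC => ?_
        obtain ⟨q, hq, rfl⟩ := mem_image.1 hC
        exact h q hq
    _ = (S.image nx).card * R := by rw [sum_const, nsmul_eq_mul]
    _ ≤ k * R := by
        refine mul_le_mul_of_nonneg_right ?_ hR
        exact_mod_cast hk

theorem rpow_cell {a b X B K : ℕ} {ε : ℝ} (hε : 0 ≤ ε) (hK : 1 ≤ K) (h : a * b * K ≤ X * B) :
    ((a : ℝ) * b) ^ ε ≤ (K : ℝ) ^ (-ε) * ((X : ℝ) * B) ^ ε := by
  have hK' : (0 : ℝ) < K := by exact_mod_cast hK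
  have h1 : ((a : ℝ) * b) ≤ (X : ℝ) * B / K := by
    rw [le_div_iff₀ hK']
    exact_mod_cast h
  calc ((a : ℝ) * b) ^ ε ≤ ((X : ℝ) * B / K) ^ ε := Real.rpow_le_rpow (by positivity) h1 hε
    _ = (K : ℝ) ^ (-ε) * ((X : ℝ) * B) ^ ε := by
        rw [Real.div_rpow (by positivity) hK'.le, Real.rpow_neg hK'.le]
        ring

/-- the points of a line with a good run -/
def pts (P : Par) (s : ℕ) (L : List (ℕ × ℕ)) (X B : Finset ℤ) (F : ℕ) (n : ℤ) :
    Finset (ℤ × ℤ) :=
  (X ×ˢ B).filter (fun q => (s : ℤ) * q.1 + q.2 = n ∧ Fin1 P (run P L (X, B) q.1 q.2) ∧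
      bads P s L (X, B) q.1 q.2 ≤ F)

/-- The bound for one type of points. -/
theorem type_bound {P : Par} {s : ℕ} {ε Λ : ℝ} (hε : 0 < ε) (hΛ : 0 ≤ Λ) {L : List (ℕ × ℕ)}
    {q0 : ℕ × ℕ} {X B : Finset ℤ} {F F' : ℕ} {n : ℤ}
    (ih : ∀ (X B : Finset ℤ) (F : ℕ) (n : ℤ), ((pts P s L X B F n).card : ℝ) ≤
      P.K0 * Λ ^ L.length * ((X.card : ℝ) * B.card) ^ ε * (P.K1 : ℝ) ^ F)
    {S : Finset (ℤ × ℤ)} (hS : S ⊆ pts P s (q0 :: L) X B F n)
    {nx : ℤ × ℤ → Finset ℤ × Finset ℤ} (hnx : ∀ q ∈ S, stp P q0.1 q0.2 (X, B) q.1 q.2 = nx q)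
    (hmem : ∀ q ∈ S, q.1 ∈ (nx q).1 ∧ q.2 ∈ (nx q).2)
    (hF : ∀ q ∈ S, bads P s L (nx q) q.1 q.2 ≤ F') {k K : ℕ} (hK : 1 ≤ K)
    (hk : (S.image nx).card ≤ k)
    (hsz : ∀ q ∈ S, (nx q).1.card * (nx q).2.card * K ≤ X.card * B.card) :
    (S.card : ℝ) ≤ k * ((K : ℝ) ^ (-ε) *
      (P.K0 * Λ ^ L.length * ((X.card : ℝ) * B.card) ^ ε * (P.K1 : ℝ) ^ F')) := by
  refine card_le_cells (nx := nx) (by positivity) hk ?_
  intro q hq
  have h1 : S.filter (fun q' => nx q' = nx q) ⊆ pts P s L (nx q).1 (nx q).2 F' n := by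
    intro q' hq'
    rw [mem_filter] at hq'
    obtain ⟨hq', he⟩ := hq'
    have h2 := hS hq'
    unfold pts at h2 ⊢
    rw [mem_filter, mem_product] at h2 ⊢
    refine ⟨?_, h2.2.1, ?_, ?_⟩
    · rw [← he]; exact hmem q' hq'
    · have := h2.2.2.1
      unfold run at this
      rw [hnx q' hq', he] at this
      exact this
    · have := hF q' hq'
      rw [he] at this
      exact this
  have h3 : ((S.filter (fun q' => nx q' = nx q)).card : ℝ) ≤
      ((pts P s L (nx q).1 (nx q).2 F' n).card : ℝ) := by exact_mod_cast card_le_card h1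
  refine h3.trans ((ih _ _ _ _).trans ?_)
  have h4 := rpow_cell hε.le hK (hsz q hq)
  calc (P.K0 : ℝ) * Λ ^ L.length * (((nx q).1.card : ℝ) * (nx q).2.card) ^ ε * (P.K1 : ℝ) ^ F'
      ≤ (P.K0 : ℝ) * Λ ^ L.length * ((K : ℝ) ^ (-ε) * ((X.card : ℝ) * B.card) ^ ε) *
        (P.K1 : ℝ) ^ F' := by gcongr
    _ = _ := by ring

theorem stp_T1 {P : Par} {p e : ℕ} {X B : Finset ℤ} {x b : ℤ} (h : T1 P p e X B x b) :
    stp P p e (X, B) x b = nxt1 P p e X B x b := if_pos h

theorem stp_T0 {P : Par} {p e : ℕ} {X B : Finset ℤ} {x b : ℤ} (h1 : ¬ T1 P p e X B x b)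
    (h : T0 P p e X B x b) : stp P p e (X, B) x b = nxt0 P p e X B x b := by
  unfold stp; rw [if_neg h1, if_pos h]

theorem stp_blocked {P : Par} {p e : ℕ} {X B : Finset ℤ} {x b : ℤ} (h1 : ¬ T1 P p e X B x b)
    (h : ¬ T0 P p e X B x b) : stp P p e (X, B) x b = (X, B) := by
  unfold stp; rw [if_neg h1, if_neg h]

theorem bads_cons_le (P : Par) (s : ℕ) (q0 : ℕ × ℕ) (L : List (ℕ × ℕ)) (C : Finset ℤ × Finset ℤ)
    (x b : ℤ) : bads P s L (stp P q0.1 q0.2 C x b) x b ≤ bads P s (q0 :: L) C x b := by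
  conv_rhs => unfold bads
  omega

theorem main (P : Par) (s : ℕ) (ε Λ : ℝ) (hε : 0 < ε) (hK0 : 1 ≤ P.K0) (hK1 : 1 ≤ P.K1)
    (hK2 : 1 ≤ P.K2)
    (hΛ : 1 + (P.K0 : ℝ) * (P.K1 : ℝ) ^ (-ε) + (P.K1 : ℝ) * (P.K2 : ℝ) ^ (-ε) +
      (P.K0 : ℝ) ^ (-ε) ≤ Λ) :
    ∀ (L : List (ℕ × ℕ)), (∀ q ∈ L, q.1.Prime ∧ ∃ u, s = q.1 ^ q.2 * u ∧ ¬ q.1 ∣ u) →
    ∀ (X B : Finset ℤ) (F : ℕ) (n : ℤ), ((pts P s L X B F n).card : ℝ) ≤
      P.K0 * Λ ^ L.length * ((X.card : ℝ) * B.card) ^ ε * (P.K1 : ℝ) ^ F := by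
  have hΛ0 : 0 ≤ Λ := le_trans (by positivity) hΛ
  intro L
  induction L with
  | nil =>
    intro _ X B F n
    by_cases hne : (pts P s [] X B F n).Nonempty
    · obtain ⟨q, hq⟩ := hne
      have hq' := hq
      unfold pts at hq'
      rw [mem_filter, mem_product] at hq'
      have hX : 1 ≤ X.card := card_pos.2 ⟨_, hq'.1.1⟩
      have hB : 1 ≤ B.card := card_pos.2 ⟨_, hq'.1.2⟩
      have hfin : X.card ≤ P.K0 := hq'.2.2.1.1
      have h1 : (pts P s [] X B F n).card ≤ X.card := by
        refine card_le_card_of_injOn (fun q => q.1) ?_ ?_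
        · intro r hr
          have := (mem_filter.1 (mem_coe.1 hr)).1
          rw [mem_product] at this
          exact this.1
        · intro r hr r' hr' h
          have h2 := (mem_filter.1 (mem_coe.1 hr)).2.1
          have h3 := (mem_filter.1 (mem_coe.1 hr')).2.1
          have h4 : r.1 = r'.1 := h
          rw [h4] at h2
          exact Prod.ext h4 (by linarith)
      have h2 : (1 : ℝ) ≤ ((X.card : ℝ) * B.card) ^ ε := by
        apply Real.one_le_rpow _ hε.le
        have hX' : (1 : ℝ) ≤ X.card := by exact_mod_cast hX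
        have hB' : (1 : ℝ) ≤ B.card := by exact_mod_cast hB
        nlinarith
      have h3 : (1 : ℝ) ≤ (P.K1 : ℝ) ^ F := one_le_pow₀ (by exact_mod_cast hK1)
      have h4 : ((pts P s [] X B F n).card : ℝ) ≤ P.K0 := by exact_mod_cast h1.trans hfin
      calc ((pts P s [] X B F n).card : ℝ) ≤ P.K0 * 1 * 1 := by simpa using h4
        _ ≤ P.K0 * ((X.card : ℝ) * B.card) ^ ε * (P.K1 : ℝ) ^ F := by gcongr
        _ = _ := by simp
    · rw [not_nonempty_iff_eq_empty] at hne
      rw [hne]
      simp only [card_empty, Nat.cast_zero]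
      positivity
  | cons q0 L ih =>
    intro hL X B F n
    have ih' := ih (fun q hq => hL q (List.mem_cons_of_mem _ hq))
    obtain ⟨hp, u, hu, hpu⟩ := hL q0 List.mem_cons_self
    set p := q0.1 with hpdef
    set e := q0.2 with hedef
    set W := pts P s (q0 :: L) X B F n with hW
    set G : ℝ := P.K0 * Λ ^ L.length * ((X.card : ℝ) * B.card) ^ ε * (P.K1 : ℝ) ^ F with hG
    have hG0 : 0 ≤ G := by positivity
    have hline : ∀ q ∈ W, ((p ^ e * u : ℕ) : ℤ) * q.1 + q.2 = n := by
      intro q hq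
      have := (mem_filter.1 hq).2.1
      rw [← hu]; exact this
    have hXm : ∀ q ∈ W, q.1 ∈ X ∧ q.2 ∈ B := by
      intro q hq
      have := (mem_filter.1 hq).1
      rwa [mem_product] at this
    have hbad : ∀ q ∈ W, bads P s (q0 :: L) (X, B) q.1 q.2 ≤ F := by
      intro q hq
      exact (mem_filter.1 hq).2.2.2
    -- the four types
    set W1 := W.filter (fun q => T1 P p e X B q.1 q.2) with hW1
    set W2 := W.filter (fun q => ¬ T1 P p e X B q.1 q.2 ∧ T0 P p e X B q.1 q.2 ∧
      ¬ H0 P p e X B q.1 q.2) with hW2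
    set W3 := W.filter (fun q => ¬ T1 P p e X B q.1 q.2 ∧ H0 P p e X B q.1 q.2) with hW3
    set W4 := W.filter (fun q => ¬ T1 P p e X B q.1 q.2 ∧ ¬ T0 P p e X B q.1 q.2) with hW4
    have hcov : W ⊆ W1 ∪ W2 ∪ (W3 ∪ W4) := by
      intro q hq
      simp only [hW1, hW2, hW3, hW4, mem_union, mem_filter]
      by_cases h1 : T1 P p e X B q.1 q.2
      · exact Or.inl (Or.inl ⟨hq, h1⟩)
      · by_cases h0 : T0 P p e X B q.1 q.2
        · by_cases hh : H0 P p e X B q.1 q.2
          · exact Or.inr (Or.inl ⟨hq, h1, hh⟩)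
          · exact Or.inl (Or.inr ⟨hq, h1, h0, hh⟩)
        · exact Or.inr (Or.inr ⟨hq, h1, h0⟩)
    -- type 1
    have b1 : (W1.card : ℝ) ≤ P.K0 * ((P.K1 : ℝ) ^ (-ε) * G) := by
      refine type_bound (F' := F) hε hΛ0 ih' (filter_subset _ _)
        (nx := fun q => nxt1 P p e X B q.1 q.2) ?_ ?_ ?_ hK1 ?_ ?_
      · intro q hq
        have := (mem_filter.1 hq).2
        exact stp_T1 this
      · intro q hq
        have h := hXm q (mem_filter.1 hq).1
        exact ⟨self_mem_cls h.1, self_mem_cls h.2⟩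
      · intro q hq
        have h := hbad q (mem_filter.1 hq).1
        have h2 := (mem_filter.1 hq).2
        have h3 := bads_cons_le P s q0 L (X, B) q.1 q.2
        have h4 : stp P q0.1 q0.2 (X, B) q.1 q.2 = nxt1 P p e X B q.1 q.2 := by
          exact stp_T1 h2
        rw [h4] at h3
        exact h3.trans h
      · refine le_trans (card_le_card ?_) (p_A1 P p e u X B n hp hpu)
        apply image_subset_image
        intro q hq
        have h := mem_filter.1 hq
        rw [mem_filter, mem_product]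
        exact ⟨hXm q h.1, hline q h.1, h.2⟩
      · intro q hq
        have h := mem_filter.1 hq
        have h1 := fst_light h.2.1
        unfold light at h1
        have h2 : (cls (p ^ (fst p P.K1 B q.2 - e)) X q.1).card ≤ X.card :=
          card_le_card (cls_subset _ _ _)
        calc (cls (p ^ (fst p P.K1 B q.2 - e)) X q.1).card *
              (cls (p ^ fst p P.K1 B q.2) B q.2).card * P.K1
            = (cls (p ^ (fst p P.K1 B q.2 - e)) X q.1).card *
              ((cls (p ^ fst p P.K1 B q.2) B q.2).card * P.K1) := by ring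
          _ ≤ X.card * B.card := Nat.mul_le_mul h2 h1.le
    -- type 0, light
    have b2 : (W2.card : ℝ) ≤ P.K1 * ((P.K2 : ℝ) ^ (-ε) * G) := by
      refine type_bound (F' := F) hε hΛ0 ih' (filter_subset _ _)
        (nx := fun q => nxt0 P p e X B q.1 q.2) ?_ ?_ ?_ hK2 ?_ ?_
      · intro q hq
        have := (mem_filter.1 hq).2
        exact stp_T0 this.1 this.2.1
      · intro q hq
        have h := hXm q (mem_filter.1 hq).1
        exact ⟨self_mem_cls h.1, self_mem_cls h.2⟩
      · intro q hq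
        have h := hbad q (mem_filter.1 hq).1
        have h2 := (mem_filter.1 hq).2
        have h3 := bads_cons_le P s q0 L (X, B) q.1 q.2
        have h4 : stp P q0.1 q0.2 (X, B) q.1 q.2 = nxt0 P p e X B q.1 q.2 := by
          exact stp_T0 h2.1 h2.2.1
        rw [h4] at h3
        exact h3.trans h
      · refine le_trans (card_le_card ?_) (p_A2 P p e u X B n hp hpu)
        apply image_subset_image
        intro q hq
        have h := mem_filter.1 hq
        rw [mem_filter, mem_product]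
        exact ⟨hXm q h.1, hline q h.1, h.2.2.1⟩
      · intro q hq
        have h := mem_filter.1 hq
        have h1 : light p P.K2 X q.1 (fst p P.K0 X q.1) := by
          by_contra hc
          exact h.2.2.2 ⟨h.2.2.1, hc⟩
        unfold light at h1
        have h2 : (cls (p ^ (fst p P.K0 X q.1 + e)) B q.2).card ≤ B.card :=
          card_le_card (cls_subset _ _ _)
        calc (cls (p ^ fst p P.K0 X q.1) X q.1).card *
              (cls (p ^ (fst p P.K0 X q.1 + e)) B q.2).card * P.K2
            = ((cls (p ^ fst p P.K0 X q.1) X q.1).card * P.K2) *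
              (cls (p ^ (fst p P.K0 X q.1 + e)) B q.2).card := by ring
          _ ≤ X.card * B.card := Nat.mul_le_mul h1.le h2
    -- type 0, heavy
    have hsz3 : ∀ q ∈ W3, (nxt0 P p e X B q.1 q.2).1.card * (nxt0 P p e X B q.1 q.2).2.card *
        P.K0 ≤ X.card * B.card := by
      intro q hq
      have h := mem_filter.1 hq
      have h1 := fst_light h.2.2.1.1
      unfold light at h1
      have h2 : (cls (p ^ (fst p P.K0 X q.1 + e)) B q.2).card ≤ B.card :=
        card_le_card (cls_subset _ _ _)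
      calc (cls (p ^ fst p P.K0 X q.1) X q.1).card *
            (cls (p ^ (fst p P.K0 X q.1 + e)) B q.2).card * P.K0
          = ((cls (p ^ fst p P.K0 X q.1) X q.1).card * P.K0) *
            (cls (p ^ (fst p P.K0 X q.1 + e)) B q.2).card := by ring
        _ ≤ X.card * B.card := Nat.mul_le_mul h1.le h2
    have hnx3 : ∀ q ∈ W3, stp P q0.1 q0.2 (X, B) q.1 q.2 = nxt0 P p e X B q.1 q.2 := by
      intro q hq
      have := (mem_filter.1 hq).2
      exact stp_T0 this.1 this.2.1
    have hmem3 : ∀ q ∈ W3, q.1 ∈ (nxt0 P p e X B q.1 q.2).1 ∧ q.2 ∈ (nxt0 P p e X B q.1 q.2).2 := by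
      intro q hq
      have h := hXm q (mem_filter.1 hq).1
      exact ⟨self_mem_cls h.1, self_mem_cls h.2⟩
    have b3 : (W3.card : ℝ) ≤ (P.K0 : ℝ) ^ (-ε) * G := by
      by_cases hGen : Gen P p e s X B
      · have := type_bound (F' := F) (k := 1) hε hΛ0 ih' (filter_subset _ _ : W3 ⊆ W)
          (nx := fun q => nxt0 P p e X B q.1 q.2) hnx3 hmem3 ?_ hK0 ?_ hsz3
        · simpa using this
        · intro q hq
          have h := hbad q (mem_filter.1 hq).1
          have h3 := bads_cons_le P s q0 L (X, B) q.1 q.2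
          rw [hnx3 q hq] at h3
          exact h3.trans h
        · rw [card_le_one]
          intro C hC C' hC'
          obtain ⟨q, hq, rfl⟩ := mem_image.1 hC
          obtain ⟨q', hq', rfl⟩ := mem_image.1 hC'
          have h := mem_filter.1 hq
          have h' := mem_filter.1 hq'
          refine hGen q.1 (hXm q h.1).1 q.2 (hXm q h.1).2 q'.1 (hXm q' h'.1).1 q'.2
            (hXm q' h'.1).2 h.2.2 h'.2.2 ?_
          rw [hu, hline q h.1, hline q' h'.1]
      · rcases Nat.eq_zero_or_pos F with hF0 | hFpos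
        · have : W3 = ∅ := by
            rw [← not_nonempty_iff_eq_empty]
            rintro ⟨q, hq⟩
            have h := mem_filter.1 hq
            have h2 := hbad q h.1
            unfold bads at h2
            rw [if_pos ⟨h.2.2, hGen⟩] at h2
            omega
          rw [this]
          simp only [card_empty, Nat.cast_zero]
          positivity
        · obtain ⟨F', rfl⟩ : ∃ F', F = F' + 1 := ⟨F - 1, by omega⟩
          have := type_bound (F' := F') (k := P.K1) hε hΛ0 ih' (filter_subset _ _ : W3 ⊆ W)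
            (nx := fun q => nxt0 P p e X B q.1 q.2) hnx3 hmem3 ?_ hK0 ?_ hsz3
          · refine this.trans (le_of_eq ?_)
            rw [hG, pow_succ]
            ring
          · intro q hq
            have h := mem_filter.1 hq
            have h2 := hbad q h.1
            unfold bads at h2
            rw [if_pos ⟨h.2.2, hGen⟩, hnx3 q hq] at h2
            show bads P s L (nxt0 P p e X B q.1 q.2) q.1 q.2 ≤ F'
            omega
          · refine le_trans (card_le_card ?_) (p_A2 P p e u X B n hp hpu)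
            apply image_subset_image
            intro q hq
            have h := mem_filter.1 hq
            rw [mem_filter, mem_product]
            exact ⟨hXm q h.1, hline q h.1, h.2.2.1⟩
    -- blocked
    have b4 : (W4.card : ℝ) ≤ G := by
      have h1 : W4 ⊆ pts P s L X B F n := by
        intro q hq
        have h := mem_filter.1 hq
        have hst : stp P q0.1 q0.2 (X, B) q.1 q.2 = (X, B) := by
          exact stp_blocked h.2.1 h.2.2
        unfold pts
        rw [mem_filter, mem_product]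
        refine ⟨hXm q h.1, (mem_filter.1 h.1).2.1, ?_, ?_⟩
        · have := (mem_filter.1 h.1).2.2.1
          unfold run at this
          rw [hst] at this
          exact this
        · have h3 := bads_cons_le P s q0 L (X, B) q.1 q.2
          rw [hst] at h3
          exact h3.trans (hbad q h.1)
      have h2 : (W4.card : ℝ) ≤ ((pts P s L X B F n).card : ℝ) := by
        exact_mod_cast card_le_card h1
      exact h2.trans (ih' X B F n)
    have hcard : (W.card : ℝ) ≤ W1.card + W2.card + (W3.card + W4.card) := by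
      have h1 := card_le_card hcov
      have h2 := card_union_le (W1 ∪ W2) (W3 ∪ W4)
      have h3 := card_union_le W1 W2
      have h4 := card_union_le W3 W4
      exact_mod_cast h1.trans (h2.trans (add_le_add h3 h4))
    calc (W.card : ℝ) ≤ W1.card + W2.card + (W3.card + W4.card) := hcard
      _ ≤ P.K0 * ((P.K1 : ℝ) ^ (-ε) * G) + P.K1 * ((P.K2 : ℝ) ^ (-ε) * G) +
          ((P.K0 : ℝ) ^ (-ε) * G + G) := by linarith
      _ = (1 + (P.K0 : ℝ) * (P.K1 : ℝ) ^ (-ε) + (P.K1 : ℝ) * (P.K2 : ℝ) ^ (-ε) +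
          (P.K0 : ℝ) ^ (-ε)) * G := by ring
      _ ≤ Λ * G := mul_le_mul_of_nonneg_right hΛ hG0
      _ = P.K0 * Λ ^ (q0 :: L).length * ((X.card : ℝ) * B.card) ^ ε * (P.K1 : ℝ) ^ F := by
          rw [List.length_cons, pow_succ, hG]
          ring

end PA3

theorem p_A3 : S_A3 := by
  intro P s ε Λ hε hK0 hK1 hK2 hΛ L hL X B F n
  exact PA3.main P s ε Λ hε hK0 hK1 hK2 hΛ L hL X B F n

end

end Pool.Agent.Helper5.RD
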