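import Pool.Agent.Helper5.RD.Stm

/-! # Project RD, package B: unfinished runs over a down-closed set of exponent vectors -/

set_option autoImplicit false

namespace Pool.Agent.Helper5.RD.PB

open Finset Classical Pool.Agent.Helper5.RD

theorem self_mem_cls {Q : ℕ} {X : Finset ℤ} {x : ℤ} (hx : x ∈ X) : x ∈ cls Q X x := by
  simp [cls, hx]

theorem cls_sub (Q : ℕ) (X : Finset ℤ) (x : ℤ) : cls Q X x ⊆ X := filter_subset _ _

theorem light_fst {p K : ℕ} {X : Finset ℤ} {x : ℤ} (h : ∃ J, light p K X x J) :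
    light p K X x (fst p K X x) := Nat.sInf_mem h

theorem fst_le {p K : ℕ} {X : Finset ℤ} {x : ℤ} {J : ℕ} (h : light p K X x J) :
    fst p K X x ≤ J := Nat.sInf_le h

theorem light_card {p K : ℕ} {X : Finset ℤ} {x : ℤ} {J : ℕ} (hx : x ∈ X)
    (h : light p K X x J) : K < X.card := by
  have h1 : 0 < (cls (p ^ J) X x).card := card_pos.2 ⟨x, self_mem_cls hx⟩
  have h2 : (cls (p ^ J) X x).card * K < X.card := h
  nlinarith

theorem light_zero {p K : ℕ} {X : Finset ℤ} {x : ℤ} (hK : 1 ≤ K) : ¬ light p K X x 0 := by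
  intro h
  have h2 : (cls (p ^ 0) X x).card * K < X.card := h
  have h3 : cls (p ^ 0) X x = X := by simp [cls]
  rw [h3] at h2
  nlinarith

theorem light_exists {p K : ℕ} (hp : 1 < p) {X : Finset ℤ} {x : ℤ} (h : K < X.card) :
    ∃ J, light p K X x J := by
  refine ⟨X.sup (fun y => (y - x).natAbs), ?_⟩
  set J := X.sup (fun y => (y - x).natAbs) with hJ
  have h1 : cls (p ^ J) X x ⊆ {x} := by
    intro y hy
    rw [cls, mem_filter] at hy
    by_contra hne
    have h2 : y - x ≠ 0 := fun h3 => hne (mem_singleton.2 (sub_eq_zero.1 h3))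
    have h3 : p ^ J ≤ (y - x).natAbs :=
      Nat.le_of_dvd (Int.natAbs_pos.2 h2) (Int.natCast_dvd.1 hy.2)
    have h4 : (y - x).natAbs ≤ J := le_sup (f := fun y => (y - x).natAbs) hy.1
    exact absurd (Nat.lt_pow_self hp (n := J)) (by omega)
  have h2 : (cls (p ^ J) X x).card ≤ 1 := (card_le_card h1).trans (by simp)
  show (cls (p ^ J) X x).card * K < X.card
  nlinarith

/-- a finished cell does not change -/
theorem stp_fin {P : Par} {p e : ℕ} {C : Finset ℤ × Finset ℤ} {x b : ℤ} (hx : x ∈ C.1)
    (hb : b ∈ C.2) (h : Fin1 P C) : stp P p e C x b = C := by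
  have h1 : ¬ T1 P p e C.1 C.2 x b := by
    rintro ⟨⟨J, hJ⟩, _⟩
    exact absurd (light_card hb hJ) (not_lt.2 h.2)
  have h0 : ¬ T0 P p e C.1 C.2 x b := by
    rintro ⟨⟨J, hJ⟩, _⟩
    exact absurd (light_card hx hJ) (not_lt.2 h.1)
  rw [stp, if_neg h1, if_neg h0]

theorem run_fin {P : Par} (L : List (ℕ × ℕ)) {C : Finset ℤ × Finset ℤ} {x b : ℤ} (hx : x ∈ C.1)
    (hb : b ∈ C.2) (h : Fin1 P C) : run P L C x b = C := by
  induction L with
  | nil => rfl
  | cons q L ih => rw [run, stp_fin hx hb h, ih]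

theorem stp_mem {P : Par} {p e : ℕ} {C : Finset ℤ × Finset ℤ} {x b : ℤ} (hx : x ∈ C.1)
    (hb : b ∈ C.2) : x ∈ (stp P p e C x b).1 ∧ b ∈ (stp P p e C x b).2 := by
  rw [stp]
  split_ifs
  · exact ⟨self_mem_cls hx, self_mem_cls hb⟩
  · exact ⟨self_mem_cls hx, self_mem_cls hb⟩
  · exact ⟨hx, hb⟩

theorem stp_sub {P : Par} {p e : ℕ} {C : Finset ℤ × Finset ℤ} {x b : ℤ} :
    (stp P p e C x b).1 ⊆ C.1 ∧ (stp P p e C x b).2 ⊆ C.2 := by
  rw [stp]
  split_ifs
  · exact ⟨cls_sub _ _ _, cls_sub _ _ _⟩
  · exact ⟨cls_sub _ _ _, cls_sub _ _ _⟩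
  · exact ⟨Subset.rfl, Subset.rfl⟩

/-- a step of type 1 or 0 shrinks the cell -/
theorem stp_card {P : Par} (hK : P.K0 ≤ P.K1) {p e : ℕ} {C : Finset ℤ × Finset ℤ} {x b : ℤ}
    (h : T1 P p e C.1 C.2 x b ∨ T0 P p e C.1 C.2 x b) :
    (stp P p e C x b).1.card * (stp P p e C x b).2.card * P.K0 ≤ C.1.card * C.2.card := by
  by_cases h1 : T1 P p e C.1 C.2 x b
  · rw [stp, if_pos h1]
    have h2 : (cls (p ^ fst p P.K1 C.2 b) C.2 b).card * P.K1 < C.2.card := light_fst h1.1
    have h3 : (cls (p ^ (fst p P.K1 C.2 b - e)) C.1 x).card ≤ C.1.card :=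
      card_le_card (cls_sub _ _ _)
    show (cls (p ^ (fst p P.K1 C.2 b - e)) C.1 x).card *
      (cls (p ^ fst p P.K1 C.2 b) C.2 b).card * P.K0 ≤ _
    calc _ = (cls (p ^ (fst p P.K1 C.2 b - e)) C.1 x).card *
          ((cls (p ^ fst p P.K1 C.2 b) C.2 b).card * P.K0) := by ring
      _ ≤ C.1.card * ((cls (p ^ fst p P.K1 C.2 b) C.2 b).card * P.K1) := by gcongr
      _ ≤ C.1.card * C.2.card := by gcongr
  · have h0 : T0 P p e C.1 C.2 x b := h.resolve_left h1
    rw [stp, if_neg h1, if_pos h0]
    have h2 : (cls (p ^ fst p P.K0 C.1 x) C.1 x).card * P.K0 < C.1.card := light_fst h0.1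
    have h3 : (cls (p ^ (fst p P.K0 C.1 x + e)) C.2 b).card ≤ C.2.card :=
      card_le_card (cls_sub _ _ _)
    show (cls (p ^ fst p P.K0 C.1 x) C.1 x).card *
      (cls (p ^ (fst p P.K0 C.1 x + e)) C.2 b).card * P.K0 ≤ _
    calc _ = ((cls (p ^ fst p P.K0 C.1 x) C.1 x).card * P.K0) *
          (cls (p ^ (fst p P.K0 C.1 x + e)) C.2 b).card := by ring
      _ ≤ C.1.card * C.2.card := by gcongr

/-- at most one exponent leaves an unfinished cell unchanged -/
theorem special {P : Par} (h0 : 1 ≤ P.K0) {p e : ℕ} (hp : 1 < p)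
    {C : Finset ℤ × Finset ℤ} {x b : ℤ} (hf : ¬ Fin1 P C)
    (h1 : ¬ T1 P p e C.1 C.2 x b) (h2 : ¬ T0 P p e C.1 C.2 x b) :
    e = fst p P.K1 C.2 b - fst p P.K0 C.1 x := by
  have a1 : (∃ J, light p P.K1 C.2 b J) → light p P.K0 C.1 x (fst p P.K1 C.2 b - e) := by
    intro h3
    by_contra h4
    exact h1 ⟨h3, h4⟩
  have a2 : (∃ J, light p P.K0 C.1 x J) → light p P.K1 C.2 b (fst p P.K0 C.1 x + e) := by
    intro h3
    by_contra h4
    exact h2 ⟨h3, h4⟩
  have key : (∃ J, light p P.K1 C.2 b J) → (∃ J, light p P.K0 C.1 x J) →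
      e = fst p P.K1 C.2 b - fst p P.K0 C.1 x := by
    intro h3 h4
    have b1 : fst p P.K0 C.1 x ≤ fst p P.K1 C.2 b - e := fst_le (a1 h3)
    have b2 : fst p P.K1 C.2 b ≤ fst p P.K0 C.1 x + e := fst_le (a2 h4)
    have b3 : fst p P.K0 C.1 x ≠ 0 := by
      intro h5
      have h6 := light_fst h4
      rw [h5] at h6
      exact light_zero h0 h6
    omega
  rw [Fin1, not_and_or, not_le, not_le] at hf
  rcases hf with hf | hf
  · have h4 : ∃ J, light p P.K0 C.1 x J := light_exists hp hf
    exact key ⟨_, a2 h4⟩ h4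
  · have h3 : ∃ J, light p P.K1 C.2 b J := light_exists hp hf
    exact key h3 ⟨_, a1 h3⟩

/-- slices -/
noncomputable def slice (E : Finset (List ℕ)) (k : ℕ) : Finset (List ℕ) :=
  E.preimage (List.cons k) (List.cons_injective.injOn)

theorem mem_slice {E : Finset (List ℕ)} {k : ℕ} {l : List ℕ} : l ∈ slice E k ↔ k :: l ∈ E := by
  rw [slice, mem_preimage]

theorem slice_sum (E : Finset (List ℕ)) (hE : ∀ l ∈ E, l ≠ []) (f : List ℕ → ℝ) :
    ∑ l ∈ E, f l = ∑ k ∈ E.image List.headI, ∑ l' ∈ slice E k, f (k :: l') := by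
  rw [← sum_fiberwise_of_maps_to (s := E) (t := E.image List.headI) (g := List.headI)
    (fun l hl => mem_image_of_mem _ hl) f]
  refine sum_congr rfl fun k _ => ?_
  have h1 : E.filter (fun l => l.headI = k) = (slice E k).image (List.cons k) := by
    ext l
    rw [mem_filter, mem_image]
    constructor
    · rintro ⟨hl, hk⟩
      cases l with
      | nil => exact absurd rfl (hE _ hl)
      | cons a l =>
        have hk' : a = k := hk
        subst hk'
        exact ⟨l, mem_slice.2 hl, rfl⟩
    · rintro ⟨l', hl', rfl⟩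
      exact ⟨mem_slice.1 hl', rfl⟩
  rw [h1, sum_image fun a _ c _ h => List.cons_injective h]

theorem slice_card (E : Finset (List ℕ)) (hE : ∀ l ∈ E, l ≠ []) :
    (E.card : ℝ) = ∑ k ∈ E.image List.headI, ((slice E k).card : ℝ) := by
  have h1 := slice_sum E hE (fun _ => 1)
  simpa using h1

theorem slice_card_le (E : Finset (List ℕ)) (k : ℕ) : (slice E k).card ≤ E.card := by
  have h1 : ((slice E k).image (List.cons k)).card = (slice E k).card :=
    card_image_of_injective _ List.cons_injective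
  rw [← h1]
  refine card_le_card fun l hl => ?_
  obtain ⟨l', hl', rfl⟩ := mem_image.1 hl
  exact mem_slice.1 hl'

theorem slice_card_two (E : Finset (List ℕ)) (k : ℕ) (hk : k ≠ 0)
    (hdown : ∀ l ∈ E, ∀ l', List.Forall₂ (· ≤ ·) l' l → l' ∈ E) :
    2 * (slice E k).card ≤ E.card := by
  have h1 : slice E k ⊆ slice E 0 := by
    intro l hl
    refine mem_slice.2 (hdown _ (mem_slice.1 hl) _ ?_)
    exact List.Forall₂.cons (Nat.zero_le _) (List.forall₂_refl l)
  have h2 : Disjoint ((slice E k).image (List.cons k)) ((slice E 0).image (List.cons 0)) := by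
    rw [disjoint_left]
    intro l hl hl'
    obtain ⟨a, _, rfl⟩ := mem_image.1 hl
    obtain ⟨c, _, hc⟩ := mem_image.1 hl'
    exact hk (List.cons.inj hc).1.symm
  have h3 : (slice E k).image (List.cons k) ∪ (slice E 0).image (List.cons 0) ⊆ E := by
    refine union_subset ?_ ?_
    · intro l hl
      obtain ⟨l', hl', rfl⟩ := mem_image.1 hl
      exact mem_slice.1 hl'
    · intro l hl
      obtain ⟨l', hl', rfl⟩ := mem_image.1 hl
      exact mem_slice.1 hl'
  have h4 := card_le_card h3
  rw [card_union_of_disjoint h2, card_image_of_injective _ List.cons_injective,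
    card_image_of_injective _ List.cons_injective] at h4
  have h5 := card_le_card h1
  omega

theorem main : S_B := by
  intro P γ hγ h0 h01 ps
  induction ps with
  | nil =>
    intro _ x b C hx hb E hE _
    have hR : (1 : ℝ) ≤ ((C.1.card : ℝ) * C.2.card) ^ γ := by
      refine Real.one_le_rpow ?_ hγ
      have h1 : 0 < C.1.card := card_pos.2 ⟨x, hx⟩
      have h2 : 0 < C.2.card := card_pos.2 ⟨b, hb⟩
      exact_mod_cast Nat.mul_pos h1 h2
    have h1 : ∀ l ∈ E, l = [] := fun l hl => List.length_eq_zero_iff.1 (hE l hl)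
    calc ∑ l ∈ E.filter (fun l => ¬ Fin1 P (run P (([] : List ℕ).zip l) C x b)),
          (2 : ℝ) ^ (l.countP (· ≠ 0))
        ≤ ∑ l ∈ E, (2 : ℝ) ^ (l.countP (· ≠ 0)) :=
          sum_le_sum_of_subset_of_nonneg (filter_subset _ _) fun _ _ _ => by positivity
      _ = ∑ l ∈ E, (1 : ℝ) := sum_congr rfl fun l hl => by rw [h1 l hl]; simp
      _ = E.card := by simp
      _ ≤ E.card * (1 + 2 * (P.K0 : ℝ) ^ (-γ)) ^ ([] : List ℕ).length *
          ((C.1.card : ℝ) * C.2.card) ^ γ := by
          rw [List.length_nil, pow_zero, mul_one]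
          exact le_mul_of_one_le_right (Nat.cast_nonneg _) hR
  | cons p ps ih =>
    intro hps x b C hx hb E hE hdown
    have hp : p.Prime := hps p (List.mem_cons_self)
    have hps' : ∀ q ∈ ps, q.Prime := fun q hq => hps q (List.mem_cons_of_mem _ hq)
    have hne : ∀ l ∈ E, l ≠ [] := by
      intro l hl h1
      have h2 := hE l hl
      rw [h1] at h2
      simp at h2
    have hK0 : (0 : ℝ) < P.K0 := by exact_mod_cast h0
    set κ : ℝ := (P.K0 : ℝ) ^ (-γ) with hκ
    have hκ0 : 0 ≤ κ := Real.rpow_nonneg hK0.le _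
    set M : ℝ := (1 + 2 * κ) ^ ps.length with hM
    have hM0 : 0 ≤ M := by positivity
    set R : ℝ := ((C.1.card : ℝ) * C.2.card) ^ γ with hR
    have hR0 : 0 ≤ R := by positivity
    rcases Classical.em (Fin1 P C) with hfin | hfin
    · have h1 : E.filter (fun l => ¬ Fin1 P (run P ((p :: ps).zip l) C x b)) = ∅ := by
        refine filter_eq_empty_iff.2 fun l _ => ?_
        rw [run_fin _ hx hb hfin, not_not]
        exact hfin
      rw [h1, sum_empty]
      positivity
    -- the bound for each slice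
    have hsl : ∀ k, (∑ l' ∈ slice E k,
        if ¬ Fin1 P (run P ((p :: ps).zip (k :: l')) C x b) then
          (2 : ℝ) ^ ((k :: l').countP (· ≠ 0)) else 0) ≤
        (if k = 0 then 1 else 2) * ((slice E k).card * M *
          (((stp P p k C x b).1.card : ℝ) * (stp P p k C x b).2.card) ^ γ) := by
      intro k
      have h1 : ∀ l ∈ slice E k, l.length = ps.length := by
        intro l hl
        have h2 := hE _ (mem_slice.1 hl)
        simpa using h2
      have h2 : ∀ l ∈ slice E k, ∀ l', List.Forall₂ (· ≤ ·) l' l → l' ∈ slice E k := by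
        intro l hl l' hl'
        exact mem_slice.2 (hdown _ (mem_slice.1 hl) _ (List.Forall₂.cons le_rfl hl'))
      have h3 := ih hps' x b (stp P p k C x b) (stp_mem hx hb).1 (stp_mem hx hb).2
        (slice E k) h1 h2
      have h4 : (∑ l' ∈ slice E k,
          if ¬ Fin1 P (run P ((p :: ps).zip (k :: l')) C x b) then
            (2 : ℝ) ^ ((k :: l').countP (· ≠ 0)) else 0) =
          (if k = 0 then 1 else 2) * ∑ l ∈ (slice E k).filter
            (fun l => ¬ Fin1 P (run P (ps.zip l) (stp P p k C x b) x b)),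
              (2 : ℝ) ^ (l.countP (· ≠ 0)) := by
        rw [sum_filter, mul_sum]
        refine sum_congr rfl fun l _ => ?_
        have h5 : run P ((p :: ps).zip (k :: l)) C x b = run P (ps.zip l) (stp P p k C x b) x b :=
          rfl
        rw [h5]
        by_cases h6 : Fin1 P (run P (ps.zip l) (stp P p k C x b) x b)
        · rw [if_neg (not_not.2 h6), if_neg (not_not.2 h6), mul_zero]
        · rw [if_pos h6, if_pos h6]
          by_cases h7 : k = 0
          · simp [h7]
          · simp [h7, pow_succ, mul_comm]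
      rw [h4]
      refine mul_le_mul_of_nonneg_left h3 ?_
      split_ifs <;> norm_num
    set es : ℕ := fst p P.K1 C.2 b - fst p P.K0 C.1 x with hes
    have hterm : ∀ k, (if k = 0 then (1 : ℝ) else 2) * ((slice E k).card * M *
          (((stp P p k C x b).1.card : ℝ) * (stp P p k C x b).2.card) ^ γ) ≤
        2 * κ * M * R * (slice E k).card + (if k = es then E.card * M * R else 0) := by
      intro k
      by_cases hk : T1 P p k C.1 C.2 x b ∨ T0 P p k C.1 C.2 x b
      · have h1 := stp_card h01 hk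
        have h2 : (((stp P p k C x b).1.card : ℝ) * (stp P p k C x b).2.card) ^ γ ≤ κ * R := by
          have h3 : ((stp P p k C x b).1.card : ℝ) * (stp P p k C x b).2.card ≤
              (P.K0 : ℝ)⁻¹ * ((C.1.card : ℝ) * C.2.card) := by
            rw [inv_mul_eq_div, le_div_iff₀ hK0]
            exact_mod_cast h1
          calc _ ≤ ((P.K0 : ℝ)⁻¹ * ((C.1.card : ℝ) * C.2.card)) ^ γ :=
                Real.rpow_le_rpow (by positivity) h3 hγ
            _ = κ * R := by
                rw [Real.mul_rpow (by positivity) (by positivity), Real.inv_rpow hK0.le,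
                  ← Real.rpow_neg hK0.le]
        have h4 : (0 : ℝ) ≤ if k = es then E.card * M * R else 0 := by
          split_ifs <;> positivity
        have h5 : (if k = 0 then (1 : ℝ) else 2) ≤ 2 := by split_ifs <;> norm_num
        calc _ ≤ 2 * ((slice E k).card * M * (κ * R)) := by gcongr
          _ = 2 * κ * M * R * (slice E k).card := by ring
          _ ≤ _ := le_add_of_nonneg_right h4
      · rw [not_or] at hk
        have h1 : k = es := special h0 hp.one_lt hfin hk.1 hk.2
        have h2 : stp P p k C x b = C := by rw [stp, if_neg hk.1, if_neg hk.2]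
        rw [if_pos h1, h2]
        have h3 : (if k = 0 then (1 : ℝ) else 2) * (slice E k).card ≤ E.card := by
          by_cases h4 : k = 0
          · rw [if_pos h4, one_mul]
            exact_mod_cast slice_card_le E k
          · rw [if_neg h4]
            exact_mod_cast slice_card_two E k h4 hdown
        calc _ = ((if k = 0 then (1 : ℝ) else 2) * (slice E k).card) * (M * R) := by ring
          _ ≤ E.card * (M * R) := by gcongr
          _ = E.card * M * R := by ring
          _ ≤ _ := le_add_of_nonneg_left (by positivity)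
    rw [sum_filter, slice_sum E hne]
    calc _ ≤ ∑ k ∈ E.image List.headI, (2 * κ * M * R * (slice E k).card +
            (if k = es then E.card * M * R else 0)) :=
          sum_le_sum fun k _ => (hsl k).trans (hterm k)
      _ = 2 * κ * M * R * E.card + ∑ k ∈ E.image List.headI,
            (if k = es then E.card * M * R else 0) := by
          rw [sum_add_distrib, ← mul_sum, ← slice_card E hne]
      _ ≤ 2 * κ * M * R * E.card + E.card * M * R := by
          gcongr
          rw [sum_ite_eq']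
          split_ifs
          · exact le_rfl
          · positivity
      _ = E.card * (1 + 2 * κ) ^ (p :: ps).length * R := by
          rw [List.length_cons, pow_succ]
          ring

end Pool.Agent.Helper5.RD.PB

namespace Pool.Agent.Helper5.RD

theorem p_B : S_B := PB.main

end Pool.Agent.Helper5.RD
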