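import Pool.Agent.Helper5.RD.Stm

/-! # Project RD: package C -/

namespace Pool.Agent.Helper5.RD

open Finset Classical

namespace C

/-- The product of primes below the primes of another set of the same size. -/
lemma prod_lt {R I : Finset ℕ} (hc : R.card = I.card) (hR : ∀ r ∈ R, ∀ p ∈ I, r < p)
    (hI : I.Nonempty) : ∏ r ∈ R, r < ∏ p ∈ I, p := by
  obtain ⟨m, hm, hmin⟩ := Finset.exists_min_image I id hI
  have h1 : ∏ r ∈ R, r ≤ (m - 1) ^ R.card := by
    apply Finset.prod_le_pow_card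
    intro r hr
    have := hR r hr m hm
    omega
  have h2 : m ^ I.card ≤ ∏ p ∈ I, p := by
    rw [← Finset.prod_const]
    exact Finset.prod_le_prod' fun p hp => hmin p hp
  have hR' : R.Nonempty := by
    rw [← Finset.card_pos, hc]
    exact Finset.card_pos.2 hI
  obtain ⟨r, hr⟩ := hR'
  have hm0 : 0 < m := lt_of_le_of_lt (Nat.zero_le _) (hR r hr m hm)
  have h3 : (m - 1) ^ R.card < m ^ I.card := by
    rw [hc]
    exact Nat.pow_lt_pow_left (by omega) (Finset.card_pos.2 hI).ne'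
  omega

lemma eq_of_mod_aux {I : Finset ℕ} (hI : ∀ p ∈ I, p.Prime) {a b : ℕ} (hle : a ≤ b)
    (h : ∀ p ∈ I, a ≡ b [MOD p]) (hb : b < ∏ p ∈ I, p) : a = b := by
  have h1 : ∏ p ∈ I, p ∣ b - a :=
    Finset.prod_primes_dvd _ (fun p hp => (hI p hp).prime)
      fun p hp => (Nat.modEq_iff_dvd' hle).1 (h p hp)
  have h2 := Nat.eq_zero_of_dvd_of_lt h1 (by omega)
  omega

lemma eq_of_mod {I : Finset ℕ} (hI : ∀ p ∈ I, p.Prime) {a b : ℕ}
    (h : ∀ p ∈ I, a ≡ b [MOD p]) (ha : a < ∏ p ∈ I, p) (hb : b < ∏ p ∈ I, p) : a = b := by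
  rcases le_total a b with hle | hle
  · exact eq_of_mod_aux hI hle h hb
  · exact (eq_of_mod_aux hI hle (fun p hp => (h p hp).symm) ha).symm

lemma fiber (E0 : Finset ℕ) (h0 : ∀ t ∈ E0, t ≠ 0) (hdc : ∀ t ∈ E0, ∀ t', t' ∣ t → t' ∈ E0)
    (I : Finset ℕ) (hI : ∀ p ∈ I, p.Prime)
    (hlt : ∀ t ∈ E0, ∀ r : ℕ, r.Prime → r ∣ t → ∀ p ∈ I, r < p) (Z : ℕ → Finset ℕ) (K : ℕ)
    (hZ : ∀ p ∈ I, (Z p).card ≤ K) :
    ((E0.filter fun t => ∀ p ∈ I, t % p ∈ Z p).sigma
      fun t => t.primeFactors.powersetCard I.card).card ≤ K ^ I.card * E0.card := by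
  have hprod : ∀ t ∈ E0, ∀ R ∈ t.primeFactors.powersetCard I.card, ∏ r ∈ R, r ∣ t ∧
      (∏ r ∈ R, r).primeFactors = R := by
    intro t ht R hR
    obtain ⟨h1, h2⟩ := Finset.mem_powersetCard.1 hR
    refine ⟨?_, ?_⟩
    · exact (Finset.prod_dvd_prod_of_subset _ _ _ h1).trans (Nat.prod_primeFactors_dvd t)
    · exact Nat.primeFactors_prod fun r hr => Nat.prime_of_mem_primeFactors (h1 hr)
  have hcard : (E0 ×ˢ I.pi Z).card ≤ K ^ I.card * E0.card := by
    rw [Finset.card_product, Finset.card_pi, mul_comm]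
    exact Nat.mul_le_mul_right _ (Finset.prod_le_pow_card _ _ _ hZ)
  refine le_trans ?_ hcard
  apply Finset.card_le_card_of_injOn
    (fun q : (_ : ℕ) × Finset ℕ => (q.1 / ∏ r ∈ q.2, r, fun p (_ : p ∈ I) => q.1 % p))
  · rintro ⟨t, R⟩ hq
    obtain ⟨h1, h2⟩ := Finset.mem_sigma.1 (Finset.mem_coe.1 hq)
    obtain ⟨h3, h4⟩ := Finset.mem_filter.1 h1
    rw [Finset.mem_coe, Finset.mem_product]
    exact ⟨hdc t h3 _ (Nat.div_dvd_of_dvd (hprod t h3 R h2).1),
      Finset.mem_pi.2 fun p hp => h4 p hp⟩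
  · rintro ⟨t, R⟩ hq ⟨t', R'⟩ hq' heq
    obtain ⟨h1, h2⟩ := Finset.mem_sigma.1 (Finset.mem_coe.1 hq)
    obtain ⟨h1', h2'⟩ := Finset.mem_sigma.1 (Finset.mem_coe.1 hq')
    obtain ⟨h3, -⟩ := Finset.mem_filter.1 h1
    obtain ⟨h3', -⟩ := Finset.mem_filter.1 h1'
    obtain ⟨k1, k2⟩ := hprod t h3 R h2
    obtain ⟨k1', k2'⟩ := hprod t' h3' R' h2'
    obtain ⟨e1, e2⟩ := Prod.ext_iff.1 heq
    simp only at e1 e2 h2 h2' h3 h3' k1 k2 k1' k2'
    have e3 : ∀ p ∈ I, t % p = t' % p := fun p hp => congrFun (congrFun e2 p) hp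
    have t1 : t / (∏ r ∈ R, r) * (∏ r ∈ R, r) = t := Nat.div_mul_cancel k1
    have t2 : t / (∏ r ∈ R, r) * (∏ r ∈ R', r) = t' := by
      rw [e1]
      exact Nat.div_mul_cancel k1'
    have hPP : ∏ r ∈ R, r = ∏ r ∈ R', r := by
      rcases I.eq_empty_or_nonempty with rfl | hne
      · rw [Finset.card_empty, Finset.powersetCard_zero, Finset.mem_singleton] at h2 h2'
        rw [h2, h2']
      · have c1 := (Finset.mem_powersetCard.1 h2)
        have c2 := (Finset.mem_powersetCard.1 h2')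
        have l1 : ∏ r ∈ R, r < ∏ p ∈ I, p := prod_lt c1.2 (fun r hr p hp =>
          hlt t h3 r (Nat.prime_of_mem_primeFactors (c1.1 hr))
            (Nat.dvd_of_mem_primeFactors (c1.1 hr)) p hp) hne
        have l2 : ∏ r ∈ R', r < ∏ p ∈ I, p := prod_lt c2.2 (fun r hr p hp =>
          hlt t' h3' r (Nat.prime_of_mem_primeFactors (c2.1 hr))
            (Nat.dvd_of_mem_primeFactors (c2.1 hr)) p hp) hne
        have hmod : ∀ p ∈ I, ∏ r ∈ R, r ≡ ∏ r ∈ R', r [MOD p] := by
          intro p hp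
          have m1 : t / (∏ r ∈ R, r) * (∏ r ∈ R, r) ≡ t / (∏ r ∈ R, r) * (∏ r ∈ R', r)
              [MOD p] := by
            rw [t1, t2]
            exact e3 p hp
          refine Nat.ModEq.cancel_left_of_coprime ?_ m1
          have hpp := hI p hp
          change Nat.gcd p (t / ∏ r ∈ R, r) = 1
          rw [← Nat.coprime_iff_gcd_eq_one, Nat.Prime.coprime_iff_not_dvd hpp]
          intro hd
          exact lt_irrefl p (hlt t h3 p hpp (hd.trans (Nat.div_dvd_of_dvd k1)) p hp)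
        exact eq_of_mod hI hmod l1 l2
    have hRR : R = R' := by rw [← k2, ← k2', hPP]
    have htt : t = t' := by rw [← t1, ← t2, hPP]
    subst hRR htt
    rfl

end C

/-- Few elements of a divisor-closed set are in the sets `Z p` for many primes `p`. -/
theorem p_C : S_C := by
  intro E0 h0 hdc I hI hlt Z K hZ F k f
  set S := E0.filter (fun t => k ≤ t.primeFactors.card ∧
    F ≤ (I.filter (fun p => t % p ∈ Z p)).card) with hS
  have h1 : F.choose f * k.choose f * S.card ≤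
      ∑ t ∈ S, ∑ J ∈ (I.filter (fun p => t % p ∈ Z p)).powersetCard f,
        (t.primeFactors.powersetCard f).card := by
    rw [mul_comm, ← smul_eq_mul]
    apply Finset.card_nsmul_le_sum
    intro t ht
    obtain ⟨-, h2, h3⟩ := Finset.mem_filter.1 ht
    rw [Finset.sum_const, smul_eq_mul, Finset.card_powersetCard, Finset.card_powersetCard]
    exact Nat.mul_le_mul (Nat.choose_le_choose f h3) (Nat.choose_le_choose f h2)
  have h2 : ∑ t ∈ S, ∑ J ∈ (I.filter (fun p => t % p ∈ Z p)).powersetCard f,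
        (t.primeFactors.powersetCard f).card ≤
      ∑ t ∈ E0, ∑ J ∈ I.powersetCard f, if ∀ p ∈ J, t % p ∈ Z p then
        (t.primeFactors.powersetCard f).card else 0 := by
    refine (Finset.sum_le_sum_of_subset (Finset.filter_subset _ _)).trans ?_
    refine Finset.sum_le_sum fun t _ => ?_
    rw [← Finset.sum_filter]
    refine Finset.sum_le_sum_of_subset fun J hJ => ?_
    obtain ⟨h3, h4⟩ := Finset.mem_powersetCard.1 hJ
    exact Finset.mem_filter.2 ⟨Finset.mem_powersetCard.2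
      ⟨h3.trans (Finset.filter_subset _ _), h4⟩, fun p hp => (Finset.mem_filter.1 (h3 hp)).2⟩
  have h3 : ∑ t ∈ E0, ∑ J ∈ I.powersetCard f, (if ∀ p ∈ J, t % p ∈ Z p then
        (t.primeFactors.powersetCard f).card else 0) =
      ∑ J ∈ I.powersetCard f, ((E0.filter fun t => ∀ p ∈ J, t % p ∈ Z p).sigma
      fun t => t.primeFactors.powersetCard f).card := by
    rw [Finset.sum_comm]
    refine Finset.sum_congr rfl fun J _ => ?_
    rw [Finset.card_sigma, Finset.sum_filter]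
  have h4 : ∑ J ∈ I.powersetCard f, ((E0.filter fun t => ∀ p ∈ J, t % p ∈ Z p).sigma
      fun t => t.primeFactors.powersetCard f).card ≤
      ∑ J ∈ I.powersetCard f, K ^ f * E0.card := by
    refine Finset.sum_le_sum fun J hJ => ?_
    obtain ⟨h5, h6⟩ := Finset.mem_powersetCard.1 hJ
    have := C.fiber E0 h0 hdc J (fun p hp => hI p (h5 hp))
      (fun t ht r hr hrt p hp => hlt t ht r hr hrt p (h5 hp)) Z K (fun p hp => hZ p (h5 hp))
    rwa [h6] at this
  calc F.choose f * k.choose f * S.card ≤ _ := h1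
    _ ≤ _ := h2
    _ = _ := h3
    _ ≤ _ := h4
    _ = K ^ f * I.card.choose f * E0.card := by
      rw [Finset.sum_const, smul_eq_mul, Finset.card_powersetCard]
      ring

end Pool.Agent.Helper5.RD
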