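import Pool.Agent.Helper5.RD.Stm5
import Pool.Agent.Helper5.RD.PCA

/-! # Project RD, package CIr -/

namespace Pool.Agent.Helper5.RD

open Finset Classical

noncomputable section

namespace PCIr

open PCA

theorem two_pow_sum_le' {q0 : ℕ} {Q : Finset ℕ} {a : ℕ} {σ : ℕ → ℕ}
    (h : sv q0 Q a = σ) :
    2 ^ (∑ p ∈ Q.filter (fun p => σ p ≠ 0), σ p) ≤ ∏ q ∈ Q, (a.factorization q + 1) := by
  rw [← prod_pow_eq_pow_sum]
  calc ∏ p ∈ Q.filter (fun p => σ p ≠ 0), 2 ^ σ p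
      ≤ ∏ p ∈ Q.filter (fun p => σ p ≠ 0), (a.factorization p + 1) := by
        refine prod_le_prod' fun p hp => ?_
        have := (sv_ne h (mem_filter.1 hp).2).2.2.2.1
        omega
    _ ≤ ∏ q ∈ Q, (a.factorization q + 1) := by
        refine prod_le_prod_of_subset_of_one_le' (filter_subset _ _) fun _ _ _ => by omega

theorem RC_mono {Q Q' D : Finset ℕ} (h : Q' ⊆ Q) (hD : RC Q D) : RC Q' D :=
  fun d hd m hm hr => hD d hd m hm (fun r hrp hrm => h (hr r hrp hrm))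

/-- The parameters of the runs, from the scale vector. -/
theorem scale' {G τ q0 k0 M : ℕ} {As Q : Finset ℕ} {σ : ℕ → ℕ} (hτ : 1 ≤ τ) (hG : G ≤ τ)
    (hq1 : 1 ≤ q0) (hq2 : 2 * τ ≤ q0) (hk0 : τ * k0 ≤ q0) (hAs : As.Nonempty)
    (hdiv : ∀ a ∈ As, ∏ q ∈ Q, (a.factorization q + 1) ≤ 2 ^ M) (hσ : ∀ a ∈ As, sv q0 Q a = σ) :
    ∃ (n w : ℕ → ℕ) (P : Finset ℕ), P ⊆ Q ∧ (∀ p, 1 ≤ w p) ∧ (∀ p ∈ P, k0 ≤ n p) ∧
      (∀ a ∈ As, ∀ p ∈ P, (2 ^ n p) ^ G ≤ a.factorization p / w p ∧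
        a.factorization p / w p < 2 * (2 ^ n p) ^ G) ∧
      (∀ p ∈ P, n p ≤ M / τ) ∧ ∑ p ∈ P, n p ≤ M / τ ∧ P.card ≤ M / q0 ∧
      (∀ a ∈ As, lam q0 Q a ≤ 2 * τ * ∑ p ∈ P, n p) := by
  obtain ⟨P, hP⟩ : ∃ P : Finset ℕ, P = Q.filter (fun p => σ p ≠ 0) := ⟨_, rfl⟩
  obtain ⟨a1, ha1⟩ := hAs
  have hsig : ∀ p ∈ P, q0 ≤ σ p := by
    intro p hp
    rw [hP, mem_filter] at hp
    exact (sv_ne (hσ a1 ha1) hp.2).2.2.1
  have hS : ∑ p ∈ P, σ p ≤ M := by
    have h1 := two_pow_sum_le' (hσ a1 ha1)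
    rw [← hP] at h1
    exact (Nat.pow_le_pow_iff_right (by norm_num)).1 (h1.trans (hdiv a1 ha1))
  have hmul : ∀ p, τ * (σ p / τ) ≤ σ p := fun p => Nat.mul_div_le _ _
  have hsum : ∑ p ∈ P, σ p / τ ≤ M / τ := by
    rw [Nat.le_div_iff_mul_le (by omega), sum_mul]
    refine le_trans (sum_le_sum fun p _ => ?_) hS
    rw [mul_comm]; exact hmul p
  have hGm : ∀ p, G * (σ p / τ) ≤ σ p := fun p => (Nat.mul_le_mul_right _ hG).trans (hmul p)
  refine ⟨fun p => σ p / τ, fun p => 2 ^ (σ p - G * (σ p / τ)), P, ?_, ?_, ?_, ?_, ?_, hsum, ?_, ?_⟩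
  · rw [hP]; exact filter_subset _ _
  · intro p; exact Nat.one_le_two_pow
  · intro p hp
    show k0 ≤ σ p / τ
    rw [Nat.le_div_iff_mul_le (by omega), mul_comm]
    exact hk0.trans (hsig p hp)
  · intro a ha p hp
    rw [hP, mem_filter] at hp
    have h1 := sv_ne (hσ a ha) hp.2
    show (2 ^ (σ p / τ)) ^ G ≤ a.factorization p / 2 ^ (σ p - G * (σ p / τ)) ∧
      a.factorization p / 2 ^ (σ p - G * (σ p / τ)) < 2 * (2 ^ (σ p / τ)) ^ G
    have h2 : (2 ^ (σ p / τ)) ^ G * 2 ^ (σ p - G * (σ p / τ)) = 2 ^ σ p := by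
      rw [← pow_mul, ← pow_add]
      congr 1
      have := hGm p
      rw [mul_comm (σ p / τ) G]; omega
    constructor
    · rw [Nat.le_div_iff_mul_le (by positivity), h2]
      exact h1.2.2.2.1
    · rw [Nat.div_lt_iff_lt_mul (by positivity), mul_assoc, h2, ← pow_succ']
      exact h1.2.2.2.2
  · intro p hp
    exact (single_le_sum (f := fun p => σ p / τ) (fun _ _ => Nat.zero_le _) hp).trans hsum
  · rw [Nat.le_div_iff_mul_le (by omega), ← smul_eq_mul, ← sum_const]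
    exact (sum_le_sum hsig).trans hS
  · intro a ha
    rw [lam_eq (hσ a ha), ← hP, mul_sum]
    refine sum_le_sum fun p hp => ?_
    have h1 : σ p < τ * (σ p / τ + 1) := Nat.lt_mul_div_succ _ (by omega)
    have h2 : 1 ≤ σ p / τ := by
      rw [Nat.le_div_iff_mul_le (by omega)]
      have := hsig p hp
      omega
    have h3 : τ ≤ τ * (σ p / τ) := Nat.le_mul_of_pos_right _ (by omega)
    have h4 : τ * (σ p / τ + 1) = τ * (σ p / τ) + τ := by ring
    have h5 : 2 * τ * (σ p / τ) = τ * (σ p / τ) + τ * (σ p / τ) := by ring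
    omega

end PCIr

open PCA in
theorem p_CIr (hCK : S_CK) (hN8 : S_N8r) (hN9 : S_N9r) (hN10 : S_N10r) (hO1 : S_O1) : S_CIr := by
  intro ε κ lam1 L hε hε1 hκ hlam hL
  obtain ⟨Ac, R, G, g, τ, k0, q0, N0, γ, η, β, hγ, hAc, hAγ, hη, hη1, hβ, hq01, hτ, hGτ, hq2, hk0,
    hN0, hT, hM⟩ := hCK ε κ lam1 L hε hε1 hκ hlam hL
  refine ⟨q0, N0, η, 4, hη, by norm_num, ?_⟩
  intro A D Q hNA hD0 hAD hRC hDc0 hQp hQL hbig B hB
  have ha0 : ∀ a ∈ A, a ≠ 0 := fun a ha => hD0 a (hAD ha)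
  obtain ⟨N, hN⟩ : ∃ N : ℕ, N = A.card := ⟨_, rfl⟩
  rw [← hN] at hNA hDc0 hQL hbig ⊢
  obtain ⟨M, hM1, hM2, hM3⟩ := hM N hNA
  obtain ⟨V, hV⟩ : ∃ V : ℝ, V = Vb β L M q0 := ⟨_, rfl⟩
  rw [← hV] at hM2 hM3
  have hN2 : 2 ≤ N := hN0.trans hNA
  have hN1' : (1 : ℝ) ≤ N := by exact_mod_cast (by omega : 1 ≤ N)
  have hN0' : (0 : ℝ) < N := by linarith
  have hA : A.Nonempty := card_pos.1 (by omega)
  have hB1 : (1 : ℝ) ≤ B.card := by exact_mod_cast card_pos.2 hB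
  have hB0 : (0 : ℝ) < B.card := by linarith
  obtain ⟨SS, hSS⟩ : ∃ SS : Finset ℤ,
    SS = ((A.image (Nat.cast : ℕ → ℤ) ×ˢ B).image (fun q => q.1 + q.2)) := ⟨_, rfl⟩
  rw [← hSS]
  have hSB : (B.card : ℝ) ≤ SS.card := by rw [hSS]; exact_mod_cast card_le_image_add hA B
  have hSS0 : (0 : ℝ) ≤ SS.card := by positivity
  by_cases hbg : (N : ℝ) ≤ (B.card : ℝ) ^ ε
  · -- trivial case
    have h1 : ((N : ℝ) * B.card) ^ (1 - ε) ≤ B.card := by
      calc ((N : ℝ) * B.card) ^ (1 - ε) ≤ ((B.card : ℝ) ^ ε * B.card) ^ (1 - ε) :=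
            Real.rpow_le_rpow (by positivity) (by gcongr) (by linarith)
        _ = ((B.card : ℝ) ^ (1 + ε)) ^ (1 - ε) := by
            rw [Real.rpow_add hB0, Real.rpow_one, mul_comm]
        _ = (B.card : ℝ) ^ ((1 + ε) * (1 - ε)) := by rw [← Real.rpow_mul hB0.le]
        _ ≤ (B.card : ℝ) ^ (1 : ℝ) := Real.rpow_le_rpow_of_exponent_le hB1 (by nlinarith)
        _ = B.card := Real.rpow_one _
    linarith
  rw [not_le] at hbg
  have hBN : (B.card : ℝ) ≤ (N : ℝ) ^ (1 / ε) := by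
    have h1 : ((B.card : ℝ) ^ ε) ^ (1 / ε) ≤ (N : ℝ) ^ (1 / ε) :=
      Real.rpow_le_rpow (by positivity) hbg.le (by positivity)
    rwa [← Real.rpow_mul hB0.le, mul_one_div_cancel hε.ne', Real.rpow_one] at h1
  have hDM : D.card ≤ 2 ^ M := by
    have : (D.card : ℝ) ≤ ((2 ^ M : ℕ) : ℝ) := by push_cast; exact hDc0.trans hM1
    exact_mod_cast this
  have hlogM : Real.log N ≤ M := by
    have e1 : (N : ℝ) ≤ 2 ^ M := by
      calc (N : ℝ) = (N : ℝ) ^ (1 : ℝ) := (Real.rpow_one _).symm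
        _ ≤ (N : ℝ) ^ (1 + η) := Real.rpow_le_rpow_of_exponent_le hN1' (by linarith)
        _ ≤ κ * (N : ℝ) ^ (1 + η) := le_mul_of_one_le_left (by positivity) hκ
        _ ≤ _ := hM1
    have e2 := Real.log_le_log hN0' e1
    rw [Real.log_pow] at e2
    have h2 : Real.log 2 ≤ 1 := by
      have := Real.log_two_lt_d9; linarith
    have h3 : (0 : ℝ) ≤ M := by positivity
    nlinarith
  have hQc : Q.card ≤ L * M := by
    have h1 : (Q.card : ℝ) ≤ L * M := by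
      refine hQL.trans ?_
      have : (0 : ℝ) ≤ L := by positivity
      nlinarith
    exact_mod_cast h1
  have hdiv : ∀ a ∈ A, ∏ q ∈ Q, (a.factorization q + 1) ≤ 2 ^ M := by
    intro a ha
    exact (hO1 Q D hQp hD0 hRC a (hAD ha)).1.trans hDM
  -- the elements with large exponents
  obtain ⟨AI, hAI⟩ : ∃ AI : Finset ℕ,
    AI = A.filter (fun a => lam1 * Real.log N ≤ (lam q0 Q a : ℝ)) := ⟨_, rfl⟩
  rw [← hAI] at hbig
  have hAIA : AI ⊆ A := by rw [hAI]; exact filter_subset _ _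
  have hAIne : AI.Nonempty := card_pos.1 (by omega)
  obtain ⟨σ, hσm, hσc⟩ := pigeon AI hAIne (sv q0 Q)
  obtain ⟨As, hAs⟩ : ∃ As : Finset ℕ, As = AI.filter (fun a => sv q0 Q a = σ) := ⟨_, rfl⟩
  have hσc' : AI.card ≤ (AI.image (sv q0 Q)).card * As.card := by
    rw [hAs]; convert hσc
  have hAsI : As ⊆ AI := by rw [hAs]; exact filter_subset _ _
  have hAsA : As ⊆ A := hAsI.trans hAIA
  have hAsne : As.Nonempty := by
    rw [← card_pos]
    by_contra h0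
    have h1 : As.card = 0 := by omega
    rw [h1, mul_zero] at hσc'
    have := card_pos.2 hAIne
    omega
  have hbase : (1 : ℝ) ≤ 1 + (2 : ℝ) ^ (-(β * q0)) / (1 - (2 : ℝ) ^ (-β)) := by
    have h1 : (2 : ℝ) ^ (-β) < 1 := Real.rpow_lt_one_of_one_lt_of_neg (by norm_num) (by linarith)
    have h2 : 0 ≤ (2 : ℝ) ^ (-(β * q0)) / (1 - (2 : ℝ) ^ (-β)) :=
      div_nonneg (by positivity) (by linarith)
    linarith
  have hVc : ((AI.image (sv q0 Q)).card : ℝ) ≤ V := by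
    refine (hN10 Q AI M q0 β hβ hq01 hQp (fun a ha => ⟨ha0 a (hAIA ha), hdiv a (hAIA ha)⟩)).trans ?_
    rw [hV]
    unfold Vb
    gcongr
  have hV0 : 0 < V := by
    rw [hV]; unfold Vb
    have : (0 : ℝ) < 1 + (2 : ℝ) ^ (-(β * q0)) / (1 - (2 : ℝ) ^ (-β)) := by linarith
    positivity
  have hAIV : (AI.card : ℝ) ≤ V * As.card := by
    have h1 : (AI.card : ℝ) ≤ ((AI.image (sv q0 Q)).card : ℝ) * As.card := by exact_mod_cast hσc'
    refine h1.trans ?_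
    gcongr
  have hNAI : (N : ℝ) ≤ 2 * AI.card := by exact_mod_cast hbig
  have hNAs : (N : ℝ) ≤ 2 * V * As.card := by nlinarith
  -- the scales
  obtain ⟨n, w, P, hPQ, hw, hkn, hfac, hnM, hsM, hPc, hlamn⟩ := PCIr.scale' (M := M) (k0 := k0) (Q := Q)
    (σ := σ) (As := As) hτ hGτ hq01 hq2 hk0 hAsne
    (fun a ha => hdiv a (hAsA ha)) (fun a ha => by
      rw [hAs] at ha; exact (mem_filter.1 ha).2)
  have hPp : ∀ p ∈ P, p.Prime := fun p hp => hQp p (hPQ hp)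
  have hps : ∀ p ∈ P.toList, p ∈ P := fun p hp => Finset.mem_toList.1 hp
  have htl : P.toList.toFinset = P := Finset.toList_toFinset P
  have hlen : P.toList.length = P.card := Finset.length_toList P
  obtain ⟨t, ht⟩ : ∃ t : ℕ → ℕ, t = fun p => 2 ^ n p := ⟨_, rfl⟩
  have htp : ∀ p, t p = 2 ^ n p := fun p => by rw [ht]
  have htk : ∀ p ∈ P, 2 ^ k0 ≤ t p := by
    intro p hp
    rw [htp]
    exact Nat.pow_le_pow_right (by norm_num) (hkn p hp)
  obtain ⟨Y, hY⟩ : ∃ Y : ℕ, Y = 2 ^ (Ac * (M / τ)) := ⟨_, rfl⟩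
  have htA : ∀ p ∈ P, t p ^ Ac ≤ Y := by
    intro p hp
    rw [htp, hY, ← pow_mul]
    apply Nat.pow_le_pow_right (by norm_num)
    rw [mul_comm]
    exact Nat.mul_le_mul_left _ (hnM p hp)
  have htY : ∀ p ∈ P, t p ≤ Y := by
    intro p hp
    refine le_trans ?_ (htA p hp)
    exact Nat.le_self_pow (by omega) _
  obtain ⟨X, hX⟩ : ∃ X : ℝ, X = (κ * (N : ℝ) ^ (1 + η) * (N : ℝ) ^ (1 / ε)) ^ γ := ⟨_, rfl⟩
  rw [← hX] at hM2 hM3
  have hX0 : 0 ≤ X := by rw [hX]; positivity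
  have hDX : ((D.card : ℝ) * B.card) ^ γ ≤ X := by
    rw [hX]
    apply Real.rpow_le_rpow (by positivity) _ hγ.le
    exact mul_le_mul hDc0 hBN (by positivity) (by positivity)
  have hDc' : (D.card : ℝ) ≤ N * (κ * (N : ℝ) ^ η) := by
    refine hDc0.trans (le_of_eq ?_)
    rw [Real.rpow_add hN0', Real.rpow_one]; ring
  obtain ⟨sn, hsn⟩ : ∃ sn : ℕ, sn = ∑ p ∈ P, n p := ⟨_, rfl⟩
  rw [← hsn] at hsM
  have hprod : (P.toList.map (fun p => ((t p : ℝ) ^ g)⁻¹)).prod = ((2 : ℝ) ^ (g * sn))⁻¹ := by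
    rw [Finset.prod_map_toList, prod_inv_distrib]
    congr 1
    rw [hsn, mul_sum, ← prod_pow_eq_pow_sum]
    refine prod_congr rfl fun p _ => ?_
    rw [htp]; push_cast
    rw [← pow_mul, mul_comm]
  -- the first inequality of the constants
  have hsn2 : lam1 * Real.log N / (2 * τ) ≤ sn := by
    obtain ⟨a1, ha1⟩ := hAsne
    have h1 := hlamn a1 ha1
    rw [← hsn] at h1
    have h2 : lam1 * Real.log N ≤ (lam q0 Q a1 : ℝ) := by
      have := hAsI ha1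
      rw [hAI] at this
      exact (mem_filter.1 this).2
    have h3 : (lam q0 Q a1 : ℝ) ≤ 2 * τ * sn := by exact_mod_cast h1
    have hτ0 : (0 : ℝ) < τ := by exact_mod_cast hτ
    rw [div_le_iff₀ (by positivity)]
    linarith
  have hM2' : 4 * V * (κ * (N : ℝ) ^ η) * X ≤ (2 : ℝ) ^ (g * sn) := by
    refine hM2.trans ?_
    rw [← Real.rpow_natCast]
    apply Real.rpow_le_rpow_of_exponent_le (by norm_num)
    push_cast
    gcongr
  have hRCP : RC P.toList.toFinset D := by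
    rw [htl]; exact PCIr.RC_mono hPQ hRC
  -- the bad pairs
  have hbad := bad_le D As B (fun d => ∀ p ∈ P.toList, t p ^ G ≤ d.factorization p / w p)
    (fun d b => Fin2 Y (run2 Ac R (trip t w P.toList (P.toList.map (fun p => d.factorization p / w p)))
        (D.image (Nat.cast : ℕ → ℤ), B) ((d / prt2 w P.toList.toFinset d : ℕ) : ℤ) b))
    (N / (4 * V)) (hAsA.trans hAD) (by
      intro a ha p hp
      rw [htp]
      exact (hfac a ha p (hps p hp)).1) (by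
      intro b hb
      have h8 := hN8 Ac R G g Y γ t w hγ.le hAc hw P.toList (Finset.nodup_toList P) (by
        intro p hp
        have h1 := hT (t p) (htk p (hps p hp))
        have h2 := h1.1
        exact ⟨hPp p (hps p hp), by omega, htY p (hps p hp), htA p (hps p hp), h1.2.2⟩)
        D hD0 hRCP B b hb
      refine ⟨_, fun d hd h1 h2 => mem_filter.2 ⟨hd, h1, h2⟩, h8.trans ?_⟩
      rw [hprod]
      rw [le_div_iff₀ (by positivity)]
      have h2 : (0 : ℝ) < 2 ^ (g * sn) := by positivity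
      calc (D.card : ℝ) * ((2 : ℝ) ^ (g * sn))⁻¹ * ((D.card : ℝ) * B.card) ^ γ * (4 * V)
          ≤ N * (κ * (N : ℝ) ^ η) * ((2 : ℝ) ^ (g * sn))⁻¹ * X * (4 * V) := by gcongr
        _ = N * ((4 * V * (κ * (N : ℝ) ^ η) * X) / (2 : ℝ) ^ (g * sn)) := by
            field_simp
        _ ≤ N * 1 := by
            gcongr
            rw [div_le_one h2]; exact hM2'
        _ = N := mul_one _) (by
      rw [← mul_div_assoc, div_le_iff₀ (by positivity)]
      nlinarith)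
  -- the pigeonhole on the coarse part
  have h9 := hN9 Ac R Y γ t w hγ hAc hAγ hw P.toList (Finset.nodup_toList P) (by
      intro p hp
      have h1 := hT (t p) (htk p (hps p hp))
      exact ⟨hPp p (hps p hp), h1.1, h1.2.1⟩) D As hD0 hRCP (hAsA.trans hAD) B hbad
  rw [htl, hlen] at h9
  have hprt : ((As.image (prt2 w P)).card : ℝ) ≤ (2 : ℝ) ^ (G * (M / τ)) := by
    have h1 := card_prt2 w (fun p => (2 ^ n p) ^ G) P As hfac
    have h2 : ∏ p ∈ P, (2 ^ n p) ^ G = 2 ^ (G * sn) := by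
      rw [hsn, mul_sum, ← prod_pow_eq_pow_sum]
      refine prod_congr rfl fun p _ => ?_
      rw [← pow_mul, mul_comm]
    rw [h2] at h1
    have h3 : 2 ^ (G * sn) ≤ 2 ^ (G * (M / τ)) :=
      Nat.pow_le_pow_right (by norm_num) (Nat.mul_le_mul_left _ hsM)
    exact_mod_cast h1.trans h3
  have hSs : (((As.image (Nat.cast : ℕ → ℤ) ×ˢ B).image (fun q => q.1 + q.2)).card : ℝ) ≤
      SS.card := by
    have : ((As.image (Nat.cast : ℕ → ℤ) ×ˢ B).image (fun q => q.1 + q.2)) ⊆ SS := by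
      rw [hSS]
      apply image_subset_image
      apply product_subset_product_left
      exact image_subset_image hAsA
    exact_mod_cast card_le_card this
  have hPc' : (2 : ℝ) ^ P.card ≤ (2 : ℝ) ^ (M / q0) := pow_le_pow_right₀ (by norm_num) hPc
  have hYr : (Y : ℝ) = (2 : ℝ) ^ (Ac * (M / τ)) := by rw [hY]; push_cast; rfl
  have h10 : (As.card : ℝ) * B.card ≤ 2 * (2 : ℝ) ^ (G * (M / τ)) *
      ((2 : ℝ) ^ (Ac * (M / τ)) * (2 : ℝ) ^ (M / q0) * X) * SS.card := by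
    refine h9.trans ?_
    rw [hYr]
    gcongr
  have h11 : (N : ℝ) * B.card ≤ 4 * SS.card * (N : ℝ) ^ ε := by
    calc (N : ℝ) * B.card ≤ 2 * V * As.card * B.card := by gcongr
      _ = 2 * V * (As.card * B.card) := by ring
      _ ≤ 2 * V * (2 * (2 : ℝ) ^ (G * (M / τ)) *
          ((2 : ℝ) ^ (Ac * (M / τ)) * (2 : ℝ) ^ (M / q0) * X) * SS.card) := by gcongr
      _ = 4 * SS.card * (V * (2 : ℝ) ^ (G * (M / τ)) * (2 : ℝ) ^ (Ac * (M / τ)) *
          (2 : ℝ) ^ (M / q0) * X) := by ring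
      _ ≤ 4 * SS.card * (N : ℝ) ^ ε := by gcongr
  have hNB : (1 : ℝ) ≤ (N : ℝ) * B.card := by nlinarith
  have h12 : ((N : ℝ) * B.card) ^ (1 - ε) * (N : ℝ) ^ ε ≤ (N : ℝ) * B.card := by
    calc ((N : ℝ) * B.card) ^ (1 - ε) * (N : ℝ) ^ ε
        ≤ ((N : ℝ) * B.card) ^ (1 - ε) * ((N : ℝ) * B.card) ^ ε := by
          gcongr
          nlinarith
      _ = ((N : ℝ) * B.card) ^ (1 : ℝ) := by
          rw [← Real.rpow_add (by linarith)]; congr 1; ring
      _ = (N : ℝ) * B.card := Real.rpow_one _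
  exact le_of_mul_le_mul_right (h12.trans h11) (by positivity)

end

end Pool.Agent.Helper5.RD
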