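import Pool.Agent.Helper5.RD.Stm4

/-! # Project RD, part 2: package CK (the constants) -/

set_option autoImplicit false

namespace Pool.Agent.Helper5.RD.PCK

open Finset Pool.Agent.Helper5.RD

noncomputable section

/-- The condition on the constants of one prime. -/
def S_CK1 : Prop := ∀ γ : ℝ, 0 < γ → ∀ A : ℕ, 2 ≤ A → ∃ R k0 : ℕ, ∀ t : ℕ, 2 ^ k0 ≤ t →
  16 ≤ t ∧ (t : ℝ) ^ (-γ) ≤ 1 / 8 ∧
    ((t : ℝ) ^ R) ^ (-γ) + (bd t A R : ℝ) / (t : ℝ) ^ (8 * A ^ 2 + 3) ≤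
      ((t : ℝ) ^ (4 * A ^ 2 + 1))⁻¹

theorem exists_q {β δ : ℝ} (hβ : 0 < β) (hδ : 0 < δ) : ∃ q : ℕ, ∀ q0 : ℕ, q ≤ q0 →
    (2 : ℝ) ^ (-(β * q0)) ≤ δ := by
  have h1 : (2 : ℝ) ^ (-β) < 1 := Real.rpow_lt_one_of_one_lt_of_neg (by norm_num) (by linarith)
  obtain ⟨q, hq⟩ := exists_pow_lt_of_lt_one hδ h1
  refine ⟨q, fun q0 hq0 => ?_⟩
  refine le_trans ?_ hq.le
  rw [← Real.rpow_natCast, ← Real.rpow_mul (by norm_num)]
  apply Real.rpow_le_rpow_of_exponent_le (by norm_num)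
  have : (q : ℝ) ≤ q0 := by exact_mod_cast hq0
  nlinarith

theorem log_Vb {β : ℝ} (hβ : 0 < β) (L M q0 : ℕ) :
    0 < Vb β L M q0 ∧ Real.log (Vb β L M q0) ≤
      M * (β + L * ((2 : ℝ) ^ (-(β * q0)) / (1 - (2 : ℝ) ^ (-β)))) := by
  have h1 : (2 : ℝ) ^ (-β) < 1 := Real.rpow_lt_one_of_one_lt_of_neg (by norm_num) (by linarith)
  have h2 : (0 : ℝ) < (2 : ℝ) ^ (-(β * q0)) := Real.rpow_pos_of_pos (by norm_num) _
  obtain ⟨c, hc⟩ : ∃ c : ℝ, c = (2 : ℝ) ^ (-(β * q0)) / (1 - (2 : ℝ) ^ (-β)) := ⟨_, rfl⟩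
  have hc0 : 0 < c := by rw [hc]; exact div_pos h2 (by linarith)
  unfold Vb
  rw [← hc]
  have h3 : (0 : ℝ) < (2 : ℝ) ^ (β * M) := Real.rpow_pos_of_pos (by norm_num) _
  have h4 : (0 : ℝ) < (1 + c) ^ (L * M) := by positivity
  refine ⟨mul_pos h3 h4, ?_⟩
  rw [Real.log_mul h3.ne' h4.ne', Real.log_rpow (by norm_num), Real.log_pow]
  have h5 : Real.log (1 + c) ≤ c := by
    have := Real.log_le_sub_one_of_pos (show 0 < 1 + c by linarith)
    linarith
  have h6 : Real.log 2 ≤ 1 := by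
    have := Real.log_le_sub_one_of_pos (show (0 : ℝ) < 2 by norm_num)
    linarith
  have h7 : (0 : ℝ) ≤ β * M := by positivity
  have h8 : β * M * Real.log 2 ≤ β * M := by nlinarith
  have h9 : ((L * M : ℕ) : ℝ) * Real.log (1 + c) ≤ ((L * M : ℕ) : ℝ) * c :=
    mul_le_mul_of_nonneg_left h5 (by positivity)
  push_cast at h9 ⊢
  nlinarith

theorem div_le_real (a b : ℕ) (hb : 0 < b) : ((a / b : ℕ) : ℝ) ≤ (a : ℝ) / b := Nat.cast_div_le

theorem p_CK_of (h1 : S_CK1) : S_CK := by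
  intro ε κ lam1 L hε hε1 hκ hlam hL
  obtain ⟨K, hK⟩ := exists_nat_ge (64 / ε)
  have hK0 : (0 : ℝ) < K := lt_of_lt_of_le (by positivity) hK
  have hK1 : 1 ≤ K := by exact_mod_cast hK0
  have hKε : 64 ≤ ε * K := by
    rw [div_le_iff₀ hε] at hK
    linarith
  obtain ⟨ξ, hξ⟩ : ∃ ξ : ℝ, ξ = min (lam1 / (16 * K)) ε := ⟨_, rfl⟩
  have hξ0 : 0 < ξ := by rw [hξ]; exact lt_min (by positivity) hε
  have hξ1 : ξ ≤ lam1 / (16 * K) := by rw [hξ]; exact min_le_left _ _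
  have hξ2 : ξ ≤ ε := by rw [hξ]; exact min_le_right _ _
  have hε' : 0 < 1 / ε := by positivity
  obtain ⟨γ, hγ⟩ : ∃ γ : ℝ, γ = ξ / (16 * (2 + 1 / ε)) := ⟨_, rfl⟩
  have hγ0 : 0 < γ := by rw [hγ]; positivity
  have hγξ : γ * (2 + 1 / ε) = ξ / 16 := by
    rw [hγ]
    field_simp
  have hγ1 : γ ≤ 1 := by nlinarith
  obtain ⟨A, hA⟩ := exists_nat_ge (2 / γ)
  have hAγ : 2 ≤ A * γ := by rwa [div_le_iff₀ hγ0] at hA
  have hA2 : 2 ≤ A := by
    have : (2 : ℝ) ≤ A := by nlinarith [(Nat.cast_nonneg A : (0 : ℝ) ≤ A)]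
    exact_mod_cast this
  obtain ⟨R, k0, hk0⟩ := h1 γ hγ0 A hA2
  obtain ⟨G, hG⟩ : ∃ G : ℕ, G = 8 * A ^ 2 + 3 := ⟨_, rfl⟩
  obtain ⟨g, hg⟩ : ∃ g : ℕ, g = 4 * A ^ 2 + 1 := ⟨_, rfl⟩
  have hG1 : 1 ≤ G := by rw [hG]; omega
  have hAG : A ≤ G := by rw [hG]; nlinarith
  obtain ⟨τ, hτ⟩ : ∃ τ : ℕ, τ = K * G := ⟨_, rfl⟩
  have hGτ : G ≤ τ := by rw [hτ]; exact Nat.le_mul_of_pos_left _ hK1
  have hKτ : K ≤ τ := by rw [hτ]; exact Nat.le_mul_of_pos_right _ hG1
  have hτ1 : 1 ≤ τ := hG1.trans hGτ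
  -- the number of scale vectors
  obtain ⟨β, hβ⟩ : ∃ β : ℝ, β = ξ / 256 := ⟨_, rfl⟩
  have hβ0 : 0 < β := by rw [hβ]; positivity
  have hL0 : (0 : ℝ) < L := by exact_mod_cast hL
  have hβ1 : (0 : ℝ) < 1 - (2 : ℝ) ^ (-β) := by
    have := Real.rpow_lt_one_of_one_lt_of_neg (show (1 : ℝ) < 2 by norm_num)
      (show -β < 0 by linarith)
    linarith
  obtain ⟨q, hq⟩ := exists_q hβ0 (show 0 < ξ / 256 / L * (1 - (2 : ℝ) ^ (-β)) by positivity)
  obtain ⟨q0, hq0⟩ : ∃ q0 : ℕ, q0 = q + 2 * τ + τ * k0 := ⟨_, rfl⟩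
  have hqq : q ≤ q0 := by rw [hq0]; omega
  have hq1 : 2 * τ ≤ q0 := by rw [hq0]; omega
  have hq2 : τ * k0 ≤ q0 := by rw [hq0]; omega
  have hq3 : 1 ≤ q0 := by omega
  have hKq : K ≤ q0 := by omega
  have hc : L * ((2 : ℝ) ^ (-(β * q0)) / (1 - (2 : ℝ) ^ (-β))) ≤ ξ / 256 := by
    have h2 := hq q0 hqq
    have h3 : (2 : ℝ) ^ (-(β * q0)) / (1 - (2 : ℝ) ^ (-β)) ≤ ξ / 256 / L := by
      rw [div_le_iff₀ hβ1]; exact h2
    calc (L : ℝ) * ((2 : ℝ) ^ (-(β * q0)) / (1 - (2 : ℝ) ^ (-β))) ≤ L * (ξ / 256 / L) :=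
          mul_le_mul_of_nonneg_left h3 hL0.le
      _ = ξ / 256 := by field_simp
  -- the threshold
  have hlκ : 0 ≤ Real.log κ := Real.log_nonneg hκ
  have hl2a : 0.6931471803 < Real.log 2 := Real.log_two_gt_d9
  have hl2b : Real.log 2 < 0.6931471808 := Real.log_two_lt_d9
  have hl4 : 0 ≤ Real.log 4 := Real.log_nonneg (by norm_num)
  obtain ⟨l0, hl0⟩ : ∃ l0 : ℝ, l0 = (1 + 2 * Real.log κ) + (Real.log 4 + 2 * Real.log κ) / ξ +
    2 * Real.log κ / ε := ⟨_, rfl⟩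
  have hz1 : 0 ≤ (Real.log 4 + 2 * Real.log κ) / ξ := by positivity
  have hz2 : 0 ≤ 2 * Real.log κ / ε := by positivity
  refine ⟨A, R, G, g, τ, k0, q0, ⌈Real.exp l0⌉₊ + 2, γ, ξ / 32, β, hγ0, by omega, hAγ,
    by positivity, by linarith, hβ0, hq3, hτ1, hGτ, hq1, hq2, by omega, ?_, ?_⟩
  · intro t ht
    rw [hG, hg]
    exact hk0 t ht
  · intro N hN
    have hN1 : Real.exp l0 ≤ N := (Nat.le_ceil _).trans (by exact_mod_cast (by omega))
    have hN0 : (0 : ℝ) < N := lt_of_lt_of_le (Real.exp_pos _) hN1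
    obtain ⟨l, hl⟩ : ∃ l : ℝ, l = Real.log N := ⟨_, rfl⟩
    have hll : l0 ≤ l := by
      rw [hl]
      exact (Real.le_log_iff_exp_le hN0).2 hN1
    have hl1 : 1 + 2 * Real.log κ ≤ l := by linarith
    have hl3 : Real.log 4 + 2 * Real.log κ ≤ ξ * l := by
      have : (Real.log 4 + 2 * Real.log κ) / ξ ≤ l := by linarith
      rw [div_le_iff₀ hξ0] at this
      linarith
    have hl5 : 2 * Real.log κ ≤ ε * l := by
      have : 2 * Real.log κ / ε ≤ l := by linarith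
      rw [div_le_iff₀ hε] at this
      linarith
    have hlpos : 0 < l := by linarith
    -- the number `M`
    have hP0 : (0 : ℝ) < κ * (N : ℝ) ^ (1 + ξ / 32) := by positivity
    have hPlog : Real.log (κ * (N : ℝ) ^ (1 + ξ / 32)) = Real.log κ + (1 + ξ / 32) * l := by
      rw [Real.log_mul (by positivity) (by positivity), Real.log_rpow hN0, hl]
    obtain ⟨M, hM⟩ : ∃ M : ℕ, M = ⌈(Real.log κ + (1 + ξ / 32) * l) / Real.log 2⌉₊ := ⟨_, rfl⟩
    have hlog2 : 0 < Real.log 2 := by linarith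
    have hM1 : (Real.log κ + (1 + ξ / 32) * l) / Real.log 2 ≤ M := by
      rw [hM]; exact Nat.le_ceil _
    have hM2 : (M : ℝ) ≤ 4 * l := by
      have h2 : (M : ℝ) < (Real.log κ + (1 + ξ / 32) * l) / Real.log 2 + 1 := by
        rw [hM]; exact Nat.ceil_lt_add_one (by positivity)
      have h3 : (Real.log κ + (1 + ξ / 32) * l) / Real.log 2 ≤ 2 * Real.log κ + 3 * l := by
        rw [div_le_iff₀ hlog2]
        nlinarith
      linarith
    have hMκ : κ * (N : ℝ) ^ (1 + ξ / 32) ≤ 2 ^ M := by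
      rw [← Real.log_le_log_iff hP0 (by positivity), hPlog, Real.log_pow]
      rwa [div_le_iff₀ hlog2] at hM1
    have hM0 : (0 : ℝ) ≤ M := Nat.cast_nonneg M
    obtain ⟨hV0, hV1⟩ := log_Vb hβ0 L M q0
    have hV2 : Real.log (Vb β L M q0) ≤ ξ / 32 * l := by
      refine hV1.trans ?_
      calc (M : ℝ) * (β + L * ((2 : ℝ) ^ (-(β * q0)) / (1 - (2 : ℝ) ^ (-β)))) ≤
            M * (ξ / 256 + ξ / 256) :=
            mul_le_mul_of_nonneg_left (by rw [← hβ]; rw [← hβ] at hc; linarith) hM0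
        _ ≤ 4 * l * (ξ / 256 + ξ / 256) := mul_le_mul_of_nonneg_right hM2 (by positivity)
        _ = ξ / 32 * l := by ring
    -- the size of `|D| |B|`
    have hS0 : (0 : ℝ) < κ * (N : ℝ) ^ (1 + ξ / 32) * (N : ℝ) ^ (1 / ε) := by positivity
    have hS1 : (0 : ℝ) < (κ * (N : ℝ) ^ (1 + ξ / 32) * (N : ℝ) ^ (1 / ε)) ^ γ :=
      Real.rpow_pos_of_pos hS0 _
    have hS2 : Real.log ((κ * (N : ℝ) ^ (1 + ξ / 32) * (N : ℝ) ^ (1 / ε)) ^ γ) ≤
        Real.log κ + ξ / 16 * l := by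
      rw [Real.log_rpow hS0, Real.log_mul hP0.ne' (by positivity), hPlog, Real.log_rpow hN0, ← hl]
      have h2 : γ * Real.log κ ≤ Real.log κ := by nlinarith
      have h3 : γ * ((1 + ξ / 32) * l + 1 / ε * l) ≤ γ * (2 + 1 / ε) * l := by
        have : (1 + ξ / 32) * l + 1 / ε * l ≤ (2 + 1 / ε) * l := by nlinarith
        calc γ * ((1 + ξ / 32) * l + 1 / ε * l) ≤ γ * ((2 + 1 / ε) * l) :=
              mul_le_mul_of_nonneg_left this hγ0.le
          _ = γ * (2 + 1 / ε) * l := by ring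
      rw [hγξ] at h3
      linarith
    refine ⟨M, hMκ, ?_, ?_⟩
    · have hx1 : (0 : ℝ) < κ * (N : ℝ) ^ (ξ / 32) := by positivity
      have hx2 : Real.log (κ * (N : ℝ) ^ (ξ / 32)) = Real.log κ + ξ / 32 * l := by
        rw [Real.log_mul (by positivity) (by positivity), Real.log_rpow hN0, hl]
      rw [← Real.log_le_log_iff (by positivity) (by positivity), Real.log_rpow (by norm_num),
        Real.log_mul (by positivity) hS1.ne', Real.log_mul (by positivity) hx1.ne',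
        Real.log_mul (by norm_num) hV0.ne', hx2, ← hl]
      have hτR : (τ : ℝ) = K * G := by rw [hτ]; push_cast; ring
      have hG0 : (0 : ℝ) < G := by exact_mod_cast hG1
      have hgG : 3 * (G : ℝ) ≤ 8 * g := by
        rw [hG, hg]; push_cast
        nlinarith [sq_nonneg (A : ℝ), (show (2 : ℝ) ≤ A by exact_mod_cast hA2)]
      have hbig : 2 * ξ * l ≤ (g : ℝ) * (lam1 * l / (2 * τ)) * Real.log 2 := by
        have e1 : (g : ℝ) * (lam1 * l / (2 * τ)) * Real.log 2 =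
            (8 * g / G) * Real.log 2 * (lam1 / (16 * K)) * l := by
          rw [hτR]
          field_simp
          ring
        rw [e1]
        have h2 : 3 ≤ 8 * (g : ℝ) / G := by
          rw [le_div_iff₀ hG0]; exact hgG
        have h3 : 2 ≤ 8 * (g : ℝ) / G * Real.log 2 := by nlinarith
        have h4 : 2 * ξ ≤ 8 * (g : ℝ) / G * Real.log 2 * (lam1 / (16 * K)) := by
          calc 2 * ξ ≤ 2 * (lam1 / (16 * K)) := by linarith
            _ ≤ _ := mul_le_mul_of_nonneg_right h3 (by positivity)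
        exact mul_le_mul_of_nonneg_right h4 hlpos.le
      nlinarith
    · rw [← Real.log_le_log_iff (by positivity) (by positivity), Real.log_rpow hN0,
        Real.log_mul (by positivity) hS1.ne', Real.log_mul (by positivity) (by positivity),
        Real.log_mul (by positivity) (by positivity), Real.log_mul hV0.ne' (by positivity),
        Real.log_pow, Real.log_pow, Real.log_pow, ← hl]
      have hb : ∀ x : ℝ, 0 ≤ x → x ≤ M / K → x * Real.log 2 ≤ ε * l / 16 := by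
        intro x hx0 hx
        have h2 : (M : ℝ) / K ≤ ε * l / 16 := by
          rw [div_le_iff₀ hK0]
          nlinarith
        nlinarith
      have y1 : ((G * (M / τ) : ℕ) : ℝ) ≤ M / K := by
        have h2 := div_le_real M τ (by omega)
        have hτR : (τ : ℝ) = K * G := by rw [hτ]; push_cast; ring
        have hG0 : (0 : ℝ) < G := by exact_mod_cast hG1
        push_cast
        calc (G : ℝ) * ((M / τ : ℕ) : ℝ) ≤ G * ((M : ℝ) / τ) := by
              apply mul_le_mul_of_nonneg_left h2 hG0.le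
          _ = M / K := by rw [hτR]; field_simp
      have y2 : ((A * (M / τ) : ℕ) : ℝ) ≤ M / K := by
        refine le_trans ?_ y1
        exact_mod_cast Nat.mul_le_mul_right _ hAG
      have y3 : ((M / q0 : ℕ) : ℝ) ≤ M / K := by
        refine (div_le_real M q0 (by omega)).trans ?_
        exact div_le_div_of_nonneg_left hM0 hK0 (by exact_mod_cast hKq)
      have z1 := hb _ (Nat.cast_nonneg _) y1
      have z2 := hb _ (Nat.cast_nonneg _) y2
      have z3 := hb _ (Nat.cast_nonneg _) y3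
      nlinarith

end

end Pool.Agent.Helper5.RD.PCK
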