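import Pool.Agent.Helper5.RD.PCK

/-! # Project RD, part 2: the constants of one prime (CK1) and CK -/

set_option autoImplicit false

namespace Pool.Agent.Helper5.RD.PCK

open Finset Pool.Agent.Helper5.RD Filter Topology

noncomputable section

theorem exp_poly (C : ℕ) : ∃ l0 : ℕ, ∀ l : ℕ, l0 ≤ l → C * (l + 1) ^ 2 ≤ 2 ^ l := by
  have h := tendsto_pow_const_div_const_pow_of_one_lt 2 (show (1 : ℝ) < 2 by norm_num)
  have hC : (0 : ℝ) < 1 / (4 * (C + 1)) := by positivity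
  obtain ⟨l0, hl0⟩ := eventually_atTop.1 (h.eventually_lt_const hC)
  refine ⟨l0 + 1, fun l hl => ?_⟩
  have h1 := hl0 l (by omega)
  rw [div_lt_div_iff₀ (by positivity) (by positivity)] at h1
  have h2 : (1 : ℝ) ≤ l := by exact_mod_cast (show 1 ≤ l by omega)
  have h3 : ((C * (l + 1) ^ 2 : ℕ) : ℝ) ≤ ((2 ^ l : ℕ) : ℝ) := by
    push_cast
    have h4 : ((l : ℝ) + 1) ^ 2 ≤ 4 * (l : ℝ) ^ 2 := by nlinarith
    have hC0 : (0 : ℝ) ≤ C := Nat.cast_nonneg C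
    calc (C : ℝ) * ((l : ℝ) + 1) ^ 2 ≤ C * (4 * (l : ℝ) ^ 2) := mul_le_mul_of_nonneg_left h4 hC0
      _ ≤ (l : ℝ) ^ 2 * (4 * (C + 1)) := by nlinarith [sq_nonneg (l : ℝ)]
      _ ≤ 2 ^ l := by linarith
  exact_mod_cast h3

theorem log_pow_le (t m k : ℕ) (hm : m ≤ k) :
    Nat.log 2 (t ^ m) + 1 ≤ (k + 1) * (Nat.log 2 t + 1) := by
  have h1 : Nat.log 2 (t ^ m) ≤ m * (Nat.log 2 t + 1) := by
    have h2 : t ^ m ≤ 2 ^ (m * (Nat.log 2 t + 1)) := by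
      calc t ^ m ≤ (2 ^ (Nat.log 2 t + 1)) ^ m :=
            Nat.pow_le_pow_left (Nat.lt_pow_succ_log_self (by norm_num) t).le m
        _ = 2 ^ (m * (Nat.log 2 t + 1)) := by rw [← pow_mul, mul_comm]
    calc Nat.log 2 (t ^ m) ≤ Nat.log 2 (2 ^ (m * (Nat.log 2 t + 1))) := Nat.log_mono_right h2
      _ = m * (Nat.log 2 t + 1) := Nat.log_pow (by norm_num) _
  have h3 : m * (Nat.log 2 t + 1) ≤ k * (Nat.log 2 t + 1) := Nat.mul_le_mul_right _ hm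
  calc Nat.log 2 (t ^ m) + 1 ≤ k * (Nat.log 2 t + 1) + 1 := by omega
    _ ≤ k * (Nat.log 2 t + 1) + (Nat.log 2 t + 1) := by omega
    _ = (k + 1) * (Nat.log 2 t + 1) := by ring

theorem bd_le (t A R : ℕ) (ht : 1 ≤ t) (hA : 2 ≤ A)
    (hl : 130 * (A + R + 2) ^ 2 * (Nat.log 2 t + 1) ^ 2 ≤ t) :
    2 * bd t A R ≤ t ^ (4 * A ^ 2 + 2) := by
  obtain ⟨W, hW⟩ : ∃ W : ℕ, W = ((A + R + 2) * (Nat.log 2 t + 1)) ^ 2 := ⟨_, rfl⟩
  have h1 : (Nat.log 2 (t * t ^ R) + 1) ≤ (A + R + 2) * (Nat.log 2 t + 1) := by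
    have := log_pow_le t (R + 1) (A + R + 1) (by omega)
    rwa [pow_succ, mul_comm (t ^ R) t] at this
  have h2 : (Nat.log 2 (t ^ A * t ^ R) + 1) ≤ (A + R + 2) * (Nat.log 2 t + 1) := by
    have := log_pow_le t (A + R) (A + R + 1) (by omega)
    rwa [pow_add] at this
  have h3 : (Nat.log 2 (t ^ R) + 1) ≤ (A + R + 2) * (Nat.log 2 t + 1) :=
    log_pow_le t R (A + R + 1) (by omega)
  have h4 : (Nat.log 2 (t * t ^ R) + 1) * (Nat.log 2 (t ^ A * t ^ R) + 1) ≤ W := by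
    rw [hW, sq]
    exact Nat.mul_le_mul h1 h2
  have h5 : (Nat.log 2 (t ^ R) + 1) ^ 2 ≤ W := by
    rw [hW]
    exact Nat.pow_le_pow_left h3 2
  have h6 : (2 * t ^ (A ^ 2)) ^ 2 * (2 * (2 * t ^ A)) ^ 2 = 64 * t ^ (2 * A ^ 2 + 2 * A) := by
    have : t ^ (2 * A ^ 2 + 2 * A) = (t ^ (A ^ 2)) ^ 2 * (t ^ A) ^ 2 := by
      rw [← pow_mul, ← pow_mul, ← pow_add]
      congr 1
      ring
    rw [this]
    ring
  have h7 : 1 ≤ t ^ (2 * A ^ 2 + 2 * A) := Nat.one_le_pow _ _ ht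
  have h8 : bd t A R ≤ 65 * W * t ^ (2 * A ^ 2 + 2 * A) := by
    unfold bd
    rw [mul_assoc ((Nat.log 2 (t ^ R) + 1) ^ 2), h6]
    calc _ ≤ W + W * (64 * t ^ (2 * A ^ 2 + 2 * A)) :=
          Nat.add_le_add h4 (Nat.mul_le_mul_right _ h5)
      _ ≤ W * t ^ (2 * A ^ 2 + 2 * A) + W * (64 * t ^ (2 * A ^ 2 + 2 * A)) :=
          Nat.add_le_add_right (Nat.le_mul_of_pos_right _ h7) _
      _ = 65 * W * t ^ (2 * A ^ 2 + 2 * A) := by ring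
  have h9 : 130 * W ≤ t := by
    rw [hW, mul_pow]
    calc 130 * ((A + R + 2) ^ 2 * (Nat.log 2 t + 1) ^ 2) =
          130 * (A + R + 2) ^ 2 * (Nat.log 2 t + 1) ^ 2 := by ring
      _ ≤ t := hl
  calc 2 * bd t A R ≤ 2 * (65 * W * t ^ (2 * A ^ 2 + 2 * A)) := Nat.mul_le_mul_left _ h8
    _ = 130 * W * t ^ (2 * A ^ 2 + 2 * A) := by ring
    _ ≤ t * t ^ (2 * A ^ 2 + 2 * A) := Nat.mul_le_mul_right _ h9
    _ = t ^ (2 * A ^ 2 + 2 * A + 1) := by rw [pow_succ t (2 * A ^ 2 + 2 * A), mul_comm]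
    _ ≤ t ^ (4 * A ^ 2 + 2) := Nat.pow_le_pow_right ht (by nlinarith)

theorem p_CK1 : S_CK1 := by
  intro γ hγ A hA
  obtain ⟨R, hR⟩ := exists_nat_ge (((4 * A ^ 2 + 2 : ℕ) : ℝ) / γ)
  rw [div_le_iff₀ hγ] at hR
  obtain ⟨l0, hl0⟩ := exp_poly (130 * (A + R + 2) ^ 2)
  obtain ⟨k1, hk1⟩ := exists_nat_ge (3 / γ)
  rw [div_le_iff₀ hγ] at hk1
  refine ⟨R, 4 + l0 + k1, fun t ht => ?_⟩
  have ht0 : t ≠ 0 := by
    have : 0 < 2 ^ (4 + l0 + k1) := by positivity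
    omega
  have ht1 : 1 ≤ t := Nat.one_le_iff_ne_zero.2 ht0
  have h16 : 16 ≤ t := by
    refine le_trans ?_ ht
    calc 16 = 2 ^ 4 := by norm_num
      _ ≤ 2 ^ (4 + l0 + k1) := Nat.pow_le_pow_right (by norm_num) (by omega)
  have htR : (16 : ℝ) ≤ t := by exact_mod_cast h16
  have htp : (0 : ℝ) < t := by linarith
  refine ⟨h16, ?_, ?_⟩
  · have h1 : ((2 : ℝ) ^ k1) ≤ t := by
      have : 2 ^ k1 ≤ t := (Nat.pow_le_pow_right (by norm_num) (by omega)).trans ht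
      exact_mod_cast this
    calc (t : ℝ) ^ (-γ) ≤ ((2 : ℝ) ^ k1) ^ (-γ) :=
          Real.rpow_le_rpow_of_nonpos (by positivity) h1 (by linarith)
      _ = (2 : ℝ) ^ (-(k1 * γ)) := by
          rw [← Real.rpow_natCast, ← Real.rpow_mul (by norm_num)]
          congr 1
          ring
      _ ≤ (2 : ℝ) ^ (-(3 : ℝ)) := Real.rpow_le_rpow_of_exponent_le (by norm_num) (by linarith)
      _ = 1 / 8 := by
          rw [Real.rpow_neg (by norm_num)]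
          norm_num
  · have hlog : l0 ≤ Nat.log 2 t :=
      Nat.le_log_of_pow_le (by norm_num)
        ((Nat.pow_le_pow_right (by norm_num) (by omega)).trans ht)
    have h2 : 130 * (A + R + 2) ^ 2 * (Nat.log 2 t + 1) ^ 2 ≤ t :=
      (hl0 _ hlog).trans (Nat.pow_log_le_self 2 ht0)
    have h3 : (2 : ℝ) * (bd t A R : ℝ) ≤ (t : ℝ) ^ (4 * A ^ 2 + 2) := by
      exact_mod_cast bd_le t A R ht1 hA h2
    have h4 : (bd t A R : ℝ) / (t : ℝ) ^ (8 * A ^ 2 + 3) ≤ ((t : ℝ) ^ (4 * A ^ 2 + 1))⁻¹ / 2 := by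
      have e1 : (t : ℝ) ^ (8 * A ^ 2 + 3) = (t : ℝ) ^ (4 * A ^ 2 + 1) * (t : ℝ) ^ (4 * A ^ 2 + 2) := by
        rw [← pow_add]
        congr 1
        ring
      have hx : (0 : ℝ) < (t : ℝ) ^ (4 * A ^ 2 + 1) := by positivity
      have hy : (0 : ℝ) < (t : ℝ) ^ (4 * A ^ 2 + 2) := by positivity
      rw [e1]
      obtain ⟨x, hx'⟩ : ∃ x : ℝ, x = (t : ℝ) ^ (4 * A ^ 2 + 1) := ⟨_, rfl⟩
      obtain ⟨y, hy'⟩ : ∃ y : ℝ, y = (t : ℝ) ^ (4 * A ^ 2 + 2) := ⟨_, rfl⟩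
      rw [← hx'] at hx ⊢
      rw [← hy'] at hy h3 ⊢
      rw [div_le_iff₀ (mul_pos hx hy)]
      have e2 : x⁻¹ / 2 * (x * y) = y / 2 := by field_simp
      rw [e2]
      linarith
    have h5 : ((t : ℝ) ^ R) ^ (-γ) ≤ ((t : ℝ) ^ (4 * A ^ 2 + 1))⁻¹ / 2 := by
      have e2 : ((t : ℝ) ^ R) ^ (-γ) = (t : ℝ) ^ (-(R * γ)) := by
        rw [← Real.rpow_natCast, ← Real.rpow_mul htp.le]
        congr 1
        ring
      have e3 : (t : ℝ) ^ (-(R * γ)) ≤ (t : ℝ) ^ (-((4 * A ^ 2 + 2 : ℕ) : ℝ)) :=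
        Real.rpow_le_rpow_of_exponent_le (by linarith) (by linarith)
      have e4 : (t : ℝ) ^ (-((4 * A ^ 2 + 2 : ℕ) : ℝ)) = ((t : ℝ) ^ (4 * A ^ 2 + 1))⁻¹ / t := by
        rw [Real.rpow_neg htp.le, Real.rpow_natCast, pow_succ, mul_inv]
        rfl
      rw [e2]
      refine e3.trans (e4.le.trans ?_)
      apply div_le_div_of_nonneg_left (by positivity) (by norm_num) (by linarith)
    linarith

end

end Pool.Agent.Helper5.RD.PCK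

/-- CK -/
theorem Pool.Agent.Helper5.RD.p_CK : Pool.Agent.Helper5.RD.S_CK :=
  Pool.Agent.Helper5.RD.PCK.p_CK_of Pool.Agent.Helper5.RD.PCK.p_CK1
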