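import Pool.Agent.Helper5.RD.Stm5
import Pool.Agent.Helper5.RD.PE1

/-! # Project RD, package E1r: unfinished runs, closure under division by the primes of `Q` only -/

set_option autoImplicit false

namespace Pool.Agent.Helper5.RD.PE1r

open Finset Classical Pool.Agent.Helper5.RD Pool.Agent.Helper5.RD.PE2 Pool.Agent.Helper5.RD.PE1

/-- the primes which divide the `Q`-part are in `Q` -/
theorem prime_dvd_part {Q : Finset ℕ} (hQ : ∀ q ∈ Q, q.Prime) {d r : ℕ} (hr : r.Prime)
    (h : r ∣ part Q d) : r ∈ Q := by
  unfold part at h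
  obtain ⟨q, hq, h1⟩ := (hr.prime.dvd_finsetProd_iff _).1 h
  rwa [(Nat.prime_dvd_prime_iff_eq hr (hQ q hq)).1 (hr.dvd_of_dvd_pow h1)]

theorem main (hB : S_B) : S_E1r := by
  intro P γ hγ h0 h01 D hD0 Q0 ps hQ0 hps hnd hlt hRC B b hb k
  have hQps : ∀ q ∈ ps.toFinset, q.Prime := fun q hq => hps q (List.mem_toFinset.1 hq)
  have hQQ : ∀ q ∈ Q0 ∪ ps.toFinset, q.Prime := by
    intro q hq
    rcases Finset.mem_union.1 hq with h | h
    · exact hQ0 q h
    · exact hQps q h
  have hdisj : ∀ q ∈ Q0, q ∉ ps.toFinset := fun q hq hp =>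
    lt_irrefl _ (hlt q hq q (List.mem_toFinset.1 hp))
  obtain ⟨fib, hfib⟩ : ∃ fib : ℕ → Finset ℕ,
      fib = fun z => D.filter (fun d => d / part ps.toFinset d = z) := ⟨_, rfl⟩
  obtain ⟨bad, hbad⟩ : ∃ bad : ℕ → Prop, bad = fun d => k ≤ (ps.toFinset.filter (· ∣ d)).card ∧
      ¬ Fin1 P (run P (ps.zip (ps.map d.factorization)) (D.image (Nat.cast : ℕ → ℤ), B)
        ((d / part (Q0 ∪ ps.toFinset) d : ℕ) : ℤ) b) := ⟨_, rfl⟩
  have hDcard : (D.image (Nat.cast : ℕ → ℤ)).card = D.card :=
    card_image_of_injective _ Nat.cast_injective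
  set N : ℝ := (1 + 2 * (P.K0 : ℝ) ^ (-γ)) ^ ps.length * ((D.card : ℝ) * B.card) ^ γ with hN
  have key : ∀ y : ℕ, 2 ^ k * (((fib y).filter bad).card : ℝ) ≤ (fib y).card * N := by
    intro y
    have hel : ∀ d ∈ fib y, d ∈ D ∧ d ≠ 0 ∧ d / part ps.toFinset d = y ∧
        part ps.toFinset d * y = d := by
      intro d hd
      rw [hfib] at hd
      obtain ⟨h1, h2⟩ := Finset.mem_filter.1 hd
      refine ⟨h1, hD0 d h1, h2, ?_⟩
      rw [← h2]
      exact Nat.mul_div_cancel' (part_dvd hQps (hD0 d h1))
    rcases (fib y).eq_empty_or_nonempty with he | ⟨d0, hd0⟩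
    · rw [he]; simp
    have hy0 : y ≠ 0 := by
      obtain ⟨-, h2, h3, -⟩ := hel d0 hd0
      rw [← h3]
      exact quot_ne hQps h2
    have hyQ : ∀ q ∈ ps.toFinset, y.factorization q = 0 := by
      obtain ⟨-, h2, h3, -⟩ := hel d0 hd0
      intro q hq
      rw [← h3, quot_fact hQps h2, if_pos hq]
    -- the exponent vectors
    have hinj : Set.InjOn (fun d : ℕ => ps.map d.factorization) (fib y) := by
      intro d hd d' hd' h
      have h1 : ∀ p ∈ ps, d.factorization p = d'.factorization p :=
        List.map_inj_left.1 h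
      have h2 : part ps.toFinset d = part ps.toFinset d' := by
        unfold part
        exact prod_congr rfl fun p hp => by rw [h1 p (List.mem_toFinset.1 hp)]
      rw [← (hel d hd).2.2.2, ← (hel d' hd').2.2.2, h2]
    obtain ⟨E, hE⟩ : ∃ E : Finset (List ℕ),
        E = (fib y).image (fun d : ℕ => ps.map d.factorization) := ⟨_, rfl⟩
    have hEcard : E.card = (fib y).card := by rw [hE]; exact card_image_of_injOn hinj
    have hElen : ∀ l ∈ E, l.length = ps.length := by
      intro l hl
      rw [hE] at hl
      obtain ⟨d, -, rfl⟩ := mem_image.1 hl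
      simp
    have hEdown : ∀ l ∈ E, ∀ l', List.Forall₂ (· ≤ ·) l' l → l' ∈ E := by
      intro l hl l' hl'
      have hlen : l'.length = ps.length := by rw [hl'.length_eq, hElen l hl]
      rw [hE] at hl
      obtain ⟨d, hd, rfl⟩ := mem_image.1 hl
      obtain ⟨h1, h2, h3, h4⟩ := hel d hd
      obtain ⟨g, rfl⟩ := exists_fun ps hnd l' hlen
      have h5 : ∀ p ∈ ps, g p ≤ d.factorization p := by
        have h6 : List.Forall₂ (· ≤ ·) (ps.map g) (ps.map d.factorization) := hl'
        rw [List.forall₂_map_left_iff, List.forall₂_map_right_iff, List.forall₂_same] at h6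
        exact h6
      set t : ℕ := ∏ p ∈ ps.toFinset, p ^ g p with ht
      have ht0 : t ≠ 0 := Finset.prod_ne_zero_iff.2 fun q hq => pow_ne_zero _ (hQps q hq).ne_zero
      have htf : ∀ p ∈ ps.toFinset, t.factorization p = g p := by
        intro p hp
        rw [ht, Nat.factorization_prod (fun q hq => pow_ne_zero _ (hQps q hq).ne_zero),
          Finsupp.finsetSum_apply]
        have h6 : ∀ q ∈ ps.toFinset, (q ^ g q).factorization p = if p = q then g q else 0 := by
          intro q hq
          rw [(hQps q hq).factorization_pow, Finsupp.single_apply]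
          by_cases h7 : p = q
          · subst h7; simp
          · rw [if_neg h7, if_neg (Ne.symm h7)]
        rw [sum_congr rfl h6, sum_ite_eq, if_pos hp]
      have hty : ∀ p ∈ ps.toFinset, (t * y).factorization p = g p := by
        intro p hp
        rw [Nat.factorization_mul ht0 hy0, Finsupp.add_apply, htf p hp, hyQ p hp, add_zero]
      have htd : t ∣ part ps.toFinset d := by
        rw [ht]
        unfold part
        exact prod_dvd_prod_of_dvd _ _ fun p hp =>
          pow_dvd_pow _ (h5 p (List.mem_toFinset.1 hp))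
      have hpt : part ps.toFinset (t * y) = t := by
        unfold part
        rw [ht]
        refine prod_congr rfl fun p hp => ?_
        rw [← ht, hty p hp]
      have hmem : t * y ∈ D := by
        obtain ⟨s, hs⟩ := htd
        have hs0 : s ≠ 0 := by
          rintro rfl
          rw [mul_zero] at hs
          exact part_ne hQps d hs
        have h7 : d = s * (t * y) := by rw [← h4, hs]; ring
        have h8 : d / s = t * y := by
          conv_lhs => rw [h7]
          exact Nat.mul_div_cancel_left _ (Nat.pos_of_ne_zero hs0)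
        rw [← h8]
        refine hRC d h1 s ⟨t * y, h7⟩ fun r hr hrs => mem_union_right _ ?_
        refine prime_dvd_part hQps hr (d := d) ?_
        rw [hs]
        exact hrs.mul_left t
      rw [hE]
      refine mem_image.2 ⟨t * y, ?_, ?_⟩
      · rw [hfib]
        refine mem_filter.2 ⟨hmem, ?_⟩
        rw [hpt, Nat.mul_div_cancel_left _ (Nat.pos_of_ne_zero ht0)]
      · exact List.map_congr_left fun p hp => hty p (List.mem_toFinset.2 hp)
    -- the point depends only on `y`
    have hx : ∀ d ∈ fib y, d / part (Q0 ∪ ps.toFinset) d = y / part Q0 y := by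
      intro d hd
      obtain ⟨h1, h2, h3, h4⟩ := hel d hd
      have h5 : part (Q0 ∪ ps.toFinset) d = part ps.toFinset d * part Q0 y := by
        refine Nat.eq_of_factorization_eq (part_ne hQQ _)
          (mul_ne_zero (part_ne hQps d) (part_ne hQ0 y)) fun p => ?_
        rw [part_fact hQQ, Nat.factorization_mul (part_ne hQps d) (part_ne hQ0 y),
          Finsupp.add_apply, part_fact hQps, part_fact hQ0]
        by_cases h6 : p ∈ Q0
        · rw [if_pos (mem_union_left _ h6), if_neg (hdisj p h6), if_pos h6, zero_add, ← h3,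
            quot_fact hQps h2, if_neg (hdisj p h6)]
        · by_cases h7 : p ∈ ps.toFinset
          · rw [if_pos (mem_union_right _ h7), if_pos h7, if_neg h6, add_zero]
          · rw [if_neg (by rw [mem_union]; tauto), if_neg h7, if_neg h6]
      have h8 : part ps.toFinset d * y / (part ps.toFinset d * part Q0 y) = y / part Q0 y :=
        Nat.mul_div_mul_left _ _ (Nat.pos_of_ne_zero (part_ne hQps d))
      rw [h4] at h8
      rw [h5]
      exact h8
    have hxmem : ((y / part Q0 y : ℕ) : ℤ) ∈ D.image (Nat.cast : ℕ → ℤ) := by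
      refine mem_image_of_mem _ ?_
      rw [← hx d0 hd0]
      obtain ⟨h1, h2, -, -⟩ := hel d0 hd0
      exact hRC d0 h1 _ (part_dvd hQQ h2) fun r hr hrp => prime_dvd_part hQQ hr hrp
    have hBy := hB P γ hγ h0 h01 ps hps ((y / part Q0 y : ℕ) : ℤ) b
      (D.image (Nat.cast : ℕ → ℤ), B) hxmem hb E hElen hEdown
    have hR : (((D.image (Nat.cast : ℕ → ℤ), B).1.card : ℝ) *
        ((D.image (Nat.cast : ℕ → ℤ), B) : Finset ℤ × Finset ℤ).2.card) =
        (D.card : ℝ) * B.card := by
      show ((D.image (Nat.cast : ℕ → ℤ)).card : ℝ) * B.card = _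
      rw [hDcard]
    rw [hR, hEcard, mul_assoc] at hBy
    refine le_trans ?_ hBy
    -- injection of the bad points
    have h1 : (2 : ℝ) ^ k * (((fib y).filter bad).card : ℝ) =
        ∑ d ∈ (fib y).filter bad, (2 : ℝ) ^ k := by
      rw [sum_const, nsmul_eq_mul, mul_comm]
    rw [h1]
    calc ∑ d ∈ (fib y).filter bad, (2 : ℝ) ^ k
        ≤ ∑ d ∈ (fib y).filter bad, (2 : ℝ) ^ ((ps.map d.factorization).countP (· ≠ 0)) := by
          refine sum_le_sum fun d hd => ?_
          obtain ⟨h2, h3⟩ := mem_filter.1 hd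
          rw [hbad] at h3
          have h4 := countP_eq ps hps hnd d (hel d h2).2.1
          rw [h4]
          exact pow_le_pow_right₀ (by norm_num) h3.1
      _ = ∑ l ∈ ((fib y).filter bad).image (fun d : ℕ => ps.map d.factorization),
            (2 : ℝ) ^ (l.countP (· ≠ 0)) := by
          rw [sum_image]
          intro d hd d' hd' h
          exact hinj (mem_filter.1 hd).1 (mem_filter.1 hd').1 h
      _ ≤ _ := by
          refine sum_le_sum_of_subset_of_nonneg ?_ fun _ _ _ => by positivity
          intro l hl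
          obtain ⟨d, hd, rfl⟩ := mem_image.1 hl
          obtain ⟨h2, h3⟩ := mem_filter.1 hd
          refine mem_filter.2 ⟨?_, ?_⟩
          · rw [hE]; exact mem_image_of_mem _ h2
          · rw [hbad] at h3
            have h5 := h3.2
            rw [hx d h2] at h5
            exact h5
  -- the sum over the fibres
  have hsum1 : (D.filter bad).card = ∑ z ∈ D.image (fun d => d / part ps.toFinset d),
      ((fib z).filter bad).card := by
    rw [Finset.card_eq_sum_card_fiberwise (f := fun d => d / part ps.toFinset d)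
      (t := D.image (fun d => d / part ps.toFinset d)) (fun d hd =>
        Finset.mem_image_of_mem _ (Finset.mem_filter.1 hd).1)]
    refine Finset.sum_congr rfl fun z _ => ?_
    congr 1
    rw [hfib]
    ext d
    simp only [Finset.mem_filter]
    tauto
  have hsum2 : D.card = ∑ z ∈ D.image (fun d => d / part ps.toFinset d), (fib z).card := by
    rw [Finset.card_eq_sum_card_fiberwise (f := fun d => d / part ps.toFinset d)
      (t := D.image (fun d => d / part ps.toFinset d)) (fun d hd =>
        Finset.mem_image_of_mem _ hd)]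
    rw [hfib]
  have hfinal : (2 : ℝ) ^ k * ((D.filter bad).card : ℝ) ≤ D.card * N := by
    rw [hsum1]
    conv_rhs => rw [hsum2]
    push_cast
    rw [mul_sum, sum_mul]
    exact sum_le_sum fun z _ => key z
  have hbad' : D.filter bad = D.filter (fun d => k ≤ (ps.toFinset.filter (· ∣ d)).card ∧
      ¬ Fin1 P (run P (ps.zip (ps.map d.factorization)) (D.image (Nat.cast : ℕ → ℤ), B)
        ((d / part (Q0 ∪ ps.toFinset) d : ℕ) : ℤ) b)) := by
    ext d
    simp only [mem_filter, hbad]
  rw [← hbad', le_div_iff₀ (by positivity), mul_comm]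
  refine hfinal.trans (le_of_eq ?_)
  rw [hN]
  ring

end Pool.Agent.Helper5.RD.PE1r

namespace Pool.Agent.Helper5.RD

theorem p_E1r (hB : S_B) : S_E1r := PE1r.main hB

end Pool.Agent.Helper5.RD
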