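import Pool.Agent.Helper5.RD.Stm

/-! # Project RD, package E2 -/

namespace Pool.Agent.Helper5.RD

open Finset Classical

noncomputable section

namespace PE2

lemma part_ne {Q : Finset ℕ} (hQ : ∀ q ∈ Q, q.Prime) (d : ℕ) : part Q d ≠ 0 := by
  unfold part
  exact Finset.prod_ne_zero_iff.2 fun q hq => pow_ne_zero _ (hQ q hq).ne_zero

lemma part_fact {Q : Finset ℕ} (hQ : ∀ q ∈ Q, q.Prime) (d p : ℕ) :
    (part Q d).factorization p = if p ∈ Q then d.factorization p else 0 := by
  unfold part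
  rw [Nat.factorization_prod (fun q hq => pow_ne_zero _ (hQ q hq).ne_zero),
    Finsupp.finsetSum_apply]
  have h : ∀ q ∈ Q, (q ^ d.factorization q).factorization p =
      if p = q then d.factorization q else 0 := by
    intro q hq
    rw [(hQ q hq).factorization_pow, Finsupp.single_apply]
    by_cases h : p = q
    · subst h; simp
    · rw [if_neg h, if_neg (Ne.symm h)]
  rw [Finset.sum_congr rfl h, Finset.sum_ite_eq]

lemma part_dvd {Q : Finset ℕ} (hQ : ∀ q ∈ Q, q.Prime) {d : ℕ} (hd : d ≠ 0) : part Q d ∣ d := by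
  rw [← Nat.factorization_le_iff_dvd (part_ne hQ d) hd]
  intro p
  rw [part_fact hQ]
  split_ifs
  · exact le_rfl
  · exact Nat.zero_le _

lemma part_mul {Q : Finset ℕ} {a b : ℕ} (ha : a ≠ 0) (hb : b ≠ 0) :
    part Q (a * b) = part Q a * part Q b := by
  unfold part
  rw [← Finset.prod_mul_distrib]
  refine Finset.prod_congr rfl fun q _ => ?_
  rw [Nat.factorization_mul ha hb, Finsupp.add_apply, pow_add]

lemma part_one {Q : Finset ℕ} {z : ℕ} (hz : ∀ q ∈ Q, z.factorization q = 0) : part Q z = 1 := by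
  unfold part
  exact Finset.prod_eq_one fun q hq => by rw [hz q hq, pow_zero]

lemma part_self {Q : Finset ℕ} (hQ : ∀ q ∈ Q, q.Prime) {t : ℕ} (ht : t ≠ 0)
    (h : ∀ p, p ∉ Q → t.factorization p = 0) : part Q t = t := by
  refine Nat.eq_of_factorization_eq (part_ne hQ t) ht fun p => ?_
  rw [part_fact hQ]
  split_ifs with hp
  · rfl
  · exact (h p hp).symm

lemma quot_fact {Q : Finset ℕ} (hQ : ∀ q ∈ Q, q.Prime) {d : ℕ} (hd : d ≠ 0) (p : ℕ) :
    (d / part Q d).factorization p = if p ∈ Q then 0 else d.factorization p := by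
  rw [Nat.factorization_div (part_dvd hQ hd), Finsupp.tsub_apply, part_fact hQ]
  split_ifs
  · exact Nat.sub_self _
  · exact Nat.sub_zero _

lemma quot_ne {Q : Finset ℕ} (hQ : ∀ q ∈ Q, q.Prime) {d : ℕ} (hd : d ≠ 0) : d / part Q d ≠ 0 := by
  have h := Nat.div_mul_cancel (part_dvd hQ hd)
  intro h0
  rw [h0, zero_mul] at h
  exact hd h.symm

/-- the residues after multiplication by `c` -/
lemma residues (p c : ℕ) (hp : p.Prime) (hc : ¬ p ∣ c) (Z : Finset ℕ) :
    ((range p).filter (fun r => (r * c) % p ∈ Z)).card ≤ Z.card := by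
  refine Finset.card_le_card_of_injOn (fun r => (r * c) % p) ?_ ?_
  · intro r hr
    exact (Finset.mem_filter.1 hr).2
  · intro r hr r' hr' h
    have h1 := Finset.mem_range.1 (Finset.mem_filter.1 hr).1
    have h2 := Finset.mem_range.1 (Finset.mem_filter.1 hr').1
    have h3 : r * c ≡ r' * c [MOD p] := h
    have hcop : Nat.Coprime p c := (Nat.Prime.coprime_iff_not_dvd hp).2 hc
    have h4 : r ≡ r' [MOD p] := Nat.ModEq.cancel_right_of_coprime hcop h3
    exact Nat.ModEq.eq_of_lt_of_lt h4 h1 h2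

end PE2

open PE2 in
theorem p_E2 (hC : S_C) (hD2 : S_D2) : S_E2 := by
  intro P hK1 hK2 D hD0 hDd Q0 ps hQ0 hps hnd hlt B b hb F k f
  have hQps : ∀ q ∈ ps.toFinset, q.Prime := fun q hq => hps q (List.mem_toFinset.1 hq)
  have hQQ : ∀ q ∈ Q0 ∪ ps.toFinset, q.Prime := by
    intro q hq
    rcases Finset.mem_union.1 hq with h | h
    · exact hQ0 q h
    · exact hQps q h
  have hdisj : ∀ p ∈ ps, p ∉ Q0 := fun p hp hq => lt_irrefl _ (hlt p hq p hp)
  -- the fibres
  obtain ⟨fib, hfib⟩ : ∃ fib : ℕ → Finset ℕ, fib = fun z => D.filter (fun d => d / part Q0 d = z) :=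
    ⟨_, rfl⟩
  obtain ⟨bad, hbad⟩ : ∃ bad : ℕ → Prop, bad = fun d => k ≤ (Q0.filter (· ∣ d)).card ∧
      F < bads P (part (Q0 ∪ ps.toFinset) d) (ps.zip (ps.map d.factorization))
        (D.image (Nat.cast : ℕ → ℤ), B) ((d / part (Q0 ∪ ps.toFinset) d : ℕ) : ℤ) b := ⟨_, rfl⟩
  have key : ∀ z : ℕ, (F + 1).choose f * k.choose f * ((fib z).filter bad).card ≤
      ((P.K1 * P.K2) ^ 2) ^ f * ps.length.choose f * (fib z).card := by
    intro z
    -- properties of the elements of the fibre
    have hel : ∀ d ∈ fib z, d ∈ D ∧ d ≠ 0 ∧ d / part Q0 d = z ∧ part Q0 d * z = d := by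
      intro d hd
      rw [hfib] at hd
      obtain ⟨h1, h2⟩ := Finset.mem_filter.1 hd
      refine ⟨h1, hD0 d h1, h2, ?_⟩
      rw [← h2]
      exact Nat.mul_div_cancel' (part_dvd hQ0 (hD0 d h1))
    rcases (fib z).eq_empty_or_nonempty with he | ⟨d0, hd0⟩
    · rw [he]; simp
    have hz0 : z ≠ 0 := by
      obtain ⟨-, h2, h3, -⟩ := hel d0 hd0
      rw [← h3]
      exact quot_ne hQ0 h2
    have hzQ : ∀ q ∈ Q0, z.factorization q = 0 := by
      obtain ⟨-, h2, h3, -⟩ := hel d0 hd0
      intro q hq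
      rw [← h3, quot_fact hQ0 h2, if_pos hq]
    have hinj : Set.InjOn (part Q0) (fib z) := by
      intro d hd d' hd' h
      rw [← (hel d hd).2.2.2, ← (hel d' hd').2.2.2, h]
    obtain ⟨E0, hE0⟩ : ∃ E0 : Finset ℕ, E0 = (fib z).image (part Q0) := ⟨_, rfl⟩
    have hcard : E0.card = (fib z).card := by rw [hE0]; exact Finset.card_image_of_injOn hinj
    have hE0ne : ∀ t ∈ E0, t ≠ 0 := by
      intro t ht
      rw [hE0] at ht
      obtain ⟨d, -, rfl⟩ := Finset.mem_image.1 ht
      exact part_ne hQ0 d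
    have hE0sm : ∀ t ∈ E0, ∀ p, p ∉ Q0 → t.factorization p = 0 := by
      intro t ht p hp
      rw [hE0] at ht
      obtain ⟨d, -, rfl⟩ := Finset.mem_image.1 ht
      rw [part_fact hQ0, if_neg hp]
    have hE0dvd : ∀ t ∈ E0, ∀ t', t' ∣ t → t' ∈ E0 := by
      intro t ht t' htt'
      have ht0 := hE0ne t ht
      have hsm := hE0sm t ht
      have ht'0 : t' ≠ 0 := fun h => ht0 (by rw [h] at htt'; exact Nat.eq_zero_of_zero_dvd htt')
      have hsm' : ∀ p, p ∉ Q0 → t'.factorization p = 0 := by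
        intro p hp
        have := (Nat.factorization_le_iff_dvd ht'0 ht0).2 htt' p
        rw [hsm p hp] at this
        exact Nat.le_zero.1 this
      rw [hE0] at ht ⊢
      obtain ⟨d, hd, rfl⟩ := Finset.mem_image.1 ht
      obtain ⟨h1, h2, h3, h4⟩ := hel d hd
      have hd' : t' * z ∈ D := hDd d h1 _ (by
        have h5 := Nat.mul_dvd_mul_right htt' z
        rw [h4] at h5
        exact h5)
      have hp' : part Q0 (t' * z) = t' := by
        rw [part_mul ht'0 hz0, part_self hQ0 ht'0 hsm', part_one hzQ, mul_one]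
      refine Finset.mem_image.2 ⟨t' * z, ?_, hp'⟩
      rw [hfib]
      refine Finset.mem_filter.2 ⟨hd', ?_⟩
      rw [hp', Nat.mul_div_cancel_left _ (Nat.pos_of_ne_zero ht'0)]
    -- the data which depend only on `z`
    obtain ⟨w, hw⟩ : ∃ w : ℕ, w = part ps.toFinset z := ⟨_, rfl⟩
    have hw0 : w ≠ 0 := by rw [hw]; exact part_ne hQps z
    have hwz : w ∣ z := by rw [hw]; exact part_dvd hQps hz0
    have hspl : ∀ t ∈ E0, part (Q0 ∪ ps.toFinset) (t * z) = t * w := by
      intro t ht
      refine Nat.eq_of_factorization_eq (part_ne hQQ _) (mul_ne_zero (hE0ne t ht) hw0) fun p => ?_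
      rw [part_fact hQQ, Nat.factorization_mul (hE0ne t ht) hz0,
        Nat.factorization_mul (hE0ne t ht) hw0, Finsupp.add_apply, Finsupp.add_apply, hw,
        part_fact hQps]
      by_cases h1 : p ∈ Q0
      · rw [if_pos (Finset.mem_union_left _ h1), hzQ p h1]
        split_ifs <;> rfl
      · by_cases h2 : p ∈ ps.toFinset
        · rw [if_pos (Finset.mem_union_right _ h2), if_pos h2]
        · rw [if_neg (by rw [Finset.mem_union]; tauto), if_neg h2, hE0sm t ht p h1]
    have hx : ∀ t ∈ E0, t * z / part (Q0 ∪ ps.toFinset) (t * z) = z / w := by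
      intro t ht
      rw [hspl t ht, Nat.mul_div_mul_left _ _ (Nat.pos_of_ne_zero (hE0ne t ht))]
    have hl : ∀ t ∈ E0, ps.map (t * z).factorization = ps.map z.factorization := by
      intro t ht
      refine List.map_congr_left fun p hp => ?_
      rw [Nat.factorization_mul (hE0ne t ht) hz0, Finsupp.add_apply, hE0sm t ht p (hdisj p hp),
        zero_add]
    obtain ⟨Z, hZ1, hZ2⟩ := hD2 P hK1 hK2 ps hnd hps (ps.map z.factorization)
      (D.image (Nat.cast : ℕ → ℤ), B) ((z / w : ℕ) : ℤ) b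
    obtain ⟨c, hc⟩ : ∃ c : ℕ → ℕ, c = fun p => w / p ^ w.factorization p := ⟨_, rfl⟩
    have hcp : ∀ p ∈ ps, ¬ p ∣ c p := by
      intro p hp
      rw [hc]
      exact Nat.not_dvd_ordCompl (hps p hp) hw0
    obtain ⟨Z', hZ'⟩ : ∃ Z' : ℕ → Finset ℕ,
        Z' = fun p => (range p).filter (fun r => (r * c p) % p ∈ Z p) := ⟨_, rfl⟩
    have hCz := hC E0 hE0ne hE0dvd ps.toFinset hQps (by
      intro t ht r hr hrt p hp
      by_contra hcon
      have h1 : r ∈ Q0 := by
        by_contra h2
        have h3 := hE0sm t ht r h2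
        have h4 := (hr.factorization_pos_of_dvd (hE0ne t ht) hrt)
        omega
      exact hcon (hlt r h1 p (List.mem_toFinset.1 hp))) Z' ((P.K1 * P.K2) ^ 2) (by
      intro p hp
      rw [hZ']
      exact (residues p (c p) (hQps p hp) (hcp p (List.mem_toFinset.1 hp)) (Z p)).trans (hZ1 p))
      (F + 1) k f
    rw [List.toFinset_card_of_nodup hnd, hcard] at hCz
    refine le_trans (Nat.mul_le_mul_left _ ?_) hCz
    refine Finset.card_le_card_of_injOn (part Q0) ?_ (hinj.mono (by
      intro d hd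
      exact (Finset.mem_filter.1 hd).1))
    intro d hd
    obtain ⟨hd1, hd2⟩ := Finset.mem_filter.1 hd
    obtain ⟨h1, h2, h3, h4⟩ := hel d hd1
    have htE : part Q0 d ∈ E0 := by rw [hE0]; exact Finset.mem_image_of_mem _ hd1
    rw [hbad] at hd2
    obtain ⟨hk, hF⟩ := hd2
    refine Finset.mem_filter.2 ⟨htE, ?_, ?_⟩
    · refine hk.trans (Finset.card_le_card ?_)
      intro q hq
      obtain ⟨hq1, hq2⟩ := Finset.mem_filter.1 hq
      rw [Nat.mem_primeFactors]
      refine ⟨hQ0 q hq1, ?_, part_ne hQ0 d⟩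
      have h5 := (hQ0 q hq1).factorization_pos_of_dvd h2 hq2
      have h6 : 0 < (part Q0 d).factorization q := by rw [part_fact hQ0, if_pos hq1]; exact h5
      exact Nat.dvd_of_factorization_pos h6.ne'
    · obtain ⟨t, ht⟩ : ∃ t : ℕ, t = part Q0 d := ⟨_, rfl⟩
      rw [← ht] at htE h4 ⊢
      rw [← h4, hx t htE, hl t htE, hspl t htE] at hF
      have h5 := hZ2 (t * w) (mul_ne_zero (hE0ne t htE) hw0) (by
        refine List.map_congr_left fun p hp => ?_
        rw [Nat.factorization_mul (hE0ne t htE) hw0, Finsupp.add_apply,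
          hE0sm t htE p (hdisj p hp), zero_add, hw, part_fact hQps,
          if_pos (List.mem_toFinset.2 hp)])
      refine (Nat.succ_le_of_lt (lt_of_lt_of_le hF h5)).trans (Finset.card_le_card ?_)
      intro p hp
      obtain ⟨hp1, hp2⟩ := Finset.mem_filter.1 hp
      refine Finset.mem_filter.2 ⟨hp1, ?_⟩
      have hpp := hQps p hp1
      have hpl := List.mem_toFinset.1 hp1
      rw [hZ']
      refine Finset.mem_filter.2 ⟨Finset.mem_range.2 (Nat.mod_lt _ hpp.pos), ?_⟩
      have h6 : (t * w).factorization p = w.factorization p := by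
        rw [Nat.factorization_mul (hE0ne t htE) hw0, Finsupp.add_apply,
          hE0sm t htE p (hdisj p hpl), zero_add]
      rw [h6, Nat.mul_div_assoc _ (Nat.ordProj_dvd w p)] at hp2
      rw [hc]
      simp only
      rw [Nat.mod_mul_mod]
      exact hp2
  -- the sum over the fibres
  have hsum1 : (D.filter bad).card = ∑ z ∈ D.image (fun d => d / part Q0 d),
      ((fib z).filter bad).card := by
    rw [Finset.card_eq_sum_card_fiberwise (f := fun d => d / part Q0 d)
      (t := D.image (fun d => d / part Q0 d)) (fun d hd =>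
        Finset.mem_image_of_mem _ (Finset.mem_filter.1 hd).1)]
    refine Finset.sum_congr rfl fun z _ => ?_
    congr 1
    rw [hfib]
    ext d
    simp only [Finset.mem_filter]
    tauto
  have hsum2 : D.card = ∑ z ∈ D.image (fun d => d / part Q0 d), (fib z).card := by
    rw [Finset.card_eq_sum_card_fiberwise (f := fun d => d / part Q0 d)
      (t := D.image (fun d => d / part Q0 d)) (fun d hd => Finset.mem_image_of_mem _ hd)]
    rw [hfib]
  have hfinal : (F + 1).choose f * k.choose f * (D.filter bad).card ≤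
      ((P.K1 * P.K2) ^ 2) ^ f * ps.length.choose f * D.card := by
    rw [hsum1, hsum2, Finset.mul_sum, Finset.mul_sum]
    exact Finset.sum_le_sum fun z _ => key z
  rw [hbad] at hfinal
  convert hfinal using 3
  ext d
  simp only [Finset.mem_filter]

end

end Pool.Agent.Helper5.RD
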