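import Pool.Agent.Helper5.RD.Stm5
import Pool.Agent.Helper5.RD.PE1r

/-! # Project RD, package G1r (closure under division by the primes of `Q` only) -/

namespace Pool.Agent.Helper5.RD

open Finset Classical

noncomputable section

open PE2 in
theorem p_G1r (hA3 : S_A3) : S_G1r := by
  intro P ε Λ hε hK0 hK1 hK2 hΛ D A hD0 hAD Q0 ps hQ0 hps hnd hlt hRC B F hbad
  have hQps : ∀ q ∈ ps.toFinset, q.Prime := fun q hq => hps q (List.mem_toFinset.1 hq)
  have hQQ : ∀ q ∈ Q0 ∪ ps.toFinset, q.Prime := by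
    intro q hq
    rcases Finset.mem_union.1 hq with h | h
    · exact hQ0 q h
    · exact hQps q h
  obtain ⟨Gd, hGd⟩ : ∃ Gd : Finset (ℕ × ℤ), Gd = (A ×ˢ B).filter (fun q =>
      (Fin1 P (run P (ps.zip (ps.map q.1.factorization)) (D.image (Nat.cast : ℕ → ℤ), B)
          ((q.1 / part (Q0 ∪ ps.toFinset) q.1 : ℕ) : ℤ) q.2) ∧
        bads P (part (Q0 ∪ ps.toFinset) q.1) (ps.zip (ps.map q.1.factorization))
          (D.image (Nat.cast : ℕ → ℤ), B) ((q.1 / part (Q0 ∪ ps.toFinset) q.1 : ℕ) : ℤ) q.2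
          ≤ F)) := ⟨_, rfl⟩
  have hGdc : A.card * B.card ≤ 2 * Gd.card := by
    have h1 := Finset.card_filter_add_card_filter_not (s := A ×ˢ B) (fun q : ℕ × ℤ =>
      (Fin1 P (run P (ps.zip (ps.map q.1.factorization)) (D.image (Nat.cast : ℕ → ℤ), B)
          ((q.1 / part (Q0 ∪ ps.toFinset) q.1 : ℕ) : ℤ) q.2) ∧
        bads P (part (Q0 ∪ ps.toFinset) q.1) (ps.zip (ps.map q.1.factorization))
          (D.image (Nat.cast : ℕ → ℤ), B) ((q.1 / part (Q0 ∪ ps.toFinset) q.1 : ℕ) : ℤ) q.2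
          ≤ F))
    rw [Finset.card_product] at h1
    rw [hGd]
    omega
  obtain ⟨W, hW⟩ : ∃ W : ℝ, W = P.K0 * Λ ^ ps.length * ((D.card : ℝ) * B.card) ^ ε *
    (P.K1 : ℝ) ^ F := ⟨_, rfl⟩
  obtain ⟨SA, hSA⟩ : ∃ SA : Finset ℕ, SA = A.image (part (Q0 ∪ ps.toFinset)) := ⟨_, rfl⟩
  obtain ⟨SM, hSM⟩ : ∃ SM : Finset ℤ,
    SM = (A.image (Nat.cast : ℕ → ℤ) ×ˢ B).image (fun q => q.1 + q.2) := ⟨_, rfl⟩
  rw [← hW, ← hSA, ← hSM]
  -- the fibres
  have hfib : ∀ t ∈ SA ×ˢ SM, ((Gd.filter (fun q => (part (Q0 ∪ ps.toFinset) q.1,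
      (q.1 : ℤ) + q.2) = t)).card : ℝ) ≤ W := by
    rintro ⟨s, n⟩ ht
    have hs : s ∈ SA := (Finset.mem_product.1 ht).1
    have hs0 : s ≠ 0 := by
      rw [hSA] at hs
      obtain ⟨a, -, rfl⟩ := Finset.mem_image.1 hs
      exact part_ne hQQ a
    have h3 := hA3 P s ε Λ hε hK0 hK1 hK2 hΛ (ps.zip (ps.map s.factorization)) (by
      intro q hq
      have h1 : q.1 ∈ ps := (List.of_mem_zip hq).1
      have h2 : q.2 = s.factorization q.1 := by
        rw [List.zip_map_right, List.mem_map] at hq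
        obtain ⟨r, hr, rfl⟩ := hq
        have h4 : r.1 = r.2 := by
          have := List.mem_iff_getElem.1 hr
          obtain ⟨i, hi, hir⟩ := this
          rw [List.getElem_zip] at hir
          rw [← hir]
        simp [h4]
      refine ⟨hps q.1 h1, s / q.1 ^ s.factorization q.1, ?_, ?_⟩
      · rw [h2]
        exact (Nat.mul_div_cancel' (Nat.ordProj_dvd s q.1)).symm
      · exact Nat.not_dvd_ordCompl (hps q.1 h1) hs0) (D.image (Nat.cast : ℕ → ℤ)) B F n
    have hlen : (ps.zip (ps.map s.factorization)).length = ps.length := by simp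
    have hXc : (D.image (Nat.cast : ℕ → ℤ)).card = D.card :=
      Finset.card_image_of_injective _ Nat.cast_injective
    rw [hlen, hXc, ← hW] at h3
    refine le_trans ?_ h3
    rw [Nat.cast_le]
    refine Finset.card_le_card_of_injOn (fun q => (((q.1 / s : ℕ) : ℤ), q.2)) ?_ ?_
    · intro q hq
      obtain ⟨hq1, hq2⟩ := Finset.mem_filter.1 hq
      rw [hGd] at hq1
      obtain ⟨hq3, hq4, hq5⟩ := Finset.mem_filter.1 hq1
      obtain ⟨hqA, hqB⟩ := Finset.mem_product.1 hq3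
      rw [Prod.mk.injEq] at hq2
      obtain ⟨e1, e2⟩ := hq2
      have ha0 := hD0 q.1 (hAD hqA)
      have hdv : s ∣ q.1 := by rw [← e1]; exact part_dvd hQQ ha0
      have hfac : ps.map q.1.factorization = ps.map s.factorization := by
        refine List.map_congr_left fun p hp => ?_
        rw [← e1, part_fact hQQ, if_pos (Finset.mem_union_right _ (List.mem_toFinset.2 hp))]
      rw [hfac, e1] at hq4 hq5
      refine Finset.mem_filter.2 ⟨Finset.mem_product.2 ⟨?_, hqB⟩, ?_, hq4, hq5⟩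
      · exact Finset.mem_image_of_mem _ (hRC q.1 (hAD hqA) s hdv fun r hr hrs =>
          PE1r.prime_dvd_part hQQ hr (d := q.1) (by rw [e1]; exact hrs))
      · show (s : ℤ) * ((q.1 / s : ℕ) : ℤ) + q.2 = n
        rw [← Nat.cast_mul, Nat.mul_div_cancel' hdv]
        exact e2
    · intro q hq q' hq' h
      obtain ⟨-, hq2⟩ := Finset.mem_filter.1 hq
      obtain ⟨-, hq2'⟩ := Finset.mem_filter.1 hq'
      rw [Prod.mk.injEq] at hq2 hq2' h
      have h2 : q.2 = q'.2 := h.2
      have h4 : (q.1 : ℤ) = q'.1 := by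
        have := hq2.2.trans hq2'.2.symm
        rw [h2] at this
        linarith
      exact Prod.ext (by exact_mod_cast h4) h2
  have hsum : (Gd.card : ℝ) ≤ (SA.card : ℝ) * SM.card * W := by
    have h1 := Finset.card_eq_sum_card_fiberwise (s := Gd) (t := SA ×ˢ SM)
      (f := fun q => (part (Q0 ∪ ps.toFinset) q.1, (q.1 : ℤ) + q.2)) (by
        intro q hq
        rw [hGd] at hq
        obtain ⟨hqA, hqB⟩ := Finset.mem_product.1 (Finset.mem_filter.1 hq).1
        rw [hSA, hSM]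
        refine Finset.mem_product.2 ⟨Finset.mem_image_of_mem _ hqA, ?_⟩
        exact Finset.mem_image.2 ⟨((q.1 : ℤ), q.2),
          Finset.mem_product.2 ⟨Finset.mem_image_of_mem _ hqA, hqB⟩, rfl⟩)
    rw [h1, Nat.cast_sum]
    refine (Finset.sum_le_sum hfib).trans (le_of_eq ?_)
    rw [Finset.sum_const, Finset.card_product, nsmul_eq_mul]
    push_cast
    ring
  have h2 : ((A.card * B.card : ℕ) : ℝ) ≤ ((2 * Gd.card : ℕ) : ℝ) := by exact_mod_cast hGdc
  push_cast at h2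
  calc (A.card : ℝ) * B.card ≤ 2 * Gd.card := h2
    _ ≤ 2 * ((SA.card : ℝ) * SM.card * W) := by linarith
    _ = 2 * SA.card * W * SM.card := by ring

end

end Pool.Agent.Helper5.RD
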