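import Pool.Agent.Helper5.RD.Stm

/-! # Project RD: package H2 -/

namespace Pool.Agent.Helper5.RD

open Finset Classical

noncomputable section

theorem p_H2 : S_H2 := by
  intro Q g T hg hQ A hA hcount
  set r : ℕ → ℕ := fun q => (Q.filter (· < q)).card with hr
  have rmono : ∀ p q, p ≤ q → r p ≤ r q := by
    intro p q hpq
    apply Finset.card_le_card
    intro y hy
    rw [Finset.mem_filter] at hy ⊢
    exact ⟨hy.1, lt_of_lt_of_le hy.2 hpq⟩
  have rlt2 : ∀ p q, p ∈ Q → p < q → r p < r q := by
    intro p q hp hpq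
    apply Finset.card_lt_card
    rw [Finset.ssubset_iff_of_subset]
    · refine ⟨p, ?_, ?_⟩
      · rw [Finset.mem_filter]; exact ⟨hp, hpq⟩
      · rw [Finset.mem_filter]; exact fun h => lt_irrefl _ h.2
    · intro y hy
      rw [Finset.mem_filter] at hy ⊢
      exact ⟨hy.1, lt_trans hy.2 hpq⟩
  have rlt : ∀ q ∈ Q, r q < Q.card := by
    intro q hq
    apply Finset.card_lt_card
    rw [Finset.ssubset_iff_of_subset (Finset.filter_subset _ _)]
    exact ⟨q, hq, fun h => lt_irrefl _ (Finset.mem_filter.1 h).2⟩
  have rinj : ∀ p ∈ Q, ∀ q ∈ Q, r p = r q → p = q := by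
    intro p hp q hq h
    rcases lt_trichotomy p q with h1 | h1 | h1
    · exact absurd h (rlt2 p q hp h1).ne
    · exact h1
    · exact absurd h.symm (rlt2 q p hq h1).ne
  let Bk : ℕ → Finset ℕ := fun i => Q.filter (fun q => r q / g = i)
  have hBk : ∀ i, (Bk i).card ≤ g := by
    intro i
    have h1 : (Bk i).card ≤ (Finset.Ico (i * g) (i * g + g)).card := by
      apply Finset.card_le_card_of_injOn r
      · intro q hq
        have hq' : q ∈ Q ∧ r q / g = i := by simpa [Bk] using hq
        rw [Finset.mem_coe, Finset.mem_Ico]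
        have h2 := Nat.div_add_mod (r q) g
        have h3 := Nat.mod_lt (r q) hg
        rw [hq'.2] at h2
        rw [mul_comm] at h2
        constructor <;> omega
      · intro p hp q hq h
        have hp' : p ∈ Q ∧ r p / g = i := by simpa [Bk] using hp
        have hq' : q ∈ Q ∧ r q / g = i := by simpa [Bk] using hq
        exact rinj p hp'.1 q hq'.1 h
    rwa [Nat.card_Ico, Nat.add_sub_cancel_left] at h1
  have hsep : ∀ i j, i < j → ∀ q ∈ Bk i, ∀ p ∈ Bk j, q < p := by
    intro i j hij q hq p hp
    have hq' : q ∈ Q ∧ r q / g = i := by simpa [Bk] using hq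
    have hp' : p ∈ Q ∧ r p / g = j := by simpa [Bk] using hp
    by_contra hcon
    have h1 := rmono p q (not_lt.1 hcon)
    have h2 := Nat.div_le_div_right (c := g) h1
    omega
  -- the counts
  let c : ℕ → ℕ → ℕ := fun a i => ((Bk i).filter (· ∣ a)).card
  have hc : ∀ a i, c a i ≤ g := fun a i => (Finset.card_filter_le _ _).trans (hBk i)
  have hsum : ∀ a ∈ A, 2 * g ≤ ∑ i ∈ Finset.range T, c a i := by
    intro a ha
    refine (hcount a ha).trans ?_
    rw [Finset.card_eq_sum_card_fiberwise (f := fun q => r q / g) (t := Finset.range T)]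
    · apply Finset.sum_le_sum
      intro i _
      apply Finset.card_le_card
      intro q hq
      rw [Finset.mem_filter, Finset.mem_filter] at hq
      rw [Finset.mem_filter]
      refine ⟨?_, hq.1.2⟩
      change q ∈ Q.filter (fun q => r q / g = i)
      rw [Finset.mem_filter]
      exact ⟨hq.1.1, hq.2⟩
    · intro q hq
      have hq' := Finset.mem_filter.1 (Finset.mem_coe.1 hq)
      rw [Finset.mem_coe, Finset.mem_range]
      exact Nat.div_lt_of_lt_mul (by
        have := rlt q hq'.1
        have h3 := mul_comm T g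
        omega)
  have key : ∀ a ∈ A, ∃ ij : ℕ × ℕ, ij ∈ Finset.range T ×ˢ Finset.range T ∧ ij.1 < ij.2 ∧
      g ≤ T * c a ij.1 ∧ g ≤ T * c a ij.2 := by
    intro a ha
    have h0 := hsum a ha
    have hT : 0 < T := by
      rcases Nat.eq_zero_or_pos T with h | h
      · subst h
        simp at h0
        omega
      · exact h
    obtain ⟨i, hi, himax⟩ := Finset.exists_max_image (Finset.range T) (c a)
      ⟨0, Finset.mem_range.2 hT⟩
    have h1 : g ≤ ∑ j ∈ (Finset.range T).erase i, c a j := by
      have := Finset.add_sum_erase (Finset.range T) (c a) hi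
      have := hc a i
      omega
    have hne : ((Finset.range T).erase i).Nonempty := by
      rw [Finset.nonempty_iff_ne_empty]
      intro h
      rw [h] at h1
      simp at h1
      omega
    obtain ⟨j, hj, hjmax⟩ := Finset.exists_max_image ((Finset.range T).erase i) (c a) hne
    have h2 : g ≤ T * c a j := by
      have h3 := Finset.sum_le_card_nsmul ((Finset.range T).erase i) (c a) (c a j) hjmax
      have h4 : ((Finset.range T).erase i).card ≤ T := by
        refine (Finset.card_erase_le).trans ?_
        rw [Finset.card_range]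
      rw [smul_eq_mul] at h3
      calc g ≤ _ := h1
        _ ≤ _ := h3
        _ ≤ T * c a j := Nat.mul_le_mul_right _ h4
    have hji : j ≠ i := (Finset.mem_erase.1 hj).1
    have hjr : j ∈ Finset.range T := (Finset.mem_erase.1 hj).2
    have h3 : g ≤ T * c a i := h2.trans (Nat.mul_le_mul_left _ (himax j hjr))
    rcases lt_or_gt_of_ne hji with h | h
    · exact ⟨(j, i), Finset.mem_product.2 ⟨hjr, hi⟩, h, h2, h3⟩
    · exact ⟨(i, j), Finset.mem_product.2 ⟨hi, hjr⟩, h, h3, h2⟩
  choose! φ hφ using key
  have hmaps : ∀ a ∈ A, φ a ∈ Finset.range T ×ˢ Finset.range T := fun a ha => (hφ a ha).1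
  obtain ⟨ij, hij, hle⟩ : ∃ ij ∈ Finset.range T ×ˢ Finset.range T,
      A.card ≤ T ^ 2 * (A.filter (fun a => φ a = ij)).card := by
    by_contra hcon
    push Not at hcon
    have h1 := Finset.card_eq_sum_card_fiberwise (f := φ) (s := A)
      (t := Finset.range T ×ˢ Finset.range T) hmaps
    have hne : (Finset.range T ×ˢ Finset.range T).Nonempty := by
      obtain ⟨a, ha⟩ := hA
      exact ⟨_, hmaps a ha⟩
    have h2 := Finset.sum_lt_sum_of_nonempty hne hcon
    rw [← Finset.mul_sum, ← h1, Finset.sum_const, Finset.card_product, Finset.card_range,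
      smul_eq_mul, ← pow_two] at h2
    exact lt_irrefl _ h2
  obtain ⟨a0, ha0⟩ : (A.filter (fun a => φ a = ij)).Nonempty := by
    rw [Finset.nonempty_iff_ne_empty]
    intro h
    rw [h] at hle
    simp at hle
    exact hA.ne_empty hle
  have hlt : ij.1 < ij.2 := by
    have h1 := Finset.mem_filter.1 ha0
    rw [← h1.2]
    exact (hφ a0 h1.1).2.1
  refine ⟨Bk ij.1, Bk ij.2, Finset.filter_subset _ _, Finset.filter_subset _ _,
    hsep _ _ hlt, hBk _, hBk _, hle.trans ?_⟩
  apply Nat.mul_le_mul_left
  apply Finset.card_le_card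
  intro a ha
  rw [Finset.mem_filter] at ha ⊢
  refine ⟨ha.1, ?_⟩
  have := (hφ a ha.1).2.2
  rw [ha.2] at this
  exact this

end

end Pool.Agent.Helper5.RD
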