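import Pool.Agent.Helper5.RD.Stm

/-! # Project RD: package H3 -/

namespace Pool.Agent.Helper5.RD

open Finset Classical

noncomputable section

theorem p_H3 : S_H3 := by
  intro A hA M L hL hD
  have h1 : ∀ a ∈ A, a.primeFactors.card ≤ M := by
    intro a ha
    have h2 : 2 ^ a.primeFactors.card ≤ a.divisors.card := by
      rw [Nat.card_divisors (hA a ha), ← Finset.prod_const]
      apply Finset.prod_le_prod'
      intro p hp
      have h3 : 0 < a.factorization p := by
        rw [Nat.mem_primeFactors] at hp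
        exact hp.1.factorization_pos_of_dvd hp.2.2 hp.2.1
      omega
    have h3 : a.divisors.card ≤ (A.biUnion (fun a => a.divisors)).card :=
      Finset.card_le_card (Finset.subset_biUnion_of_mem (fun a => a.divisors) ha)
    exact (Nat.pow_le_pow_iff_right (by norm_num)).1 (h2.trans (h3.trans hD))
  refine ⟨h1, ?_⟩
  intro Q hQ hne
  have hpos : 0 < A.card := hne.card_pos
  have h2 : ∑ q ∈ Q, (A.filter (q ∣ ·)).card = ∑ a ∈ A, (Q.filter (· ∣ a)).card := by
    have := Finset.sum_card_bipartiteAbove_eq_sum_card_bipartiteBelow (s := Q) (t := A)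
      (fun q a => q ∣ a)
    exact this
  have h3 : ∑ a ∈ A, (Q.filter (· ∣ a)).card ≤ A.card * M := by
    rw [← smul_eq_mul]
    apply Finset.sum_le_card_nsmul
    intro a ha
    refine le_trans (Finset.card_le_card ?_) (h1 a ha)
    intro q hq
    rw [Finset.mem_filter] at hq
    rw [Nat.mem_primeFactors]
    exact ⟨(hQ q hq.1).1, hq.2, hA a ha⟩
  have h4 : Q.card * A.card ≤ L * ∑ q ∈ Q, (A.filter (q ∣ ·)).card := by
    rw [Finset.mul_sum, ← smul_eq_mul]
    exact Finset.card_nsmul_le_sum Q _ _ (fun q hq => (hQ q hq).2)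
  have h5 : Q.card * A.card ≤ (L * M) * A.card := by
    calc Q.card * A.card ≤ L * ∑ q ∈ Q, (A.filter (q ∣ ·)).card := h4
      _ = L * ∑ a ∈ A, (Q.filter (· ∣ a)).card := by rw [h2]
      _ ≤ L * (A.card * M) := Nat.mul_le_mul_left _ h3
      _ = (L * M) * A.card := by ring
  exact Nat.le_of_mul_le_mul_right h5 hpos

end

end Pool.Agent.Helper5.RD
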