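import Pool.Agent.Helper5.RD.Stm2

/-! # Project RD: the theorem for sets of positive integers -/

namespace Pool.Agent.Helper5.RD

open Finset Classical

noncomputable section

namespace PJ1

theorem part_card {Q A : Finset ℕ} (hQ : ∀ q ∈ Q, q.Prime) (hA : ∀ a ∈ A, a ≠ 0) (hH1 : S_H1)
    {j H W : ℕ} (hj : ∀ a ∈ A, (Q.filter (· ∣ a)).card ≤ j ∧ a.primeFactorsList.length ≤ H)
    {δ ρ R : ℝ} (h1 : 0 < δ) (h2 : δ ≤ 1) (h3 : 0 < ρ) (h4 : ρ < 1) (hW : Q.card ≤ W)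
    (hR : (1 + δ / (1 - ρ)) ^ W ≤ R * (δ ^ j * ρ ^ H)) : ((A.image (part Q)).card : ℝ) ≤ R := by
  have h5 := hH1 Q A hQ hA j H hj δ ρ h1 h2 h3 h4
  have h6 : (1 : ℝ) ≤ 1 + δ / (1 - ρ) := by
    have : 0 ≤ δ / (1 - ρ) := div_nonneg h1.le (by linarith)
    linarith
  have h7 := h5.trans ((pow_le_pow_right₀ h6 hW).trans hR)
  have h8 : 0 < δ ^ j * ρ ^ H := by positivity
  exact le_of_mul_le_mul_right h7 h8

theorem card_le_image_add {A : Finset ℕ} (hA : A.Nonempty) (B : Finset ℤ) :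
    B.card ≤ ((A.image (Nat.cast : ℕ → ℤ) ×ˢ B).image (fun q => q.1 + q.2)).card := by
  obtain ⟨a, ha⟩ := hA
  refine card_le_card_of_injOn (fun b => (a : ℤ) + b) ?_ ?_
  · intro b hb
    rw [mem_coe] at hb ⊢
    exact mem_image.2 ⟨((a : ℤ), b), mem_product.2 ⟨mem_image_of_mem _ ha, hb⟩, rfl⟩
  · intro b _ b' _ h
    simpa using h

/-- The number of bad pairs. -/
theorem bad_card {P : Par} (hE1 : S_E1) (hE2 : S_E2) {γ κ N T Y : ℝ} {D A' Q0 Q1 : Finset ℕ}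
    {g k F f : ℕ} {Nη : ℝ}
    (hK0 : 1 ≤ P.K0) (hK01 : P.K0 ≤ P.K1) (hK2 : 1 ≤ P.K2) (hγ : 0 ≤ γ)
    (hD0 : ∀ d ∈ D, d ≠ 0) (hD : ∀ d ∈ D, ∀ d', d' ∣ d → d' ∈ D) (hAD : A' ⊆ D)
    (hQ0 : ∀ q ∈ Q0, q.Prime) (hQ1 : ∀ q ∈ Q1, q.Prime) (hlt : ∀ q ∈ Q0, ∀ p ∈ Q1, q < p)
    (hg : Q1.card ≤ g) {B : Finset ℤ}
    (hk : ∀ a ∈ A', k ≤ (Q0.filter (· ∣ a)).card ∧ k ≤ (Q1.filter (· ∣ a)).card)
    (hfk : f ≤ k) (hfF : f ≤ F + 1) (hN : 0 < N) (hT : 0 < T) (hNη : 0 ≤ κ * Nη)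
    (hDc : (D.card : ℝ) ≤ N * (κ * Nη)) (hY : ((D.card : ℝ) * B.card) ^ γ ≤ Y)
    (hA' : N ≤ 2 * T ^ 2 * A'.card)
    (i1 : 8 * T ^ 2 * (κ * Nη) * ((1 + 2 * (P.K0 : ℝ) ^ (-γ)) ^ g * Y) ≤ 2 ^ k)
    (i2 : ∀ m : ℕ, m ≤ g → 8 * T ^ 2 * (κ * Nη) *
        (((((P.K1 * P.K2) ^ 2) ^ f * m.choose f : ℕ) : ℝ)) ≤
          (((F + 1).choose f * k.choose f : ℕ) : ℝ)) :
    2 * ((A' ×ˢ B).filter (fun q =>
      ¬ (Fin1 P (run P (Q1.toList.zip (Q1.toList.map q.1.factorization))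
          (D.image (Nat.cast : ℕ → ℤ), B)
          ((q.1 / part (Q0 ∪ Q1.toList.toFinset) q.1 : ℕ) : ℤ) q.2) ∧
        bads P (part (Q0 ∪ Q1.toList.toFinset) q.1) (Q1.toList.zip (Q1.toList.map q.1.factorization))
          (D.image (Nat.cast : ℕ → ℤ), B) ((q.1 / part (Q0 ∪ Q1.toList.toFinset) q.1 : ℕ) : ℤ) q.2
          ≤ F))).card ≤ A'.card * B.card := by
  have hK1 : 1 ≤ P.K1 := hK0.trans hK01
  have htl : Q1.toList.toFinset = Q1 := Finset.toList_toFinset Q1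
  have hlen : Q1.toList.length = Q1.card := Finset.length_toList Q1
  have hps : ∀ p ∈ Q1.toList, p.Prime := fun p hp => hQ1 p (Finset.mem_toList.1 hp)
  have hnd : Q1.toList.Nodup := Finset.nodup_toList Q1
  have hlt' : ∀ q ∈ Q0, ∀ p ∈ Q1.toList, q < p := fun q hq p hp =>
    hlt q hq p (Finset.mem_toList.1 hp)
  -- the two families of bad elements for a given `b`
  have e1 : ∀ b ∈ B, ((D.filter (fun d => k ≤ (Q1.toList.toFinset.filter (· ∣ d)).card ∧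
      ¬ Fin1 P (run P (Q1.toList.zip (Q1.toList.map d.factorization))
        (D.image (Nat.cast : ℕ → ℤ), B)
        ((d / part (Q0 ∪ Q1.toList.toFinset) d : ℕ) : ℤ) b))).card : ℝ) ≤ N / (8 * T ^ 2) := by
    intro b hb
    have h1 := hE1 P γ hγ hK0 hK01 D hD0 hD Q0 Q1.toList hQ0 hps hnd hlt' B b hb k
    refine h1.trans ?_
    rw [hlen]
    have hb1 : (1 : ℝ) ≤ 1 + 2 * (P.K0 : ℝ) ^ (-γ) := by
      have : (0 : ℝ) ≤ (P.K0 : ℝ) ^ (-γ) := by positivity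
      linarith
    have h2 : (1 + 2 * (P.K0 : ℝ) ^ (-γ)) ^ Q1.card ≤ (1 + 2 * (P.K0 : ℝ) ^ (-γ)) ^ g :=
      pow_le_pow_right₀ hb1 hg
    have hY0 : 0 ≤ Y := le_trans (by positivity) hY
    have hDY : (D.card : ℝ) * (1 + 2 * (P.K0 : ℝ) ^ (-γ)) ^ Q1.card *
        ((D.card : ℝ) * B.card) ^ γ ≤
        N * (κ * Nη) * (1 + 2 * (P.K0 : ℝ) ^ (-γ)) ^ g * Y := by
      apply mul_le_mul _ hY (by positivity) (by positivity)
      exact mul_le_mul hDc h2 (by positivity) (by positivity)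
    rw [div_le_div_iff₀ (by positivity) (by positivity)]
    calc (D.card : ℝ) * (1 + 2 * (P.K0 : ℝ) ^ (-γ)) ^ Q1.card *
          ((D.card : ℝ) * B.card) ^ γ * (8 * T ^ 2)
        ≤ N * (κ * Nη) * (1 + 2 * (P.K0 : ℝ) ^ (-γ)) ^ g * Y * (8 * T ^ 2) := by gcongr
      _ = N * (8 * T ^ 2 * (κ * Nη) * ((1 + 2 * (P.K0 : ℝ) ^ (-γ)) ^ g * Y)) := by ring
      _ ≤ N * 2 ^ k := by gcongr
  have e2 : ∀ b ∈ B, ((D.filter (fun d => k ≤ (Q0.filter (· ∣ d)).card ∧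
      F < bads P (part (Q0 ∪ Q1.toList.toFinset) d) (Q1.toList.zip (Q1.toList.map d.factorization))
        (D.image (Nat.cast : ℕ → ℤ), B)
        ((d / part (Q0 ∪ Q1.toList.toFinset) d : ℕ) : ℤ) b)).card : ℝ) ≤ N / (8 * T ^ 2) := by
    intro b hb
    have h1 := hE2 P hK1 hK2 D hD0 hD Q0 Q1.toList hQ0 hps hnd hlt' B b hb F k f
    set c2 := (D.filter (fun d => k ≤ (Q0.filter (· ∣ d)).card ∧
      F < bads P (part (Q0 ∪ Q1.toList.toFinset) d) (Q1.toList.zip (Q1.toList.map d.factorization))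
        (D.image (Nat.cast : ℕ → ℤ), B)
        ((d / part (Q0 ∪ Q1.toList.toFinset) d : ℕ) : ℤ) b)).card with hc2
    rw [hlen] at h1
    have h2 := i2 Q1.card hg
    have hW : 0 < (F + 1).choose f * k.choose f :=
      Nat.mul_pos (Nat.choose_pos hfF) (Nat.choose_pos hfk)
    have hW' : (0 : ℝ) < (((F + 1).choose f * k.choose f : ℕ) : ℝ) := by exact_mod_cast hW
    have h3 : (((F + 1).choose f * k.choose f : ℕ) : ℝ) * c2 ≤
        ((((P.K1 * P.K2) ^ 2) ^ f * Q1.card.choose f : ℕ) : ℝ) * D.card := by exact_mod_cast h1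
    rw [le_div_iff₀ (by positivity)]
    refine le_of_mul_le_mul_left ?_ hW'
    calc (((F + 1).choose f * k.choose f : ℕ) : ℝ) * (c2 * (8 * T ^ 2))
        = (((F + 1).choose f * k.choose f : ℕ) : ℝ) * c2 * (8 * T ^ 2) := by ring
      _ ≤ ((((P.K1 * P.K2) ^ 2) ^ f * Q1.card.choose f : ℕ) : ℝ) * D.card * (8 * T ^ 2) := by
          gcongr
      _ ≤ ((((P.K1 * P.K2) ^ 2) ^ f * Q1.card.choose f : ℕ) : ℝ) * (N * (κ * Nη)) *
          (8 * T ^ 2) := by gcongr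
      _ = N * (8 * T ^ 2 * (κ * Nη) *
          ((((P.K1 * P.K2) ^ 2) ^ f * Q1.card.choose f : ℕ) : ℝ)) := by ring
      _ ≤ N * (((F + 1).choose f * k.choose f : ℕ) : ℝ) := by gcongr
      _ = (((F + 1).choose f * k.choose f : ℕ) : ℝ) * N := by ring
  -- sum over `b`
  set Bad := (A' ×ˢ B).filter (fun q =>
      ¬ (Fin1 P (run P (Q1.toList.zip (Q1.toList.map q.1.factorization))
          (D.image (Nat.cast : ℕ → ℤ), B)
          ((q.1 / part (Q0 ∪ Q1.toList.toFinset) q.1 : ℕ) : ℤ) q.2) ∧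
        bads P (part (Q0 ∪ Q1.toList.toFinset) q.1) (Q1.toList.zip (Q1.toList.map q.1.factorization))
          (D.image (Nat.cast : ℕ → ℤ), B) ((q.1 / part (Q0 ∪ Q1.toList.toFinset) q.1 : ℕ) : ℤ) q.2
          ≤ F)) with hBad
  have h1 : (Bad.card : ℝ) ≤ ∑ b ∈ B, (N / (8 * T ^ 2) + N / (8 * T ^ 2)) := by
    have h2 : Bad.card = ∑ b ∈ B, (Bad.filter (fun q => q.2 = b)).card := by
      refine card_eq_sum_card_fiberwise ?_
      intro q hq
      have := (mem_filter.1 (mem_coe.1 hq)).1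
      exact (mem_product.1 this).2
    rw [h2]
    push_cast
    refine sum_le_sum fun b hb => ?_
    refine le_trans ?_ (add_le_add (e1 b hb) (e2 b hb))
    rw [← Nat.cast_add]
    have h3 : (Bad.filter (fun q => q.2 = b)).card ≤
        ((D.filter (fun d => k ≤ (Q1.toList.toFinset.filter (· ∣ d)).card ∧
      ¬ Fin1 P (run P (Q1.toList.zip (Q1.toList.map d.factorization))
        (D.image (Nat.cast : ℕ → ℤ), B)
        ((d / part (Q0 ∪ Q1.toList.toFinset) d : ℕ) : ℤ) b))) ∪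
        (D.filter (fun d => k ≤ (Q0.filter (· ∣ d)).card ∧
      F < bads P (part (Q0 ∪ Q1.toList.toFinset) d) (Q1.toList.zip (Q1.toList.map d.factorization))
        (D.image (Nat.cast : ℕ → ℤ), B)
        ((d / part (Q0 ∪ Q1.toList.toFinset) d : ℕ) : ℤ) b))).card := by
      refine card_le_card_of_injOn (fun q => q.1) ?_ ?_
      · intro q hq
        have hq' := mem_filter.1 (mem_coe.1 hq)
        have hq2 := mem_filter.1 hq'.1
        have hqA := (mem_product.1 hq2.1).1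
        have hqb : q.2 = b := hq'.2
        have h4 := hq2.2
        rw [hqb] at h4
        rw [mem_coe, mem_union, mem_filter, mem_filter]
        rw [not_and_or] at h4
        rcases h4 with h4 | h4
        · left
          refine ⟨hAD hqA, ?_, h4⟩
          rw [htl]
          exact (hk _ hqA).2
        · right
          exact ⟨hAD hqA, (hk _ hqA).1, not_le.1 h4⟩
      · intro q hq q' hq' h
        have h5 : q.2 = b := (mem_filter.1 (mem_coe.1 hq)).2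
        have h6 : q'.2 = b := (mem_filter.1 (mem_coe.1 hq')).2
        exact Prod.ext h (h5.trans h6.symm)
    exact_mod_cast h3.trans (card_union_le _ _)
  rw [sum_const, nsmul_eq_mul] at h1
  have h4 : N / (8 * T ^ 2) + N / (8 * T ^ 2) ≤ (A'.card : ℝ) / 2 := by
    have h5 : N / (8 * T ^ 2) ≤ (A'.card : ℝ) / 4 := by
      rw [div_le_div_iff₀ (by positivity) (by norm_num)]
      nlinarith
    linarith
  have h5 : (2 : ℝ) * Bad.card ≤ (A'.card : ℝ) * B.card := by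
    have hB0 : (0 : ℝ) ≤ B.card := by positivity
    nlinarith [mul_le_mul_of_nonneg_left h4 hB0]
  exact_mod_cast h5

/-- The sum side for one set `B`. -/
theorem sum_side {P : Par} (hE1 : S_E1) (hE2 : S_E2) (hG1 : S_G1) (hH1 : S_H1)
    {γ κ ε Λ δ ρ η : ℝ} {N : ℕ} {D A A' Q Q0 Q1 : Finset ℕ} {T L M g k F f H : ℕ}
    (hK0 : 1 ≤ P.K0) (hK01 : P.K0 ≤ P.K1) (hK2 : 1 ≤ P.K2) (hγ : 0 < γ) (hε : 0 < ε) (hε1 : ε ≤ 1)
    (hκ : 1 ≤ κ)
    (hΛ : 1 + (P.K0 : ℝ) * (P.K1 : ℝ) ^ (-γ) + (P.K1 : ℝ) * (P.K2 : ℝ) ^ (-γ) +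
      (P.K0 : ℝ) ^ (-γ) ≤ Λ)
    (hδ : 0 < δ) (hδ1 : δ ≤ 1) (hρ : 0 < ρ) (hρ1 : ρ < 1)
    (hD0 : ∀ d ∈ D, d ≠ 0) (hD : ∀ d ∈ D, ∀ d', d' ∣ d → d' ∈ D) (hAD : A ⊆ D)
    (hA : A.Nonempty) (hA' : A' ⊆ A)
    (hNA : A.card = N) (hDc : (D.card : ℝ) ≤ κ * (N : ℝ) ^ (1 + η))
    (hΩ : ∀ a ∈ A, a.primeFactorsList.length ≤ H)
    (hQ : ∀ q ∈ Q, q.Prime) (hQ0 : Q0 ⊆ Q) (hQ1 : Q1 ⊆ Q) (hlt : ∀ q ∈ Q0, ∀ p ∈ Q1, q < p)
    (hQc : Q.card ≤ L * M) (hg0 : Q0.card ≤ g) (hg1 : Q1.card ≤ g)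
    (hk : ∀ a ∈ A', k ≤ (Q0.filter (· ∣ a)).card ∧ k ≤ (Q1.filter (· ∣ a)).card)
    (hfk : f ≤ k) (hfF : f ≤ F + 1) (hT : 1 ≤ T) (hA'c : (N : ℝ) ≤ 2 * (T : ℝ) ^ 2 * A'.card)
    (i0 : (1 + δ / (1 - ρ)) ^ (L * M) ≤ (N : ℝ) ^ (ε / 4) * (δ ^ (2 * g) * ρ ^ H))
    (i1 : 8 * (T : ℝ) ^ 2 * (κ * (N : ℝ) ^ η) * ((1 + 2 * (P.K0 : ℝ) ^ (-γ)) ^ g *
        (κ * (N : ℝ) ^ (1 + η) * (N : ℝ) ^ (1 / ε)) ^ γ) ≤ 2 ^ k)
    (i2 : ∀ m : ℕ, m ≤ g → 8 * (T : ℝ) ^ 2 * (κ * (N : ℝ) ^ η) *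
        (((((P.K1 * P.K2) ^ 2) ^ f * m.choose f : ℕ) : ℝ)) ≤
          (((F + 1).choose f * k.choose f : ℕ) : ℝ))
    (i3 : Λ ^ g * (κ * (N : ℝ) ^ (1 + η) * (N : ℝ) ^ (1 / ε)) ^ γ * (P.K1 : ℝ) ^ F ≤
      (N : ℝ) ^ (ε / 4)) {B : Finset ℤ} (hB : B.Nonempty) :
    ((N : ℝ) * B.card) ^ (1 - ε) ≤ 4 * (T : ℝ) ^ 2 * P.K0 *
      ((A.image (Nat.cast : ℕ → ℤ) ×ˢ B).image (fun q => q.1 + q.2)).card := by
  have hK1 : 1 ≤ P.K1 := hK0.trans hK01
  have hN1 : 1 ≤ N := by rw [← hNA]; exact card_pos.2 hA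
  have hN1' : (1 : ℝ) ≤ N := by exact_mod_cast hN1
  have hN0' : (0 : ℝ) < N := by linarith
  have hT' : (1 : ℝ) ≤ T := by exact_mod_cast hT
  have hK0' : (1 : ℝ) ≤ P.K0 := by exact_mod_cast hK0
  have hB1 : (1 : ℝ) ≤ B.card := by exact_mod_cast card_pos.2 hB
  have hB0 : (0 : ℝ) < B.card := by linarith
  set SS := ((A.image (Nat.cast : ℕ → ℤ) ×ˢ B).image (fun q => q.1 + q.2)) with hSS
  have hSB : (B.card : ℝ) ≤ SS.card := by exact_mod_cast card_le_image_add hA B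
  have hSS0 : (0 : ℝ) ≤ SS.card := by positivity
  have hcoef : (1 : ℝ) ≤ 4 * (T : ℝ) ^ 2 * P.K0 := by
    have : (1 : ℝ) ≤ (T : ℝ) ^ 2 := one_le_pow₀ hT'
    nlinarith
  by_cases hbig : (N : ℝ) ≤ (B.card : ℝ) ^ ε
  · -- trivial case
    have h1 : ((N : ℝ) * B.card) ^ (1 - ε) ≤ B.card := by
      calc ((N : ℝ) * B.card) ^ (1 - ε) ≤ ((B.card : ℝ) ^ ε * B.card) ^ (1 - ε) :=
            Real.rpow_le_rpow (by positivity) (by gcongr) (by linarith)
        _ = ((B.card : ℝ) ^ (1 + ε)) ^ (1 - ε) := by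
            rw [Real.rpow_add hB0, Real.rpow_one, mul_comm]
        _ = (B.card : ℝ) ^ ((1 + ε) * (1 - ε)) := by rw [← Real.rpow_mul hB0.le]
        _ ≤ (B.card : ℝ) ^ (1 : ℝ) := Real.rpow_le_rpow_of_exponent_le hB1 (by nlinarith)
        _ = B.card := Real.rpow_one _
    have h2 : (SS.card : ℝ) ≤ 4 * (T : ℝ) ^ 2 * P.K0 * SS.card := by nlinarith
    linarith
  · rw [not_le] at hbig
    have hBN : (B.card : ℝ) ≤ (N : ℝ) ^ (1 / ε) := by
      have h1 : ((B.card : ℝ) ^ ε) ^ (1 / ε) ≤ (N : ℝ) ^ (1 / ε) :=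
        Real.rpow_le_rpow (by positivity) hbig.le (by positivity)
      rwa [← Real.rpow_mul hB0.le, mul_one_div_cancel hε.ne', Real.rpow_one] at h1
    have hY : ((D.card : ℝ) * B.card) ^ γ ≤
        (κ * (N : ℝ) ^ (1 + η) * (N : ℝ) ^ (1 / ε)) ^ γ := by
      apply Real.rpow_le_rpow (by positivity) _ hγ.le
      exact mul_le_mul hDc hBN (by positivity) (by positivity)
    have hDc' : (D.card : ℝ) ≤ N * (κ * (N : ℝ) ^ η) := by
      refine hDc.trans (le_of_eq ?_)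
      rw [Real.rpow_add hN0', Real.rpow_one]; ring
    have hQ0p : ∀ q ∈ Q0, q.Prime := fun q hq => hQ q (hQ0 hq)
    have hQ1p : ∀ q ∈ Q1, q.Prime := fun q hq => hQ q (hQ1 hq)
    have hbad := bad_card hE1 hE2 (κ := κ) (T := (T : ℝ)) (N := (N : ℝ)) (Nη := (N : ℝ) ^ η)
      hK0 hK01 hK2 hγ.le hD0 hD (hA'.trans hAD) hQ0p hQ1p hlt hg1 (B := B) hk hfk hfF hN0'
      (by linarith) (by positivity) hDc' hY hA'c i1 i2
    have hps : ∀ p ∈ Q1.toList, p.Prime := fun p hp => hQ1p p (Finset.mem_toList.1 hp)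
    have hlt' : ∀ q ∈ Q0, ∀ p ∈ Q1.toList, q < p := fun q hq p hp =>
      hlt q hq p (Finset.mem_toList.1 hp)
    have h1 := hG1 P γ Λ hγ hK0 hK1 hK2 hΛ D A' hD0 hD (hA'.trans hAD) Q0 Q1.toList hQ0p hps
      (Finset.nodup_toList Q1) hlt' B F hbad
    rw [Finset.length_toList, Finset.toList_toFinset] at h1
    set SS' := ((A'.image (Nat.cast : ℕ → ℤ) ×ˢ B).image (fun q => q.1 + q.2)) with hSS'
    have hS' : (SS'.card : ℝ) ≤ SS.card := by
      have : SS' ⊆ SS := by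
        apply image_subset_image
        apply product_subset_product_left
        exact image_subset_image hA'
      exact_mod_cast card_le_card this
    have hpc : ((A'.image (part (Q0 ∪ Q1))).card : ℝ) ≤ (N : ℝ) ^ (ε / 4) := by
      refine part_card (j := 2 * g) (H := H) (W := L * M) ?_ ?_ hH1 ?_ hδ hδ1 hρ hρ1 ?_ i0
      · intro q hq
        rcases mem_union.1 hq with h | h
        · exact hQ0p q h
        · exact hQ1p q h
      · exact fun a ha => hD0 a (hAD (hA' ha))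
      · intro a ha
        refine ⟨?_, hΩ a (hA' ha)⟩
        calc ((Q0 ∪ Q1).filter (· ∣ a)).card ≤ (Q0 ∪ Q1).card := card_filter_le _ _
          _ ≤ Q0.card + Q1.card := card_union_le _ _
          _ ≤ 2 * g := by omega
      · exact (card_le_card (union_subset hQ0 hQ1)).trans hQc
    have hΛ1 : 1 ≤ Λ := by
      have e1 : (0 : ℝ) ≤ (P.K0 : ℝ) * (P.K1 : ℝ) ^ (-γ) := by positivity
      have e2 : (0 : ℝ) ≤ (P.K1 : ℝ) * (P.K2 : ℝ) ^ (-γ) := by positivity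
      have e3 : (0 : ℝ) ≤ (P.K0 : ℝ) ^ (-γ) := by positivity
      linarith
    have hR : (P.K0 : ℝ) * Λ ^ Q1.card * ((D.card : ℝ) * B.card) ^ γ * (P.K1 : ℝ) ^ F ≤
        P.K0 * (N : ℝ) ^ (ε / 4) := by
      have e1 : Λ ^ Q1.card ≤ Λ ^ g := pow_le_pow_right₀ hΛ1 hg1
      calc (P.K0 : ℝ) * Λ ^ Q1.card * ((D.card : ℝ) * B.card) ^ γ * (P.K1 : ℝ) ^ F
          ≤ (P.K0 : ℝ) * Λ ^ g * (κ * (N : ℝ) ^ (1 + η) * (N : ℝ) ^ (1 / ε)) ^ γ *
            (P.K1 : ℝ) ^ F := by gcongr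
        _ = P.K0 * (Λ ^ g * (κ * (N : ℝ) ^ (1 + η) * (N : ℝ) ^ (1 / ε)) ^ γ *
            (P.K1 : ℝ) ^ F) := by ring
        _ ≤ P.K0 * (N : ℝ) ^ (ε / 4) := by gcongr
    have h2 : (A'.card : ℝ) * B.card ≤ 2 * (N : ℝ) ^ (ε / 4) * (P.K0 * (N : ℝ) ^ (ε / 4)) *
        SS.card := by
      refine h1.trans ?_
      have hΛ0 : 0 ≤ Λ := by linarith
      gcongr
    have h3 : (N : ℝ) * B.card ≤ 4 * (T : ℝ) ^ 2 * P.K0 * SS.card * (N : ℝ) ^ (ε / 2) := by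
      have e1 : (N : ℝ) ^ (ε / 2) = (N : ℝ) ^ (ε / 4) * (N : ℝ) ^ (ε / 4) := by
        rw [← Real.rpow_add hN0']; congr 1; ring
      rw [e1]
      calc (N : ℝ) * B.card ≤ 2 * (T : ℝ) ^ 2 * A'.card * B.card := by gcongr
        _ = 2 * (T : ℝ) ^ 2 * (A'.card * B.card) := by ring
        _ ≤ 2 * (T : ℝ) ^ 2 * (2 * (N : ℝ) ^ (ε / 4) * (P.K0 * (N : ℝ) ^ (ε / 4)) *
            SS.card) := by gcongr
        _ = _ := by ring
    have hNB : (1 : ℝ) ≤ (N : ℝ) * B.card := by nlinarith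
    have h4 : ((N : ℝ) * B.card) ^ (1 - ε) * (N : ℝ) ^ (ε / 2) ≤ (N : ℝ) * B.card := by
      calc ((N : ℝ) * B.card) ^ (1 - ε) * (N : ℝ) ^ (ε / 2)
          ≤ ((N : ℝ) * B.card) ^ (1 - ε) * ((N : ℝ) * B.card) ^ (ε / 2) := by
            gcongr
            nlinarith
        _ = ((N : ℝ) * B.card) ^ (1 - ε / 2) := by
            rw [← Real.rpow_add (by linarith)]; congr 1; ring
        _ ≤ ((N : ℝ) * B.card) ^ (1 : ℝ) :=
            Real.rpow_le_rpow_of_exponent_le hNB (by linarith)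
        _ = (N : ℝ) * B.card := Real.rpow_one _
    exact le_of_mul_le_mul_right (h4.trans h3) (by positivity)

end PJ1

theorem p_J1 (hE1 : S_E1) (hE2 : S_E2) (hG1 : S_G1) (hH1 : S_H1) (hH2 : S_H2) (hH3 : S_H3)
    (hK : S_K) (hI1 : S_I1) : S_J1 := by
  intro h κ ε hε
  set ε' := min ε 1 with hε'
  set h' := max h 1 with hh'
  set κ' := max κ 1 with hκ'
  have hε'0 : 0 < ε' := lt_min hε one_pos
  have hε'1 : ε' ≤ 1 := min_le_right _ _
  have hε'ε : ε' ≤ ε := min_le_left _ _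
  -- the choice of L
  obtain ⟨L, hL3, hLlog⟩ : ∃ L : ℕ, 3 ≤ L ∧ 9 / Real.log ((L : ℝ) / 2) ≤ ε' / 2 := by
    refine ⟨⌈2 * Real.exp (18 / ε')⌉₊ + 3, by omega, ?_⟩
    have h1 : 2 * Real.exp (18 / ε') ≤ ((⌈2 * Real.exp (18 / ε')⌉₊ + 3 : ℕ) : ℝ) := by
      have := Nat.le_ceil (2 * Real.exp (18 / ε'))
      push_cast
      linarith
    have h2 : Real.exp (18 / ε') ≤ ((⌈2 * Real.exp (18 / ε')⌉₊ + 3 : ℕ) : ℝ) / 2 := by linarith
    have h3 : 18 / ε' ≤ Real.log (((⌈2 * Real.exp (18 / ε')⌉₊ + 3 : ℕ) : ℝ) / 2) := by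
      rw [Real.le_log_iff_exp_le (lt_of_lt_of_le (Real.exp_pos _) h2)]
      exact h2
    have h4 : 0 < 18 / ε' := by positivity
    rw [div_le_iff₀ (by linarith)]
    calc (9 : ℝ) = ε' / 2 * (18 / ε') := by field_simp; norm_num
      _ ≤ ε' / 2 * Real.log (((⌈2 * Real.exp (18 / ε')⌉₊ + 3 : ℕ) : ℝ) / 2) := by gcongr
  obtain ⟨P, γ, Λ, η, δ, ρ, T, N0, hK0, hK01, hK2, hγ, hη, hη1, hδ, hδ1, hρ, hρ1, hT, hN0, hΛ,
    hmain⟩ := hK ε' h' κ' L hε'0 hε'1 (le_max_right _ _) (le_max_right _ _) (by omega)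
  have hT' : (1 : ℝ) ≤ T := by exact_mod_cast hT
  have hK0' : (1 : ℝ) ≤ P.K0 := by exact_mod_cast hK0
  have hN0' : (1 : ℝ) ≤ N0 := by exact_mod_cast (by omega : 1 ≤ N0)
  have hden : (0 : ℝ) < 8 * (T : ℝ) ^ 2 * P.K0 * N0 := by positivity
  refine ⟨η, hη, 1 / (8 * (T : ℝ) ^ 2 * P.K0 * N0), by positivity, ?_⟩
  intro A hA hAΩ hAD
  set D := A.biUnion (fun a => a.divisors) with hD
  set N := A.card with hN
  have hN1 : 1 ≤ N := card_pos.2 hA
  have hN1' : (1 : ℝ) ≤ N := by exact_mod_cast hN1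
  have hlogN : 0 ≤ Real.log N := Real.log_nonneg hN1'
  have hpow : ∀ x : ℝ, 1 ≤ x → x ^ (1 - ε) ≤ x ^ (1 - ε') := fun x hx =>
    Real.rpow_le_rpow_of_exponent_le hx (by linarith)
  have hT2 : (1 : ℝ) ≤ (T : ℝ) ^ 2 := one_le_pow₀ hT'
  have hTK : (1 : ℝ) ≤ (T : ℝ) ^ 2 * P.K0 := by nlinarith
  by_cases hsmall : N < N0
  · left
    intro B hB
    have hB1 : (1 : ℝ) ≤ B.card := by exact_mod_cast card_pos.2 hB
    have h1 : (B.card : ℝ) ≤ (((A.image (Nat.cast : ℕ → ℤ) ×ˢ B).image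
      (fun q => q.1 + q.2)).card : ℝ) := by exact_mod_cast PJ1.card_le_image_add hA B
    refine le_trans ?_ h1
    have hNB : (1 : ℝ) ≤ (N : ℝ) * B.card := by nlinarith
    have h2 : ((N : ℝ) * B.card) ^ (1 - ε) ≤ (N : ℝ) * B.card := by
      calc ((N : ℝ) * B.card) ^ (1 - ε) ≤ ((N : ℝ) * B.card) ^ (1 : ℝ) :=
            Real.rpow_le_rpow_of_exponent_le hNB (by linarith)
        _ = _ := Real.rpow_one _
    have h3 : (N : ℝ) ≤ N0 := by exact_mod_cast hsmall.le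
    rw [one_div, inv_mul_le_iff₀ hden]
    calc ((N : ℝ) * B.card) ^ (1 - ε) ≤ (N : ℝ) * B.card := h2
      _ ≤ N0 * B.card := by gcongr
      _ ≤ 8 * ((T : ℝ) ^ 2 * P.K0) * (N0 * B.card) := by
          have : 0 ≤ (N0 : ℝ) * B.card := by positivity
          nlinarith
      _ = 8 * (T : ℝ) ^ 2 * P.K0 * N0 * B.card := by ring
  · rw [not_lt] at hsmall
    obtain ⟨g, k, F, f, M, H, hg, hLM, hTk, hfk, hfF, hM, hH, i0, i1, i2, i3⟩ := hmain N hsmall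
    have hA0 : ∀ a ∈ A, a ≠ 0 := fun a ha => (hAΩ a ha).1
    have hD0 : ∀ d ∈ D, d ≠ 0 := by
      intro d hd
      rw [hD, mem_biUnion] at hd
      obtain ⟨a, ha, hda⟩ := hd
      exact (Nat.pos_of_mem_divisors hda).ne'
    have hDc : ∀ d ∈ D, ∀ d', d' ∣ d → d' ∈ D := by
      intro d hd d' hd'
      rw [hD, mem_biUnion] at hd ⊢
      obtain ⟨a, ha, hda⟩ := hd
      exact ⟨a, ha, Nat.mem_divisors.2 ⟨hd'.trans (Nat.dvd_of_mem_divisors hda), hA0 a ha⟩⟩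
    have hADs : A ⊆ D := by
      intro a ha
      rw [hD, mem_biUnion]
      exact ⟨a, ha, Nat.mem_divisors_self a (hA0 a ha)⟩
    have hDcard : (D.card : ℝ) ≤ κ' * (N : ℝ) ^ (1 + η) := by
      refine hAD.trans ?_
      have : (0 : ℝ) ≤ (N : ℝ) ^ (1 + η) := by positivity
      exact mul_le_mul_of_nonneg_right (le_max_left _ _) this
    have hD2 : D.card ≤ 2 ^ M := by
      have := hDcard.trans hM
      exact_mod_cast this
    have hΩ : ∀ a ∈ A, a.primeFactorsList.length ≤ H := by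
      intro a ha
      have h1 : (a.primeFactorsList.length : ℝ) ≤ H := by
        refine (hAΩ a ha).2.trans (le_trans ?_ hH)
        exact mul_le_mul_of_nonneg_right (le_max_left _ _) (by linarith)
      exact_mod_cast h1
    obtain ⟨hω, hpopc⟩ := hH3 A hA0 M L (by omega) hD2
    set Q := D.filter (fun q => q.Prime ∧ A.card ≤ L * (A.filter (q ∣ ·)).card) with hQdef
    have hQp : ∀ q ∈ Q, q.Prime := fun q hq => (mem_filter.1 hq).2.1
    have hQc : Q.card ≤ L * M := hpopc Q (fun q hq => (mem_filter.1 hq).2) hA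
    have hunpop : ∀ q : ℕ, q.Prime → q ∉ Q → L * (A.filter (q ∣ ·)).card < A.card := by
      intro q hq hqQ
      by_cases hqD : q ∈ D
      · by_contra hc
        exact hqQ (mem_filter.2 ⟨hqD, hq, not_lt.1 hc⟩)
      · have : A.filter (q ∣ ·) = ∅ := by
          rw [← not_nonempty_iff_eq_empty]
          rintro ⟨a, ha⟩
          have ha' := mem_filter.1 ha
          exact hqD (mem_biUnion.2 ⟨a, ha'.1, Nat.mem_divisors.2 ⟨ha'.2, hA0 a ha'.1⟩⟩)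
        rw [this]
        simpa using card_pos.2 hA
    set A1 := A.filter (fun a => 2 * g ≤ (Q.filter (· ∣ a)).card) with hA1
    set A2 := A.filter (fun a => ¬ 2 * g ≤ (Q.filter (· ∣ a)).card) with hA2
    have hsplit : A1.card + A2.card = A.card := card_filter_add_card_filter_not _
    by_cases hcase : A.card ≤ 2 * A2.card
    · -- the product side
      right
      intro B hB hB0
      have hA2ne : A2.Nonempty := by
        rw [← card_pos]; have := card_pos.2 hA; omega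
      have h1 := hI1 L hL3 A A2 Q (filter_subset _ _) hA2ne hcase hA0 hQp hunpop B hB hB0
      have hpc : ((A2.image (part Q)).card : ℝ) ≤ (N : ℝ) ^ (ε' / 4) := by
        refine PJ1.part_card (j := 2 * g) (H := H) (W := L * M) hQp ?_ hH1 ?_ hδ hδ1 hρ hρ1 hQc i0
        · exact fun a ha => hA0 a (mem_filter.1 ha).1
        · intro a ha
          have ha' := mem_filter.1 ha
          exact ⟨(not_le.1 ha'.2).le, hΩ a ha'.1⟩
      set MM := ((A.image (Nat.cast : ℕ → ℤ) ×ˢ B).image (fun q => q.1 * q.2)) with hMM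
      have hB1 : (1 : ℝ) ≤ B.card := by exact_mod_cast card_pos.2 hB
      have hA21 : (1 : ℝ) ≤ A2.card := by exact_mod_cast card_pos.2 hA2ne
      have hNA2 : (N : ℝ) ≤ 2 * A2.card := by exact_mod_cast hcase
      have hAB1 : (1 : ℝ) ≤ (A2.card : ℝ) * B.card := by nlinarith
      have hNB : (1 : ℝ) ≤ (N : ℝ) * B.card := by nlinarith
      have h2 : ((A2.card : ℝ) * B.card) ^ (1 - ε' / 2) ≤
          4 * (N : ℝ) ^ (ε' / 4) * MM.card := by
        calc ((A2.card : ℝ) * B.card) ^ (1 - ε' / 2)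
            ≤ ((A2.card : ℝ) * B.card) ^ (1 - 9 / Real.log ((L : ℝ) / 2)) :=
              Real.rpow_le_rpow_of_exponent_le hAB1 (by linarith)
          _ ≤ 4 * (A2.image (part Q)).card * MM.card := h1
          _ ≤ 4 * (N : ℝ) ^ (ε' / 4) * MM.card := by gcongr
      have h3 : ((N : ℝ) * B.card) ^ (1 - ε' / 2) ≤ 2 * ((A2.card : ℝ) * B.card) ^ (1 - ε' / 2) := by
        calc ((N : ℝ) * B.card) ^ (1 - ε' / 2) ≤ (2 * ((A2.card : ℝ) * B.card)) ^ (1 - ε' / 2) := by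
              apply Real.rpow_le_rpow (by positivity) _ (by linarith)
              nlinarith
          _ = (2 : ℝ) ^ (1 - ε' / 2) * ((A2.card : ℝ) * B.card) ^ (1 - ε' / 2) :=
              Real.mul_rpow (by norm_num) (by positivity)
          _ ≤ 2 * ((A2.card : ℝ) * B.card) ^ (1 - ε' / 2) := by
              gcongr
              calc (2 : ℝ) ^ (1 - ε' / 2) ≤ (2 : ℝ) ^ (1 : ℝ) :=
                    Real.rpow_le_rpow_of_exponent_le (by norm_num) (by linarith)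
                _ = 2 := Real.rpow_one _
      have h4 : ((N : ℝ) * B.card) ^ (1 - ε') * (N : ℝ) ^ (ε' / 4) ≤
          8 * MM.card * (N : ℝ) ^ (ε' / 4) := by
        calc ((N : ℝ) * B.card) ^ (1 - ε') * (N : ℝ) ^ (ε' / 4)
            ≤ ((N : ℝ) * B.card) ^ (1 - ε') * ((N : ℝ) * B.card) ^ (ε' / 4) := by
              gcongr
              nlinarith
          _ = ((N : ℝ) * B.card) ^ (1 - ε' + ε' / 4) := by
              rw [← Real.rpow_add (by linarith)]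
          _ ≤ ((N : ℝ) * B.card) ^ (1 - ε' / 2) :=
              Real.rpow_le_rpow_of_exponent_le hNB (by linarith)
          _ ≤ 2 * ((A2.card : ℝ) * B.card) ^ (1 - ε' / 2) := h3
          _ ≤ 2 * (4 * (N : ℝ) ^ (ε' / 4) * MM.card) := by gcongr
          _ = _ := by ring
      have h5 : ((N : ℝ) * B.card) ^ (1 - ε') ≤ 8 * MM.card :=
        le_of_mul_le_mul_right h4 (by positivity)
      rw [one_div, inv_mul_le_iff₀ hden]
      have hMM0 : (0 : ℝ) ≤ MM.card := by positivity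
      calc ((N : ℝ) * B.card) ^ (1 - ε) ≤ ((N : ℝ) * B.card) ^ (1 - ε') := hpow _ hNB
        _ ≤ 8 * MM.card := h5
        _ ≤ (8 * MM.card) * ((T : ℝ) ^ 2 * P.K0 * N0) := by
            have : (1 : ℝ) ≤ (T : ℝ) ^ 2 * P.K0 * N0 := by nlinarith
            nlinarith
        _ = 8 * (T : ℝ) ^ 2 * P.K0 * N0 * MM.card := by ring
    · -- the sum side
      left
      have hcase' : A.card ≤ 2 * A1.card := by omega
      have hA1ne : A1.Nonempty := by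
        rw [← card_pos]; have := card_pos.2 hA; omega
      obtain ⟨Q0, Q1, hQ0, hQ1, hlt, hg0, hg1, hA'⟩ := hH2 Q g T hg (hQc.trans hLM) A1 hA1ne
        (fun a ha => (mem_filter.1 ha).2)
      set A' := A1.filter (fun a => g ≤ T * (Q0.filter (· ∣ a)).card ∧
        g ≤ T * (Q1.filter (· ∣ a)).card) with hA'def
      have hA'c : (N : ℝ) ≤ 2 * (T : ℝ) ^ 2 * A'.card := by
        have h1 : N ≤ 2 * T ^ 2 * A'.card := by
          calc N ≤ 2 * A1.card := hcase'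
            _ ≤ 2 * (T ^ 2 * A'.card) := Nat.mul_le_mul_left _ hA'
            _ = 2 * T ^ 2 * A'.card := by ring
        exact_mod_cast h1
      intro B hB
      have h1 := PJ1.sum_side hE1 hE2 hG1 hH1 (N := N) (D := D) (A := A) (A' := A') (Q := Q)
        (Q0 := Q0) (Q1 := Q1) hK0 hK01 hK2 hγ hε'0 hε'1 (le_max_right κ 1) hΛ hδ hδ1 hρ hρ1
        hD0 hDc hADs hA ((filter_subset _ _).trans (filter_subset _ _)) rfl hDcard hΩ hQp hQ0 hQ1
        hlt hQc hg0 hg1 ?_ hfk hfF hT hA'c i0 i1 i2 i3 hB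
      · have hB1 : (1 : ℝ) ≤ B.card := by exact_mod_cast card_pos.2 hB
        have hNB : (1 : ℝ) ≤ (N : ℝ) * B.card := by nlinarith
        rw [one_div, inv_mul_le_iff₀ hden]
        set SS := ((A.image (Nat.cast : ℕ → ℤ) ×ˢ B).image (fun q => q.1 + q.2)) with hSS
        have hSS0 : (0 : ℝ) ≤ (T : ℝ) ^ 2 * P.K0 * SS.card := by positivity
        calc ((N : ℝ) * B.card) ^ (1 - ε) ≤ ((N : ℝ) * B.card) ^ (1 - ε') := hpow _ hNB
          _ ≤ 4 * (T : ℝ) ^ 2 * P.K0 * SS.card := h1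
          _ = 4 * ((T : ℝ) ^ 2 * P.K0 * SS.card) := by ring
          _ ≤ 8 * ((T : ℝ) ^ 2 * P.K0 * SS.card) * N0 := by nlinarith
          _ = 8 * (T : ℝ) ^ 2 * P.K0 * N0 * SS.card := by ring
      · intro a ha
        have ha' := (mem_filter.1 ha).2
        have hTpos : 0 < T := by omega
        exact ⟨Nat.le_of_mul_le_mul_left (hTk.trans ha'.1) hTpos,
          Nat.le_of_mul_le_mul_left (hTk.trans ha'.2) hTpos⟩

end

end Pool.Agent.Helper5.RD
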