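import Pool.Agent.Helper5.RD.Stm3
import Pool.Agent.Helper5.RD.PJ1

/-! # Project RD: the theorem for sets of positive integers with few divisors -/

namespace Pool.Agent.Helper5.RD

open Finset Classical

noncomputable section

namespace PJ4

open PJ1

/-- The sum side for one set `B`. -/
theorem sum_side2 {P : Par} (hE1 : S_E1) (hE2 : S_E2) (hG1 : S_G1)
    {γ κ ε Λ η θ2 θ3 : ℝ} {N : ℕ} {D A A' Q Q0 Q1 : Finset ℕ} {T g k F f : ℕ}
    (hK0 : 1 ≤ P.K0) (hK01 : P.K0 ≤ P.K1) (hK2 : 1 ≤ P.K2) (hγ : 0 < γ) (hε : 0 < ε) (hε1 : ε ≤ 1)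
    (hκ : 1 ≤ κ)
    (hΛ : 1 + (P.K0 : ℝ) * (P.K1 : ℝ) ^ (-γ) + (P.K1 : ℝ) * (P.K2 : ℝ) ^ (-γ) +
      (P.K0 : ℝ) ^ (-γ) ≤ Λ)
    (hD0 : ∀ d ∈ D, d ≠ 0) (hD : ∀ d ∈ D, ∀ d', d' ∣ d → d' ∈ D) (hAD : A ⊆ D)
    (hA : A.Nonempty) (hA' : A' ⊆ A)
    (hNA : A.card = N) (hDc : (D.card : ℝ) ≤ κ * (N : ℝ) ^ (1 + η))
    (hpc : ((A'.image (part (Q0 ∪ Q1))).card : ℝ) ≤ (N : ℝ) ^ θ2) (hθ : θ2 + θ3 ≤ ε)
    (hQ : ∀ q ∈ Q, q.Prime) (hQ0 : Q0 ⊆ Q) (hQ1 : Q1 ⊆ Q) (hlt : ∀ q ∈ Q0, ∀ p ∈ Q1, q < p)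
    (hg1 : Q1.card ≤ g)
    (hk : ∀ a ∈ A', k ≤ (Q0.filter (· ∣ a)).card ∧ k ≤ (Q1.filter (· ∣ a)).card)
    (hfk : f ≤ k) (hfF : f ≤ F + 1) (hT : 1 ≤ T) (hA'c : (N : ℝ) ≤ 2 * (T : ℝ) ^ 2 * A'.card)
    (i1 : 8 * (T : ℝ) ^ 2 * (κ * (N : ℝ) ^ η) * ((1 + 2 * (P.K0 : ℝ) ^ (-γ)) ^ g *
        (κ * (N : ℝ) ^ (1 + η) * (N : ℝ) ^ (1 / ε)) ^ γ) ≤ 2 ^ k)
    (i2 : ∀ m : ℕ, m ≤ g → 8 * (T : ℝ) ^ 2 * (κ * (N : ℝ) ^ η) *
        (((((P.K1 * P.K2) ^ 2) ^ f * m.choose f : ℕ) : ℝ)) ≤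
          (((F + 1).choose f * k.choose f : ℕ) : ℝ))
    (i3 : Λ ^ g * (κ * (N : ℝ) ^ (1 + η) * (N : ℝ) ^ (1 / ε)) ^ γ * (P.K1 : ℝ) ^ F ≤
      (N : ℝ) ^ θ3) {B : Finset ℤ} (hB : B.Nonempty) :
    ((N : ℝ) * B.card) ^ (1 - ε) ≤ 4 * (T : ℝ) ^ 2 * P.K0 *
      ((A.image (Nat.cast : ℕ → ℤ) ×ˢ B).image (fun q => q.1 + q.2)).card := by
  have hK1 : 1 ≤ P.K1 := hK0.trans hK01
  have hN1 : 1 ≤ N := by rw [← hNA]; exact card_pos.2 hA
  have hN1' : (1 : ℝ) ≤ N := by exact_mod_cast hN1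
  have hN0' : (0 : ℝ) < N := by linarith
  have hT' : (1 : ℝ) ≤ T := by exact_mod_cast hT
  have hK0' : (1 : ℝ) ≤ P.K0 := by exact_mod_cast hK0
  have hB1 : (1 : ℝ) ≤ B.card := by exact_mod_cast card_pos.2 hB
  have hB0 : (0 : ℝ) < B.card := by linarith
  set SS := ((A.image (Nat.cast : ℕ → ℤ) ×ˢ B).image (fun q => q.1 + q.2)) with hSS
  have hSB : (B.card : ℝ) ≤ SS.card := by exact_mod_cast card_le_image_add hA B
  have hSS0 : (0 : ℝ) ≤ SS.card := by positivity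
  have hcoef : (1 : ℝ) ≤ 4 * (T : ℝ) ^ 2 * P.K0 := by
    have : (1 : ℝ) ≤ (T : ℝ) ^ 2 := one_le_pow₀ hT'
    nlinarith
  by_cases hbig : (N : ℝ) ≤ (B.card : ℝ) ^ ε
  · -- trivial case
    have h1 : ((N : ℝ) * B.card) ^ (1 - ε) ≤ B.card := by
      calc ((N : ℝ) * B.card) ^ (1 - ε) ≤ ((B.card : ℝ) ^ ε * B.card) ^ (1 - ε) :=
            Real.rpow_le_rpow (by positivity) (by gcongr) (by linarith)
        _ = ((B.card : ℝ) ^ (1 + ε)) ^ (1 - ε) := by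
            rw [Real.rpow_add hB0, Real.rpow_one, mul_comm]
        _ = (B.card : ℝ) ^ ((1 + ε) * (1 - ε)) := by rw [← Real.rpow_mul hB0.le]
        _ ≤ (B.card : ℝ) ^ (1 : ℝ) := Real.rpow_le_rpow_of_exponent_le hB1 (by nlinarith)
        _ = B.card := Real.rpow_one _
    have h2 : (SS.card : ℝ) ≤ 4 * (T : ℝ) ^ 2 * P.K0 * SS.card := by nlinarith
    linarith
  · rw [not_le] at hbig
    have hBN : (B.card : ℝ) ≤ (N : ℝ) ^ (1 / ε) := by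
      have h1 : ((B.card : ℝ) ^ ε) ^ (1 / ε) ≤ (N : ℝ) ^ (1 / ε) :=
        Real.rpow_le_rpow (by positivity) hbig.le (by positivity)
      rwa [← Real.rpow_mul hB0.le, mul_one_div_cancel hε.ne', Real.rpow_one] at h1
    have hY : ((D.card : ℝ) * B.card) ^ γ ≤
        (κ * (N : ℝ) ^ (1 + η) * (N : ℝ) ^ (1 / ε)) ^ γ := by
      apply Real.rpow_le_rpow (by positivity) _ hγ.le
      exact mul_le_mul hDc hBN (by positivity) (by positivity)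
    have hDc' : (D.card : ℝ) ≤ N * (κ * (N : ℝ) ^ η) := by
      refine hDc.trans (le_of_eq ?_)
      rw [Real.rpow_add hN0', Real.rpow_one]; ring
    have hQ0p : ∀ q ∈ Q0, q.Prime := fun q hq => hQ q (hQ0 hq)
    have hQ1p : ∀ q ∈ Q1, q.Prime := fun q hq => hQ q (hQ1 hq)
    have hbad := bad_card hE1 hE2 (κ := κ) (T := (T : ℝ)) (N := (N : ℝ)) (Nη := (N : ℝ) ^ η)
      hK0 hK01 hK2 hγ.le hD0 hD (hA'.trans hAD) hQ0p hQ1p hlt hg1 (B := B) hk hfk hfF hN0'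
      (by linarith) (by positivity) hDc' hY hA'c i1 i2
    have hps : ∀ p ∈ Q1.toList, p.Prime := fun p hp => hQ1p p (Finset.mem_toList.1 hp)
    have hlt' : ∀ q ∈ Q0, ∀ p ∈ Q1.toList, q < p := fun q hq p hp =>
      hlt q hq p (Finset.mem_toList.1 hp)
    have h1 := hG1 P γ Λ hγ hK0 hK1 hK2 hΛ D A' hD0 hD (hA'.trans hAD) Q0 Q1.toList hQ0p hps
      (Finset.nodup_toList Q1) hlt' B F hbad
    rw [Finset.length_toList, Finset.toList_toFinset] at h1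
    set SS' := ((A'.image (Nat.cast : ℕ → ℤ) ×ˢ B).image (fun q => q.1 + q.2)) with hSS'
    have hS' : (SS'.card : ℝ) ≤ SS.card := by
      have : SS' ⊆ SS := by
        apply image_subset_image
        apply product_subset_product_left
        exact image_subset_image hA'
      exact_mod_cast card_le_card this
    have hΛ1 : 1 ≤ Λ := by
      have e1 : (0 : ℝ) ≤ (P.K0 : ℝ) * (P.K1 : ℝ) ^ (-γ) := by positivity
      have e2 : (0 : ℝ) ≤ (P.K1 : ℝ) * (P.K2 : ℝ) ^ (-γ) := by positivity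
      have e3 : (0 : ℝ) ≤ (P.K0 : ℝ) ^ (-γ) := by positivity
      linarith
    have hR : (P.K0 : ℝ) * Λ ^ Q1.card * ((D.card : ℝ) * B.card) ^ γ * (P.K1 : ℝ) ^ F ≤
        P.K0 * (N : ℝ) ^ θ3 := by
      have e1 : Λ ^ Q1.card ≤ Λ ^ g := pow_le_pow_right₀ hΛ1 hg1
      calc (P.K0 : ℝ) * Λ ^ Q1.card * ((D.card : ℝ) * B.card) ^ γ * (P.K1 : ℝ) ^ F
          ≤ (P.K0 : ℝ) * Λ ^ g * (κ * (N : ℝ) ^ (1 + η) * (N : ℝ) ^ (1 / ε)) ^ γ *
            (P.K1 : ℝ) ^ F := by gcongr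
        _ = P.K0 * (Λ ^ g * (κ * (N : ℝ) ^ (1 + η) * (N : ℝ) ^ (1 / ε)) ^ γ *
            (P.K1 : ℝ) ^ F) := by ring
        _ ≤ P.K0 * (N : ℝ) ^ θ3 := by gcongr
    have h2 : (A'.card : ℝ) * B.card ≤ 2 * (N : ℝ) ^ θ2 * (P.K0 * (N : ℝ) ^ θ3) *
        SS.card := by
      refine h1.trans ?_
      have hΛ0 : 0 ≤ Λ := by linarith
      gcongr
    have h3 : (N : ℝ) * B.card ≤ 4 * (T : ℝ) ^ 2 * P.K0 * SS.card * (N : ℝ) ^ (θ2 + θ3) := by
      have e1 : (N : ℝ) ^ (θ2 + θ3) = (N : ℝ) ^ θ2 * (N : ℝ) ^ θ3 := by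
        rw [← Real.rpow_add hN0']
      rw [e1]
      calc (N : ℝ) * B.card ≤ 2 * (T : ℝ) ^ 2 * A'.card * B.card := by gcongr
        _ = 2 * (T : ℝ) ^ 2 * (A'.card * B.card) := by ring
        _ ≤ 2 * (T : ℝ) ^ 2 * (2 * (N : ℝ) ^ θ2 * (P.K0 * (N : ℝ) ^ θ3) *
            SS.card) := by gcongr
        _ = _ := by ring
    have hNB : (1 : ℝ) ≤ (N : ℝ) * B.card := by nlinarith
    have h4 : ((N : ℝ) * B.card) ^ (1 - ε) * (N : ℝ) ^ (θ2 + θ3) ≤ (N : ℝ) * B.card := by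
      have hNε : (N : ℝ) ^ (θ2 + θ3) ≤ ((N : ℝ) * B.card) ^ ε := by
        calc (N : ℝ) ^ (θ2 + θ3) ≤ (N : ℝ) ^ ε := Real.rpow_le_rpow_of_exponent_le hN1' hθ
          _ ≤ ((N : ℝ) * B.card) ^ ε := Real.rpow_le_rpow hN0'.le (by nlinarith) hε.le
      calc ((N : ℝ) * B.card) ^ (1 - ε) * (N : ℝ) ^ (θ2 + θ3)
          ≤ ((N : ℝ) * B.card) ^ (1 - ε) * ((N : ℝ) * B.card) ^ ε := by gcongr
        _ = ((N : ℝ) * B.card) ^ (1 : ℝ) := by
            rw [← Real.rpow_add (by linarith)]; congr 1; ring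
        _ = (N : ℝ) * B.card := Real.rpow_one _
    exact le_of_mul_le_mul_right (h4.trans h3) (by positivity)


theorem part_card2 {Q A : Finset ℕ} (hQ : ∀ q ∈ Q, q.Prime) (hA : ∀ a ∈ A, a ≠ 0) (hN11 : S_N11)
    {j q0 Λ' W H : ℕ} (hj : ∀ a ∈ A, (Q.filter (· ∣ a)).card ≤ j ∧ lam q0 Q a ≤ Λ')
    {δ ρ R R' : ℝ} (h1 : 0 < δ) (h2 : δ ≤ 1) (h3 : 0 < ρ) (h4 : ρ < 1) (hW : Q.card ≤ W)
    (hρ : (2 ^ q0 + 2) * (1 - ρ) ≤ 1) (hR0 : 0 ≤ R)
    (hR : (1 + δ / (1 - ρ)) ^ W ≤ R * (δ ^ j * ρ ^ H)) (hR' : R * 4 ^ Λ' ≤ R') :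
    ((A.image (part Q)).card : ℝ) ≤ R' := by
  have h5 := hN11 Q A hQ hA j q0 Λ' hj δ h1 h2
  have hρ' : 0 < 1 - ρ := by linarith
  have h6 : δ * (2 ^ q0 + 2) ≤ δ / (1 - ρ) := by
    rw [le_div_iff₀ hρ']
    nlinarith
  have h7 : (1 : ℝ) ≤ 1 + δ / (1 - ρ) := by
    have : 0 ≤ δ / (1 - ρ) := div_nonneg h1.le (by linarith)
    linarith
  have h8 : (1 + δ * (2 ^ q0 + 2)) ^ Q.card ≤ (1 + δ / (1 - ρ)) ^ W := by
    calc (1 + δ * (2 ^ q0 + 2)) ^ Q.card ≤ (1 + δ / (1 - ρ)) ^ Q.card :=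
          pow_le_pow_left₀ (by positivity) (by linarith) _
      _ ≤ _ := pow_le_pow_right₀ h7 hW
  have h9 : δ ^ j * ρ ^ H ≤ δ ^ j := by
    have : ρ ^ H ≤ 1 := pow_le_one₀ h3.le h4.le
    have : 0 < δ ^ j := by positivity
    nlinarith
  have h10 : ((A.image (part Q)).card : ℝ) * (δ ^ j * (1 / 4) ^ Λ') ≤ R * δ ^ j :=
    h5.trans (h8.trans (hR.trans (mul_le_mul_of_nonneg_left h9 hR0)))
  have h11 : ((A.image (part Q)).card : ℝ) * δ ^ j ≤ R' * δ ^ j := by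
    have e1 : (1 / 4 : ℝ) ^ Λ' * 4 ^ Λ' = 1 := by
      rw [← mul_pow]; norm_num
    calc ((A.image (part Q)).card : ℝ) * δ ^ j
        = ((A.image (part Q)).card : ℝ) * (δ ^ j * (1 / 4) ^ Λ') * 4 ^ Λ' := by
          calc ((A.image (part Q)).card : ℝ) * δ ^ j
              = ((A.image (part Q)).card : ℝ) * δ ^ j * ((1 / 4 : ℝ) ^ Λ' * 4 ^ Λ') := by
                rw [e1, mul_one]
            _ = _ := by ring
      _ ≤ R * δ ^ j * 4 ^ Λ' := by gcongr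
      _ = R * 4 ^ Λ' * δ ^ j := by ring
      _ ≤ R' * δ ^ j := by gcongr
  exact le_of_mul_le_mul_right h11 (by positivity)

theorem lam_mono {q0 : ℕ} {Q Q' : Finset ℕ} (h : Q ⊆ Q') (a : ℕ) : lam q0 Q a ≤ lam q0 Q' a :=
  sum_le_sum_of_subset (filter_subset_filter _ h)

theorem rho_le {δ ρ εK hh : ℝ} {N L M g H q0 : ℕ} (hN2 : 2 ≤ N) (hδ : 0 < δ) (hδ1 : δ ≤ 1)
    (hρ : 0 < ρ) (hρ1 : ρ < 1) (hεK0 : 0 < εK) (hh1 : 1 ≤ hh) (hh2 : εK * (2 ^ q0 + 2) ≤ hh)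
    (hH : hh * (1 + Real.log N) ≤ H)
    (i0 : (1 + δ / (1 - ρ)) ^ (L * M) ≤ (N : ℝ) ^ (εK / 4) * (δ ^ (2 * g) * ρ ^ H)) :
    ((2 : ℝ) ^ q0 + 2) * (1 - ρ) ≤ 1 := by
  have hN1' : (1 : ℝ) ≤ N := by exact_mod_cast (by omega : 1 ≤ N)
  have hN0' : (0 : ℝ) < N := by linarith
  have hlogN' : 0 < Real.log N := Real.log_pos (by exact_mod_cast hN2)
  have hρ' : 0 < 1 - ρ := by linarith
  have e1 : (1 : ℝ) ≤ (1 + δ / (1 - ρ)) ^ (L * M) := by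
    apply one_le_pow₀
    have : 0 ≤ δ / (1 - ρ) := div_nonneg hδ.le hρ'.le
    linarith
  have e2 : δ ^ (2 * g) * ρ ^ H ≤ ρ ^ H := by
    have h1 : δ ^ (2 * g) ≤ 1 := pow_le_one₀ hδ.le hδ1
    have h2 : 0 < ρ ^ H := by positivity
    nlinarith
  have e3 : (1 : ℝ) ≤ (N : ℝ) ^ (εK / 4) * ρ ^ H := by
    refine e1.trans (i0.trans ?_)
    gcongr
  have e4 : 0 ≤ εK / 4 * Real.log N + H * Real.log ρ := by
    have := Real.log_le_log one_pos e3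
    rwa [Real.log_one, Real.log_mul (by positivity) (by positivity), Real.log_rpow hN0',
      Real.log_pow] at this
  have e5 : Real.log ρ ≤ ρ - 1 := Real.log_le_sub_one_of_pos hρ
  have e6 : (H : ℝ) * (1 - ρ) ≤ εK / 4 * Real.log N := by
    have : (0 : ℝ) ≤ H := by positivity
    nlinarith
  have e7 : hh * Real.log N ≤ H := by nlinarith
  have e8 : hh * Real.log N * (1 - ρ) ≤ εK / 4 * Real.log N := by
    refine le_trans ?_ e6
    exact mul_le_mul_of_nonneg_right e7 hρ'.le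
  have e9 : hh * (1 - ρ) ≤ εK / 4 := by
    have : hh * (1 - ρ) * Real.log N ≤ εK / 4 * Real.log N := by linarith
    exact le_of_mul_le_mul_right this hlogN'
  have e10 : εK * (2 ^ q0 + 2) * (1 - ρ) ≤ εK / 4 :=
    le_trans (mul_le_mul_of_nonneg_right hh2 hρ'.le) e9
  have e11 : εK * ((2 ^ q0 + 2) * (1 - ρ)) ≤ εK * 1 := by nlinarith
  exact le_of_mul_le_mul_left e11 hεK0

/-- The product side. -/
theorem prod_side {ε' : ℝ} {N L0 : ℕ} {A As A2 Q : Finset ℕ} (hI1 : S_I1) (hε'0 : 0 < ε')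
    (hε'1 : ε' ≤ 1) (hL3 : 3 ≤ L0) (hLlog : 9 / Real.log ((L0 : ℝ) / 2) ≤ ε' / 2)
    (hA0 : ∀ a ∈ A, a ≠ 0) (hNA : A.card = N) (hAsA : As ⊆ A) (hA2 : A2 ⊆ As)
    (hA2ne : A2.Nonempty) (hcaseS : A.card ≤ 2 * As.card) (hcase : As.card ≤ 2 * A2.card)
    (hQp : ∀ q ∈ Q, q.Prime)
    (hunpop : ∀ q : ℕ, q.Prime → q ∉ Q → 2 * L0 * (A.filter (q ∣ ·)).card < A.card)
    (hpc : ((A2.image (part Q)).card : ℝ) ≤ (N : ℝ) ^ (3 * ε' / 16))
    {B : Finset ℤ} (hB : B.Nonempty) (hB0 : 0 ∉ B) :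
    ((N : ℝ) * B.card) ^ (1 - ε') ≤ 16 *
      ((A.image (Nat.cast : ℕ → ℤ) ×ˢ B).image (fun q => q.1 * q.2)).card := by
  have hA21 : 1 ≤ A2.card := card_pos.2 hA2ne
  have hN4 : N ≤ 4 * A2.card := by omega
  have hA2A : A2.card ≤ N := by rw [← hNA]; exact card_le_card (hA2.trans hAsA)
  have hN1 : 1 ≤ N := by omega
  have hN1' : (1 : ℝ) ≤ N := by exact_mod_cast hN1
  have hN0' : (0 : ℝ) < N := by linarith
  have hunpop' : ∀ q : ℕ, q.Prime → q ∉ Q → L0 * (As.filter (q ∣ ·)).card < As.card := by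
    intro q hq hqQ
    have e1 := hunpop q hq hqQ
    have e2 : (As.filter (q ∣ ·)).card ≤ (A.filter (q ∣ ·)).card :=
      card_le_card (filter_subset_filter _ hAsA)
    have e3 : L0 * (As.filter (q ∣ ·)).card ≤ L0 * (A.filter (q ∣ ·)).card :=
      Nat.mul_le_mul_left _ e2
    have e4 : 2 * L0 * (A.filter (q ∣ ·)).card = 2 * (L0 * (A.filter (q ∣ ·)).card) := by ring
    omega
  have h1 := hI1 L0 hL3 As A2 Q hA2 hA2ne hcase (fun a ha => hA0 a (hAsA ha)) hQp hunpop' B hB hB0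
  set MM := ((A.image (Nat.cast : ℕ → ℤ) ×ˢ B).image (fun q => q.1 * q.2)) with hMM
  have hMs : (((As.image (Nat.cast : ℕ → ℤ) ×ˢ B).image (fun q => q.1 * q.2)).card : ℝ) ≤
      MM.card := by
    have : ((As.image (Nat.cast : ℕ → ℤ) ×ˢ B).image (fun q => q.1 * q.2)) ⊆ MM := by
      apply image_subset_image
      apply product_subset_product_left
      exact image_subset_image hAsA
    exact_mod_cast card_le_card this
  have hB1 : (1 : ℝ) ≤ B.card := by exact_mod_cast card_pos.2 hB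
  have hA21' : (1 : ℝ) ≤ A2.card := by exact_mod_cast hA21
  have hNA2 : (N : ℝ) ≤ 4 * A2.card := by exact_mod_cast hN4
  have hAB1 : (1 : ℝ) ≤ (A2.card : ℝ) * B.card := by nlinarith
  have hNB : (1 : ℝ) ≤ (N : ℝ) * B.card := by nlinarith
  have hMM0 : (0 : ℝ) ≤ MM.card := by positivity
  have h2 : ((A2.card : ℝ) * B.card) ^ (1 - ε' / 2) ≤
      4 * (N : ℝ) ^ (3 * ε' / 16) * MM.card := by
    calc ((A2.card : ℝ) * B.card) ^ (1 - ε' / 2)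
        ≤ ((A2.card : ℝ) * B.card) ^ (1 - 9 / Real.log ((L0 : ℝ) / 2)) :=
          Real.rpow_le_rpow_of_exponent_le hAB1 (by linarith)
      _ ≤ 4 * (A2.image (part Q)).card *
          ((As.image (Nat.cast : ℕ → ℤ) ×ˢ B).image (fun q => q.1 * q.2)).card := h1
      _ ≤ 4 * (N : ℝ) ^ (3 * ε' / 16) * MM.card := by gcongr
  have h3 : ((N : ℝ) * B.card) ^ (1 - ε' / 2) ≤
      4 * ((A2.card : ℝ) * B.card) ^ (1 - ε' / 2) := by
    calc ((N : ℝ) * B.card) ^ (1 - ε' / 2) ≤ (4 * ((A2.card : ℝ) * B.card)) ^ (1 - ε' / 2) := by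
          apply Real.rpow_le_rpow (by positivity) _ (by linarith)
          nlinarith
      _ = (4 : ℝ) ^ (1 - ε' / 2) * ((A2.card : ℝ) * B.card) ^ (1 - ε' / 2) :=
          Real.mul_rpow (by norm_num) (by positivity)
      _ ≤ 4 * ((A2.card : ℝ) * B.card) ^ (1 - ε' / 2) := by
          gcongr
          calc (4 : ℝ) ^ (1 - ε' / 2) ≤ (4 : ℝ) ^ (1 : ℝ) :=
                Real.rpow_le_rpow_of_exponent_le (by norm_num) (by linarith)
            _ = 4 := Real.rpow_one _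
  have h4 : ((N : ℝ) * B.card) ^ (1 - ε') * (N : ℝ) ^ (3 * ε' / 16) ≤
      16 * MM.card * (N : ℝ) ^ (3 * ε' / 16) := by
    calc ((N : ℝ) * B.card) ^ (1 - ε') * (N : ℝ) ^ (3 * ε' / 16)
        ≤ ((N : ℝ) * B.card) ^ (1 - ε') * ((N : ℝ) * B.card) ^ (3 * ε' / 16) := by
          gcongr
          nlinarith
      _ = ((N : ℝ) * B.card) ^ (1 - ε' + 3 * ε' / 16) := by
          rw [← Real.rpow_add (by linarith)]
      _ ≤ ((N : ℝ) * B.card) ^ (1 - ε' / 2) :=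
          Real.rpow_le_rpow_of_exponent_le hNB (by linarith)
      _ ≤ 4 * ((A2.card : ℝ) * B.card) ^ (1 - ε' / 2) := h3
      _ ≤ 4 * (4 * (N : ℝ) ^ (3 * ε' / 16) * MM.card) := by gcongr
      _ = _ := by ring
  exact le_of_mul_le_mul_right h4 (by positivity)

theorem four_pow_le {N : ℕ} {ε' : ℝ} (hN1 : 1 ≤ N) (hε'0 : 0 < ε') :
    (4 : ℝ) ^ ⌊ε' / 32 * Real.log N⌋₊ ≤ (N : ℝ) ^ (ε' / 16) := by
  have hN1' : (1 : ℝ) ≤ N := by exact_mod_cast hN1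
  have hN0' : (0 : ℝ) < N := by linarith
  have hlogN : 0 ≤ Real.log N := Real.log_nonneg hN1'
  have e1 : ((⌊ε' / 32 * Real.log N⌋₊ : ℕ) : ℝ) ≤ ε' / 32 * Real.log N :=
    Nat.floor_le (by positivity)
  have e2 : Real.log 4 ≤ 2 := by
    have : Real.log 4 = 2 * Real.log 2 := by
      rw [show (4 : ℝ) = 2 ^ 2 by norm_num, Real.log_pow]; norm_num
    rw [this]
    have := Real.log_two_lt_d9
    linarith
  calc (4 : ℝ) ^ ⌊ε' / 32 * Real.log N⌋₊ = (4 : ℝ) ^ ((⌊ε' / 32 * Real.log N⌋₊ : ℕ) : ℝ) :=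
        (Real.rpow_natCast _ _).symm
    _ ≤ (4 : ℝ) ^ (ε' / 32 * Real.log N) :=
        Real.rpow_le_rpow_of_exponent_le (by norm_num) e1
    _ = Real.exp (Real.log 4 * (ε' / 32 * Real.log N)) := by
        rw [Real.rpow_def_of_pos (by norm_num)]
    _ ≤ Real.exp (Real.log N * (ε' / 16)) := by
        apply Real.exp_le_exp.2
        have : 0 ≤ ε' / 32 * Real.log N := by positivity
        nlinarith
    _ = (N : ℝ) ^ (ε' / 16) := by rw [Real.rpow_def_of_pos hN0']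

theorem exists_L (ε' : ℝ) (hε'0 : 0 < ε') :
    ∃ L : ℕ, 3 ≤ L ∧ 9 / Real.log ((L : ℝ) / 2) ≤ ε' / 2 := by
  refine ⟨⌈2 * Real.exp (18 / ε')⌉₊ + 3, by omega, ?_⟩
  have h1 : 2 * Real.exp (18 / ε') ≤ ((⌈2 * Real.exp (18 / ε')⌉₊ + 3 : ℕ) : ℝ) := by
    have := Nat.le_ceil (2 * Real.exp (18 / ε'))
    push_cast
    linarith
  have h2 : Real.exp (18 / ε') ≤ ((⌈2 * Real.exp (18 / ε')⌉₊ + 3 : ℕ) : ℝ) / 2 := by linarith
  have h3 : 18 / ε' ≤ Real.log (((⌈2 * Real.exp (18 / ε')⌉₊ + 3 : ℕ) : ℝ) / 2) := by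
    rw [Real.le_log_iff_exp_le (lt_of_lt_of_le (Real.exp_pos _) h2)]
    exact h2
  have h4 : 0 < 18 / ε' := by positivity
  rw [div_le_iff₀ (by linarith)]
  calc (9 : ℝ) = ε' / 2 * (18 / ε') := by field_simp; norm_num
    _ ≤ ε' / 2 * Real.log (((⌈2 * Real.exp (18 / ε')⌉₊ + 3 : ℕ) : ℝ) / 2) := by gcongr

/-- The sum side when the exponents are small. -/
theorem sum_side3 {P : Par} (hE1 : S_E1) (hE2 : S_E2) (hG1 : S_G1) (hH2 : S_H2)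
    {γ κ' ε' Λ η : ℝ} {N : ℕ} {D A As A1 Q : Finset ℕ} {T g k F f : ℕ}
    (hK0 : 1 ≤ P.K0) (hK01 : P.K0 ≤ P.K1) (hK2 : 1 ≤ P.K2) (hγ : 0 < γ) (hε'0 : 0 < ε')
    (hε'1 : ε' ≤ 1) (hκ'1 : 1 ≤ κ')
    (hΛ : 1 + (P.K0 : ℝ) * (P.K1 : ℝ) ^ (-γ) + (P.K1 : ℝ) * (P.K2 : ℝ) ^ (-γ) +
      (P.K0 : ℝ) ^ (-γ) ≤ Λ)
    (hD0 : ∀ d ∈ D, d ≠ 0) (hD : ∀ d ∈ D, ∀ d', d' ∣ d → d' ∈ D) (hAD : A ⊆ D)
    (hA : A.Nonempty) (hAsA : As ⊆ A) (hA1As : A1 ⊆ As)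
    (hNA : A.card = N) (hDc : (D.card : ℝ) ≤ κ' * (N : ℝ) ^ (1 + η))
    (hQp : ∀ q ∈ Q, q.Prime) (hQT : Q.card ≤ T * g) (hg : 1 ≤ g) (hTk : T * k ≤ g)
    (hcaseS : A.card ≤ 2 * As.card) (hcase' : As.card ≤ 2 * A1.card)
    (hA1 : ∀ a ∈ A1, 2 * g ≤ (Q.filter (· ∣ a)).card)
    (hpc : ∀ A' Q' : Finset ℕ, A' ⊆ A1 → Q' ⊆ Q → Q'.card ≤ 2 * g →
      ((A'.image (part Q')).card : ℝ) ≤ (N : ℝ) ^ (3 * ε' / 16))
    (hfk : f ≤ k) (hfF : f ≤ F + 1) (hT : 1 ≤ T)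
    (i1 : 8 * (T : ℝ) ^ 2 * (4 * κ' * (N : ℝ) ^ η) * ((1 + 2 * (P.K0 : ℝ) ^ (-γ)) ^ g *
        (4 * κ' * (N : ℝ) ^ (1 + η) * (N : ℝ) ^ (1 / (ε' / 2))) ^ γ) ≤ 2 ^ k)
    (i2 : ∀ m : ℕ, m ≤ g → 8 * (T : ℝ) ^ 2 * (4 * κ' * (N : ℝ) ^ η) *
        (((((P.K1 * P.K2) ^ 2) ^ f * m.choose f : ℕ) : ℝ)) ≤
          (((F + 1).choose f * k.choose f : ℕ) : ℝ))
    (i3 : Λ ^ g * (4 * κ' * (N : ℝ) ^ (1 + η) * (N : ℝ) ^ (1 / (ε' / 2))) ^ γ *
      (P.K1 : ℝ) ^ F ≤ (N : ℝ) ^ (ε' / 2 / 4)) {B : Finset ℤ} (hB : B.Nonempty) :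
    ((N : ℝ) * B.card) ^ (1 - ε' / 2) ≤ 16 * (T : ℝ) ^ 2 * P.K0 *
      ((A.image (Nat.cast : ℕ → ℤ) ×ˢ B).image (fun q => q.1 + q.2)).card := by
  have hNpos : 0 < N := by rw [← hNA]; exact card_pos.2 hA
  have hN0' : (0 : ℝ) < N := by exact_mod_cast hNpos
  have hA1ne : A1.Nonempty := by
    rw [← card_pos]; omega
  obtain ⟨Q0, Q1, hQ0, hQ1, hlt, hg0, hg1, hA'⟩ := hH2 Q g T hg hQT A1 hA1ne hA1
  set A' := A1.filter (fun a => g ≤ T * (Q0.filter (· ∣ a)).card ∧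
    g ≤ T * (Q1.filter (· ∣ a)).card) with hA'def
  have hA'c : (N : ℝ) ≤ 2 * ((2 * T : ℕ) : ℝ) ^ 2 * A'.card := by
    have h1 : N ≤ 2 * (2 * T) ^ 2 * A'.card := by
      calc N ≤ 2 * As.card := by rw [← hNA]; exact hcaseS
        _ ≤ 2 * (2 * A1.card) := Nat.mul_le_mul_left _ hcase'
        _ ≤ 2 * (2 * (T ^ 2 * A'.card)) :=
            Nat.mul_le_mul_left _ (Nat.mul_le_mul_left _ hA')
        _ ≤ 2 * (2 * T) ^ 2 * A'.card := by
            have e1 : 2 * (2 * T) ^ 2 * A'.card = 2 * (2 * (T ^ 2 * A'.card)) +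
              2 * (2 * (T ^ 2 * A'.card)) := by ring
            omega
    exact_mod_cast h1
  have hA'A1 : A' ⊆ A1 := filter_subset _ _
  have hpc' : ((A'.image (part (Q0 ∪ Q1))).card : ℝ) ≤ (N : ℝ) ^ (3 * ε' / 16) :=
    hpc A' (Q0 ∪ Q1) hA'A1 (union_subset hQ0 hQ1)
      ((card_union_le _ _).trans (by omega))
  have hΛ1 : 1 ≤ Λ := by
    have e1 : (0 : ℝ) ≤ (P.K0 : ℝ) * (P.K1 : ℝ) ^ (-γ) := by positivity
    have e2 : (0 : ℝ) ≤ (P.K1 : ℝ) * (P.K2 : ℝ) ^ (-γ) := by positivity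
    have e3 : (0 : ℝ) ≤ (P.K0 : ℝ) ^ (-γ) := by positivity
    linarith
  have hΛ0 : 0 ≤ Λ := by linarith
  have hZ0 : 0 ≤ κ' * (N : ℝ) ^ (1 + η) * (N : ℝ) ^ (1 / (ε' / 2)) := by positivity
  have hYY : (κ' * (N : ℝ) ^ (1 + η) * (N : ℝ) ^ (1 / (ε' / 2))) ^ γ ≤
      (4 * κ' * (N : ℝ) ^ (1 + η) * (N : ℝ) ^ (1 / (ε' / 2))) ^ γ := by
    apply Real.rpow_le_rpow hZ0 _ hγ.le
    nlinarith
  have hk : ∀ a ∈ A', k ≤ (Q0.filter (· ∣ a)).card ∧ k ≤ (Q1.filter (· ∣ a)).card := by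
    intro a ha
    have ha' := (mem_filter.1 ha).2
    have hTpos : 0 < T := by omega
    exact ⟨Nat.le_of_mul_le_mul_left (hTk.trans ha'.1) hTpos,
      Nat.le_of_mul_le_mul_left (hTk.trans ha'.2) hTpos⟩
  have j1 : 8 * ((2 * T : ℕ) : ℝ) ^ 2 * (κ' * (N : ℝ) ^ η) *
      ((1 + 2 * (P.K0 : ℝ) ^ (-γ)) ^ g *
      (κ' * (N : ℝ) ^ (1 + η) * (N : ℝ) ^ (1 / (ε' / 2))) ^ γ) ≤ 2 ^ k := by
    refine le_trans ?_ i1
    have e0 : 8 * ((2 * T : ℕ) : ℝ) ^ 2 * (κ' * (N : ℝ) ^ η) =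
        8 * (T : ℝ) ^ 2 * (4 * κ' * (N : ℝ) ^ η) := by push_cast; ring
    rw [e0]
    apply mul_le_mul_of_nonneg_left _ (by positivity)
    apply mul_le_mul_of_nonneg_left hYY (by positivity)
  have j2 : ∀ m : ℕ, m ≤ g → 8 * ((2 * T : ℕ) : ℝ) ^ 2 * (κ' * (N : ℝ) ^ η) *
      (((((P.K1 * P.K2) ^ 2) ^ f * m.choose f : ℕ) : ℝ)) ≤
        (((F + 1).choose f * k.choose f : ℕ) : ℝ) := by
    intro m hm
    refine le_trans (le_of_eq ?_) (i2 m hm)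
    have e0 : 8 * ((2 * T : ℕ) : ℝ) ^ 2 * (κ' * (N : ℝ) ^ η) =
        8 * (T : ℝ) ^ 2 * (4 * κ' * (N : ℝ) ^ η) := by push_cast; ring
    rw [e0]
  have j3 : Λ ^ g * (κ' * (N : ℝ) ^ (1 + η) * (N : ℝ) ^ (1 / (ε' / 2))) ^ γ *
      (P.K1 : ℝ) ^ F ≤ (N : ℝ) ^ (ε' / 2 / 4) := by
    refine le_trans ?_ i3
    apply mul_le_mul_of_nonneg_right _ (by positivity)
    exact mul_le_mul_of_nonneg_left hYY (by positivity)
  have h1 := sum_side2 hE1 hE2 hG1 (N := N) (D := D) (A := A) (A' := A') (Q := Q)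
    (Q0 := Q0) (Q1 := Q1) (T := 2 * T) (κ := κ') (ε := ε' / 2) (θ2 := 3 * ε' / 16)
    (θ3 := ε' / 2 / 4) hK0 hK01 hK2 hγ (by positivity) (by linarith) hκ'1 hΛ
    hD0 hD hAD hA (hA'A1.trans (hA1As.trans hAsA)) hNA hDc hpc' (by linarith) hQp hQ0 hQ1
    hlt hg1 hk hfk hfF (by omega) hA'c j1 j2 j3 hB
  refine h1.trans (le_of_eq ?_)
  push_cast
  ring

end PJ4

theorem p_J4 (hE1 : S_E1) (hE2 : S_E2) (hG1 : S_G1) (hH2 : S_H2) (hH3 : S_H3)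
    (hK : S_K) (hI1 : S_I1) (hN11 : S_N11) (hCI : S_CI) : S_J4 := by
  intro κ ε hε
  set ε' := min ε 1 with hε'
  set κ' := max κ 1 with hκ'
  have hε'0 : 0 < ε' := lt_min hε one_pos
  have hε'1 : ε' ≤ 1 := min_le_right _ _
  have hε'ε : ε' ≤ ε := min_le_left _ _
  have hκ'1 : 1 ≤ κ' := le_max_right _ _
  obtain ⟨L0, hL3, hLlog⟩ := PJ4.exists_L ε' hε'0
  set L := 2 * L0 with hL
  set lam1 := ε' / 32 with hlam1
  obtain ⟨q0, Nc, ηc, C0, hηc, hC0, hCmain⟩ := hCI ε' κ' lam1 L hε'0 hε'1 hκ'1 (by positivity)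
    (by omega)
  set εK := ε' / 2 with hεK
  set hh := max 1 (εK * (2 ^ q0 + 2)) with hhh
  obtain ⟨P, γ, Λ, η, δ, ρ, T, N0, hK0, hK01, hK2, hγ, hη, hη1, hδ, hδ1, hρ, hρ1, hT, hN0, hΛ,
    hmain⟩ := hK εK hh (4 * κ') L (by positivity) (by rw [hεK]; linarith) (le_max_left _ _)
      (by linarith) (by omega)
  have hT' : (1 : ℝ) ≤ T := by exact_mod_cast hT
  have hK0' : (1 : ℝ) ≤ P.K0 := by exact_mod_cast hK0
  set NN := max N0 (max Nc 2) with hNN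
  have hNN1 : (1 : ℝ) ≤ NN := by
    have : 1 ≤ NN := le_trans (by norm_num : 1 ≤ 2) ((le_max_right Nc 2).trans (le_max_right _ _))
    exact_mod_cast this
  have hden : (0 : ℝ) < 16 * (T : ℝ) ^ 2 * P.K0 * C0 * NN := by positivity
  refine ⟨min η ηc, lt_min hη hηc, 1 / (16 * (T : ℝ) ^ 2 * P.K0 * C0 * NN), by positivity, ?_⟩
  intro A hA hA0 hAD
  set D := A.biUnion (fun a => a.divisors) with hD
  set N := A.card with hN
  have hN1 : 1 ≤ N := card_pos.2 hA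
  have hN1' : (1 : ℝ) ≤ N := by exact_mod_cast hN1
  have hN0' : (0 : ℝ) < N := by linarith
  have hlogN : 0 ≤ Real.log N := Real.log_nonneg hN1'
  have hpow : ∀ x : ℝ, 1 ≤ x → x ^ (1 - ε) ≤ x ^ (1 - ε') := fun x hx =>
    Real.rpow_le_rpow_of_exponent_le hx (by linarith)
  have hT2 : (1 : ℝ) ≤ (T : ℝ) ^ 2 := one_le_pow₀ hT'
  have hTK : (1 : ℝ) ≤ (T : ℝ) ^ 2 * P.K0 := by nlinarith
  have hTKC : (1 : ℝ) ≤ (T : ℝ) ^ 2 * P.K0 * C0 := by nlinarith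
  have hTKN : (1 : ℝ) ≤ (T : ℝ) ^ 2 * P.K0 * NN := by nlinarith
  have hTKCN : (1 : ℝ) ≤ (T : ℝ) ^ 2 * P.K0 * C0 * NN := by nlinarith
  have hCN : (1 : ℝ) ≤ C0 * NN := by nlinarith
  have hDη : ∀ η' : ℝ, min η ηc ≤ η' → (D.card : ℝ) ≤ κ' * (N : ℝ) ^ (1 + η') := by
    intro η' hη'
    refine hAD.trans ?_
    have e1 : (0 : ℝ) ≤ (N : ℝ) ^ (1 + min η ηc) := by positivity
    have e2 : (N : ℝ) ^ (1 + min η ηc) ≤ (N : ℝ) ^ (1 + η') :=
      Real.rpow_le_rpow_of_exponent_le hN1' (by linarith)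
    calc κ * (N : ℝ) ^ (1 + min η ηc) ≤ κ' * (N : ℝ) ^ (1 + min η ηc) :=
          mul_le_mul_of_nonneg_right (le_max_left _ _) e1
      _ ≤ _ := by gcongr
  by_cases hsmall : N < NN
  · left
    intro B hB
    have hB1 : (1 : ℝ) ≤ B.card := by exact_mod_cast card_pos.2 hB
    have h1 : (B.card : ℝ) ≤ (((A.image (Nat.cast : ℕ → ℤ) ×ˢ B).image
      (fun q => q.1 + q.2)).card : ℝ) := by exact_mod_cast PJ1.card_le_image_add hA B
    refine le_trans ?_ h1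
    have hNB : (1 : ℝ) ≤ (N : ℝ) * B.card := by nlinarith
    have h2 : ((N : ℝ) * B.card) ^ (1 - ε) ≤ (N : ℝ) * B.card := by
      calc ((N : ℝ) * B.card) ^ (1 - ε) ≤ ((N : ℝ) * B.card) ^ (1 : ℝ) :=
            Real.rpow_le_rpow_of_exponent_le hNB (by linarith)
        _ = _ := Real.rpow_one _
    have h3 : (N : ℝ) ≤ NN := by exact_mod_cast hsmall.le
    rw [one_div, inv_mul_le_iff₀ hden]
    calc ((N : ℝ) * B.card) ^ (1 - ε) ≤ (N : ℝ) * B.card := h2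
      _ ≤ NN * B.card := by gcongr
      _ ≤ 16 * ((T : ℝ) ^ 2 * P.K0 * C0) * (NN * B.card) := by
          have : 0 ≤ (NN : ℝ) * B.card := by positivity
          nlinarith
      _ = 16 * (T : ℝ) ^ 2 * P.K0 * C0 * NN * B.card := by ring
  · rw [not_lt] at hsmall
    have hNN0 : N0 ≤ N := (le_max_left _ _).trans hsmall
    have hNNc : Nc ≤ N := (le_max_left _ _).trans ((le_max_right _ _).trans hsmall)
    have hN2 : 2 ≤ N := (le_max_right _ _).trans ((le_max_right _ _).trans hsmall)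
    have hlogN' : 0 < Real.log N := Real.log_pos (by exact_mod_cast hN2)
    obtain ⟨g, k, F, f, M, H, hg, hLM, hTk, hfk, hfF, hM, hH, i0, i1, i2, i3⟩ := hmain N hNN0
    have hD0 : ∀ d ∈ D, d ≠ 0 := by
      intro d hd
      rw [hD, mem_biUnion] at hd
      obtain ⟨a, ha, hda⟩ := hd
      exact (Nat.pos_of_mem_divisors hda).ne'
    have hDc : ∀ d ∈ D, ∀ d', d' ∣ d → d' ∈ D := by
      intro d hd d' hd'
      rw [hD, mem_biUnion] at hd ⊢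
      obtain ⟨a, ha, hda⟩ := hd
      exact ⟨a, ha, Nat.mem_divisors.2 ⟨hd'.trans (Nat.dvd_of_mem_divisors hda), hA0 a ha⟩⟩
    have hADs : A ⊆ D := by
      intro a ha
      rw [hD, mem_biUnion]
      exact ⟨a, ha, Nat.mem_divisors_self a (hA0 a ha)⟩
    have hDcard : (D.card : ℝ) ≤ κ' * (N : ℝ) ^ (1 + η) := hDη η (min_le_left _ _)
    have hD2 : D.card ≤ 2 ^ M := by
      have h1 : κ' * (N : ℝ) ^ (1 + η) ≤ 4 * κ' * (N : ℝ) ^ (1 + η) := by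
        have : 0 ≤ κ' * (N : ℝ) ^ (1 + η) := by positivity
        nlinarith
      have := hDcard.trans (h1.trans hM)
      exact_mod_cast this
    have hρq : ((2 : ℝ) ^ q0 + 2) * (1 - ρ) ≤ 1 :=
      PJ4.rho_le hN2 hδ hδ1 hρ hρ1 (by positivity) (le_max_left _ _) (le_max_right _ _) hH i0
    obtain ⟨hω, hpopc⟩ := hH3 A hA0 M L (by omega) hD2
    set Q := D.filter (fun q => q.Prime ∧ A.card ≤ L * (A.filter (q ∣ ·)).card) with hQdef
    have hQp : ∀ q ∈ Q, q.Prime := fun q hq => (mem_filter.1 hq).2.1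
    have hQc : Q.card ≤ L * M := hpopc Q (fun q hq => (mem_filter.1 hq).2) hA
    have hunpop : ∀ q : ℕ, q.Prime → q ∉ Q → L * (A.filter (q ∣ ·)).card < A.card := by
      intro q hq hqQ
      by_cases hqD : q ∈ D
      · by_contra hc
        exact hqQ (mem_filter.2 ⟨hqD, hq, not_lt.1 hc⟩)
      · have : A.filter (q ∣ ·) = ∅ := by
          rw [← not_nonempty_iff_eq_empty]
          rintro ⟨a, ha⟩
          have ha' := mem_filter.1 ha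
          exact hqD (mem_biUnion.2 ⟨a, ha'.1, Nat.mem_divisors.2 ⟨ha'.2, hA0 a ha'.1⟩⟩)
        rw [this]
        simpa using card_pos.2 hA
    set AI := A.filter (fun a => lam1 * Real.log A.card ≤ (lam q0 Q a : ℝ)) with hAI
    set As := A.filter (fun a => ¬ lam1 * Real.log A.card ≤ (lam q0 Q a : ℝ)) with hAs
    have hsplit0 : AI.card + As.card = A.card := card_filter_add_card_filter_not _
    by_cases hcaseI : A.card ≤ 2 * AI.card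
    · -- large exponents
      left
      intro B hB
      have h1 := hCmain A Q hNNc hA0 (hDη ηc (min_le_right _ _))
        (fun q hq => (mem_filter.1 hq).2) hcaseI B hB
      have hB1 : (1 : ℝ) ≤ B.card := by exact_mod_cast card_pos.2 hB
      have hNB : (1 : ℝ) ≤ (N : ℝ) * B.card := by nlinarith
      rw [one_div, inv_mul_le_iff₀ hden]
      set SS := ((A.image (Nat.cast : ℕ → ℤ) ×ˢ B).image (fun q => q.1 + q.2)) with hSS
      have hSS0 : (0 : ℝ) ≤ C0 * SS.card := by positivity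
      calc ((N : ℝ) * B.card) ^ (1 - ε) ≤ ((N : ℝ) * B.card) ^ (1 - ε') := hpow _ hNB
        _ ≤ C0 * SS.card := h1
        _ ≤ 16 * ((T : ℝ) ^ 2 * P.K0 * NN) * (C0 * SS.card) := by nlinarith
        _ = 16 * (T : ℝ) ^ 2 * P.K0 * C0 * NN * SS.card := by ring
    · have hcaseS : A.card ≤ 2 * As.card := by omega
      have hAsne : As.Nonempty := by
        rw [← card_pos]; have := card_pos.2 hA; omega
      set Λ' := ⌊lam1 * Real.log N⌋₊ with hΛ'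
      have hlamle : ∀ a ∈ As, lam q0 Q a ≤ Λ' := by
        intro a ha
        have := (mem_filter.1 ha).2
        rw [not_le] at this
        exact Nat.le_floor this.le
      have h4Λ : (4 : ℝ) ^ Λ' ≤ (N : ℝ) ^ (ε' / 16) := PJ4.four_pow_le hN1 hε'0
      have hRR : (N : ℝ) ^ (εK / 4) * 4 ^ Λ' ≤ (N : ℝ) ^ (3 * ε' / 16) := by
        calc (N : ℝ) ^ (εK / 4) * 4 ^ Λ' ≤ (N : ℝ) ^ (εK / 4) * (N : ℝ) ^ (ε' / 16) := by gcongr
          _ = (N : ℝ) ^ (3 * ε' / 16) := by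
              rw [← Real.rpow_add hN0', hεK]; congr 1; ring
      set A1 := As.filter (fun a => 2 * g ≤ (Q.filter (· ∣ a)).card) with hA1
      set A2 := As.filter (fun a => ¬ 2 * g ≤ (Q.filter (· ∣ a)).card) with hA2
      have hsplit : A1.card + A2.card = As.card := card_filter_add_card_filter_not _
      have hAsA : As ⊆ A := filter_subset _ _
      by_cases hcase : As.card ≤ 2 * A2.card
      · -- the product side
        right
        intro B hB hB0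
        have hA2ne : A2.Nonempty := by
          rw [← card_pos]; have := card_pos.2 hAsne; omega
        have hpc : ((A2.image (part Q)).card : ℝ) ≤ (N : ℝ) ^ (3 * ε' / 16) := by
          refine PJ4.part_card2 (j := 2 * g) (H := H) (W := L * M) hQp ?_ hN11
            (q0 := q0) (Λ' := Λ') ?_ hδ hδ1 hρ hρ1 hQc hρq (by positivity) i0 hRR
          · exact fun a ha => hA0 a (hAsA (mem_filter.1 ha).1)
          · intro a ha
            have ha' := mem_filter.1 ha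
            exact ⟨(not_le.1 ha'.2).le, hlamle a ha'.1⟩
        have h5 := PJ4.prod_side hI1 hε'0 hε'1 hL3 hLlog hA0 rfl hAsA (filter_subset _ _)
          hA2ne hcaseS hcase hQp hunpop hpc hB hB0
        set MM := ((A.image (Nat.cast : ℕ → ℤ) ×ˢ B).image (fun q => q.1 * q.2)) with hMM
        have hB1 : (1 : ℝ) ≤ B.card := by exact_mod_cast card_pos.2 hB
        have hNB : (1 : ℝ) ≤ (N : ℝ) * B.card := by nlinarith
        rw [one_div, inv_mul_le_iff₀ hden]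
        have hMM0 : (0 : ℝ) ≤ MM.card := by positivity
        calc ((N : ℝ) * B.card) ^ (1 - ε) ≤ ((N : ℝ) * B.card) ^ (1 - ε') := hpow _ hNB
          _ ≤ 16 * MM.card := h5
          _ ≤ (16 * MM.card) * ((T : ℝ) ^ 2 * P.K0 * C0 * NN) :=
              le_mul_of_one_le_right (by positivity) hTKCN
          _ = 16 * (T : ℝ) ^ 2 * P.K0 * C0 * NN * MM.card := by ring
      · -- the sum side
        left
        have hcase' : As.card ≤ 2 * A1.card := by omega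
        intro B hB
        have h1 := PJ4.sum_side3 hE1 hE2 hG1 hH2 (N := N) (D := D) (A := A) (As := As) (A1 := A1)
          (Q := Q) (T := T) (κ' := κ') (ε' := ε') hK0 hK01 hK2 hγ hε'0 hε'1 hκ'1 hΛ
          hD0 hDc hADs hA hAsA (filter_subset _ _) rfl hDcard hQp (hQc.trans hLM) hg hTk hcaseS
          hcase' (fun a ha => (mem_filter.1 ha).2) ?_ hfk hfF hT i1 i2 i3 hB
        · have hB1 : (1 : ℝ) ≤ B.card := by exact_mod_cast card_pos.2 hB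
          have hNB : (1 : ℝ) ≤ (N : ℝ) * B.card := by nlinarith
          rw [one_div, inv_mul_le_iff₀ hden]
          set SS := ((A.image (Nat.cast : ℕ → ℤ) ×ˢ B).image (fun q => q.1 + q.2)) with hSS
          calc ((N : ℝ) * B.card) ^ (1 - ε) ≤ ((N : ℝ) * B.card) ^ (1 - ε') := hpow _ hNB
            _ ≤ ((N : ℝ) * B.card) ^ (1 - ε' / 2) :=
                Real.rpow_le_rpow_of_exponent_le hNB (by linarith)
            _ ≤ 16 * (T : ℝ) ^ 2 * P.K0 * SS.card := h1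
            _ ≤ 16 * (T : ℝ) ^ 2 * P.K0 * SS.card * (C0 * NN) :=
                le_mul_of_one_le_right (by positivity) hCN
            _ = 16 * (T : ℝ) ^ 2 * P.K0 * C0 * NN * SS.card := by ring
        · intro A' Q' hA'A1 hQ'Q hQ'c
          have hA'As : A' ⊆ As := hA'A1.trans (filter_subset _ _)
          refine PJ4.part_card2 (j := 2 * g) (H := H) (W := L * M) ?_ ?_ hN11
            (q0 := q0) (Λ' := Λ') ?_ hδ hδ1 hρ hρ1 ?_ hρq (by positivity) i0 hRR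
          · intro q hq
            exact hQp q (hQ'Q hq)
          · exact fun a ha => hA0 a (hAsA (hA'As ha))
          · intro a ha
            refine ⟨?_, (PJ4.lam_mono hQ'Q a).trans (hlamle a (hA'As ha))⟩
            exact (card_filter_le _ _).trans hQ'c
          · exact (card_le_card hQ'Q).trans hQc

end

end Pool.Agent.Helper5.RD
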