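import Pool.Agent.Helper5.RD.Stm3
import Pool.Agent.Helper82.RD.PJ2

/-! # Project RD, package J5: from naturals to integers -/

namespace Pool.Agent.Helper5.RD

open Finset Classical
open scoped Pointwise
open Pool.Agent.Helper82.RD (rpow_half exists_side)

theorem p_J5 (hJ4 : S_J4) : S_J5 := by
  intro κ ε hε
  obtain ⟨η, hη, c, hc, H⟩ := hJ4 (4 * |κ|) ε hε
  refine ⟨min η 1, by positivity, c / 2, by positivity, ?_⟩
  intro A hA hA1 hdiv
  obtain ⟨A1, σ, hσ, hmem, hcard⟩ := exists_side A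
  have hσσ : σ * σ = 1 := by rcases hσ with rfl | rfl <;> norm_num
  have hσabs : σ.natAbs = 1 := by rcases hσ with rfl | rfl <;> rfl
  have hApos : 1 ≤ A.card := Finset.card_pos.2 hA
  have hA1pos : 1 ≤ A1.card := by omega
  have hA1ne : A1.Nonempty := Finset.card_pos.1 hA1pos
  have hle : A1.card ≤ A.card := by
    apply Finset.card_le_card_of_injOn (fun n : ℕ => σ * (n : ℤ))
    · intro n hn; exact hmem n hn
    · intro x _ y _ hxy
      have hxy' : σ * (x : ℤ) = σ * (y : ℤ) := hxy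
      have : (x : ℤ) = y := by
        calc (x : ℤ) = (σ * σ) * x := by rw [hσσ, one_mul]
          _ = σ * (σ * x) := by ring
          _ = σ * (σ * y) := by rw [hxy']
          _ = (σ * σ) * y := by ring
          _ = y := by rw [hσσ, one_mul]
      exact_mod_cast this
  have r1 : (1 : ℝ) ≤ A1.card := by exact_mod_cast hA1pos
  have r2 : (A1.card : ℝ) ≤ A.card := by exact_mod_cast hle
  have r3 : (A.card : ℝ) ≤ 2 * A1.card := by exact_mod_cast hcard
  have hnat : ∀ n ∈ A1, (σ * (n : ℤ)).natAbs = n := by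
    intro n _; rw [Int.natAbs_mul, hσabs, one_mul, Int.natAbs_natCast]
  have key := H A1 hA1ne ?_ ?_
  rotate_left
  · rintro n hn rfl
    exact hA1 (by simpa using hmem 0 hn)
  · have hsub : (A1.biUnion (fun a => a.divisors)) ⊆ (A.biUnion (fun a => a.natAbs.divisors)) := by
      intro d hd
      obtain ⟨n, hn, hdn⟩ := Finset.mem_biUnion.1 hd
      refine Finset.mem_biUnion.2 ⟨σ * n, hmem n hn, ?_⟩
      rw [hnat n hn]; exact hdn
    have hcardsub : ((A1.biUnion (fun a => a.divisors)).card : ℝ)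
        ≤ (A.biUnion (fun a => a.natAbs.divisors)).card := by
      exact_mod_cast Finset.card_le_card hsub
    have hm1 : min η 1 ≤ 1 := min_le_right _ _
    have hm2 : min η 1 ≤ η := min_le_left _ _
    have hm0 : 0 < min η 1 := by positivity
    have p0 : 0 ≤ (A.card : ℝ) ^ (1 + min η 1) := by positivity
    have p1 : (A.card : ℝ) ^ (1 + min η 1) ≤ (2 * A1.card : ℝ) ^ (1 + min η 1) :=
      Real.rpow_le_rpow (by positivity) r3 (by linarith)
    have p2 : (2 * A1.card : ℝ) ^ (1 + min η 1)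
        = 2 ^ (1 + min η 1) * (A1.card : ℝ) ^ (1 + min η 1) :=
      Real.mul_rpow (by norm_num) (by positivity)
    have p3 : (2 : ℝ) ^ (1 + min η 1) ≤ 4 := by
      have e : (2 : ℝ) ^ (1 + min η 1) ≤ 2 ^ (2 : ℝ) :=
        Real.rpow_le_rpow_of_exponent_le (by norm_num) (by linarith)
      have e2 : (2 : ℝ) ^ (2 : ℝ) = 4 := by norm_num
      linarith
    have p4 : (A1.card : ℝ) ^ (1 + min η 1) ≤ (A1.card : ℝ) ^ (1 + η) :=
      Real.rpow_le_rpow_of_exponent_le r1 (by linarith)
    have p5 : 0 ≤ (A1.card : ℝ) ^ (1 + min η 1) := by positivity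
    have p6 : (A.card : ℝ) ^ (1 + min η 1) ≤ 4 * (A1.card : ℝ) ^ (1 + η) := by
      calc (A.card : ℝ) ^ (1 + min η 1) ≤ 2 ^ (1 + min η 1) * (A1.card : ℝ) ^ (1 + min η 1) := by
            rw [← p2]; exact p1
        _ ≤ 4 * (A1.card : ℝ) ^ (1 + min η 1) := mul_le_mul_of_nonneg_right p3 p5
        _ ≤ 4 * (A1.card : ℝ) ^ (1 + η) := by linarith
    calc ((A1.biUnion (fun a => a.divisors)).card : ℝ)
        ≤ (A.biUnion (fun a => a.natAbs.divisors)).card := hcardsub
      _ ≤ κ * (A.card : ℝ) ^ (1 + min η 1) := hdiv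
      _ ≤ |κ| * (A.card : ℝ) ^ (1 + min η 1) := mul_le_mul_of_nonneg_right (le_abs_self κ) p0
      _ ≤ |κ| * (4 * (A1.card : ℝ) ^ (1 + η)) := mul_le_mul_of_nonneg_left p6 (abs_nonneg κ)
      _ = 4 * |κ| * (A1.card : ℝ) ^ (1 + η) := by ring
  have hinj : Function.Injective (fun b : ℤ => σ * b) := by
    intro x y hxy
    have hxy' : σ * x = σ * y := hxy
    calc x = (σ * σ) * x := by rw [hσσ, one_mul]
      _ = σ * (σ * x) := by ring
      _ = σ * (σ * y) := by rw [hxy']
      _ = (σ * σ) * y := by ring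
      _ = y := by rw [hσσ, one_mul]
  have hcB : ∀ B : Finset ℤ, (B.image (fun b => σ * b)).card = B.card := fun B =>
    Finset.card_image_of_injective B hinj
  have fin : ∀ (B : Finset ℤ) (X : ℝ), B.Nonempty →
      c * ((A1.card : ℝ) * (B.image (fun b => σ * b)).card) ^ (1 - ε) ≤ X →
      c / 2 * ((A.card : ℝ) * B.card) ^ (1 - ε) ≤ X := by
    intro B X hB hX
    rw [hcB B] at hX
    have rB : (1 : ℝ) ≤ B.card := by exact_mod_cast Finset.card_pos.2 hB
    have := rpow_half A.card A1.card B.card ε r1 r2 r3 rB hε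
    calc c / 2 * ((A.card : ℝ) * B.card) ^ (1 - ε)
        ≤ c / 2 * (2 * ((A1.card : ℝ) * B.card) ^ (1 - ε)) :=
          mul_le_mul_of_nonneg_left this (by positivity)
      _ = c * ((A1.card : ℝ) * B.card) ^ (1 - ε) := by ring
      _ ≤ X := hX
  rcases key with key | key
  · left
    intro B hB
    refine fin B _ hB ((key (B.image (fun b => σ * b)) (hB.image _)).trans ?_)
    have hsub : ((A1.image (Nat.cast : ℕ → ℤ) ×ˢ (B.image (fun b => σ * b))).image
        (fun q => q.1 + q.2)) ⊆ (A + B).image (fun b => σ * b) := by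
      intro z hz
      obtain ⟨q, hq, rfl⟩ := Finset.mem_image.1 hz
      obtain ⟨hq1, hq2⟩ := Finset.mem_product.1 hq
      obtain ⟨n, hn, hn2⟩ := Finset.mem_image.1 hq1
      obtain ⟨b, hb, hb2⟩ := Finset.mem_image.1 hq2
      refine Finset.mem_image.2 ⟨σ * n + b, Finset.add_mem_add (hmem n hn) hb, ?_⟩
      have hn2' : (n : ℤ) = q.1 := hn2
      have hb2' : σ * b = q.2 := hb2
      calc σ * (σ * (n : ℤ) + b) = (σ * σ) * n + σ * b := by ring
        _ = q.1 + q.2 := by rw [hσσ, one_mul, hn2', hb2']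
    exact_mod_cast (Finset.card_le_card hsub).trans Finset.card_image_le
  · right
    intro B hB hB0
    have h0' : (0 : ℤ) ∉ B.image (fun b => σ * b) := by
      intro hmem0
      obtain ⟨b, hb, hb2⟩ := Finset.mem_image.1 hmem0
      have : b = 0 := hinj (by simpa using hb2)
      exact hB0 (this ▸ hb)
    refine fin B _ hB ((key (B.image (fun b => σ * b)) (hB.image _) h0').trans ?_)
    have hsub : ((A1.image (Nat.cast : ℕ → ℤ) ×ˢ (B.image (fun b => σ * b))).image
        (fun q => q.1 * q.2)) ⊆ (A * B) := by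
      intro z hz
      obtain ⟨q, hq, rfl⟩ := Finset.mem_image.1 hz
      obtain ⟨hq1, hq2⟩ := Finset.mem_product.1 hq
      obtain ⟨n, hn, hn2⟩ := Finset.mem_image.1 hq1
      obtain ⟨b, hb, hb2⟩ := Finset.mem_image.1 hq2
      have hn2' : (n : ℤ) = q.1 := hn2
      have hb2' : σ * b = q.2 := hb2
      have he : q.1 * q.2 = (σ * n) * b := by rw [← hn2', ← hb2']; ring
      have : (σ * n) * b ∈ A * B := Finset.mul_mem_mul (hmem n hn) hb
      simpa [he] using this
    exact_mod_cast Finset.card_le_card hsub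

end Pool.Agent.Helper5.RD
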