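import Pool.Agent.Helper5.RD.Stm5
import Pool.Agent.Helper5.RD.PJ4

/-! # Project RD: the sum theorem for sets closed under division by the primes of a set `Q` -/

namespace Pool.Agent.Helper5.RD

open Finset Classical

noncomputable section

namespace PJ6

open PJ1 PJ4

theorem RC_mono {Q Q' D : Finset ℕ} (h : Q' ⊆ Q) (hD : RC Q D) : RC Q' D :=
  fun d hd m hm hr => hD d hd m hm (fun r hrp hrm => h (hr r hrp hrm))

/-- The number of bad pairs. -/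
theorem bad_cardr {P : Par} (hE1 : S_E1r) (hE2 : S_E2r) {γ κ N T Y : ℝ} {D A' Q0 Q1 : Finset ℕ}
    {g k F f : ℕ} {Nη : ℝ}
    (hK0 : 1 ≤ P.K0) (hK01 : P.K0 ≤ P.K1) (hK2 : 1 ≤ P.K2) (hγ : 0 ≤ γ)
    (hD0 : ∀ d ∈ D, d ≠ 0) (hD : RC (Q0 ∪ Q1) D) (hAD : A' ⊆ D)
    (hQ0 : ∀ q ∈ Q0, q.Prime) (hQ1 : ∀ q ∈ Q1, q.Prime) (hlt : ∀ q ∈ Q0, ∀ p ∈ Q1, q < p)
    (hg : Q1.card ≤ g) {B : Finset ℤ}
    (hk : ∀ a ∈ A', k ≤ (Q0.filter (· ∣ a)).card ∧ k ≤ (Q1.filter (· ∣ a)).card)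
    (hfk : f ≤ k) (hfF : f ≤ F + 1) (hN : 0 < N) (hT : 0 < T) (hNη : 0 ≤ κ * Nη)
    (hDc : (D.card : ℝ) ≤ N * (κ * Nη)) (hY : ((D.card : ℝ) * B.card) ^ γ ≤ Y)
    (hA' : N ≤ 2 * T ^ 2 * A'.card)
    (i1 : 8 * T ^ 2 * (κ * Nη) * ((1 + 2 * (P.K0 : ℝ) ^ (-γ)) ^ g * Y) ≤ 2 ^ k)
    (i2 : ∀ m : ℕ, m ≤ g → 8 * T ^ 2 * (κ * Nη) *
        (((((P.K1 * P.K2) ^ 2) ^ f * m.choose f : ℕ) : ℝ)) ≤
          (((F + 1).choose f * k.choose f : ℕ) : ℝ)) :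
    2 * ((A' ×ˢ B).filter (fun q =>
      ¬ (Fin1 P (run P (Q1.toList.zip (Q1.toList.map q.1.factorization))
          (D.image (Nat.cast : ℕ → ℤ), B)
          ((q.1 / part (Q0 ∪ Q1.toList.toFinset) q.1 : ℕ) : ℤ) q.2) ∧
        bads P (part (Q0 ∪ Q1.toList.toFinset) q.1) (Q1.toList.zip (Q1.toList.map q.1.factorization))
          (D.image (Nat.cast : ℕ → ℤ), B) ((q.1 / part (Q0 ∪ Q1.toList.toFinset) q.1 : ℕ) : ℤ) q.2
          ≤ F))).card ≤ A'.card * B.card := by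
  have hK1 : 1 ≤ P.K1 := hK0.trans hK01
  have htl : Q1.toList.toFinset = Q1 := Finset.toList_toFinset Q1
  have hlen : Q1.toList.length = Q1.card := Finset.length_toList Q1
  have hps : ∀ p ∈ Q1.toList, p.Prime := fun p hp => hQ1 p (Finset.mem_toList.1 hp)
  have hnd : Q1.toList.Nodup := Finset.nodup_toList Q1
  have hlt' : ∀ q ∈ Q0, ∀ p ∈ Q1.toList, q < p := fun q hq p hp =>
    hlt q hq p (Finset.mem_toList.1 hp)
  -- the two families of bad elements for a given `b`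
  have e1 : ∀ b ∈ B, ((D.filter (fun d => k ≤ (Q1.toList.toFinset.filter (· ∣ d)).card ∧
      ¬ Fin1 P (run P (Q1.toList.zip (Q1.toList.map d.factorization))
        (D.image (Nat.cast : ℕ → ℤ), B)
        ((d / part (Q0 ∪ Q1.toList.toFinset) d : ℕ) : ℤ) b))).card : ℝ) ≤ N / (8 * T ^ 2) := by
    intro b hb
    have h1 := hE1 P γ hγ hK0 hK01 D hD0 Q0 Q1.toList hQ0 hps hnd hlt' (by rw [htl]; exact hD) B b hb k
    refine h1.trans ?_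
    rw [hlen]
    have hb1 : (1 : ℝ) ≤ 1 + 2 * (P.K0 : ℝ) ^ (-γ) := by
      have : (0 : ℝ) ≤ (P.K0 : ℝ) ^ (-γ) := by positivity
      linarith
    have h2 : (1 + 2 * (P.K0 : ℝ) ^ (-γ)) ^ Q1.card ≤ (1 + 2 * (P.K0 : ℝ) ^ (-γ)) ^ g :=
      pow_le_pow_right₀ hb1 hg
    have hY0 : 0 ≤ Y := le_trans (by positivity) hY
    have hDY : (D.card : ℝ) * (1 + 2 * (P.K0 : ℝ) ^ (-γ)) ^ Q1.card *
        ((D.card : ℝ) * B.card) ^ γ ≤
        N * (κ * Nη) * (1 + 2 * (P.K0 : ℝ) ^ (-γ)) ^ g * Y := by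
      apply mul_le_mul _ hY (by positivity) (by positivity)
      exact mul_le_mul hDc h2 (by positivity) (by positivity)
    rw [div_le_div_iff₀ (by positivity) (by positivity)]
    calc (D.card : ℝ) * (1 + 2 * (P.K0 : ℝ) ^ (-γ)) ^ Q1.card *
          ((D.card : ℝ) * B.card) ^ γ * (8 * T ^ 2)
        ≤ N * (κ * Nη) * (1 + 2 * (P.K0 : ℝ) ^ (-γ)) ^ g * Y * (8 * T ^ 2) := by gcongr
      _ = N * (8 * T ^ 2 * (κ * Nη) * ((1 + 2 * (P.K0 : ℝ) ^ (-γ)) ^ g * Y)) := by ring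
      _ ≤ N * 2 ^ k := by gcongr
  have e2 : ∀ b ∈ B, ((D.filter (fun d => k ≤ (Q0.filter (· ∣ d)).card ∧
      F < bads P (part (Q0 ∪ Q1.toList.toFinset) d) (Q1.toList.zip (Q1.toList.map d.factorization))
        (D.image (Nat.cast : ℕ → ℤ), B)
        ((d / part (Q0 ∪ Q1.toList.toFinset) d : ℕ) : ℤ) b)).card : ℝ) ≤ N / (8 * T ^ 2) := by
    intro b hb
    have h1 := hE2 P hK1 hK2 D hD0 Q0 Q1.toList hQ0 hps hnd hlt' (by rw [htl]; exact hD) B b hb F k f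
    set c2 := (D.filter (fun d => k ≤ (Q0.filter (· ∣ d)).card ∧
      F < bads P (part (Q0 ∪ Q1.toList.toFinset) d) (Q1.toList.zip (Q1.toList.map d.factorization))
        (D.image (Nat.cast : ℕ → ℤ), B)
        ((d / part (Q0 ∪ Q1.toList.toFinset) d : ℕ) : ℤ) b)).card with hc2
    rw [hlen] at h1
    have h2 := i2 Q1.card hg
    have hW : 0 < (F + 1).choose f * k.choose f :=
      Nat.mul_pos (Nat.choose_pos hfF) (Nat.choose_pos hfk)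
    have hW' : (0 : ℝ) < (((F + 1).choose f * k.choose f : ℕ) : ℝ) := by exact_mod_cast hW
    have h3 : (((F + 1).choose f * k.choose f : ℕ) : ℝ) * c2 ≤
        ((((P.K1 * P.K2) ^ 2) ^ f * Q1.card.choose f : ℕ) : ℝ) * D.card := by exact_mod_cast h1
    rw [le_div_iff₀ (by positivity)]
    refine le_of_mul_le_mul_left ?_ hW'
    calc (((F + 1).choose f * k.choose f : ℕ) : ℝ) * (c2 * (8 * T ^ 2))
        = (((F + 1).choose f * k.choose f : ℕ) : ℝ) * c2 * (8 * T ^ 2) := by ring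
      _ ≤ ((((P.K1 * P.K2) ^ 2) ^ f * Q1.card.choose f : ℕ) : ℝ) * D.card * (8 * T ^ 2) := by
          gcongr
      _ ≤ ((((P.K1 * P.K2) ^ 2) ^ f * Q1.card.choose f : ℕ) : ℝ) * (N * (κ * Nη)) *
          (8 * T ^ 2) := by gcongr
      _ = N * (8 * T ^ 2 * (κ * Nη) *
          ((((P.K1 * P.K2) ^ 2) ^ f * Q1.card.choose f : ℕ) : ℝ)) := by ring
      _ ≤ N * (((F + 1).choose f * k.choose f : ℕ) : ℝ) := by gcongr
      _ = (((F + 1).choose f * k.choose f : ℕ) : ℝ) * N := by ring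
  -- sum over `b`
  set Bad := (A' ×ˢ B).filter (fun q =>
      ¬ (Fin1 P (run P (Q1.toList.zip (Q1.toList.map q.1.factorization))
          (D.image (Nat.cast : ℕ → ℤ), B)
          ((q.1 / part (Q0 ∪ Q1.toList.toFinset) q.1 : ℕ) : ℤ) q.2) ∧
        bads P (part (Q0 ∪ Q1.toList.toFinset) q.1) (Q1.toList.zip (Q1.toList.map q.1.factorization))
          (D.image (Nat.cast : ℕ → ℤ), B) ((q.1 / part (Q0 ∪ Q1.toList.toFinset) q.1 : ℕ) : ℤ) q.2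
          ≤ F)) with hBad
  have h1 : (Bad.card : ℝ) ≤ ∑ b ∈ B, (N / (8 * T ^ 2) + N / (8 * T ^ 2)) := by
    have h2 : Bad.card = ∑ b ∈ B, (Bad.filter (fun q => q.2 = b)).card := by
      refine card_eq_sum_card_fiberwise ?_
      intro q hq
      have := (mem_filter.1 (mem_coe.1 hq)).1
      exact (mem_product.1 this).2
    rw [h2]
    push_cast
    refine sum_le_sum fun b hb => ?_
    refine le_trans ?_ (add_le_add (e1 b hb) (e2 b hb))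
    rw [← Nat.cast_add]
    have h3 : (Bad.filter (fun q => q.2 = b)).card ≤
        ((D.filter (fun d => k ≤ (Q1.toList.toFinset.filter (· ∣ d)).card ∧
      ¬ Fin1 P (run P (Q1.toList.zip (Q1.toList.map d.factorization))
        (D.image (Nat.cast : ℕ → ℤ), B)
        ((d / part (Q0 ∪ Q1.toList.toFinset) d : ℕ) : ℤ) b))) ∪
        (D.filter (fun d => k ≤ (Q0.filter (· ∣ d)).card ∧
      F < bads P (part (Q0 ∪ Q1.toList.toFinset) d) (Q1.toList.zip (Q1.toList.map d.factorization))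
        (D.image (Nat.cast : ℕ → ℤ), B)
        ((d / part (Q0 ∪ Q1.toList.toFinset) d : ℕ) : ℤ) b))).card := by
      refine card_le_card_of_injOn (fun q => q.1) ?_ ?_
      · intro q hq
        have hq' := mem_filter.1 (mem_coe.1 hq)
        have hq2 := mem_filter.1 hq'.1
        have hqA := (mem_product.1 hq2.1).1
        have hqb : q.2 = b := hq'.2
        have h4 := hq2.2
        rw [hqb] at h4
        rw [mem_coe, mem_union, mem_filter, mem_filter]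
        rw [not_and_or] at h4
        rcases h4 with h4 | h4
        · left
          refine ⟨hAD hqA, ?_, h4⟩
          rw [htl]
          exact (hk _ hqA).2
        · right
          exact ⟨hAD hqA, (hk _ hqA).1, not_le.1 h4⟩
      · intro q hq q' hq' h
        have h5 : q.2 = b := (mem_filter.1 (mem_coe.1 hq)).2
        have h6 : q'.2 = b := (mem_filter.1 (mem_coe.1 hq')).2
        exact Prod.ext h (h5.trans h6.symm)
    exact_mod_cast h3.trans (card_union_le _ _)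
  rw [sum_const, nsmul_eq_mul] at h1
  have h4 : N / (8 * T ^ 2) + N / (8 * T ^ 2) ≤ (A'.card : ℝ) / 2 := by
    have h5 : N / (8 * T ^ 2) ≤ (A'.card : ℝ) / 4 := by
      rw [div_le_div_iff₀ (by positivity) (by norm_num)]
      nlinarith
    linarith
  have h5 : (2 : ℝ) * Bad.card ≤ (A'.card : ℝ) * B.card := by
    have hB0 : (0 : ℝ) ≤ B.card := by positivity
    nlinarith [mul_le_mul_of_nonneg_left h4 hB0]
  exact_mod_cast h5

/-- The sum side for one set `B`. -/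
theorem sum_side2r {P : Par} (hE1 : S_E1r) (hE2 : S_E2r) (hG1 : S_G1r)
    {γ κ ε Λ η θ2 θ3 : ℝ} {N : ℕ} {D A A' Q Q0 Q1 : Finset ℕ} {T g k F f : ℕ}
    (hK0 : 1 ≤ P.K0) (hK01 : P.K0 ≤ P.K1) (hK2 : 1 ≤ P.K2) (hγ : 0 < γ) (hε : 0 < ε) (hε1 : ε ≤ 1)
    (hκ : 1 ≤ κ)
    (hΛ : 1 + (P.K0 : ℝ) * (P.K1 : ℝ) ^ (-γ) + (P.K1 : ℝ) * (P.K2 : ℝ) ^ (-γ) +
      (P.K0 : ℝ) ^ (-γ) ≤ Λ)
    (hD0 : ∀ d ∈ D, d ≠ 0) (hD : RC Q D) (hAD : A ⊆ D)
    (hA : A.Nonempty) (hA' : A' ⊆ A)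
    (hNA : A.card = N) (hDc : (D.card : ℝ) ≤ κ * (N : ℝ) ^ (1 + η))
    (hpc : ((A'.image (part (Q0 ∪ Q1))).card : ℝ) ≤ (N : ℝ) ^ θ2) (hθ : θ2 + θ3 ≤ ε)
    (hQ : ∀ q ∈ Q, q.Prime) (hQ0 : Q0 ⊆ Q) (hQ1 : Q1 ⊆ Q) (hlt : ∀ q ∈ Q0, ∀ p ∈ Q1, q < p)
    (hg1 : Q1.card ≤ g)
    (hk : ∀ a ∈ A', k ≤ (Q0.filter (· ∣ a)).card ∧ k ≤ (Q1.filter (· ∣ a)).card)
    (hfk : f ≤ k) (hfF : f ≤ F + 1) (hT : 1 ≤ T) (hA'c : (N : ℝ) ≤ 2 * (T : ℝ) ^ 2 * A'.card)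
    (i1 : 8 * (T : ℝ) ^ 2 * (κ * (N : ℝ) ^ η) * ((1 + 2 * (P.K0 : ℝ) ^ (-γ)) ^ g *
        (κ * (N : ℝ) ^ (1 + η) * (N : ℝ) ^ (1 / ε)) ^ γ) ≤ 2 ^ k)
    (i2 : ∀ m : ℕ, m ≤ g → 8 * (T : ℝ) ^ 2 * (κ * (N : ℝ) ^ η) *
        (((((P.K1 * P.K2) ^ 2) ^ f * m.choose f : ℕ) : ℝ)) ≤
          (((F + 1).choose f * k.choose f : ℕ) : ℝ))
    (i3 : Λ ^ g * (κ * (N : ℝ) ^ (1 + η) * (N : ℝ) ^ (1 / ε)) ^ γ * (P.K1 : ℝ) ^ F ≤
      (N : ℝ) ^ θ3) {B : Finset ℤ} (hB : B.Nonempty) :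
    ((N : ℝ) * B.card) ^ (1 - ε) ≤ 4 * (T : ℝ) ^ 2 * P.K0 *
      ((A.image (Nat.cast : ℕ → ℤ) ×ˢ B).image (fun q => q.1 + q.2)).card := by
  have hK1 : 1 ≤ P.K1 := hK0.trans hK01
  have hN1 : 1 ≤ N := by rw [← hNA]; exact card_pos.2 hA
  have hN1' : (1 : ℝ) ≤ N := by exact_mod_cast hN1
  have hN0' : (0 : ℝ) < N := by linarith
  have hT' : (1 : ℝ) ≤ T := by exact_mod_cast hT
  have hK0' : (1 : ℝ) ≤ P.K0 := by exact_mod_cast hK0
  have hB1 : (1 : ℝ) ≤ B.card := by exact_mod_cast card_pos.2 hB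
  have hB0 : (0 : ℝ) < B.card := by linarith
  set SS := ((A.image (Nat.cast : ℕ → ℤ) ×ˢ B).image (fun q => q.1 + q.2)) with hSS
  have hSB : (B.card : ℝ) ≤ SS.card := by exact_mod_cast card_le_image_add hA B
  have hSS0 : (0 : ℝ) ≤ SS.card := by positivity
  have hcoef : (1 : ℝ) ≤ 4 * (T : ℝ) ^ 2 * P.K0 := by
    have : (1 : ℝ) ≤ (T : ℝ) ^ 2 := one_le_pow₀ hT'
    nlinarith
  by_cases hbig : (N : ℝ) ≤ (B.card : ℝ) ^ ε
  · -- trivial case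
    have h1 : ((N : ℝ) * B.card) ^ (1 - ε) ≤ B.card := by
      calc ((N : ℝ) * B.card) ^ (1 - ε) ≤ ((B.card : ℝ) ^ ε * B.card) ^ (1 - ε) :=
            Real.rpow_le_rpow (by positivity) (by gcongr) (by linarith)
        _ = ((B.card : ℝ) ^ (1 + ε)) ^ (1 - ε) := by
            rw [Real.rpow_add hB0, Real.rpow_one, mul_comm]
        _ = (B.card : ℝ) ^ ((1 + ε) * (1 - ε)) := by rw [← Real.rpow_mul hB0.le]
        _ ≤ (B.card : ℝ) ^ (1 : ℝ) := Real.rpow_le_rpow_of_exponent_le hB1 (by nlinarith)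
        _ = B.card := Real.rpow_one _
    have h2 : (SS.card : ℝ) ≤ 4 * (T : ℝ) ^ 2 * P.K0 * SS.card := by nlinarith
    linarith
  · rw [not_le] at hbig
    have hBN : (B.card : ℝ) ≤ (N : ℝ) ^ (1 / ε) := by
      have h1 : ((B.card : ℝ) ^ ε) ^ (1 / ε) ≤ (N : ℝ) ^ (1 / ε) :=
        Real.rpow_le_rpow (by positivity) hbig.le (by positivity)
      rwa [← Real.rpow_mul hB0.le, mul_one_div_cancel hε.ne', Real.rpow_one] at h1
    have hY : ((D.card : ℝ) * B.card) ^ γ ≤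
        (κ * (N : ℝ) ^ (1 + η) * (N : ℝ) ^ (1 / ε)) ^ γ := by
      apply Real.rpow_le_rpow (by positivity) _ hγ.le
      exact mul_le_mul hDc hBN (by positivity) (by positivity)
    have hDc' : (D.card : ℝ) ≤ N * (κ * (N : ℝ) ^ η) := by
      refine hDc.trans (le_of_eq ?_)
      rw [Real.rpow_add hN0', Real.rpow_one]; ring
    have hQ0p : ∀ q ∈ Q0, q.Prime := fun q hq => hQ q (hQ0 hq)
    have hQ1p : ∀ q ∈ Q1, q.Prime := fun q hq => hQ q (hQ1 hq)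
    have hRC : RC (Q0 ∪ Q1) D := RC_mono (union_subset hQ0 hQ1) hD
    have hbad := bad_cardr hE1 hE2 (κ := κ) (T := (T : ℝ)) (N := (N : ℝ)) (Nη := (N : ℝ) ^ η)
      hK0 hK01 hK2 hγ.le hD0 hRC (hA'.trans hAD) hQ0p hQ1p hlt hg1 (B := B) hk hfk hfF hN0'
      (by linarith) (by positivity) hDc' hY hA'c i1 i2
    have hps : ∀ p ∈ Q1.toList, p.Prime := fun p hp => hQ1p p (Finset.mem_toList.1 hp)
    have hlt' : ∀ q ∈ Q0, ∀ p ∈ Q1.toList, q < p := fun q hq p hp =>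
      hlt q hq p (Finset.mem_toList.1 hp)
    have h1 := hG1 P γ Λ hγ hK0 hK1 hK2 hΛ D A' hD0 (hA'.trans hAD) Q0 Q1.toList hQ0p hps
      (Finset.nodup_toList Q1) hlt' (by rw [Finset.toList_toFinset]; exact hRC) B F hbad
    rw [Finset.length_toList, Finset.toList_toFinset] at h1
    set SS' := ((A'.image (Nat.cast : ℕ → ℤ) ×ˢ B).image (fun q => q.1 + q.2)) with hSS'
    have hS' : (SS'.card : ℝ) ≤ SS.card := by
      have : SS' ⊆ SS := by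
        apply image_subset_image
        apply product_subset_product_left
        exact image_subset_image hA'
      exact_mod_cast card_le_card this
    have hΛ1 : 1 ≤ Λ := by
      have e1 : (0 : ℝ) ≤ (P.K0 : ℝ) * (P.K1 : ℝ) ^ (-γ) := by positivity
      have e2 : (0 : ℝ) ≤ (P.K1 : ℝ) * (P.K2 : ℝ) ^ (-γ) := by positivity
      have e3 : (0 : ℝ) ≤ (P.K0 : ℝ) ^ (-γ) := by positivity
      linarith
    have hR : (P.K0 : ℝ) * Λ ^ Q1.card * ((D.card : ℝ) * B.card) ^ γ * (P.K1 : ℝ) ^ F ≤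
        P.K0 * (N : ℝ) ^ θ3 := by
      have e1 : Λ ^ Q1.card ≤ Λ ^ g := pow_le_pow_right₀ hΛ1 hg1
      calc (P.K0 : ℝ) * Λ ^ Q1.card * ((D.card : ℝ) * B.card) ^ γ * (P.K1 : ℝ) ^ F
          ≤ (P.K0 : ℝ) * Λ ^ g * (κ * (N : ℝ) ^ (1 + η) * (N : ℝ) ^ (1 / ε)) ^ γ *
            (P.K1 : ℝ) ^ F := by gcongr
        _ = P.K0 * (Λ ^ g * (κ * (N : ℝ) ^ (1 + η) * (N : ℝ) ^ (1 / ε)) ^ γ *
            (P.K1 : ℝ) ^ F) := by ring
        _ ≤ P.K0 * (N : ℝ) ^ θ3 := by gcongr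
    have h2 : (A'.card : ℝ) * B.card ≤ 2 * (N : ℝ) ^ θ2 * (P.K0 * (N : ℝ) ^ θ3) *
        SS.card := by
      refine h1.trans ?_
      have hΛ0 : 0 ≤ Λ := by linarith
      gcongr
    have h3 : (N : ℝ) * B.card ≤ 4 * (T : ℝ) ^ 2 * P.K0 * SS.card * (N : ℝ) ^ (θ2 + θ3) := by
      have e1 : (N : ℝ) ^ (θ2 + θ3) = (N : ℝ) ^ θ2 * (N : ℝ) ^ θ3 := by
        rw [← Real.rpow_add hN0']
      rw [e1]
      calc (N : ℝ) * B.card ≤ 2 * (T : ℝ) ^ 2 * A'.card * B.card := by gcongr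
        _ = 2 * (T : ℝ) ^ 2 * (A'.card * B.card) := by ring
        _ ≤ 2 * (T : ℝ) ^ 2 * (2 * (N : ℝ) ^ θ2 * (P.K0 * (N : ℝ) ^ θ3) *
            SS.card) := by gcongr
        _ = _ := by ring
    have hNB : (1 : ℝ) ≤ (N : ℝ) * B.card := by nlinarith
    have h4 : ((N : ℝ) * B.card) ^ (1 - ε) * (N : ℝ) ^ (θ2 + θ3) ≤ (N : ℝ) * B.card := by
      have hNε : (N : ℝ) ^ (θ2 + θ3) ≤ ((N : ℝ) * B.card) ^ ε := by
        calc (N : ℝ) ^ (θ2 + θ3) ≤ (N : ℝ) ^ ε := Real.rpow_le_rpow_of_exponent_le hN1' hθ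
          _ ≤ ((N : ℝ) * B.card) ^ ε := Real.rpow_le_rpow hN0'.le (by nlinarith) hε.le
      calc ((N : ℝ) * B.card) ^ (1 - ε) * (N : ℝ) ^ (θ2 + θ3)
          ≤ ((N : ℝ) * B.card) ^ (1 - ε) * ((N : ℝ) * B.card) ^ ε := by gcongr
        _ = ((N : ℝ) * B.card) ^ (1 : ℝ) := by
            rw [← Real.rpow_add (by linarith)]; congr 1; ring
        _ = (N : ℝ) * B.card := Real.rpow_one _
    exact le_of_mul_le_mul_right (h4.trans h3) (by positivity)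


/-- The sum side when the exponents are small. -/
theorem sum_side3r {P : Par} (hE1 : S_E1r) (hE2 : S_E2r) (hG1 : S_G1r) (hH2 : S_H2)
    {γ κ' ε' Λ η : ℝ} {N : ℕ} {D A As A1 Q : Finset ℕ} {T g k F f : ℕ}
    (hK0 : 1 ≤ P.K0) (hK01 : P.K0 ≤ P.K1) (hK2 : 1 ≤ P.K2) (hγ : 0 < γ) (hε'0 : 0 < ε')
    (hε'1 : ε' ≤ 1) (hκ'1 : 1 ≤ κ')
    (hΛ : 1 + (P.K0 : ℝ) * (P.K1 : ℝ) ^ (-γ) + (P.K1 : ℝ) * (P.K2 : ℝ) ^ (-γ) +
      (P.K0 : ℝ) ^ (-γ) ≤ Λ)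
    (hD0 : ∀ d ∈ D, d ≠ 0) (hD : RC Q D) (hAD : A ⊆ D)
    (hA : A.Nonempty) (hAsA : As ⊆ A) (hA1As : A1 ⊆ As)
    (hNA : A.card = N) (hDc : (D.card : ℝ) ≤ κ' * (N : ℝ) ^ (1 + η))
    (hQp : ∀ q ∈ Q, q.Prime) (hQT : Q.card ≤ T * g) (hg : 1 ≤ g) (hTk : T * k ≤ g)
    (hcaseS : A.card ≤ 2 * As.card) (hcase' : As.card ≤ 2 * A1.card)
    (hA1 : ∀ a ∈ A1, 2 * g ≤ (Q.filter (· ∣ a)).card)
    (hpc : ∀ A' Q' : Finset ℕ, A' ⊆ A1 → Q' ⊆ Q → Q'.card ≤ 2 * g →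
      ((A'.image (part Q')).card : ℝ) ≤ (N : ℝ) ^ (3 * ε' / 16))
    (hfk : f ≤ k) (hfF : f ≤ F + 1) (hT : 1 ≤ T)
    (i1 : 8 * (T : ℝ) ^ 2 * (4 * κ' * (N : ℝ) ^ η) * ((1 + 2 * (P.K0 : ℝ) ^ (-γ)) ^ g *
        (4 * κ' * (N : ℝ) ^ (1 + η) * (N : ℝ) ^ (1 / (ε' / 2))) ^ γ) ≤ 2 ^ k)
    (i2 : ∀ m : ℕ, m ≤ g → 8 * (T : ℝ) ^ 2 * (4 * κ' * (N : ℝ) ^ η) *
        (((((P.K1 * P.K2) ^ 2) ^ f * m.choose f : ℕ) : ℝ)) ≤
          (((F + 1).choose f * k.choose f : ℕ) : ℝ))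
    (i3 : Λ ^ g * (4 * κ' * (N : ℝ) ^ (1 + η) * (N : ℝ) ^ (1 / (ε' / 2))) ^ γ *
      (P.K1 : ℝ) ^ F ≤ (N : ℝ) ^ (ε' / 2 / 4)) {B : Finset ℤ} (hB : B.Nonempty) :
    ((N : ℝ) * B.card) ^ (1 - ε' / 2) ≤ 16 * (T : ℝ) ^ 2 * P.K0 *
      ((A.image (Nat.cast : ℕ → ℤ) ×ˢ B).image (fun q => q.1 + q.2)).card := by
  have hNpos : 0 < N := by rw [← hNA]; exact card_pos.2 hA
  have hN0' : (0 : ℝ) < N := by exact_mod_cast hNpos
  have hA1ne : A1.Nonempty := by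
    rw [← card_pos]; omega
  obtain ⟨Q0, Q1, hQ0, hQ1, hlt, hg0, hg1, hA'⟩ := hH2 Q g T hg hQT A1 hA1ne hA1
  set A' := A1.filter (fun a => g ≤ T * (Q0.filter (· ∣ a)).card ∧
    g ≤ T * (Q1.filter (· ∣ a)).card) with hA'def
  have hA'c : (N : ℝ) ≤ 2 * ((2 * T : ℕ) : ℝ) ^ 2 * A'.card := by
    have h1 : N ≤ 2 * (2 * T) ^ 2 * A'.card := by
      calc N ≤ 2 * As.card := by rw [← hNA]; exact hcaseS
        _ ≤ 2 * (2 * A1.card) := Nat.mul_le_mul_left _ hcase'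
        _ ≤ 2 * (2 * (T ^ 2 * A'.card)) :=
            Nat.mul_le_mul_left _ (Nat.mul_le_mul_left _ hA')
        _ ≤ 2 * (2 * T) ^ 2 * A'.card := by
            have e1 : 2 * (2 * T) ^ 2 * A'.card = 2 * (2 * (T ^ 2 * A'.card)) +
              2 * (2 * (T ^ 2 * A'.card)) := by ring
            omega
    exact_mod_cast h1
  have hA'A1 : A' ⊆ A1 := filter_subset _ _
  have hpc' : ((A'.image (part (Q0 ∪ Q1))).card : ℝ) ≤ (N : ℝ) ^ (3 * ε' / 16) :=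
    hpc A' (Q0 ∪ Q1) hA'A1 (union_subset hQ0 hQ1)
      ((card_union_le _ _).trans (by omega))
  have hΛ1 : 1 ≤ Λ := by
    have e1 : (0 : ℝ) ≤ (P.K0 : ℝ) * (P.K1 : ℝ) ^ (-γ) := by positivity
    have e2 : (0 : ℝ) ≤ (P.K1 : ℝ) * (P.K2 : ℝ) ^ (-γ) := by positivity
    have e3 : (0 : ℝ) ≤ (P.K0 : ℝ) ^ (-γ) := by positivity
    linarith
  have hΛ0 : 0 ≤ Λ := by linarith
  have hZ0 : 0 ≤ κ' * (N : ℝ) ^ (1 + η) * (N : ℝ) ^ (1 / (ε' / 2)) := by positivity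
  have hYY : (κ' * (N : ℝ) ^ (1 + η) * (N : ℝ) ^ (1 / (ε' / 2))) ^ γ ≤
      (4 * κ' * (N : ℝ) ^ (1 + η) * (N : ℝ) ^ (1 / (ε' / 2))) ^ γ := by
    apply Real.rpow_le_rpow hZ0 _ hγ.le
    nlinarith
  have hk : ∀ a ∈ A', k ≤ (Q0.filter (· ∣ a)).card ∧ k ≤ (Q1.filter (· ∣ a)).card := by
    intro a ha
    have ha' := (mem_filter.1 ha).2
    have hTpos : 0 < T := by omega
    exact ⟨Nat.le_of_mul_le_mul_left (hTk.trans ha'.1) hTpos,
      Nat.le_of_mul_le_mul_left (hTk.trans ha'.2) hTpos⟩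
  have j1 : 8 * ((2 * T : ℕ) : ℝ) ^ 2 * (κ' * (N : ℝ) ^ η) *
      ((1 + 2 * (P.K0 : ℝ) ^ (-γ)) ^ g *
      (κ' * (N : ℝ) ^ (1 + η) * (N : ℝ) ^ (1 / (ε' / 2))) ^ γ) ≤ 2 ^ k := by
    refine le_trans ?_ i1
    have e0 : 8 * ((2 * T : ℕ) : ℝ) ^ 2 * (κ' * (N : ℝ) ^ η) =
        8 * (T : ℝ) ^ 2 * (4 * κ' * (N : ℝ) ^ η) := by push_cast; ring
    rw [e0]
    apply mul_le_mul_of_nonneg_left _ (by positivity)
    apply mul_le_mul_of_nonneg_left hYY (by positivity)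
  have j2 : ∀ m : ℕ, m ≤ g → 8 * ((2 * T : ℕ) : ℝ) ^ 2 * (κ' * (N : ℝ) ^ η) *
      (((((P.K1 * P.K2) ^ 2) ^ f * m.choose f : ℕ) : ℝ)) ≤
        (((F + 1).choose f * k.choose f : ℕ) : ℝ) := by
    intro m hm
    refine le_trans (le_of_eq ?_) (i2 m hm)
    have e0 : 8 * ((2 * T : ℕ) : ℝ) ^ 2 * (κ' * (N : ℝ) ^ η) =
        8 * (T : ℝ) ^ 2 * (4 * κ' * (N : ℝ) ^ η) := by push_cast; ring
    rw [e0]
  have j3 : Λ ^ g * (κ' * (N : ℝ) ^ (1 + η) * (N : ℝ) ^ (1 / (ε' / 2))) ^ γ *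
      (P.K1 : ℝ) ^ F ≤ (N : ℝ) ^ (ε' / 2 / 4) := by
    refine le_trans ?_ i3
    apply mul_le_mul_of_nonneg_right _ (by positivity)
    exact mul_le_mul_of_nonneg_left hYY (by positivity)
  have h1 := sum_side2r hE1 hE2 hG1 (N := N) (D := D) (A := A) (A' := A') (Q := Q)
    (Q0 := Q0) (Q1 := Q1) (T := 2 * T) (κ := κ') (ε := ε' / 2) (θ2 := 3 * ε' / 16)
    (θ3 := ε' / 2 / 4) hK0 hK01 hK2 hγ (by positivity) (by linarith) hκ'1 hΛ
    hD0 hD hAD hA (hA'A1.trans (hA1As.trans hAsA)) hNA hDc hpc' (by linarith) hQp hQ0 hQ1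
    hlt hg1 hk hfk hfF (by omega) hA'c j1 j2 j3 hB
  refine h1.trans (le_of_eq ?_)
  push_cast
  ring


/-- The number of primes in the blocks is small. -/
theorem two_g_le {δ ρ εK κ η : ℝ} {N L M g H : ℕ} (hN2 : 2 ≤ N) (hδ : 0 < δ) (hδ1 : δ ≤ 1)
    (hρ : 0 < ρ) (hρ1 : ρ < 1) (hεK0 : 0 < εK) (hεK1 : εK ≤ 1 / 2) (hL : 1 ≤ L) (hκ : 1 ≤ κ)
    (hη : 0 < η) (hM : κ * (N : ℝ) ^ (1 + η) ≤ 2 ^ M)
    (i0 : (1 + δ / (1 - ρ)) ^ (L * M) ≤ (N : ℝ) ^ (εK / 4) * (δ ^ (2 * g) * ρ ^ H)) :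
    Real.log N ≤ M ∧ ((2 * g : ℕ) : ℝ) ≤ εK / 4 * Real.log N := by
  have hN1' : (1 : ℝ) ≤ N := by exact_mod_cast (by omega : 1 ≤ N)
  have hN0' : (0 : ℝ) < N := by linarith
  have hlogN' : 0 < Real.log N := Real.log_pos (by exact_mod_cast hN2)
  have hρ' : 0 < 1 - ρ := by linarith
  have hlog2 : Real.log 2 ≤ 1 := by
    have := Real.log_two_lt_d9; linarith
  have hlog2' : 0 < Real.log 2 := Real.log_pos (by norm_num)
  have hMlog : Real.log N ≤ M := by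
    have e1 : (N : ℝ) ≤ 2 ^ M := by
      calc (N : ℝ) = (N : ℝ) ^ (1 : ℝ) := (Real.rpow_one _).symm
        _ ≤ (N : ℝ) ^ (1 + η) := Real.rpow_le_rpow_of_exponent_le hN1' (by linarith)
        _ ≤ κ * (N : ℝ) ^ (1 + η) := le_mul_of_one_le_left (by positivity) hκ
        _ ≤ _ := hM
    have e2 := Real.log_le_log hN0' e1
    rw [Real.log_pow] at e2
    have : (0 : ℝ) ≤ M := by positivity
    nlinarith
  refine ⟨hMlog, ?_⟩
  have hq : δ ≤ δ / (1 - ρ) := by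
    rw [le_div_iff₀ hρ']; nlinarith
  have e1 : (1 + δ) ^ M ≤ (1 + δ / (1 - ρ)) ^ (L * M) := by
    calc (1 + δ) ^ M ≤ (1 + δ / (1 - ρ)) ^ M := pow_le_pow_left₀ (by positivity) (by linarith) _
      _ ≤ _ := pow_le_pow_right₀ (by linarith [div_nonneg hδ.le hρ'.le]) (by nlinarith)
  have hδg : δ ^ (2 * g) ≤ 1 := pow_le_one₀ hδ.le hδ1
  have hρH : ρ ^ H ≤ 1 := pow_le_one₀ hρ.le hρ1.le
  have e2 : (1 + δ) ^ M ≤ (N : ℝ) ^ (εK / 4) := by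
    refine e1.trans (i0.trans ?_)
    have h1 : δ ^ (2 * g) * ρ ^ H ≤ 1 := mul_le_one₀ hδg (by positivity) hρH
    exact mul_le_of_le_one_right (by positivity) h1
  have e3 : (M : ℝ) * Real.log (1 + δ) ≤ εK / 4 * Real.log N := by
    have := Real.log_le_log (by positivity) e2
    rwa [Real.log_pow, Real.log_rpow hN0'] at this
  have e4 : δ / 2 ≤ Real.log (1 + δ) := by
    have h1 := Real.one_sub_inv_le_log_of_pos (show (0 : ℝ) < 1 + δ by linarith)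
    have h2 : δ / 2 ≤ 1 - (1 + δ)⁻¹ := by
      have h3 : 1 - (1 + δ)⁻¹ = δ / (1 + δ) := by field_simp; ring
      rw [h3, div_le_div_iff₀ (by norm_num) (by linarith)]
      nlinarith
    linarith
  have e5 : δ ≤ 1 / 4 := by
    have h1 : Real.log N * (δ / 2) ≤ εK / 4 * Real.log N := by
      calc Real.log N * (δ / 2) ≤ M * Real.log (1 + δ) := by gcongr
        _ ≤ _ := e3
    have h2 : δ / 2 ≤ εK / 4 := by
      have : Real.log N * (δ / 2) ≤ Real.log N * (εK / 4) := by linarith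
      exact le_of_mul_le_mul_left this hlogN'
    linarith
  have e6 : 1 ≤ -Real.log δ := by
    have h1 : Real.log δ ≤ Real.log (1 / 4) := Real.log_le_log hδ e5
    have h2 : Real.log (1 / 4) = -Real.log 4 := by
      rw [one_div, Real.log_inv]
    have h3 : 1 ≤ Real.log 4 := by
      rw [Real.le_log_iff_exp_le (by norm_num)]
      have := Real.exp_one_lt_d9; linarith
    linarith
  have e7 : (1 : ℝ) ≤ (N : ℝ) ^ (εK / 4) * δ ^ (2 * g) := by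
    have h0 : (1 : ℝ) ≤ (1 + δ) ^ M := one_le_pow₀ (by linarith)
    refine h0.trans (e1.trans (i0.trans ?_))
    have : δ ^ (2 * g) * ρ ^ H ≤ δ ^ (2 * g) := mul_le_of_le_one_right (by positivity) hρH
    gcongr
  have e8 : 0 ≤ εK / 4 * Real.log N + ((2 * g : ℕ) : ℝ) * Real.log δ := by
    have := Real.log_le_log one_pos e7
    rwa [Real.log_one, Real.log_mul (by positivity) (by positivity), Real.log_rpow hN0',
      Real.log_pow] at this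
  have h9 : (0 : ℝ) ≤ ((2 * g : ℕ) : ℝ) := by positivity
  nlinarith

end PJ6

theorem p_J6 (hE1 : S_E1r) (hE2 : S_E2r) (hG1 : S_G1r) (hH2 : S_H2)
    (hK : S_K) (hN11 : S_N11) (hCI : S_CIr) : S_J6 := by
  intro L₀ θ κ ε hθ hε
  obtain ⟨ε', hε'0, hε'1, hε'ε, hε'θ⟩ : ∃ ε' : ℝ, 0 < ε' ∧ ε' ≤ 1 ∧ ε' ≤ ε ∧ ε' ≤ 2 * θ :=
    ⟨min (min ε 1) (2 * θ), lt_min (lt_min hε one_pos) (by positivity),
      (min_le_left _ _).trans (min_le_right _ _), (min_le_left _ _).trans (min_le_left _ _),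
      min_le_right _ _⟩
  set κ' := max κ 1 with hκ'
  have hκ'1 : 1 ≤ κ' := le_max_right _ _
  set L := L₀ + 1 with hL
  set lam1 := ε' / 32 with hlam1
  obtain ⟨q0, Nc, ηc, C0, hηc, hC0, hCmain⟩ := hCI ε' κ' lam1 L hε'0 hε'1 hκ'1 (by positivity)
    (by omega)
  set εK := ε' / 2 with hεK
  set hh := max 1 (εK * (2 ^ q0 + 2)) with hhh
  obtain ⟨P, γ, Λ, η, δ, ρ, T, N0, hK0, hK01, hK2, hγ, hη, hη1, hδ, hδ1, hρ, hρ1, hT, hN0, hΛ,
    hmain⟩ := hK εK hh (4 * κ') L (by positivity) (by rw [hεK]; linarith) (le_max_left _ _)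
      (by linarith) (by omega)
  have hT' : (1 : ℝ) ≤ T := by exact_mod_cast hT
  have hK0' : (1 : ℝ) ≤ P.K0 := by exact_mod_cast hK0
  set NN := max N0 (max Nc 2) with hNN
  have hNN1 : (1 : ℝ) ≤ NN := by
    have : 1 ≤ NN := le_trans (by norm_num : 1 ≤ 2) ((le_max_right Nc 2).trans (le_max_right _ _))
    exact_mod_cast this
  have hden : (0 : ℝ) < 16 * (T : ℝ) ^ 2 * P.K0 * C0 * NN := by positivity
  refine ⟨min η ηc, lt_min hη hηc, 1 / (16 * (T : ℝ) ^ 2 * P.K0 * C0 * NN), by positivity, ?_⟩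
  intro A D Q hA hADs hD0 hQp hRC hAD hQL hAθ B hB
  set N := A.card with hN
  have hA0 : ∀ a ∈ A, a ≠ 0 := fun a ha => hD0 a (hADs ha)
  have hN1 : 1 ≤ N := card_pos.2 hA
  have hN1' : (1 : ℝ) ≤ N := by exact_mod_cast hN1
  have hN0' : (0 : ℝ) < N := by linarith
  have hlogN : 0 ≤ Real.log N := Real.log_nonneg hN1'
  have hpow : ∀ x : ℝ, 1 ≤ x → x ^ (1 - ε) ≤ x ^ (1 - ε') := fun x hx =>
    Real.rpow_le_rpow_of_exponent_le hx (by linarith)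
  have hT2 : (1 : ℝ) ≤ (T : ℝ) ^ 2 := one_le_pow₀ hT'
  have hTK : (1 : ℝ) ≤ (T : ℝ) ^ 2 * P.K0 := by nlinarith
  have hTKC : (1 : ℝ) ≤ (T : ℝ) ^ 2 * P.K0 * C0 := by nlinarith
  have hTKN : (1 : ℝ) ≤ (T : ℝ) ^ 2 * P.K0 * NN := by nlinarith
  have hCN : (1 : ℝ) ≤ C0 * NN := by nlinarith
  have hDη : ∀ η' : ℝ, min η ηc ≤ η' → (D.card : ℝ) ≤ κ' * (N : ℝ) ^ (1 + η') := by
    intro η' hη'
    refine hAD.trans ?_
    have e1 : (0 : ℝ) ≤ (N : ℝ) ^ (1 + min η ηc) := by positivity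
    have e2 : (N : ℝ) ^ (1 + min η ηc) ≤ (N : ℝ) ^ (1 + η') :=
      Real.rpow_le_rpow_of_exponent_le hN1' (by linarith)
    calc κ * (N : ℝ) ^ (1 + min η ηc) ≤ κ' * (N : ℝ) ^ (1 + min η ηc) :=
          mul_le_mul_of_nonneg_right (le_max_left _ _) e1
      _ ≤ _ := by gcongr
  have hB1 : (1 : ℝ) ≤ B.card := by exact_mod_cast card_pos.2 hB
  have hNB : (1 : ℝ) ≤ (N : ℝ) * B.card := by nlinarith
  rw [one_div, inv_mul_le_iff₀ hden]
  set SS := ((A.image (Nat.cast : ℕ → ℤ) ×ˢ B).image (fun q => q.1 + q.2)) with hSS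
  by_cases hsmall : N < NN
  · have h1 : (B.card : ℝ) ≤ SS.card := by exact_mod_cast PJ1.card_le_image_add hA B
    have h2 : ((N : ℝ) * B.card) ^ (1 - ε) ≤ (N : ℝ) * B.card := by
      calc ((N : ℝ) * B.card) ^ (1 - ε) ≤ ((N : ℝ) * B.card) ^ (1 : ℝ) :=
            Real.rpow_le_rpow_of_exponent_le hNB (by linarith)
        _ = _ := Real.rpow_one _
    have h3 : (N : ℝ) ≤ NN := by exact_mod_cast hsmall.le
    calc ((N : ℝ) * B.card) ^ (1 - ε) ≤ (N : ℝ) * B.card := h2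
      _ ≤ NN * B.card := by gcongr
      _ ≤ 16 * ((T : ℝ) ^ 2 * P.K0 * C0) * (NN * B.card) := by
          have : 0 ≤ (NN : ℝ) * B.card := by positivity
          nlinarith
      _ = 16 * (T : ℝ) ^ 2 * P.K0 * C0 * NN * B.card := by ring
      _ ≤ 16 * (T : ℝ) ^ 2 * P.K0 * C0 * NN * SS.card := by gcongr
  · rw [not_lt] at hsmall
    have hNN0 : N0 ≤ N := (le_max_left _ _).trans hsmall
    have hNNc : Nc ≤ N := (le_max_left _ _).trans ((le_max_right _ _).trans hsmall)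
    have hN2 : 2 ≤ N := (le_max_right _ _).trans ((le_max_right _ _).trans hsmall)
    have hlogN' : 0 < Real.log N := Real.log_pos (by exact_mod_cast hN2)
    obtain ⟨g, k, F, f, M, H, hg, hLM, hTk, hfk, hfF, hM, hH, i0, i1, i2, i3⟩ := hmain N hNN0
    have hDcard : (D.card : ℝ) ≤ κ' * (N : ℝ) ^ (1 + η) := hDη η (min_le_left _ _)
    have hρq : ((2 : ℝ) ^ q0 + 2) * (1 - ρ) ≤ 1 :=
      PJ4.rho_le hN2 hδ hδ1 hρ hρ1 (by positivity) (le_max_left _ _) (le_max_right _ _) hH i0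
    obtain ⟨hlogM, h2g⟩ := PJ6.two_g_le hN2 hδ hδ1 hρ hρ1 (by positivity)
      (by rw [hεK]; linarith) (by omega) (by linarith) hη hM i0
    have hQc : Q.card ≤ L * M := by
      have h1 : (Q.card : ℝ) ≤ L * M := by
        refine hQL.trans ?_
        rw [hL]
        push_cast
        have : (0 : ℝ) ≤ L₀ := by positivity
        nlinarith
      exact_mod_cast h1
    have hQL' : (Q.card : ℝ) ≤ L * Real.log A.card := by
      refine hQL.trans ?_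
      rw [hL]
      push_cast
      nlinarith
    have hAg : ∀ a ∈ A, 2 * g ≤ (Q.filter (· ∣ a)).card := by
      intro a ha
      have h1 : ((2 * g : ℕ) : ℝ) ≤ ((Q.filter (· ∣ a)).card : ℝ) := by
        refine h2g.trans (le_trans ?_ (hAθ a ha))
        rw [hεK]
        nlinarith
      exact_mod_cast h1
    set AI := A.filter (fun a => lam1 * Real.log A.card ≤ (lam q0 Q a : ℝ)) with hAI
    set As := A.filter (fun a => ¬ lam1 * Real.log A.card ≤ (lam q0 Q a : ℝ)) with hAs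
    have hsplit0 : AI.card + As.card = A.card := card_filter_add_card_filter_not _
    by_cases hcaseI : A.card ≤ 2 * AI.card
    · -- large exponents
      have h1 := hCmain A D Q hNNc hD0 hADs hRC (hDη ηc (min_le_right _ _)) hQp hQL' hcaseI B hB
      have hSS0 : (0 : ℝ) ≤ C0 * SS.card := by positivity
      calc ((N : ℝ) * B.card) ^ (1 - ε) ≤ ((N : ℝ) * B.card) ^ (1 - ε') := hpow _ hNB
        _ ≤ C0 * SS.card := h1
        _ ≤ 16 * ((T : ℝ) ^ 2 * P.K0 * NN) * (C0 * SS.card) := by nlinarith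
        _ = 16 * (T : ℝ) ^ 2 * P.K0 * C0 * NN * SS.card := by ring
    · have hcaseS : A.card ≤ 2 * As.card := by omega
      have hAsA : As ⊆ A := filter_subset _ _
      set Λ' := ⌊lam1 * Real.log N⌋₊ with hΛ'
      have hlamle : ∀ a ∈ As, lam q0 Q a ≤ Λ' := by
        intro a ha
        have := (mem_filter.1 ha).2
        rw [not_le] at this
        exact Nat.le_floor this.le
      have h4Λ : (4 : ℝ) ^ Λ' ≤ (N : ℝ) ^ (ε' / 16) := PJ4.four_pow_le hN1 hε'0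
      have hRR : (N : ℝ) ^ (εK / 4) * 4 ^ Λ' ≤ (N : ℝ) ^ (3 * ε' / 16) := by
        calc (N : ℝ) ^ (εK / 4) * 4 ^ Λ' ≤ (N : ℝ) ^ (εK / 4) * (N : ℝ) ^ (ε' / 16) := by gcongr
          _ = (N : ℝ) ^ (3 * ε' / 16) := by
              rw [← Real.rpow_add hN0', hεK]; congr 1; ring
      have h1 := PJ6.sum_side3r hE1 hE2 hG1 hH2 (N := N) (D := D) (A := A) (As := As) (A1 := As)
        (Q := Q) (T := T) (κ' := κ') (ε' := ε') hK0 hK01 hK2 hγ hε'0 hε'1 hκ'1 hΛ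
        hD0 hRC hADs hA hAsA (Finset.Subset.refl _) rfl hDcard hQp (hQc.trans hLM) hg hTk hcaseS
        (by omega) (fun a ha => hAg a (hAsA ha)) ?_ hfk hfF hT i1 i2 i3 hB
      · calc ((N : ℝ) * B.card) ^ (1 - ε) ≤ ((N : ℝ) * B.card) ^ (1 - ε') := hpow _ hNB
          _ ≤ ((N : ℝ) * B.card) ^ (1 - ε' / 2) :=
              Real.rpow_le_rpow_of_exponent_le hNB (by linarith)
          _ ≤ 16 * (T : ℝ) ^ 2 * P.K0 * SS.card := h1
          _ ≤ 16 * (T : ℝ) ^ 2 * P.K0 * SS.card * (C0 * NN) :=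
              le_mul_of_one_le_right (by positivity) hCN
          _ = 16 * (T : ℝ) ^ 2 * P.K0 * C0 * NN * SS.card := by ring
      · intro A' Q' hA'As hQ'Q hQ'c
        refine PJ4.part_card2 (j := 2 * g) (H := H) (W := L * M) ?_ ?_ hN11
          (q0 := q0) (Λ' := Λ') ?_ hδ hδ1 hρ hρ1 ?_ hρq (by positivity) i0 hRR
        · intro q hq
          exact hQp q (hQ'Q hq)
        · exact fun a ha => hA0 a (hAsA (hA'As ha))
        · intro a ha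
          refine ⟨?_, (PJ4.lam_mono hQ'Q a).trans (hlamle a (hA'As ha))⟩
          exact (card_filter_le _ _).trans hQ'c
        · exact (card_le_card hQ'Q).trans hQc

end

end Pool.Agent.Helper5.RD
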