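import Pool.Agent.Helper5.RD.Stm5
import Pool.Agent.Helper82.RD.PJ2

/-! # Project RD, package J7: from naturals to integers -/

namespace Pool.Agent.Helper5.RD

open Finset Classical
open scoped Pointwise
open Pool.Agent.Helper82.RD (rpow_half exists_side)

namespace PJ7

/-- closure under division by the primes of `Q` gives closure under division by their products -/
theorem rc_of {Q D : Finset ℕ} (h : ∀ q ∈ Q, ∀ d ∈ D, q ∣ d → d / q ∈ D) : RC Q D := by
  have key : ∀ (n m : ℕ), m ≤ n → ∀ d ∈ D, m ∣ d → 0 < m →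
      (∀ r : ℕ, r.Prime → r ∣ m → r ∈ Q) → d / m ∈ D := by
    intro n
    induction n with
    | zero => intro m hm d _ _ hm0; omega
    | succ n ih =>
      intro m hm d hd hmd hm0 hr
      rcases Nat.eq_or_lt_of_le (show 1 ≤ m from hm0) with h1 | h1
      · rw [← h1, Nat.div_one]; exact hd
      · have hp : (m.minFac).Prime := Nat.minFac_prime (by omega)
        have hdm : m.minFac ∣ m := Nat.minFac_dvd m
        have h2 : d / m.minFac ∈ D := h _ (hr _ hp hdm) d hd (hdm.trans hmd)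
        have h3 : m / m.minFac ∣ d / m.minFac := Nat.div_dvd_div hdm hmd
        have h4 : 0 < m / m.minFac := Nat.div_pos (Nat.minFac_le hm0) hp.pos
        have h5 : m / m.minFac < m := Nat.div_lt_self hm0 hp.one_lt
        have h6 := ih (m / m.minFac) (by omega) _ h2 h3 h4
          (fun r hrp hrm => hr r hrp (hrm.trans (Nat.div_dvd_of_dvd hdm)))
        rwa [Nat.div_div_eq_div_mul, Nat.mul_div_cancel' hdm] at h6
  intro d hd m hmd hr
  rcases Nat.eq_zero_or_pos m with h0 | h0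
  · subst h0
    have h1 : d = 0 := Nat.eq_zero_of_zero_dvd hmd
    subst h1
    simpa using hd
  · exact key m m le_rfl d hd hmd h0 hr

theorem small_pow {x ε : ℝ} (hx : 1 ≤ x) (hε : 0 < ε) : x ^ (1 - ε) ≤ x := by
  calc x ^ (1 - ε) ≤ x ^ (1 : ℝ) := Real.rpow_le_rpow_of_exponent_le hx (by linarith)
    _ = x := Real.rpow_one x

/-- `S_J7` with the set of the primes of `Q` which divide `a` written as a set of naturals -/
def S_J7' : Prop := ∀ (L : ℕ) (θ κ ε : ℝ), 0 < θ → 0 < ε → ∃ η > (0 : ℝ), ∃ c > (0 : ℝ),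
  ∀ (A D : Finset ℤ) (Q : Finset ℕ), A.Nonempty → A ⊆ D → 0 ∉ D → (∀ q ∈ Q, q.Prime) →
  (∀ q ∈ Q, ∀ d ∈ D, (q : ℤ) ∣ d → d / (q : ℤ) ∈ D) →
  (D.card : ℝ) ≤ κ * (A.card : ℝ) ^ (1 + η) → (Q.card : ℝ) ≤ L * Real.log A.card →
  (∀ a ∈ A, θ * Real.log A.card ≤ ((Q.filter (fun q : ℕ => (q : ℤ) ∣ a)).card : ℝ)) →
  ∀ B : Finset ℤ, B.Nonempty → c * ((A.card : ℝ) * B.card) ^ (1 - ε) ≤ ((A + B).card : ℝ)

end PJ7

open PJ7

theorem p_J7' (hJ6 : S_J6) : S_J7' := by
  intro L θ κ ε hθ hε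
  obtain ⟨η, hη, c, hc, H⟩ := hJ6 (2 * L) θ (4 * |κ|) ε hθ hε
  refine ⟨min η 1, by positivity, min (c / 2) (1 / 2), by positivity, ?_⟩
  intro A D Q hA hAD hD0 hQ hcl hDc hQc hdiv B hB
  have rB : (1 : ℝ) ≤ B.card := by exact_mod_cast Finset.card_pos.2 hB
  have hApos : 1 ≤ A.card := Finset.card_pos.2 hA
  have rA : (1 : ℝ) ≤ A.card := by exact_mod_cast hApos
  have hBle : (B.card : ℝ) ≤ ((A + B).card : ℝ) := by
    obtain ⟨a, ha⟩ := hA
    have h1 : B.image (fun b => a + b) ⊆ A + B := by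
      intro z hz
      obtain ⟨b, hb, rfl⟩ := Finset.mem_image.1 hz
      exact Finset.add_mem_add ha hb
    have h2 : (B.image (fun b => a + b)).card = B.card :=
      Finset.card_image_of_injective B (add_right_injective a)
    have h3 := Finset.card_le_card h1
    rw [h2] at h3
    exact_mod_cast h3
  have pABpos : 0 ≤ ((A.card : ℝ) * B.card) ^ (1 - ε) := by positivity
  rcases Nat.lt_or_ge A.card 3 with hsmall | hbig
  · -- at most two elements
    have h1 : (A.card : ℝ) ≤ 2 := by exact_mod_cast (by omega : A.card ≤ 2)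
    have h2 : (1 : ℝ) ≤ (A.card : ℝ) * B.card := by nlinarith
    have h3 := small_pow h2 hε
    calc min (c / 2) (1 / 2) * ((A.card : ℝ) * B.card) ^ (1 - ε)
        ≤ 1 / 2 * ((A.card : ℝ) * B.card) ^ (1 - ε) :=
          mul_le_mul_of_nonneg_right (min_le_right _ _) pABpos
      _ ≤ 1 / 2 * ((A.card : ℝ) * B.card) := by linarith
      _ ≤ B.card := by nlinarith
      _ ≤ ((A + B).card : ℝ) := hBle
  obtain ⟨A1, σ, hσ, hmem, hcard⟩ := exists_side A
  have hσσ : σ * σ = 1 := by rcases hσ with rfl | rfl <;> norm_num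
  have hσabs : σ.natAbs = 1 := by rcases hσ with rfl | rfl <;> rfl
  have hσ0 : σ ≠ 0 := by rcases hσ with rfl | rfl <;> norm_num
  have hA1two : 2 ≤ A1.card := by omega
  have hA1ne : A1.Nonempty := Finset.card_pos.1 (by omega)
  have hle : A1.card ≤ A.card := by
    apply Finset.card_le_card_of_injOn (fun n : ℕ => σ * (n : ℤ))
    · intro n hn; exact hmem n hn
    · intro x _ y _ hxy
      have hxy' : σ * (x : ℤ) = σ * (y : ℤ) := hxy
      have := mul_left_cancel₀ hσ0 hxy'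
      exact_mod_cast this
  have r1' : (2 : ℝ) ≤ A1.card := by exact_mod_cast hA1two
  have r1 : (1 : ℝ) ≤ A1.card := by linarith
  have r2 : (A1.card : ℝ) ≤ A.card := by exact_mod_cast hle
  have r3 : (A.card : ℝ) ≤ 2 * A1.card := by exact_mod_cast hcard
  -- the positive side of `D`
  obtain ⟨D1, hD1⟩ : ∃ D1 : Finset ℕ, D1 = (D.filter (fun x => 0 < σ * x)).image Int.natAbs :=
    ⟨_, rfl⟩
  have hm : ∀ n : ℕ, n ∈ D1 ↔ 0 < n ∧ σ * (n : ℤ) ∈ D := by
    intro n
    rw [hD1, Finset.mem_image]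
    constructor
    · rintro ⟨x, hx, rfl⟩
      rw [Finset.mem_filter] at hx
      have h1 : (x.natAbs : ℤ) = σ * x := by
        rcases hσ with rfl | rfl <;> omega
      have h2 : σ * (x.natAbs : ℤ) = x := by rw [h1, ← mul_assoc, hσσ, one_mul]
      refine ⟨?_, by rw [h2]; exact hx.1⟩
      have h3 := hx.2
      rw [← h1] at h3
      exact_mod_cast h3
    · rintro ⟨h1, h2⟩
      refine ⟨σ * n, Finset.mem_filter.2 ⟨h2, ?_⟩, ?_⟩
      · rw [← mul_assoc, hσσ, one_mul]; exact_mod_cast h1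
      · rw [Int.natAbs_mul, hσabs, one_mul, Int.natAbs_natCast]
  have hA1D1 : A1 ⊆ D1 := by
    intro n hn
    rw [hm]
    refine ⟨Nat.pos_of_ne_zero ?_, hAD (hmem n hn)⟩
    rintro rfl
    exact hD0 (by simpa using hAD (hmem 0 hn))
  have hRC : RC Q D1 := by
    apply rc_of
    intro q hq d hd hqd
    rw [hm] at hd ⊢
    have h1 : (q : ℤ) ∣ (d : ℤ) := by exact_mod_cast hqd
    have h2 := hcl q hq _ hd.2 (h1.mul_left σ)
    rw [Int.mul_ediv_assoc σ h1] at h2
    refine ⟨Nat.div_pos (Nat.le_of_dvd hd.1 hqd) (hQ q hq).pos, ?_⟩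
    rw [Int.natCast_div]
    exact h2
  have hD1c : (D1.card : ℝ) ≤ D.card := by
    rw [hD1]
    exact_mod_cast Finset.card_image_le.trans (Finset.card_filter_le _ _)
  have hm1 : min η 1 ≤ 1 := min_le_right _ _
  have hm2 : min η 1 ≤ η := min_le_left _ _
  have hm0 : 0 < min η 1 := by positivity
  have p0 : 0 ≤ (A.card : ℝ) ^ (1 + min η 1) := by positivity
  have p6 : (A.card : ℝ) ^ (1 + min η 1) ≤ 4 * (A1.card : ℝ) ^ (1 + η) := by
    have p1 : (A.card : ℝ) ^ (1 + min η 1) ≤ (2 * A1.card : ℝ) ^ (1 + min η 1) :=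
      Real.rpow_le_rpow (by positivity) r3 (by linarith)
    have p2 : (2 * A1.card : ℝ) ^ (1 + min η 1)
        = 2 ^ (1 + min η 1) * (A1.card : ℝ) ^ (1 + min η 1) :=
      Real.mul_rpow (by norm_num) (by positivity)
    have p3 : (2 : ℝ) ^ (1 + min η 1) ≤ 4 := by
      have e : (2 : ℝ) ^ (1 + min η 1) ≤ 2 ^ (2 : ℝ) :=
        Real.rpow_le_rpow_of_exponent_le (by norm_num) (by linarith)
      have e2 : (2 : ℝ) ^ (2 : ℝ) = 4 := by norm_num
      linarith
    have p4 : (A1.card : ℝ) ^ (1 + min η 1) ≤ (A1.card : ℝ) ^ (1 + η) :=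
      Real.rpow_le_rpow_of_exponent_le r1 (by linarith)
    have p5 : 0 ≤ (A1.card : ℝ) ^ (1 + min η 1) := by positivity
    calc (A.card : ℝ) ^ (1 + min η 1) ≤ 2 ^ (1 + min η 1) * (A1.card : ℝ) ^ (1 + min η 1) := by
          rw [← p2]; exact p1
      _ ≤ 4 * (A1.card : ℝ) ^ (1 + min η 1) := mul_le_mul_of_nonneg_right p3 p5
      _ ≤ 4 * (A1.card : ℝ) ^ (1 + η) := by linarith
  have hDfin : (D1.card : ℝ) ≤ 4 * |κ| * (A1.card : ℝ) ^ (1 + η) := by
    calc (D1.card : ℝ) ≤ D.card := hD1c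
      _ ≤ κ * (A.card : ℝ) ^ (1 + min η 1) := hDc
      _ ≤ |κ| * (A.card : ℝ) ^ (1 + min η 1) := mul_le_mul_of_nonneg_right (le_abs_self κ) p0
      _ ≤ |κ| * (4 * (A1.card : ℝ) ^ (1 + η)) := mul_le_mul_of_nonneg_left p6 (abs_nonneg κ)
      _ = 4 * |κ| * (A1.card : ℝ) ^ (1 + η) := by ring
  have hlog0 : Real.log A.card ≤ 2 * Real.log A1.card := by
    have h1 : Real.log A.card ≤ Real.log (2 * A1.card) := Real.log_le_log (by linarith) r3
    have h2 : Real.log (2 * A1.card) = Real.log 2 + Real.log A1.card :=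
      Real.log_mul (by norm_num) (by linarith)
    have h3 : Real.log 2 ≤ Real.log A1.card := Real.log_le_log (by norm_num) r1'
    linarith
  have hQfin : (Q.card : ℝ) ≤ ((2 * L : ℕ) : ℝ) * Real.log A1.card := by
    have h1 : (0 : ℝ) ≤ L := Nat.cast_nonneg L
    push_cast
    calc (Q.card : ℝ) ≤ L * Real.log A.card := hQc
      _ ≤ L * (2 * Real.log A1.card) := mul_le_mul_of_nonneg_left hlog0 h1
      _ = 2 * L * Real.log A1.card := by ring
  have hdivfin : ∀ n ∈ A1, θ * Real.log A1.card ≤ ((Q.filter (· ∣ n)).card : ℝ) := by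
    intro n hn
    have h1 := hdiv _ (hmem n hn)
    have h2 : Real.log A1.card ≤ Real.log A.card := Real.log_le_log (by linarith) r2
    have h3 : (Q.filter (fun q : ℕ => (q : ℤ) ∣ σ * (n : ℤ))) = Q.filter (· ∣ n) := by
      apply Finset.filter_congr
      intro q _
      constructor
      · intro h
        have h4 : (q : ℤ) ∣ σ * (σ * n) := h.mul_left σ
        rw [← mul_assoc, hσσ, one_mul] at h4
        exact_mod_cast h4
      · intro h
        have h4 : (q : ℤ) ∣ (n : ℤ) := by exact_mod_cast h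
        exact h4.mul_left σ
    rw [h3] at h1
    exact (mul_le_mul_of_nonneg_left h2 hθ.le).trans h1
  have key := H A1 D1 Q hA1ne hA1D1 (fun d hd => ((hm d).1 hd).1.ne') hQ hRC hDfin hQfin hdivfin
    (B.image (fun b => σ * b)) (hB.image _)
  have hinj : Function.Injective (fun b : ℤ => σ * b) := fun x y hxy => mul_left_cancel₀ hσ0 hxy
  rw [Finset.card_image_of_injective B hinj] at key
  have hsub : ((A1.image (Nat.cast : ℕ → ℤ) ×ˢ (B.image (fun b => σ * b))).image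
      (fun q => q.1 + q.2)) ⊆ (A + B).image (fun b => σ * b) := by
    intro z hz
    obtain ⟨q, hq, rfl⟩ := Finset.mem_image.1 hz
    obtain ⟨hq1, hq2⟩ := Finset.mem_product.1 hq
    obtain ⟨n, hn, hn2⟩ := Finset.mem_image.1 hq1
    obtain ⟨b, hb, hb2⟩ := Finset.mem_image.1 hq2
    refine Finset.mem_image.2 ⟨σ * n + b, Finset.add_mem_add (hmem n hn) hb, ?_⟩
    have hn2' : (n : ℤ) = q.1 := hn2
    have hb2' : σ * b = q.2 := hb2
    calc σ * (σ * (n : ℤ) + b) = (σ * σ) * n + σ * b := by ring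
      _ = q.1 + q.2 := by rw [hσσ, one_mul, hn2', hb2']
  have hfin : (((A1.image (Nat.cast : ℕ → ℤ) ×ˢ (B.image (fun b => σ * b))).image
      (fun q => q.1 + q.2)).card : ℝ) ≤ (A + B).card := by
    exact_mod_cast (Finset.card_le_card hsub).trans Finset.card_image_le
  have hhalf := rpow_half A.card A1.card B.card ε r1 r2 r3 rB hε
  calc min (c / 2) (1 / 2) * ((A.card : ℝ) * B.card) ^ (1 - ε)
      ≤ c / 2 * ((A.card : ℝ) * B.card) ^ (1 - ε) :=
        mul_le_mul_of_nonneg_right (min_le_left _ _) pABpos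
    _ ≤ c / 2 * (2 * ((A1.card : ℝ) * B.card) ^ (1 - ε)) :=
        mul_le_mul_of_nonneg_left hhalf (by positivity)
    _ = c * ((A1.card : ℝ) * B.card) ^ (1 - ε) := by ring
    _ ≤ _ := key
    _ ≤ _ := hfin

theorem p_J7 (hJ6 : S_J6) : S_J7 := by
  intro L θ κ ε hθ hε
  obtain ⟨η, hη, c, hc, H⟩ := p_J7' hJ6 L θ κ ε hθ hε
  refine ⟨η, hη, c, hc, fun A D Q hA hAD hD0 hQ hcl hDc hQc hdiv B hB => ?_⟩
  refine H A D Q hA hAD hD0 hQ hcl hDc hQc (fun a ha => (hdiv a ha).trans ?_) B hB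
  refine Nat.cast_le.2 (le_trans (Finset.card_le_card ?_)
    (Finset.card_image_le (s := Q.filter (fun q : ℕ => (q : ℤ) ∣ a)) (f := (Nat.cast : ℕ → ℤ))))
  intro x hx
  rw [Finset.mem_filter] at hx
  obtain ⟨hx1, hx2⟩ := hx
  simp only [Finset.bind_def, Finset.pure_def, Finset.mem_sup, Finset.mem_singleton] at hx1
  obtain ⟨y, hy, rfl⟩ := hx1
  exact Finset.mem_image_of_mem _ (Finset.mem_filter.2 ⟨hy, hx2⟩)

end Pool.Agent.Helper5.RD
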