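import Pool.Agent.Helper5.RD.Stm3
import Pool.Agent.Helper5.RD.Bas

/-! # Project RD, second part: packages N1, N2 -/

namespace Pool.Agent.Helper5.RD

open Finset Classical

noncomputable section

namespace PN1

/-- Two points of type 1 on a line whose next cells meet in `X` have the same next cell. -/
theorem m1_eq {t A p e u : ℕ} {X B : Finset ℤ} {n x b x' b' : ℤ}
    (h1 : ((p ^ e * u : ℕ) : ℤ) * x + b = n) (h2 : ((p ^ e * u : ℕ) : ℤ) * x' + b' = n)
    (t1 : U1 t A p e X B x b) (hle : fst p (t ^ A) B b ≤ fst p (t ^ A) B b')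
    (hd : ((p ^ (fst p (t ^ A) B b - e) : ℕ) : ℤ) ∣ x - x') :
    m1 t A p e X B x b = m1 t A p e X B x' b' := by
  have h3 : ((p ^ fst p (t ^ A) B b : ℕ) : ℤ) ∣ b - b' := by
    have h4 : b - b' = ((p ^ e * u : ℕ) : ℤ) * (x' - x) := by linear_combination h1 - h2
    rw [h4]
    have h5 : ((p ^ fst p (t ^ A) B b : ℕ) : ℤ) ∣ ((p ^ e : ℕ) : ℤ) * (x' - x) := by
      have h6 : ((p ^ fst p (t ^ A) B b : ℕ) : ℤ) ∣
          ((p ^ e : ℕ) : ℤ) * ((p ^ (fst p (t ^ A) B b - e) : ℕ) : ℤ) := by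
        rw [← Nat.cast_mul, ← pow_add, Int.natCast_dvd_natCast]
        exact pow_dvd_pow _ (by omega)
      refine h6.trans (mul_dvd_mul_left _ ?_)
      rw [← neg_sub, dvd_neg]; exact hd
    have h8 : ((p ^ e * u : ℕ) : ℤ) * (x' - x) = (u : ℤ) * (((p ^ e : ℕ) : ℤ) * (x' - x)) := by
      push_cast; ring
    rw [h8]
    exact h5.mul_left (u : ℤ)
  have h7 : fst p (t ^ A) B b' = fst p (t ^ A) B b :=
    le_antisymm (fst_le_of_congr t1.1 h3) hle
  unfold m1
  rw [h7, cls_congr h3, cls_congr hd]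

/-- Two points of type 0 on a line: if the `x` agree modulo the smaller of the two first light
levels then the next cells agree. -/
theorem m0_eq {t A p e u : ℕ} {X B : Finset ℤ} {n x b x' b' : ℤ}
    (h1 : ((p ^ e * u : ℕ) : ℤ) * x + b = n) (h2 : ((p ^ e * u : ℕ) : ℤ) * x' + b' = n)
    (t1 : U0 t A p e X B x b) (hle : fst p t X x ≤ fst p t X x')
    (hd : ((p ^ fst p t X x : ℕ) : ℤ) ∣ x - x') :
    m0 t p e X B x b = m0 t p e X B x' b' := by
  have h3 : ((p ^ (fst p t X x + e) : ℕ) : ℤ) ∣ b - b' := by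
    have h4 : b - b' = ((p ^ e * u : ℕ) : ℤ) * (x' - x) := by linear_combination h1 - h2
    rw [h4]
    have h5 : ((p ^ (fst p t X x + e) : ℕ) : ℤ) ∣ ((p ^ e : ℕ) : ℤ) * (x' - x) := by
      rw [add_comm, pow_add, Nat.cast_mul]
      refine mul_dvd_mul_left _ ?_
      rw [← neg_sub, dvd_neg]; exact hd
    have h8 : ((p ^ e * u : ℕ) : ℤ) * (x' - x) = (u : ℤ) * (((p ^ e : ℕ) : ℤ) * (x' - x)) := by
      push_cast; ring
    rw [h8]
    exact h5.mul_left (u : ℤ)
  have h7 : fst p t X x' = fst p t X x := le_antisymm (fst_le_of_congr t1.1 hd) hle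
  unfold m0
  rw [h7, cls_congr h3, cls_congr hd]

end PN1

open PN1

theorem p_N1 : S_N1 := by
  intro t A p e u X B n hp hu
  by_cases hX : X.Nonempty
  · set S := (X ×ˢ B).filter (fun q => ((p ^ e * u : ℕ) : ℤ) * q.1 + q.2 = n ∧
      U1 t A p e X B q.1 q.2) with hS
    refine card_le_of_heavy _ X (2 * t) (fun C => C.1) ?_ ?_ ?_ hX
    · intro C hC
      obtain ⟨q, hq, rfl⟩ := mem_image.1 hC
      exact cls_subset _ _ _
    · intro C hC
      obtain ⟨q, hq, rfl⟩ := mem_image.1 hC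
      rw [hS, mem_filter] at hq
      have := hq.2.2.2
      unfold light at this
      exact not_lt.1 this
    · intro C hC C' hC' hne
      obtain ⟨q, hq, rfl⟩ := mem_image.1 hC
      obtain ⟨q', hq', rfl⟩ := mem_image.1 hC'
      rw [hS, mem_filter] at hq hq'
      rw [Finset.disjoint_left]
      intro y hy hy'
      apply hne
      simp only [m1, mem_cls] at hy hy'
      rcases le_total (fst p (t ^ A) B q.2) (fst p (t ^ A) B q'.2) with hle | hle
      · refine m1_eq hq.2.1 hq'.2.1 hq.2.2 hle ?_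
        have h1 : ((p ^ (fst p (t ^ A) B q.2 - e) : ℕ) : ℤ) ∣ y - q'.1 :=
          (Int.natCast_dvd_natCast.2 (pow_dvd_pow p (Nat.sub_le_sub_right hle e))).trans hy'.2
        have := dvd_sub h1 hy.2
        simpa using this
      · refine (m1_eq hq'.2.1 hq.2.1 hq'.2.2 hle ?_).symm
        have h1 : ((p ^ (fst p (t ^ A) B q'.2 - e) : ℕ) : ℤ) ∣ y - q.1 :=
          (Int.natCast_dvd_natCast.2 (pow_dvd_pow p (Nat.sub_le_sub_right hle e))).trans hy.2
        have := dvd_sub h1 hy'.2
        simpa using this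
  · rw [not_nonempty_iff_eq_empty] at hX
    subst hX
    simp

theorem p_N2 : S_N2 := by
  intro t A p e u X B n hp hu
  by_cases hB : B.Nonempty
  · set S := (X ×ˢ B).filter (fun q => ((p ^ e * u : ℕ) : ℤ) * q.1 + q.2 = n ∧
      U0 t A p e X B q.1 q.2) with hS
    refine card_le_of_heavy _ B (2 * t ^ A) (fun C => C.2) ?_ ?_ ?_ hB
    · intro C hC
      obtain ⟨q, hq, rfl⟩ := mem_image.1 hC
      exact cls_subset _ _ _
    · intro C hC
      obtain ⟨q, hq, rfl⟩ := mem_image.1 hC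
      rw [hS, mem_filter] at hq
      have := hq.2.2.2
      unfold light at this
      exact not_lt.1 this
    · intro C hC C' hC' hne
      obtain ⟨q, hq, rfl⟩ := mem_image.1 hC
      obtain ⟨q', hq', rfl⟩ := mem_image.1 hC'
      rw [hS, mem_filter] at hq hq'
      rw [Finset.disjoint_left]
      intro y hy hy'
      apply hne
      simp only [m0, mem_cls] at hy hy'
      rcases le_total (fst p t X q.1) (fst p t X q'.1) with hle | hle
      · refine m0_eq hq.2.1 hq'.2.1 hq.2.2 hle ?_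
        have h1 : ((p ^ (fst p t X q.1 + e) : ℕ) : ℤ) ∣ y - q'.2 :=
          (Int.natCast_dvd_natCast.2 (pow_dvd_pow p (Nat.add_le_add_right hle e))).trans hy'.2
        have h2 : ((p ^ (fst p t X q.1 + e) : ℕ) : ℤ) ∣ q.2 - q'.2 := by
          have := dvd_sub h1 hy.2
          simpa using this
        refine dvd_of_mul_pow_dvd hp hu (e := e) ?_
        have h3 : ((p ^ e * u : ℕ) : ℤ) * (q.1 - q'.1) = -(q.2 - q'.2) := by
          linear_combination hq.2.1 - hq'.2.1
        rw [h3, dvd_neg]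
        exact h2
      · refine (m0_eq hq'.2.1 hq.2.1 hq'.2.2 hle ?_).symm
        have h1 : ((p ^ (fst p t X q'.1 + e) : ℕ) : ℤ) ∣ y - q.2 :=
          (Int.natCast_dvd_natCast.2 (pow_dvd_pow p (Nat.add_le_add_right hle e))).trans hy.2
        have h2 : ((p ^ (fst p t X q'.1 + e) : ℕ) : ℤ) ∣ q'.2 - q.2 := by
          have := dvd_sub h1 hy'.2
          simpa using this
        refine dvd_of_mul_pow_dvd hp hu (e := e) ?_
        have h3 : ((p ^ e * u : ℕ) : ℤ) * (q'.1 - q.1) = -(q'.2 - q.2) := by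
          linear_combination hq'.2.1 - hq.2.1
        rw [h3, dvd_neg]
        exact h2
  · rw [not_nonempty_iff_eq_empty] at hB
    subst hB
    simp

end

end Pool.Agent.Helper5.RD
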