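import Pool.Agent.Helper5.RD.Stm5

/-! # Project RD, part 3: package N10r -/

set_option autoImplicit false

namespace Pool.Agent.Helper5.RD.PN10r

open Finset Pool.Agent.Helper5.RD

noncomputable section

theorem sum_sv_le {Q : Finset ℕ} {a M q0 : ℕ}
    (hM : ∏ q ∈ Q, (a.factorization q + 1) ≤ 2 ^ M) : ∑ q ∈ Q, sv q0 Q a q ≤ M := by
  classical
  have h1 : 2 ^ ∑ q ∈ Q, sv q0 Q a q ≤ 2 ^ M := by
    refine le_trans ?_ hM
    rw [← Finset.prod_pow_eq_pow_sum]
    apply Finset.prod_le_prod'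
    intro q hq
    unfold sv
    split_ifs with h
    · have h3 : a.factorization q ≠ 0 := by
        have : 0 < 2 ^ q0 := by positivity
        omega
      exact (Nat.pow_log_le_self 2 h3).trans (Nat.le_succ _)
    · simp
  exact (Nat.pow_le_pow_iff_right (by norm_num)).1 h1

theorem p_N10r : S_N10r := by
  classical
  intro Q A M q0 β hβ hq0 hQ hA
  set ρ : ℝ := (2 : ℝ) ^ (-β) with hρ
  have hρ0 : 0 < ρ := Real.rpow_pos_of_pos (by norm_num) _
  have hρ1 : ρ < 1 := Real.rpow_lt_one_of_one_lt_of_neg (by norm_num) (by linarith)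
  have hpw : ∀ n : ℕ, ρ ^ n = (2 : ℝ) ^ (-(β * n)) := by
    intro n
    rw [hρ, ← Real.rpow_natCast, ← Real.rpow_mul (by norm_num)]
    congr 1
    ring
  let φ : ℕ → (Q → ℕ) := fun a q => sv q0 Q a q
  have h1 : (A.image (sv q0 Q)).card ≤ (A.image φ).card := by
    have h2 : A.image (sv q0 Q) =
        (A.image φ).image (fun f => fun p => if h : p ∈ Q then f ⟨p, h⟩ else 0) := by
      rw [Finset.image_image]
      refine Finset.image_congr fun a _ => ?_
      funext p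
      simp only [Function.comp]
      split_ifs with h
      · rfl
      · unfold sv
        rw [if_neg (fun hh => h hh.1)]
    rw [h2]
    exact Finset.card_image_le
  let S : Finset ℕ := insert 0 (Finset.Ico q0 (M + 1))
  have hsub : A.image φ ⊆ Fintype.piFinset (fun _ : Q => S) := by
    intro f hf
    obtain ⟨a, ha, rfl⟩ := Finset.mem_image.1 hf
    rw [Fintype.mem_piFinset]
    intro q
    have h3 : sv q0 Q a q ≤ M :=
      (Finset.single_le_sum (f := fun q => sv q0 Q a q) (fun _ _ => Nat.zero_le _) q.2).trans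
        (sum_sv_le (hA a ha).2)
    show sv q0 Q a q ∈ S
    by_cases h : (q : ℕ) ∈ Q ∧ 2 ^ q0 ≤ a.factorization q
    · refine Finset.mem_insert_of_mem (Finset.mem_Ico.2 ⟨?_, Nat.lt_succ_of_le h3⟩)
      unfold sv
      rw [if_pos h]
      exact Nat.le_log_of_pow_le (by norm_num) h.2
    · have : sv q0 Q a q = 0 := by
        unfold sv
        rw [if_neg h]
      rw [this]
      exact Finset.mem_insert_self _ _
  have hlow : ∀ f ∈ A.image φ, ρ ^ M ≤ ∏ q : Q, ρ ^ f q := by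
    intro f hf
    obtain ⟨a, ha, rfl⟩ := Finset.mem_image.1 hf
    have h3 : ∏ q : Q, ρ ^ φ a q = ∏ q ∈ Q, ρ ^ sv q0 Q a q :=
      Finset.prod_coe_sort Q (fun q => ρ ^ sv q0 Q a q)
    rw [h3, Finset.prod_pow_eq_pow_sum]
    exact pow_le_pow_of_le_one hρ0.le hρ1.le (sum_sv_le (hA a ha).2)
  have hS : ∑ v ∈ S, ρ ^ v ≤ 1 + (2 : ℝ) ^ (-(β * q0)) / (1 - ρ) := by
    have h3 : (0 : ℕ) ∉ Finset.Ico q0 (M + 1) := by
      rw [Finset.mem_Ico]; omega
    rw [Finset.sum_insert h3, pow_zero]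
    have h4 := geom_sum_Ico_le_of_lt_one (m := q0) (n := M + 1) hρ0.le hρ1
    rw [← hpw]
    linarith
  have hmain : ((A.image φ).card : ℝ) * ρ ^ M ≤
      (1 + (2 : ℝ) ^ (-(β * q0)) / (1 - ρ)) ^ Q.card := by
    calc ((A.image φ).card : ℝ) * ρ ^ M = ∑ f ∈ A.image φ, ρ ^ M := by
          rw [Finset.sum_const, nsmul_eq_mul]
      _ ≤ ∑ f ∈ A.image φ, ∏ q : Q, ρ ^ f q := Finset.sum_le_sum hlow
      _ ≤ ∑ f ∈ Fintype.piFinset (fun _ : Q => S), ∏ q : Q, ρ ^ f q :=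
          Finset.sum_le_sum_of_subset_of_nonneg hsub fun f _ _ =>
            Finset.prod_nonneg fun q _ => (pow_pos hρ0 _).le
      _ = ∏ _q : Q, ∑ v ∈ S, ρ ^ v :=
          (Finset.prod_univ_sum (fun _ : Q => S) (fun _ v => ρ ^ v)).symm
      _ ≤ ∏ _q : Q, (1 + (2 : ℝ) ^ (-(β * q0)) / (1 - ρ)) :=
          Finset.prod_le_prod (fun q _ => Finset.sum_nonneg fun v _ => (pow_pos hρ0 _).le)
            (fun q _ => hS)
      _ = (1 + (2 : ℝ) ^ (-(β * q0)) / (1 - ρ)) ^ Q.card := by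
          rw [Finset.prod_const, Finset.card_univ, Fintype.card_coe]
  have h5 : (2 : ℝ) ^ (β * M) * ρ ^ M = 1 := by
    rw [hpw, ← Real.rpow_add (by norm_num)]
    simp
  have h6 : (0 : ℝ) < (2 : ℝ) ^ (β * M) := Real.rpow_pos_of_pos (by norm_num) _
  calc ((A.image (sv q0 Q)).card : ℝ) ≤ ((A.image φ).card : ℝ) := by exact_mod_cast h1
    _ = (2 : ℝ) ^ (β * M) * (((A.image φ).card : ℝ) * ρ ^ M) := by
        rw [mul_comm ((A.image φ).card : ℝ), ← mul_assoc, h5, one_mul]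
    _ ≤ (2 : ℝ) ^ (β * M) * (1 + (2 : ℝ) ^ (-(β * q0)) / (1 - ρ)) ^ Q.card :=
        mul_le_mul_of_nonneg_left hmain h6.le

end

end Pool.Agent.Helper5.RD.PN10r

theorem Pool.Agent.Helper5.RD.p_N10r : Pool.Agent.Helper5.RD.S_N10r :=
  Pool.Agent.Helper5.RD.PN10r.p_N10r
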