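import Pool.Agent.Helper5.RD.Stm3

/-! # Project RD, part 2: package N11 -/

set_option autoImplicit false

namespace Pool.Agent.Helper5.RD.PN11

open Finset Pool.Agent.Helper5.RD

noncomputable section

/-- The weight. -/
def w (q0 : ℕ) (δ : ℝ) (v : ℕ) : ℝ :=
  (if v = 0 then (1 : ℝ) else δ) * (if 2 ^ q0 ≤ v then (1 / 4 : ℝ) ^ Nat.log 2 v else 1)

theorem w_nonneg (q0 : ℕ) {δ : ℝ} (hδ : 0 < δ) (v : ℕ) : 0 ≤ w q0 δ v := by
  unfold w
  refine mul_nonneg ?_ ?_
  · split_ifs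
    · exact zero_le_one
    · exact hδ.le
  · split_ifs
    · positivity
    · exact zero_le_one

theorem sum_w (q0 : ℕ) {δ : ℝ} (hδ : 0 < δ) (k : ℕ) :
    ∑ v ∈ range (2 ^ (q0 + k)), w q0 δ v ≤ 1 + δ * (2 ^ q0 + 2 - 2 * (1 / 2 : ℝ) ^ (q0 + k)) := by
  induction k with
  | zero =>
    rw [add_zero]
    have h1 : ∀ v ∈ range (2 ^ q0), w q0 δ v = if v = 0 then (1 : ℝ) else δ := by
      intro v hv
      unfold w
      rw [if_neg (show ¬ (2 ^ q0 ≤ v) from not_le.2 (Finset.mem_range.1 hv)), mul_one]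
    rw [Finset.sum_congr rfl h1]
    obtain ⟨m, hm⟩ : ∃ m, 2 ^ q0 = m + 1 := ⟨2 ^ q0 - 1, by
      have : 0 < 2 ^ q0 := by positivity
      omega⟩
    rw [hm, Finset.sum_range_succ']
    have h2 : ∑ v ∈ range m, (if v + 1 = 0 then (1 : ℝ) else δ) = m * δ := by
      rw [Finset.sum_congr rfl (g := fun _ => δ) (fun v _ => if_neg (Nat.succ_ne_zero v)),
        Finset.sum_const, Finset.card_range, nsmul_eq_mul]
    rw [h2, if_pos rfl]
    have h3 : (2 : ℝ) ^ q0 = m + 1 := by exact_mod_cast hm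
    have h4 : (1 / 2 : ℝ) ^ q0 ≤ 1 := pow_le_one₀ (by norm_num) (by norm_num)
    rw [h3]
    nlinarith
  | succ k ih =>
    have h0 : 2 ^ (q0 + (k + 1)) = 2 ^ (q0 + k) + 2 ^ (q0 + k) := by
      rw [← add_assoc, pow_succ]; ring
    rw [h0, Finset.sum_range_add]
    have h1 : ∑ x ∈ range (2 ^ (q0 + k)), w q0 δ (2 ^ (q0 + k) + x) ≤
        ∑ x ∈ range (2 ^ (q0 + k)), δ * (1 / 4 : ℝ) ^ (q0 + k) := by
      apply Finset.sum_le_sum
      intro x hx
      rw [Finset.mem_range] at hx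
      have hpos : 0 < 2 ^ (q0 + k) := by positivity
      have hlog : Nat.log 2 (2 ^ (q0 + k) + x) = q0 + k := by
        apply Nat.log_eq_of_pow_le_of_lt_pow
        · omega
        · rw [pow_succ]; omega
      have hle : 2 ^ q0 ≤ 2 ^ (q0 + k) + x :=
        (Nat.pow_le_pow_right (by norm_num) (Nat.le_add_right _ _)).trans (Nat.le_add_right _ _)
      unfold w
      rw [if_neg (show ¬ (2 ^ (q0 + k) + x = 0) by omega), if_pos hle, hlog]
    rw [Finset.sum_const, Finset.card_range, nsmul_eq_mul] at h1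
    have h2 : ((2 ^ (q0 + k) : ℕ) : ℝ) * (δ * (1 / 4 : ℝ) ^ (q0 + k)) =
        δ * (1 / 2 : ℝ) ^ (q0 + k) := by
      push_cast
      have : (1 / 2 : ℝ) ^ (q0 + k) = 2 ^ (q0 + k) * (1 / 4 : ℝ) ^ (q0 + k) := by
        rw [← mul_pow]; norm_num
      rw [this]; ring
    rw [h2] at h1
    have h3 : (1 / 2 : ℝ) ^ (q0 + (k + 1)) = (1 / 2 : ℝ) ^ (q0 + k) / 2 := by
      rw [← add_assoc, pow_succ]; ring
    rw [h3]
    nlinarith

theorem p_N11 : S_N11 := by
  classical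
  intro Q A hQ hA j q0 Λ hjΛ δ hδ hδ1
  let φ : ℕ → (Q → ℕ) := fun a q => a.factorization q
  have h1 : (A.image (part Q)).card ≤ (A.image φ).card := by
    have h2 : A.image (part Q) = (A.image φ).image (fun f => ∏ q : Q, (q : ℕ) ^ f q) := by
      rw [Finset.image_image]
      refine Finset.image_congr fun a _ => ?_
      show ∏ q ∈ Q, q ^ a.factorization q = ∏ q : Q, (q : ℕ) ^ a.factorization q
      exact (Finset.prod_coe_sort Q (fun q => q ^ a.factorization q)).symm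
    rw [h2]
    exact Finset.card_image_le
  set k : ℕ := ∑ a ∈ A, ∑ q ∈ Q, a.factorization q with hk
  have hsub : A.image φ ⊆ Fintype.piFinset (fun _ : Q => range (2 ^ (q0 + k))) := by
    intro f hf
    obtain ⟨a, ha, rfl⟩ := Finset.mem_image.1 hf
    rw [Fintype.mem_piFinset]
    intro q
    rw [Finset.mem_range]
    have h3 : a.factorization q ≤ ∑ q ∈ Q, a.factorization q :=
      Finset.single_le_sum (f := fun q => a.factorization q) (fun _ _ => Nat.zero_le _) q.2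
    have h4 : ∑ q ∈ Q, a.factorization q ≤ k :=
      Finset.single_le_sum (f := fun a => ∑ q ∈ Q, a.factorization q)
        (fun _ _ => Nat.zero_le _) ha
    calc φ a q = a.factorization q := rfl
      _ ≤ k := h3.trans h4
      _ ≤ q0 + k := Nat.le_add_left _ _
      _ < 2 ^ (q0 + k) := Nat.lt_two_pow_self
  have hlow : ∀ f ∈ A.image φ, δ ^ j * (1 / 4 : ℝ) ^ Λ ≤ ∏ q : Q, w q0 δ (f q) := by
    intro f hf
    obtain ⟨a, ha, rfl⟩ := Finset.mem_image.1 hf
    have h3 : ∏ q : Q, w q0 δ (φ a q) = ∏ q ∈ Q, w q0 δ (a.factorization q) :=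
      Finset.prod_coe_sort Q (fun q => w q0 δ (a.factorization q))
    rw [h3]
    unfold w
    rw [Finset.prod_mul_distrib]
    have h4 : ∏ q ∈ Q, (if a.factorization q = 0 then (1 : ℝ) else δ) =
        δ ^ (Q.filter (· ∣ a)).card := by
      rw [Finset.prod_ite, Finset.prod_const_one, one_mul, Finset.prod_const]
      congr 2
      refine Finset.filter_congr fun q hq => ?_
      simp [Nat.factorization_eq_zero_iff, hQ q hq, hA a ha]
    have h5 : ∏ q ∈ Q, (if 2 ^ q0 ≤ a.factorization q then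
        (1 / 4 : ℝ) ^ Nat.log 2 (a.factorization q) else 1) = (1 / 4 : ℝ) ^ lam q0 Q a := by
      rw [Finset.prod_ite, Finset.prod_const_one, mul_one, Finset.prod_pow_eq_pow_sum]
      rfl
    rw [h4, h5]
    have h6 : δ ^ j ≤ δ ^ (Q.filter (· ∣ a)).card :=
      pow_le_pow_of_le_one hδ.le hδ1 (by convert (hjΛ a ha).1)
    have h7 : (1 / 4 : ℝ) ^ Λ ≤ (1 / 4 : ℝ) ^ lam q0 Q a :=
      pow_le_pow_of_le_one (by norm_num) (by norm_num) (hjΛ a ha).2
    exact mul_le_mul h6 h7 (by positivity) (pow_pos hδ _).le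
  calc ((A.image (part Q)).card : ℝ) * (δ ^ j * (1 / 4 : ℝ) ^ Λ)
      ≤ ((A.image φ).card : ℝ) * (δ ^ j * (1 / 4 : ℝ) ^ Λ) :=
        mul_le_mul_of_nonneg_right (by exact_mod_cast h1) (by positivity)
    _ = ∑ f ∈ A.image φ, δ ^ j * (1 / 4 : ℝ) ^ Λ := by rw [Finset.sum_const, nsmul_eq_mul]
    _ ≤ ∑ f ∈ A.image φ, ∏ q : Q, w q0 δ (f q) := Finset.sum_le_sum hlow
    _ ≤ ∑ f ∈ Fintype.piFinset (fun _ : Q => range (2 ^ (q0 + k))), ∏ q : Q, w q0 δ (f q) :=
        Finset.sum_le_sum_of_subset_of_nonneg hsub fun f _ _ =>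
          Finset.prod_nonneg fun q _ => w_nonneg q0 hδ _
    _ = ∏ _q : Q, ∑ v ∈ range (2 ^ (q0 + k)), w q0 δ v :=
        (Finset.prod_univ_sum (fun _ : Q => range (2 ^ (q0 + k))) (fun _ v => w q0 δ v)).symm
    _ ≤ ∏ _q : Q, (1 + δ * (2 ^ q0 + 2)) :=
        Finset.prod_le_prod (fun q _ => Finset.sum_nonneg fun v _ => w_nonneg q0 hδ v)
          (fun q _ => by
            refine (sum_w q0 hδ k).trans ?_
            have : 0 ≤ (1 / 2 : ℝ) ^ (q0 + k) := by positivity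
            nlinarith)
    _ = (1 + δ * (2 ^ q0 + 2)) ^ Q.card := by
        rw [Finset.prod_const, Finset.card_univ, Fintype.card_coe]

end

end Pool.Agent.Helper5.RD.PN11

theorem Pool.Agent.Helper5.RD.p_N11 : Pool.Agent.Helper5.RD.S_N11 :=
  Pool.Agent.Helper5.RD.PN11.p_N11
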