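import Pool.Agent.Helper5.RD.Stm3
import Pool.Agent.Helper5.RD.Bas

/-! # Project RD, part 2, package N3: generic heavy points of type 0 on a line share their cell -/

set_option autoImplicit false

namespace Pool.Agent.Helper5.RD

open Finset Classical

namespace N3

/-- as `nxt0_eq` -/
theorem m0_eq {t A p e u : ℕ} {X B : Finset ℤ} {n x b x' b' : ℤ}
    (h1 : ((p ^ e * u : ℕ) : ℤ) * x + b = n) (h2 : ((p ^ e * u : ℕ) : ℤ) * x' + b' = n)
    (t1 : U0 t A p e X B x b) (hle : fst p t X x ≤ fst p t X x')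
    (hd : ((p ^ fst p t X x : ℕ) : ℤ) ∣ x - x') :
    m0 t p e X B x b = m0 t p e X B x' b' := by
  have h3 : ((p ^ (fst p t X x + e) : ℕ) : ℤ) ∣ b - b' := by
    have h4 : b - b' = ((p ^ e * u : ℕ) : ℤ) * (x' - x) := by linear_combination h1 - h2
    rw [h4]
    have h5 : ((p ^ (fst p t X x + e) : ℕ) : ℤ) ∣ ((p ^ e : ℕ) : ℤ) * (x' - x) := by
      rw [add_comm, pow_add, Nat.cast_mul]
      refine mul_dvd_mul_left _ ?_
      rw [← neg_sub, dvd_neg]; exact hd
    have h8 : ((p ^ e * u : ℕ) : ℤ) * (x' - x) = (u : ℤ) * (((p ^ e : ℕ) : ℤ) * (x' - x)) := by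
      push_cast; ring
    rw [h8]
    exact h5.mul_left (u : ℤ)
  have h7 : fst p t X x' = fst p t X x := le_antisymm (fst_le_of_congr t1.1 hd) hle
  unfold m0
  rw [h7, cls_congr h3, cls_congr hd]

theorem aux {t A p e u : ℕ} {X B : Finset ℤ} {n : ℤ} (hp : p.Prime) (hu : ¬ p ∣ u)
    (hG : Gen2 t A p e X B) {x b x' b' : ℤ} (hx : x ∈ X) (hb : b ∈ B) (hx' : x' ∈ X)
    (hb' : b' ∈ B)
    (h1 : ((p ^ e * u : ℕ) : ℤ) * x + b = n) (h2 : ((p ^ e * u : ℕ) : ℤ) * x' + b' = n)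
    (t1 : U0 t A p e X B x b) (l1 : ¬ light p (t ^ (A ^ 2)) X x (fst p t X x))
    (t2 : U0 t A p e X B x' b') (l2 : ¬ light p (t ^ (A ^ 2)) X x' (fst p t X x'))
    (hle : fst p t X x ≤ fst p t X x') :
    m0 t p e X B x b = m0 t p e X B x' b' := by
  by_cases hd : ((p ^ fst p t X x : ℕ) : ℤ) ∣ x - x'
  · exact m0_eq h1 h2 t1 hle hd
  exfalso
  -- the first level at which `x` and `x'` separate
  have hex : ∃ j, ¬ ((p ^ j : ℕ) : ℤ) ∣ x - x' := ⟨_, hd⟩
  set j := Nat.find hex with hj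
  have hj1 : ¬ ((p ^ j : ℕ) : ℤ) ∣ x - x' := Nat.find_spec hex
  have hj2 : j ≤ fst p t X x := Nat.find_min' hex hd
  have hj0 : j ≠ 0 := by
    intro h0
    rw [h0] at hj1
    exact hj1 (by simp)
  obtain ⟨v, hv⟩ := Nat.exists_eq_succ_of_ne_zero hj0
  have hv' : j = v + 1 := hv
  have hv1 : ((p ^ v : ℕ) : ℤ) ∣ x - x' := by
    by_contra h
    exact Nat.find_min hex (m := v) (by omega) h
  rw [hv'] at hj1 hj2
  -- `v` is a branching level of `X`
  have hbr : Br p (t ^ (A ^ 2)) X v := by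
    refine ⟨x, hx, x', hx', hv1, hj1, ?_, ?_⟩
    · by_contra h
      exact l1 (light_mono (J := v + 1) (not_le.1 h) hj2)
    · by_contra h
      exact l2 (light_mono (J := v + 1) (not_le.1 h) (hj2.trans hle))
  -- `e + v` is a branching level of `B`
  refine hG v hbr ?_
  have h4 : b - b' = ((p ^ e * u : ℕ) : ℤ) * (x' - x) := by linear_combination h1 - h2
  refine ⟨b, hb, b', hb', ?_, ?_, ?_, ?_⟩
  · rw [h4, pow_add, Nat.cast_mul]
    have h8 : ((p ^ e * u : ℕ) : ℤ) * (x' - x) = (u : ℤ) * (((p ^ e : ℕ) : ℤ) * (x' - x)) := by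
      push_cast; ring
    rw [h8]
    refine (mul_dvd_mul_left _ ?_).mul_left _
    rw [← neg_sub, dvd_neg]; exact hv1
  · intro h
    rw [h4, show e + v + 1 = (v + 1) + e by ring] at h
    have h5 := dvd_of_mul_pow_dvd hp hu h
    apply hj1
    rw [← neg_sub, dvd_neg]; exact h5
  · by_contra h
    exact t1.2 (light_mono (J := e + v + 1) (not_le.1 h) (by omega))
  · by_contra h
    exact t2.2 (light_mono (J := e + v + 1) (not_le.1 h) (by omega))

end N3

theorem p_N3 : S_N3 := by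
  intro t A p e u X B n hp hu hG x hx b hb x' hx' b' hb' h1 h2 t1 l1 t2 l2
  rcases le_total (fst p t X x) (fst p t X x') with h | h
  · exact N3.aux hp hu hG hx hb hx' hb' h1 h2 t1 l1 t2 l2 h
  · exact (N3.aux hp hu hG hx' hb' hx hb h2 h1 t2 l2 t1 l1 h).symm

end Pool.Agent.Helper5.RD
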