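import Pool.Agent.Helper5.RD.Defs2

/-! # Project RD, second part: the statements of the packages -/

namespace Pool.Agent.Helper5.RD

open Finset Classical

noncomputable section

/-- N1: cells of type 1 on a line. -/
def S_N1 : Prop := ∀ (t A p e u : ℕ) (X B : Finset ℤ) (n : ℤ), p.Prime → ¬ p ∣ u →
  (((X ×ˢ B).filter (fun q => ((p ^ e * u : ℕ) : ℤ) * q.1 + q.2 = n ∧
      U1 t A p e X B q.1 q.2)).image (fun q => m1 t A p e X B q.1 q.2)).card ≤ 2 * t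

/-- N2: cells of type 0 on a line. -/
def S_N2 : Prop := ∀ (t A p e u : ℕ) (X B : Finset ℤ) (n : ℤ), p.Prime → ¬ p ∣ u →
  (((X ×ˢ B).filter (fun q => ((p ^ e * u : ℕ) : ℤ) * q.1 + q.2 = n ∧
      U0 t A p e X B q.1 q.2)).image (fun q => m0 t p e X B q.1 q.2)).card ≤ 2 * t ^ A

/-- N3: generic heavy points of type 0 on a line share their cell. -/
def S_N3 : Prop := ∀ (t A p e u : ℕ) (X B : Finset ℤ) (n : ℤ), p.Prime → ¬ p ∣ u →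
  Gen2 t A p e X B → ∀ x ∈ X, ∀ b ∈ B, ∀ x' ∈ X, ∀ b' ∈ B,
  ((p ^ e * u : ℕ) : ℤ) * x + b = n → ((p ^ e * u : ℕ) : ℤ) * x' + b' = n →
  U0 t A p e X B x b → ¬ light p (t ^ (A ^ 2)) X x (fst p t X x) →
  U0 t A p e X B x' b' → ¬ light p (t ^ (A ^ 2)) X x' (fst p t X x') →
  m0 t p e X B x b = m0 t p e X B x' b'

/-- N4: the number of points of a line whose run ends in a small cell (uses N1, N2, N3). -/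
def S_N4 : Prop := ∀ (A R Y s : ℕ) (γ : ℝ), 0 < γ → 1 ≤ A → 2 ≤ A * γ →
  ∀ (L : List (ℕ × ℕ × ℕ)), (∀ q ∈ L, q.1.Prime ∧ (∃ u, s = q.1 ^ q.2.2 * u ∧ ¬ q.1 ∣ u) ∧
    16 ≤ q.2.1 ∧ (q.2.1 : ℝ) ^ (-γ) ≤ 1 / 8) →
  ∀ (X B : Finset ℤ) (n : ℤ),
  (((X ×ˢ B).filter (fun q => (s : ℤ) * q.1 + q.2 = n ∧
      Fin2 Y (run2 A R L (X, B) q.1 q.2))).card : ℝ) ≤
    Y * 2 ^ L.length * ((X.card : ℝ) * B.card) ^ γ

/-- N5: the number of branching levels. -/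
def S_N5 : Prop := ∀ (p K : ℕ) (X : Finset ℤ) (V : Finset ℕ), p.Prime → (∀ v ∈ V, Br p K X v) →
  V.card ≤ K ^ 2

/-- N6: the number of exponents for which the `R` steps get stuck (uses N5). -/
def S_N6 : Prop := ∀ (t A R p : ℕ) (X B : Finset ℤ) (x b : ℤ) (Es : Finset ℕ), p.Prime →
  2 ≤ t → 1 ≤ A → x ∈ X → b ∈ B →
  (∀ e ∈ Es, ¬ ((mul2 t A p e R (X, B) x b).1.card ≤ t ∧
      (mul2 t A p e R (X, B) x b).2.card ≤ t ^ A) ∧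
    X.card * B.card < (mul2 t A p e R (X, B) x b).1.card * (mul2 t A p e R (X, B) x b).2.card *
      t ^ R) → Es.card ≤ bd t A R

/-- N7: the index vectors along which the run does not finish (uses N6). -/
def S_N7 : Prop := ∀ (A R G g Y : ℕ) (γ : ℝ) (t w : ℕ → ℕ), 0 ≤ γ → 1 ≤ A → (∀ p, 1 ≤ w p) →
  ∀ (ps : List ℕ), (∀ p ∈ ps, p.Prime ∧ 2 ≤ t p ∧ t p ≤ Y ∧ t p ^ A ≤ Y ∧
    ((t p : ℝ) ^ R) ^ (-γ) + (bd (t p) A R : ℝ) / (t p : ℝ) ^ G ≤ ((t p : ℝ) ^ g)⁻¹) →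
  ∀ (x b : ℤ) (C : Finset ℤ × Finset ℤ), x ∈ C.1 → b ∈ C.2 →
  ∀ (E : Finset (List ℕ)), (∀ l ∈ E, l.length = ps.length) →
  (∀ l ∈ E, ∀ l', List.Forall₂ (· ≤ ·) l' l → l' ∈ E) →
  ((E.filter (fun l => (∀ q ∈ ps.zip l, t q.1 ^ G ≤ q.2) ∧
      ¬ Fin2 Y (run2 A R (trip t w ps l) C x b))).card : ℝ) ≤
    E.card * (ps.map (fun p => ((t p : ℝ) ^ g)⁻¹)).prod * ((C.1.card : ℝ) * C.2.card) ^ γ

/-- N8: unfinished runs over a divisor-closed set (uses N7). -/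
def S_N8 : Prop := ∀ (A R G g Y : ℕ) (γ : ℝ) (t w : ℕ → ℕ), 0 ≤ γ → 1 ≤ A → (∀ p, 1 ≤ w p) →
  ∀ (ps : List ℕ), ps.Nodup → (∀ p ∈ ps, p.Prime ∧ 2 ≤ t p ∧ t p ≤ Y ∧ t p ^ A ≤ Y ∧
    ((t p : ℝ) ^ R) ^ (-γ) + (bd (t p) A R : ℝ) / (t p : ℝ) ^ G ≤ ((t p : ℝ) ^ g)⁻¹) →
  ∀ (D : Finset ℕ), (∀ d ∈ D, d ≠ 0) → (∀ d ∈ D, ∀ d', d' ∣ d → d' ∈ D) →
  ∀ (B : Finset ℤ), ∀ b ∈ B,
  ((D.filter (fun d => (∀ p ∈ ps, t p ^ G ≤ d.factorization p / w p) ∧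
      ¬ Fin2 Y (run2 A R (trip t w ps (ps.map (fun p => d.factorization p / w p)))
        (D.image (Nat.cast : ℕ → ℤ), B) ((d / prt2 w ps.toFinset d : ℕ) : ℤ) b))).card : ℝ) ≤
    D.card * (ps.map (fun p => ((t p : ℝ) ^ g)⁻¹)).prod * ((D.card : ℝ) * B.card) ^ γ

/-- N9: the pigeonhole on the coarse part (uses N4). -/
def S_N9 : Prop := ∀ (A R Y : ℕ) (γ : ℝ) (t w : ℕ → ℕ), 0 < γ → 1 ≤ A → 2 ≤ A * γ →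
  (∀ p, 1 ≤ w p) → ∀ (ps : List ℕ), ps.Nodup →
  (∀ p ∈ ps, p.Prime ∧ 16 ≤ t p ∧ (t p : ℝ) ^ (-γ) ≤ 1 / 8) →
  ∀ (D A' : Finset ℕ), (∀ d ∈ D, d ≠ 0) → (∀ d ∈ D, ∀ d', d' ∣ d → d' ∈ D) → A' ⊆ D →
  ∀ (B : Finset ℤ),
  2 * ((A' ×ˢ B).filter (fun q =>
      ¬ Fin2 Y (run2 A R (trip t w ps (ps.map (fun p => q.1.factorization p / w p)))
        (D.image (Nat.cast : ℕ → ℤ), B)
        ((q.1 / prt2 w ps.toFinset q.1 : ℕ) : ℤ) q.2))).card ≤ A'.card * B.card →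
  (A'.card : ℝ) * B.card ≤ 2 * (A'.image (prt2 w ps.toFinset)).card *
    (Y * 2 ^ ps.length * ((D.card : ℝ) * B.card) ^ γ) *
    ((A'.image (Nat.cast : ℕ → ℤ) ×ˢ B).image (fun q => q.1 + q.2)).card

/-- N10: the number of scale vectors. -/
def S_N10 : Prop := ∀ (Q A : Finset ℕ) (M q0 : ℕ) (β : ℝ), 0 < β → 1 ≤ q0 → (∀ q ∈ Q, q.Prime) →
  (∀ a ∈ A, a ≠ 0 ∧ a.divisors.card ≤ 2 ^ M) →
  ((A.image (sv q0 Q)).card : ℝ) ≤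
    (2 : ℝ) ^ (β * M) * (1 + (2 : ℝ) ^ (-(β * q0)) / (1 - (2 : ℝ) ^ (-β))) ^ Q.card

/-- N11: the number of `Q`-parts of numbers with few prime factors in `Q` and small exponents. -/
def S_N11 : Prop := ∀ (Q A : Finset ℕ), (∀ q ∈ Q, q.Prime) → (∀ a ∈ A, a ≠ 0) →
  ∀ (j q0 Λ : ℕ), (∀ a ∈ A, (Q.filter (· ∣ a)).card ≤ j ∧ lam q0 Q a ≤ Λ) →
  ∀ (δ : ℝ), 0 < δ → δ ≤ 1 →
  ((A.image (part Q)).card : ℝ) * (δ ^ j * (1 / 4) ^ Λ) ≤ (1 + δ * (2 ^ q0 + 2)) ^ Q.card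

/-- CI: the sum side when the large exponents carry a positive proportion (uses N8, N9, N10, H3). -/
def S_CI : Prop := ∀ (ε κ lam1 : ℝ) (L : ℕ), 0 < ε → ε ≤ 1 → 1 ≤ κ → 0 < lam1 → 1 ≤ L →
  ∃ (q0 N0 : ℕ) (η C0 : ℝ), 0 < η ∧ 1 ≤ C0 ∧ ∀ (A Q : Finset ℕ), N0 ≤ A.card → (∀ a ∈ A, a ≠ 0) →
  ((A.biUnion (fun a => a.divisors)).card : ℝ) ≤ κ * (A.card : ℝ) ^ (1 + η) →
  (∀ q ∈ Q, q.Prime ∧ A.card ≤ L * (A.filter (q ∣ ·)).card) →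
  A.card ≤ 2 * (A.filter (fun a => lam1 * Real.log A.card ≤ (lam q0 Q a : ℝ))).card →
  ∀ B : Finset ℤ, B.Nonempty →
  ((A.card : ℝ) * B.card) ^ (1 - ε) ≤ C0 *
    (((A.image (Nat.cast : ℕ → ℤ) ×ˢ B).image (fun q => q.1 + q.2)).card : ℝ)

/-- J4: the theorem for sets of positive integers with few divisors
(uses E1, E2, G1, H1, H2, H3, K, I1, N11, CI). -/
def S_J4 : Prop := ∀ (κ ε : ℝ), 0 < ε → ∃ η > (0 : ℝ), ∃ c > (0 : ℝ), ∀ A : Finset ℕ, A.Nonempty →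
  (∀ a ∈ A, a ≠ 0) →
  ((A.biUnion (fun a => a.divisors)).card : ℝ) ≤ κ * (A.card : ℝ) ^ (1 + η) →
  (∀ B : Finset ℤ, B.Nonempty → c * ((A.card : ℝ) * B.card) ^ (1 - ε) ≤
    (((A.image (Nat.cast : ℕ → ℤ) ×ˢ B).image (fun q => q.1 + q.2)).card : ℝ)) ∨
  (∀ B : Finset ℤ, B.Nonempty → 0 ∉ B → c * ((A.card : ℝ) * B.card) ^ (1 - ε) ≤
    (((A.image (Nat.cast : ℕ → ℤ) ×ˢ B).image (fun q => q.1 * q.2)).card : ℝ))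

open scoped Pointwise in
/-- J5: the theorem for sets of integers (uses J4). -/
def S_J5 : Prop := ∀ (κ ε : ℝ), 0 < ε → ∃ η > (0 : ℝ), ∃ c > (0 : ℝ), ∀ A : Finset ℤ, A.Nonempty →
  0 ∉ A →
  ((A.biUnion (fun a => a.natAbs.divisors)).card : ℝ) ≤ κ * (A.card : ℝ) ^ (1 + η) →
  (∀ B : Finset ℤ, B.Nonempty → c * ((A.card : ℝ) * B.card) ^ (1 - ε) ≤ ((A + B).card : ℝ)) ∨
  (∀ B : Finset ℤ, B.Nonempty → 0 ∉ B →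
    c * ((A.card : ℝ) * B.card) ^ (1 - ε) ≤ ((A * B).card : ℝ))

end

end Pool.Agent.Helper5.RD
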