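import Pool.Agent.Helper5.RD.Bas
import Pool.Agent.Helper5.RD.Stm3

/-! # Project RD, second part: package N4 (helper93): the points of a line whose run ends in a
small cell -/

namespace Pool.Agent.Helper5.RD

open Finset Classical

noncomputable section

namespace PN4

/-- One group of points: few next cells, each of which is smaller by the factor `K`. -/
theorem group {s : ℕ} {γ W : ℝ} (hγ : 0 < γ) (hW : 0 ≤ W) {n : ℤ}
    (Q : Finset ℤ × Finset ℤ → ℤ → ℤ → Prop)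
    (ih : ∀ C : Finset ℤ × Finset ℤ,
      (((C.1 ×ˢ C.2).filter (fun q => (s : ℤ) * q.1 + q.2 = n ∧ Q C q.1 q.2)).card : ℝ) ≤
        W * ((C.1.card : ℝ) * C.2.card) ^ γ)
    {X B : Finset ℤ} (S : Finset (ℤ × ℤ))
    (nx : ℤ × ℤ → Finset ℤ × Finset ℤ) (K M : ℕ) (hK : 1 ≤ K)
    (h1 : ∀ q ∈ S, (s : ℤ) * q.1 + q.2 = n ∧ q.1 ∈ (nx q).1 ∧ q.2 ∈ (nx q).2 ∧
      Q (nx q) q.1 q.2 ∧ ((nx q).1.card * (nx q).2.card) * K ≤ X.card * B.card)
    (h2 : (S.image nx).card ≤ M) :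
    (S.card : ℝ) ≤ M * (K : ℝ) ^ (-γ) * (W * ((X.card : ℝ) * B.card) ^ γ) := by
  have hK0 : (0 : ℝ) < K := by exact_mod_cast hK
  have e1 : (S.card : ℝ) = ∑ C ∈ S.image nx, ((S.filter (fun q => nx q = C)).card : ℝ) := by
    rw [card_eq_sum_card_image nx S]; push_cast; rfl
  have e2 : ∀ C ∈ S.image nx, ((S.filter (fun q => nx q = C)).card : ℝ) ≤
      (K : ℝ) ^ (-γ) * (W * ((X.card : ℝ) * B.card) ^ γ) := by
    intro C hC
    obtain ⟨q0, hq0, hq0C⟩ := mem_image.1 hC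
    have f1 : (S.filter (fun q => nx q = C)).card ≤
        ((C.1 ×ˢ C.2).filter (fun q => (s : ℤ) * q.1 + q.2 = n ∧ Q C q.1 q.2)).card := by
      apply card_le_card
      intro q hq
      obtain ⟨hqS, hqC⟩ := mem_filter.1 hq
      obtain ⟨a1, a2, a3, a4, -⟩ := h1 q hqS
      rw [hqC] at a2 a3 a4
      exact mem_filter.2 ⟨mem_product.2 ⟨a2, a3⟩, a1, a4⟩
    have f2 : (C.1.card * C.2.card) * K ≤ X.card * B.card := by
      have := (h1 q0 hq0).2.2.2.2
      rwa [hq0C] at this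
    have f3 : ((C.1.card : ℝ) * C.2.card) ≤ ((X.card : ℝ) * B.card) * (K : ℝ)⁻¹ := by
      rw [← div_eq_mul_inv, le_div_iff₀ hK0]
      exact_mod_cast f2
    have f4 : ((C.1.card : ℝ) * C.2.card) ^ γ ≤ (K : ℝ) ^ (-γ) * ((X.card : ℝ) * B.card) ^ γ := by
      calc ((C.1.card : ℝ) * C.2.card) ^ γ
          ≤ (((X.card : ℝ) * B.card) * (K : ℝ)⁻¹) ^ γ :=
            Real.rpow_le_rpow (by positivity) f3 hγ.le
        _ = ((X.card : ℝ) * B.card) ^ γ * ((K : ℝ)⁻¹) ^ γ :=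
            Real.mul_rpow (by positivity) (by positivity)
        _ = (K : ℝ) ^ (-γ) * ((X.card : ℝ) * B.card) ^ γ := by
            rw [Real.inv_rpow hK0.le, ← Real.rpow_neg hK0.le, mul_comm]
    calc ((S.filter (fun q => nx q = C)).card : ℝ)
        ≤ W * ((C.1.card : ℝ) * C.2.card) ^ γ := le_trans (by exact_mod_cast f1) (ih C)
      _ ≤ W * ((K : ℝ) ^ (-γ) * ((X.card : ℝ) * B.card) ^ γ) :=
          mul_le_mul_of_nonneg_left f4 hW
      _ = (K : ℝ) ^ (-γ) * (W * ((X.card : ℝ) * B.card) ^ γ) := by ring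
  rw [e1]
  calc ∑ C ∈ S.image nx, ((S.filter (fun q => nx q = C)).card : ℝ)
      ≤ ∑ _C ∈ S.image nx, (K : ℝ) ^ (-γ) * (W * ((X.card : ℝ) * B.card) ^ γ) := sum_le_sum e2
    _ = (S.image nx).card * ((K : ℝ) ^ (-γ) * (W * ((X.card : ℝ) * B.card) ^ γ)) := by
        rw [sum_const, nsmul_eq_mul]
    _ ≤ M * ((K : ℝ) ^ (-γ) * (W * ((X.card : ℝ) * B.card) ^ γ)) := by
        refine mul_le_mul_of_nonneg_right (by exact_mod_cast h2) ?_
        positivity
    _ = _ := by ring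

/-- A point which does not move stays in its cell. -/
theorem mul2_stay {t A p e : ℕ} {C : Finset ℤ × Finset ℤ} {x b : ℤ}
    (h : st2 t A p e C x b = C) (R : ℕ) : mul2 t A p e R C x b = C := by
  induction R with
  | zero => rfl
  | succ R ih =>
    show mul2 t A p e R (st2 t A p e C x b) x b = C
    rw [h, ih]

/-- `R` steps with the same prime cost the factor two. -/
theorem inner (hN1 : S_N1) (hN2 : S_N2) (hN3 : S_N3) {s A t p e u : ℕ} {γ W : ℝ} (hγ : 0 < γ)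
    (hW : 0 ≤ W) (hA : 1 ≤ A) (hAγ : 2 ≤ A * γ) (ht : 16 ≤ t) (htγ : (t : ℝ) ^ (-γ) ≤ 1 / 8)
    (hp : p.Prime) (hs : s = p ^ e * u) (hu : ¬ p ∣ u) {n : ℤ}
    (Q : Finset ℤ × Finset ℤ → ℤ → ℤ → Prop)
    (ih : ∀ C : Finset ℤ × Finset ℤ,
      (((C.1 ×ˢ C.2).filter (fun q => (s : ℤ) * q.1 + q.2 = n ∧ Q C q.1 q.2)).card : ℝ) ≤
        W * ((C.1.card : ℝ) * C.2.card) ^ γ) (R : ℕ) :
    ∀ C : Finset ℤ × Finset ℤ,
      (((C.1 ×ˢ C.2).filter (fun q => (s : ℤ) * q.1 + q.2 = n ∧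
        Q (mul2 t A p e R C q.1 q.2) q.1 q.2)).card : ℝ) ≤
        2 * W * ((C.1.card : ℝ) * C.2.card) ^ γ := by
  have ht1 : 1 ≤ t := by omega
  have ht0 : (0 : ℝ) < t := by exact_mod_cast ht1
  have htR : (16 : ℝ) ≤ t := by exact_mod_cast ht
  have htR1 : (1 : ℝ) ≤ t := by linarith
  have hA1 : (1 : ℝ) ≤ A := by exact_mod_cast hA
  -- the constants
  have hσ1 : ((2 * t : ℕ) : ℝ) * ((t ^ A : ℕ) : ℝ) ^ (-γ) ≤ 1 / 8 := by
    have e1 : ((t ^ A : ℕ) : ℝ) ^ (-γ) = (t : ℝ) ^ (-(A * γ)) := by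
      rw [Nat.cast_pow, ← Real.rpow_natCast, ← Real.rpow_mul ht0.le]; congr 1; ring
    have e2 : (t : ℝ) ^ (-(A * γ)) ≤ (t : ℝ) ^ (-2 : ℝ) :=
      Real.rpow_le_rpow_of_exponent_le htR1 (by linarith)
    have e3 : (t : ℝ) ^ (-2 : ℝ) = 1 / (t * t) := by
      rw [Real.rpow_neg ht0.le, show (2 : ℝ) = ((2 : ℕ) : ℝ) by norm_num, Real.rpow_natCast]
      field_simp
    rw [e1]
    push_cast
    calc 2 * (t : ℝ) * (t : ℝ) ^ (-(A * γ)) ≤ 2 * (t : ℝ) * (1 / (t * t)) := by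
          rw [← e3]; gcongr
      _ = 2 / t := by field_simp
      _ ≤ 2 / 16 := by gcongr
      _ = 1 / 8 := by norm_num
  have hσ2 : ((2 * t ^ A : ℕ) : ℝ) * ((t ^ (A ^ 2) : ℕ) : ℝ) ^ (-γ) ≤ 1 / 8 := by
    have e1 : ((t ^ (A ^ 2) : ℕ) : ℝ) ^ (-γ) = (t : ℝ) ^ (-((A : ℝ) * (A * γ))) := by
      rw [Nat.cast_pow, ← Real.rpow_natCast, ← Real.rpow_mul ht0.le]
      congr 1; push_cast; ring
    have e2 : (t : ℝ) ^ (-((A : ℝ) * (A * γ))) ≤ (t : ℝ) ^ (-((A : ℝ) * 2)) :=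
      Real.rpow_le_rpow_of_exponent_le htR1 (by nlinarith)
    have e3 : (t : ℝ) ^ (-((A : ℝ) * 2)) = 1 / ((t : ℝ) ^ A * (t : ℝ) ^ A) := by
      rw [Real.rpow_neg ht0.le, show (A : ℝ) * 2 = ((A * 2 : ℕ) : ℝ) by push_cast; ring,
        Real.rpow_natCast, pow_mul, one_div]
      congr 1; ring
    have e4 : (16 : ℝ) ≤ (t : ℝ) ^ A := by
      calc (16 : ℝ) ≤ t := htR
        _ = (t : ℝ) ^ 1 := (pow_one _).symm
        _ ≤ (t : ℝ) ^ A := pow_le_pow_right₀ htR1 hA
    have e5 : (0 : ℝ) < (t : ℝ) ^ A := by positivity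
    rw [e1]
    push_cast
    calc 2 * (t : ℝ) ^ A * (t : ℝ) ^ (-((A : ℝ) * (A * γ)))
        ≤ 2 * (t : ℝ) ^ A * (1 / ((t : ℝ) ^ A * (t : ℝ) ^ A)) := by
          rw [← e3]; gcongr
      _ = 2 / (t : ℝ) ^ A := by field_simp
      _ ≤ 2 / 16 := by gcongr
      _ = 1 / 8 := by norm_num
  subst hs
  induction R with
  | zero =>
    intro C
    refine (ih C).trans ?_
    have : 0 ≤ W * ((C.1.card : ℝ) * C.2.card) ^ γ := by positivity
    linarith
  | succ R ihR =>
    rintro ⟨X, B⟩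
    set S := (X ×ˢ B).filter (fun q => ((p ^ e * u : ℕ) : ℤ) * q.1 + q.2 = n ∧
      Q (mul2 t A p e (R + 1) (X, B) q.1 q.2) q.1 q.2) with hS
    show (S.card : ℝ) ≤ 2 * W * ((X.card : ℝ) * B.card) ^ γ
    set V : ℝ := W * ((X.card : ℝ) * B.card) ^ γ with hV
    have hV0 : 0 ≤ V := by positivity
    have hmem : ∀ q ∈ S, q.1 ∈ X ∧ q.2 ∈ B ∧ ((p ^ e * u : ℕ) : ℤ) * q.1 + q.2 = n ∧
        Q (mul2 t A p e R (st2 t A p e (X, B) q.1 q.2) q.1 q.2) q.1 q.2 := by
      intro q hq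
      obtain ⟨m1, m2, m3⟩ := mem_filter.1 hq
      exact ⟨(mem_product.1 m1).1, (mem_product.1 m1).2, m2, m3⟩
    set Sa := S.filter (fun q => U1 t A p e X B q.1 q.2) with hSa
    set Sb := S.filter (fun q => ¬ U1 t A p e X B q.1 q.2 ∧ U0 t A p e X B q.1 q.2 ∧
      light p (t ^ (A ^ 2)) X q.1 (fst p t X q.1)) with hSb
    set Sc := S.filter (fun q => ¬ U1 t A p e X B q.1 q.2 ∧ U0 t A p e X B q.1 q.2 ∧
      ¬ light p (t ^ (A ^ 2)) X q.1 (fst p t X q.1) ∧ Gen2 t A p e X B) with hSc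
    set Sd := S.filter (fun q => ¬ U1 t A p e X B q.1 q.2 ∧ ¬ (U0 t A p e X B q.1 q.2 ∧
      (light p (t ^ (A ^ 2)) X q.1 (fst p t X q.1) ∨ Gen2 t A p e X B))) with hSd
    have hcover : S ⊆ Sa ∪ Sb ∪ Sc ∪ Sd := by
      intro q hq
      simp only [hSa, hSb, hSc, hSd, mem_union, mem_filter]
      by_cases t1 : U1 t A p e X B q.1 q.2
      · exact Or.inl (Or.inl (Or.inl ⟨hq, t1⟩))
      · by_cases t0 : U0 t A p e X B q.1 q.2
        · by_cases h0 : light p (t ^ (A ^ 2)) X q.1 (fst p t X q.1)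
          · exact Or.inl (Or.inl (Or.inr ⟨hq, t1, t0, h0⟩))
          · by_cases hG : Gen2 t A p e X B
            · exact Or.inl (Or.inr ⟨hq, t1, t0, h0, hG⟩)
            · refine Or.inr ⟨hq, t1, ?_⟩
              rintro ⟨-, h | h⟩
              · exact h0 h
              · exact hG h
        · exact Or.inr ⟨hq, t1, fun h => t0 h.1⟩
    have hca : (Sa.card : ℝ) ≤ ((2 * t : ℕ) : ℝ) * ((t ^ A : ℕ) : ℝ) ^ (-γ) * (2 * V) := by
      have := group hγ (by positivity : (0 : ℝ) ≤ 2 * W)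
        (fun C x b => Q (mul2 t A p e R C x b) x b) ihR (X := X) (B := B) Sa
        (fun q => m1 t A p e X B q.1 q.2) (t ^ A) (2 * t) (Nat.one_le_pow _ _ ht1) ?_ ?_
      · refine this.trans (le_of_eq ?_)
        rw [hV]; ring
      · intro q hq
        obtain ⟨hqS, t1⟩ := mem_filter.1 hq
        obtain ⟨a1, a2, a3, a4⟩ := hmem q hqS
        have hst : st2 t A p e (X, B) q.1 q.2 = m1 t A p e X B q.1 q.2 := by
          unfold st2; rw [if_pos t1]
        rw [hst] at a4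
        refine ⟨a3, self_mem_cls a1, self_mem_cls a2, a4, ?_⟩
        have hl := fst_light t1.1
        unfold light at hl
        have h1 : (m1 t A p e X B q.1 q.2).1.card ≤ X.card := card_le_card (cls_subset _ _ _)
        have h2 : (m1 t A p e X B q.1 q.2).2.card * t ^ A ≤ B.card := hl.le
        calc (m1 t A p e X B q.1 q.2).1.card * (m1 t A p e X B q.1 q.2).2.card * t ^ A
            = (m1 t A p e X B q.1 q.2).1.card *
              ((m1 t A p e X B q.1 q.2).2.card * t ^ A) := by ring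
          _ ≤ X.card * B.card := Nat.mul_le_mul h1 h2
      · refine (card_le_card ?_).trans (hN1 t A p e u X B n hp hu)
        apply image_subset_image
        intro q hq
        obtain ⟨hqS, t1⟩ := mem_filter.1 hq
        obtain ⟨a1, a2, a3, -⟩ := hmem q hqS
        exact mem_filter.2 ⟨mem_product.2 ⟨a1, a2⟩, a3, t1⟩
    have hcb : (Sb.card : ℝ) ≤
        ((2 * t ^ A : ℕ) : ℝ) * ((t ^ (A ^ 2) : ℕ) : ℝ) ^ (-γ) * (2 * V) := by
      have := group hγ (by positivity : (0 : ℝ) ≤ 2 * W)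
        (fun C x b => Q (mul2 t A p e R C x b) x b) ihR (X := X) (B := B) Sb
        (fun q => m0 t p e X B q.1 q.2) (t ^ (A ^ 2)) (2 * t ^ A) (Nat.one_le_pow _ _ ht1) ?_ ?_
      · refine this.trans (le_of_eq ?_)
        rw [hV]; ring
      · intro q hq
        obtain ⟨hqS, t1, t0, hl⟩ := mem_filter.1 hq
        obtain ⟨a1, a2, a3, a4⟩ := hmem q hqS
        have hst : st2 t A p e (X, B) q.1 q.2 = m0 t p e X B q.1 q.2 := by
          unfold st2; rw [if_neg t1, if_pos ⟨t0, Or.inl hl⟩]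
        rw [hst] at a4
        refine ⟨a3, self_mem_cls a1, self_mem_cls a2, a4, ?_⟩
        unfold light at hl
        have h1 : (m0 t p e X B q.1 q.2).2.card ≤ B.card := card_le_card (cls_subset _ _ _)
        have h2 : (m0 t p e X B q.1 q.2).1.card * t ^ (A ^ 2) ≤ X.card := hl.le
        calc (m0 t p e X B q.1 q.2).1.card * (m0 t p e X B q.1 q.2).2.card * t ^ (A ^ 2)
            = ((m0 t p e X B q.1 q.2).1.card * t ^ (A ^ 2)) *
              (m0 t p e X B q.1 q.2).2.card := by ring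
          _ ≤ X.card * B.card := Nat.mul_le_mul h2 h1
      · refine (card_le_card ?_).trans (hN2 t A p e u X B n hp hu)
        apply image_subset_image
        intro q hq
        obtain ⟨hqS, t1, t0, hl⟩ := mem_filter.1 hq
        obtain ⟨a1, a2, a3, -⟩ := hmem q hqS
        exact mem_filter.2 ⟨mem_product.2 ⟨a1, a2⟩, a3, t0⟩
    have hcc : (Sc.card : ℝ) ≤ (t : ℝ) ^ (-γ) * (2 * V) := by
      have := group hγ (by positivity : (0 : ℝ) ≤ 2 * W)
        (fun C x b => Q (mul2 t A p e R C x b) x b) ihR (X := X) (B := B) Sc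
        (fun q => m0 t p e X B q.1 q.2) t 1 ht1 ?_ ?_
      · refine this.trans (le_of_eq ?_)
        rw [hV]; push_cast; ring
      · intro q hq
        obtain ⟨hqS, t1, t0, hl, hG⟩ := mem_filter.1 hq
        obtain ⟨a1, a2, a3, a4⟩ := hmem q hqS
        have hst : st2 t A p e (X, B) q.1 q.2 = m0 t p e X B q.1 q.2 := by
          unfold st2; rw [if_neg t1, if_pos ⟨t0, Or.inr hG⟩]
        rw [hst] at a4
        refine ⟨a3, self_mem_cls a1, self_mem_cls a2, a4, ?_⟩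
        have hl' := fst_light t0.1
        unfold light at hl'
        have h1 : (m0 t p e X B q.1 q.2).2.card ≤ B.card := card_le_card (cls_subset _ _ _)
        have h2 : (m0 t p e X B q.1 q.2).1.card * t ≤ X.card := hl'.le
        calc (m0 t p e X B q.1 q.2).1.card * (m0 t p e X B q.1 q.2).2.card * t
            = ((m0 t p e X B q.1 q.2).1.card * t) *
              (m0 t p e X B q.1 q.2).2.card := by ring
          _ ≤ X.card * B.card := Nat.mul_le_mul h2 h1
      · rw [card_le_one]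
        intro C hC C' hC'
        obtain ⟨q, hq, rfl⟩ := mem_image.1 hC
        obtain ⟨q', hq', rfl⟩ := mem_image.1 hC'
        obtain ⟨hqS, t1, t0, hl, hG⟩ := mem_filter.1 hq
        obtain ⟨hqS', t1', t0', hl', -⟩ := mem_filter.1 hq'
        obtain ⟨a1, a2, a3, -⟩ := hmem q hqS
        obtain ⟨a1', a2', a3', -⟩ := hmem q' hqS'
        exact hN3 t A p e u X B n hp hu hG q.1 a1 q.2 a2 q'.1 a1' q'.2 a2' a3 a3' t0 hl t0' hl'
    have hcd : (Sd.card : ℝ) ≤ V := by
      refine le_trans ?_ (ih (X, B))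
      have : Sd ⊆ ((X ×ˢ B).filter (fun q => ((p ^ e * u : ℕ) : ℤ) * q.1 + q.2 = n ∧
          Q (X, B) q.1 q.2)) := by
        intro q hq
        obtain ⟨hqS, t1, t0⟩ := mem_filter.1 hq
        obtain ⟨a1, a2, a3, a4⟩ := hmem q hqS
        have hst : st2 t A p e (X, B) q.1 q.2 = (X, B) := by
          unfold st2; rw [if_neg t1, if_neg t0]
        rw [hst, mul2_stay hst] at a4
        exact mem_filter.2 ⟨mem_product.2 ⟨a1, a2⟩, a3, a4⟩
      exact_mod_cast card_le_card this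
    have htot : (S.card : ℝ) ≤ Sa.card + Sb.card + Sc.card + Sd.card := by
      have h1 : S.card ≤ Sa.card + Sb.card + Sc.card + Sd.card := by
        refine (card_le_card hcover).trans ?_
        refine (card_union_le _ _).trans (Nat.add_le_add_right ?_ _)
        refine (card_union_le _ _).trans (Nat.add_le_add_right ?_ _)
        exact card_union_le _ _
      exact_mod_cast h1
    have k1 : (Sa.card : ℝ) ≤ 1 / 8 * (2 * V) :=
      hca.trans (mul_le_mul_of_nonneg_right hσ1 (by positivity))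
    have k2 : (Sb.card : ℝ) ≤ 1 / 8 * (2 * V) :=
      hcb.trans (mul_le_mul_of_nonneg_right hσ2 (by positivity))
    have k3 : (Sc.card : ℝ) ≤ 1 / 8 * (2 * V) :=
      hcc.trans (mul_le_mul_of_nonneg_right htγ (by positivity))
    have k4 : 2 * W * ((X.card : ℝ) * B.card) ^ γ = 2 * V := by rw [hV]; ring
    rw [k4]
    linarith

end PN4

open PN4 in
theorem p_N4 (hN1 : S_N1) (hN2 : S_N2) (hN3 : S_N3) : S_N4 := by
  intro A R Y s γ hγ hA hAγ L
  induction L with
  | nil =>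
    intro _ X B n
    set S := (X ×ˢ B).filter (fun q => (s : ℤ) * q.1 + q.2 = n ∧
      Fin2 Y (run2 A R [] (X, B) q.1 q.2)) with hS
    rcases S.eq_empty_or_nonempty with h0 | ⟨q0, hq0⟩
    · rw [h0]
      simp only [card_empty, Nat.cast_zero]
      positivity
    obtain ⟨m1, m2, m3⟩ := mem_filter.1 hq0
    have hX : X.card ≤ Y := m3.1
    have c1 : S.card ≤ X.card := by
      rw [← Finset.card_image_of_injOn (f := Prod.fst) (s := S)]
      · apply card_le_card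
        intro x hx
        obtain ⟨q, hq, rfl⟩ := mem_image.1 hx
        exact (mem_product.1 (mem_filter.1 hq).1).1
      · intro q hq q' hq' h
        have a1 := (mem_filter.1 hq).2.1
        have a2 := (mem_filter.1 hq').2.1
        have h' : q.1 = q'.1 := h
        refine Prod.ext h' ?_
        rw [h'] at a1
        linarith
    have hXc : 1 ≤ X.card := card_pos.2 ⟨_, (mem_product.1 m1).1⟩
    have hBc : 1 ≤ B.card := card_pos.2 ⟨_, (mem_product.1 m1).2⟩
    have c2 : (1 : ℝ) ≤ ((X.card : ℝ) * B.card) ^ γ := by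
      apply Real.one_le_rpow _ hγ.le
      have a1 : (1 : ℝ) ≤ X.card := by exact_mod_cast hXc
      have a2 : (1 : ℝ) ≤ B.card := by exact_mod_cast hBc
      nlinarith
    have c4 : (S.card : ℝ) ≤ Y := by exact_mod_cast c1.trans hX
    calc (S.card : ℝ) ≤ Y := c4
      _ = Y * 1 * 1 := by ring
      _ ≤ Y * 2 ^ ([] : List (ℕ × ℕ × ℕ)).length * ((X.card : ℝ) * B.card) ^ γ := by
        simp only [List.length_nil, pow_zero]
        gcongr
  | cons q0 L ih0 =>
    intro hL X B n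
    obtain ⟨p, t, e⟩ := q0
    obtain ⟨hp, ⟨u, hsu, hpu⟩, ht, htγ⟩ := hL (p, t, e) List.mem_cons_self
    dsimp only at hp hsu hpu ht htγ
    have ih := ih0 (fun q hq => hL q (List.mem_cons_of_mem _ hq))
    have h := inner hN1 hN2 hN3 hγ (by positivity : (0 : ℝ) ≤ Y * 2 ^ L.length) hA hAγ ht htγ hp
      hsu hpu (n := n) (fun C x b => Fin2 Y (run2 A R L C x b)) (fun C => ih C.1 C.2 n) R (X, B)
    refine le_trans ?_ (h.trans (le_of_eq ?_))
    · exact le_of_eq rfl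
    · rw [List.length_cons, pow_succ]; ring

end

end Pool.Agent.Helper5.RD
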