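import Pool.Agent.Helper5.RD.Stm3
import Pool.Agent.Helper5.RD.Bas

/-! # Project RD, part 2, package N5: the number of branching levels -/

set_option autoImplicit false

namespace Pool.Agent.Helper5.RD

open Finset Classical

theorem p_N5 : S_N5 := by
  intro p K X V hp hV
  rcases V.eq_empty_or_nonempty with hVe | ⟨v0, hv0⟩
  · subst hVe; simp
  have hXne : X.Nonempty := by
    obtain ⟨y, hy, _⟩ := hV v0 hv0
    exact ⟨y, hy⟩
  have hXpos : 0 < X.card := card_pos.2 hXne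
  choose! y hy y' hy' h1 h2 h3 h4 using hV
  -- the number of levels whose class contains a given point
  have hx : ∀ x ∈ X, (V.filter (fun v => x ∈ cls (p ^ (v + 1)) X (y v))).card ≤ K := by
    intro x _
    refine card_le_of_heavy _ X K (fun v => cls (p ^ (v + 1)) X (y' v))
      (fun v _ => cls_subset _ _ _) (fun v hv => h4 v (mem_filter.1 hv).1) ?_ hXne
    -- disjointness for `v1 < v2`
    have key : ∀ v1 ∈ V.filter (fun v => x ∈ cls (p ^ (v + 1)) X (y v)),
        ∀ v2 ∈ V.filter (fun v => x ∈ cls (p ^ (v + 1)) X (y v)), v1 < v2 →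
        Disjoint (cls (p ^ (v1 + 1)) X (y' v1)) (cls (p ^ (v2 + 1)) X (y' v2)) := by
      intro v1 m1 v2 m2 hlt
      rw [mem_filter] at m1 m2
      rw [disjoint_left]
      intro z z1 z2
      have e1 : ((p ^ (v1 + 1) : ℕ) : ℤ) ∣ z - y' v1 := (mem_cls.1 z1).2
      have e2 : ((p ^ (v2 + 1) : ℕ) : ℤ) ∣ z - y' v2 := (mem_cls.1 z2).2
      have e3 : ((p ^ v2 : ℕ) : ℤ) ∣ y v2 - y' v2 := h1 v2 m2.1
      have e4 : ((p ^ (v2 + 1) : ℕ) : ℤ) ∣ x - y v2 := (mem_cls.1 m2.2).2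
      have e5 : ((p ^ (v1 + 1) : ℕ) : ℤ) ∣ x - y v1 := (mem_cls.1 m1.2).2
      have d1 : ((p ^ (v1 + 1) : ℕ) : ℤ) ∣ ((p ^ v2 : ℕ) : ℤ) :=
        Int.natCast_dvd_natCast.2 (pow_dvd_pow p hlt)
      have d2 : ((p ^ (v1 + 1) : ℕ) : ℤ) ∣ ((p ^ (v2 + 1) : ℕ) : ℤ) :=
        Int.natCast_dvd_natCast.2 (pow_dvd_pow p (by omega))
      apply h2 v1 m1.1
      have e6 : y v1 - y' v1 = (z - y' v1) - (z - y' v2) + (y v2 - y' v2) + (x - y v2)
          - (x - y v1) := by ring
      rw [e6]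
      exact dvd_sub (dvd_add (dvd_add (dvd_sub e1 (d2.trans e2)) (d1.trans e3)) (d2.trans e4)) e5
    intro i hi j hj hij
    rcases lt_or_gt_of_ne hij with h | h
    · exact key i hi j hj h
    · exact (key j hj i hi h).symm
  -- double counting
  have hs : ∑ v ∈ V, (cls (p ^ (v + 1)) X (y v)).card =
      ∑ x ∈ X, (V.filter (fun v => x ∈ cls (p ^ (v + 1)) X (y v))).card := by
    have e1 : ∀ v ∈ V, (cls (p ^ (v + 1)) X (y v)).card =
        ∑ x ∈ X, if x ∈ cls (p ^ (v + 1)) X (y v) then 1 else 0 := by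
      intro v _
      rw [← card_filter]
      congr 1
      ext z
      rw [mem_filter]
      exact ⟨fun h => ⟨cls_subset _ _ _ h, h⟩, fun h => h.2⟩
    rw [sum_congr rfl e1, sum_comm]
    refine sum_congr rfl fun x _ => ?_
    rw [card_filter]
  have hle : V.card * X.card ≤ K ^ 2 * X.card := by
    calc V.card * X.card = ∑ v ∈ V, X.card := by rw [sum_const, smul_eq_mul]
      _ ≤ ∑ v ∈ V, (cls (p ^ (v + 1)) X (y v)).card * K := sum_le_sum fun v hv => h3 v hv
      _ = (∑ v ∈ V, (cls (p ^ (v + 1)) X (y v)).card) * K := by rw [sum_mul]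
      _ = (∑ x ∈ X, (V.filter (fun v => x ∈ cls (p ^ (v + 1)) X (y v))).card) * K := by rw [hs]
      _ ≤ (∑ x ∈ X, K) * K := Nat.mul_le_mul_right _ (sum_le_sum hx)
      _ = K ^ 2 * X.card := by rw [sum_const, smul_eq_mul]; ring
  exact Nat.le_of_mul_le_mul_right hle hXpos

end Pool.Agent.Helper5.RD
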