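import Pool.Agent.Helper5.RD.Stm3
import Pool.Agent.Helper5.RD.Bas

/-! # Project RD, package N6: the number of exponents for which the steps get stuck
(author: helper97) -/

set_option autoImplicit false

namespace Pool.Agent.Helper5.RD.PN6

open Finset Classical Pool.Agent.Helper5.RD

theorem cls_cls {p J J' : ℕ} {X : Finset ℤ} {x : ℤ} :
    cls (p ^ J') (cls (p ^ J) X x) x = cls (p ^ max J J') X x := by
  ext y
  rw [mem_cls, mem_cls, mem_cls]
  rcases le_total J J' with h | h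
  · rw [max_eq_right h]
    constructor
    · rintro ⟨⟨h1, _⟩, h3⟩; exact ⟨h1, h3⟩
    · rintro ⟨h1, h2⟩
      exact ⟨⟨h1, (Int.natCast_dvd_natCast.2 (pow_dvd_pow p h)).trans h2⟩, h2⟩
  · rw [max_eq_left h]
    constructor
    · rintro ⟨h1, _⟩; exact h1
    · rintro ⟨h1, h2⟩
      exact ⟨⟨h1, h2⟩, (Int.natCast_dvd_natCast.2 (pow_dvd_pow p h)).trans h2⟩

/-- The shape of the cells. -/
def Shp (p : ℕ) (X B : Finset ℤ) (x b : ℤ) (C : Finset ℤ × Finset ℤ) : Prop :=
  (∃ J, C.1 = cls (p ^ J) X x) ∧ (∃ L, C.2 = cls (p ^ L) B b)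

theorem shp_init (p : ℕ) (X B : Finset ℤ) (x b : ℤ) : Shp p X B x b (X, B) := by
  refine ⟨⟨0, ?_⟩, ⟨0, ?_⟩⟩
  · ext y; rw [mem_cls]; simp
  · ext y; rw [mem_cls]; simp

theorem st2_shp {t A p e : ℕ} {X B : Finset ℤ} {x b : ℤ} {C : Finset ℤ × Finset ℤ}
    (h : Shp p X B x b C) : Shp p X B x b (st2 t A p e C x b) := by
  obtain ⟨⟨J, h1⟩, ⟨L, h2⟩⟩ := h
  unfold st2
  split_ifs
  · refine ⟨⟨max J (fst p (t ^ A) C.2 b - e), ?_⟩, ⟨max L (fst p (t ^ A) C.2 b), ?_⟩⟩
    · show cls _ C.1 x = _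
      rw [h1]; exact cls_cls
    · show cls _ C.2 b = _
      rw [h2]; exact cls_cls
  · refine ⟨⟨max J (fst p t C.1 x), ?_⟩, ⟨max L (fst p t C.1 x + e), ?_⟩⟩
    · show cls _ C.1 x = _
      rw [h1]; exact cls_cls
    · show cls _ C.2 b = _
      rw [h2]; exact cls_cls
  · exact ⟨⟨J, h1⟩, ⟨L, h2⟩⟩

theorem mul2_shp {t A p e : ℕ} {X B : Finset ℤ} {x b : ℤ} (R : ℕ) :
    ∀ C, Shp p X B x b C → Shp p X B x b (mul2 t A p e R C x b) := by
  induction R with
  | zero => intro C h; exact h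
  | succ R ih => intro C h; exact ih _ (st2_shp h)

theorem st2_card {t A p e : ℕ} (hA : 1 ≤ A) {x b : ℤ}
    (C : Finset ℤ × Finset ℤ) :
    st2 t A p e C x b = C ∨
      (st2 t A p e C x b).1.card * (st2 t A p e C x b).2.card * t ≤ C.1.card * C.2.card := by
  unfold st2
  split_ifs with h1 h2
  · right
    have h3 : (cls (p ^ fst p (t ^ A) C.2 b) C.2 b).card * t ^ A < C.2.card := fst_light h1.1
    have h4 : (cls (p ^ (fst p (t ^ A) C.2 b - e)) C.1 x).card ≤ C.1.card :=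
      card_le_card (cls_subset _ _ _)
    have h5 : t ≤ t ^ A := Nat.le_self_pow (by omega) t
    show (cls (p ^ (fst p (t ^ A) C.2 b - e)) C.1 x).card *
      (cls (p ^ fst p (t ^ A) C.2 b) C.2 b).card * t ≤ _
    calc _ = (cls (p ^ (fst p (t ^ A) C.2 b - e)) C.1 x).card *
          ((cls (p ^ fst p (t ^ A) C.2 b) C.2 b).card * t) := by ring
      _ ≤ C.1.card * ((cls (p ^ fst p (t ^ A) C.2 b) C.2 b).card * t ^ A) := by gcongr
      _ ≤ C.1.card * C.2.card := by gcongr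
  · right
    have h3 : (cls (p ^ fst p t C.1 x) C.1 x).card * t < C.1.card := fst_light h2.1.1
    have h4 : (cls (p ^ (fst p t C.1 x + e)) C.2 b).card ≤ C.2.card :=
      card_le_card (cls_subset _ _ _)
    show (cls (p ^ fst p t C.1 x) C.1 x).card *
      (cls (p ^ (fst p t C.1 x + e)) C.2 b).card * t ≤ _
    calc _ = ((cls (p ^ fst p t C.1 x) C.1 x).card * t) *
          (cls (p ^ (fst p t C.1 x + e)) C.2 b).card := by ring
      _ ≤ C.1.card * C.2.card := by gcongr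
  · left; rfl

theorem mul2_fix {t A p e : ℕ} {x b : ℤ} {C : Finset ℤ × Finset ℤ} (h : st2 t A p e C x b = C)
    (R : ℕ) : mul2 t A p e R C x b = C := by
  induction R with
  | zero => rfl
  | succ R ih => rw [mul2, h, ih]

theorem mul2_card {t A p e : ℕ} (hA : 1 ≤ A) {x b : ℤ} (R : ℕ) :
    ∀ C : Finset ℤ × Finset ℤ,
      st2 t A p e (mul2 t A p e R C x b) x b = mul2 t A p e R C x b ∨
      (mul2 t A p e R C x b).1.card * (mul2 t A p e R C x b).2.card * t ^ R ≤
        C.1.card * C.2.card := by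
  induction R with
  | zero => intro C; right; show C.1.card * C.2.card * t ^ 0 ≤ _; simp
  | succ R ih =>
    intro C
    rcases st2_card (t := t) (p := p) (e := e) hA (x := x) (b := b) C with h | h
    · left
      rw [mul2_fix h]; exact h
    · rcases ih (st2 t A p e C x b) with h1 | h1
      · left; exact h1
      · right
        show (mul2 t A p e R (st2 t A p e C x b) x b).1.card *
          (mul2 t A p e R (st2 t A p e C x b) x b).2.card * t ^ (R + 1) ≤ _
        calc _ = ((mul2 t A p e R (st2 t A p e C x b) x b).1.card *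
              (mul2 t A p e R (st2 t A p e C x b) x b).2.card * t ^ R) * t := by ring
          _ ≤ ((st2 t A p e C x b).1.card * (st2 t A p e C x b).2.card) * t :=
            Nat.mul_le_mul_right _ h1
          _ ≤ _ := h

/-- A cell that does not move. -/
theorem st2_ne {t A p e : ℕ} (ht : 1 ≤ t) {x b : ℤ} {C : Finset ℤ × Finset ℤ}
    (h : st2 t A p e C x b = C) :
    ¬ U1 t A p e C.1 C.2 x b ∧ ¬ (U0 t A p e C.1 C.2 x b ∧
      (light p (t ^ (A ^ 2)) C.1 x (fst p t C.1 x) ∨ Gen2 t A p e C.1 C.2)) := by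
  have key1 : ¬ U1 t A p e C.1 C.2 x b := by
    intro h1
    rw [st2, if_pos h1] at h
    have h3 : (cls (p ^ fst p (t ^ A) C.2 b) C.2 b).card * t ^ A < C.2.card := fst_light h1.1
    have h4 : cls (p ^ fst p (t ^ A) C.2 b) C.2 b = C.2 := congrArg Prod.snd h
    rw [h4] at h3
    have h5 : 1 ≤ t ^ A := Nat.one_le_pow _ _ ht
    nlinarith
  refine ⟨key1, ?_⟩
  intro h2
  rw [st2, if_neg key1, if_pos h2] at h
  have h3 : (cls (p ^ fst p t C.1 x) C.1 x).card * t < C.1.card := fst_light h2.1.1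
  have h4 : cls (p ^ fst p t C.1 x) C.1 x = C.1 := congrArg Prod.fst h
  rw [h4] at h3
  nlinarith

theorem light_weak {p K K' : ℕ} {X : Finset ℤ} {x : ℤ} {J : ℕ} (hK : K ≤ K')
    (h : light p K' X x J) : light p K X x J :=
  lt_of_le_of_lt (Nat.mul_le_mul_left _ hK) h

theorem one_le_of_light {p K : ℕ} {X : Finset ℤ} {x : ℤ} {J : ℕ} (hK : 1 ≤ K)
    (h : light p K X x J) : 1 ≤ J := by
  rcases Nat.eq_zero_or_pos J with h0 | h0
  · subst h0; exact absurd h (not_light_zero hK)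
  · exact h0

theorem not_light_pred {p K : ℕ} {X : Finset ℤ} {x : ℤ} (h0 : 1 ≤ fst p K X x) :
    ¬ light p K X x (fst p K X x - 1) := by
  intro h
  have := fst_le h
  omega

/-- Case (a): not of type 0 or 1. -/
theorem caseA {t A p e : ℕ} (hp : 2 ≤ p) (ht : 1 ≤ t) {x b : ℤ} {C : Finset ℤ × Finset ℤ}
    (hn : ¬ (C.1.card ≤ t ∧ C.2.card ≤ t ^ A)) (h1 : ¬ U1 t A p e C.1 C.2 x b)
    (h0 : ¬ U0 t A p e C.1 C.2 x b) :
    ∃ j k, (1 ≤ j ∧ light p (2 * t) C.1 x j ∧ ¬ light p t C.1 x (j - 1)) ∧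
      (1 ≤ k ∧ light p (2 * t ^ A) C.2 b k ∧ ¬ light p (t ^ A) C.2 b (k - 1)) ∧ k = j + e := by
  have hA1 : 1 ≤ t ^ A := Nat.one_le_pow _ _ ht
  have a1 : (∃ J, light p (t ^ A) C.2 b J) → light p (2 * t) C.1 x (fst p (t ^ A) C.2 b - e) := by
    intro h3
    by_contra h4
    exact h1 ⟨h3, h4⟩
  have a0 : (∃ J, light p t C.1 x J) → light p (2 * t ^ A) C.2 b (fst p t C.1 x + e) := by
    intro h3
    by_contra h4
    exact h0 ⟨h3, h4⟩
  have hX : (∃ J, light p t C.1 x J) ∧ ∃ J, light p (t ^ A) C.2 b J := by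
    rw [not_and_or, not_le, not_le] at hn
    rcases hn with hn | hn
    · have h3 : ∃ J, light p t C.1 x J := exists_light_of_lt hp hn
      exact ⟨h3, ⟨_, light_weak (by omega) (a0 h3)⟩⟩
    · have h3 : ∃ J, light p (t ^ A) C.2 b J := exists_light_of_lt hp hn
      exact ⟨⟨_, light_weak (by omega) (a1 h3)⟩, h3⟩
  have b1 := a1 hX.2
  have b0 := a0 hX.1
  have c1 : fst p t C.1 x ≤ fst p (t ^ A) C.2 b - e := fst_le (light_weak (by omega) b1)
  have c0 : fst p (t ^ A) C.2 b ≤ fst p t C.1 x + e := fst_le (light_weak (by omega) b0)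
  have d1 : 1 ≤ fst p t C.1 x := one_le_of_light ht (fst_light hX.1)
  have d0 : 1 ≤ fst p (t ^ A) C.2 b := one_le_of_light hA1 (fst_light hX.2)
  have e1 : fst p (t ^ A) C.2 b = fst p t C.1 x + e := by omega
  refine ⟨fst p t C.1 x, fst p (t ^ A) C.2 b, ⟨d1, ?_, not_light_pred d1⟩,
    ⟨d0, ?_, not_light_pred d0⟩, e1⟩
  · have : fst p (t ^ A) C.2 b - e = fst p t C.1 x := by omega
    rw [this] at b1; exact b1
  · rw [e1]; exact b0

/-- In terms of the original set. -/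
theorem drop {p K T J : ℕ} (hK : 1 ≤ K) {X X' : Finset ℤ} {x : ℤ} (hX' : X' = cls (p ^ J) X x)
    {j : ℕ} (hj : 1 ≤ j) (h1 : light p (2 * K) X' x j) (h2 : ¬ light p K X' x (j - 1))
    (h3 : X.card < X'.card * T) :
    1 ≤ j ∧ 2 * (cls (p ^ j) X x).card < (cls (p ^ (j - 1)) X x).card ∧
      X.card < (cls (p ^ (j - 1)) X x).card * (K * T) := by
  have hJ : J < j := by
    by_contra hc
    have h4 : cls (p ^ j) X' x = X' := by
      rw [hX', cls_cls, max_eq_left (by omega)]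
    unfold light at h1
    rw [h4] at h1
    nlinarith
  have h5 : cls (p ^ j) X' x = cls (p ^ j) X x := by
    rw [hX', cls_cls, max_eq_right (by omega)]
  have h6 : cls (p ^ (j - 1)) X' x = cls (p ^ (j - 1)) X x := by
    rw [hX', cls_cls, max_eq_right (by omega)]
  unfold light at h1 h2
  rw [h5] at h1
  rw [h6, not_lt] at h2
  refine ⟨hj, ?_, ?_⟩
  · by_contra hc
    rw [not_lt] at hc
    have : (cls (p ^ (j - 1)) X x).card * K ≤ 2 * (cls (p ^ j) X x).card * K :=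
      Nat.mul_le_mul_right _ hc
    nlinarith
  · calc X.card < X'.card * T := h3
      _ ≤ ((cls (p ^ (j - 1)) X x).card * K) * T := Nat.mul_le_mul_right _ h2
      _ = _ := by ring

theorem pow_drop (f : ℕ → ℕ) (hf : Antitone f) (N : ℕ) (hN : f 0 ≤ N) (S : Finset ℕ) :
    (∀ j ∈ S, 1 ≤ j ∧ 2 * f j < f (j - 1)) → ∀ m, (∀ j ∈ S, j < m) →
      2 ^ S.card * f (m - 1) ≤ N := by
  induction S using Finset.induction_on_max with
  | empty =>
    intro _ m _
    rw [card_empty, pow_zero, one_mul]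
    exact (hf (Nat.zero_le _)).trans hN
  | insert a S ha ih =>
    intro h m hm
    have h1 := ih (fun j hj => h j (mem_insert_of_mem hj)) a ha
    have h2 := h a (mem_insert_self _ _)
    have h3 := hm a (mem_insert_self _ _)
    have h4 : f (m - 1) ≤ f a := hf (by omega)
    have h5 : a ∉ S := fun h => absurd (ha a h) (lt_irrefl _)
    rw [card_insert_of_notMem h5]
    calc 2 ^ (S.card + 1) * f (m - 1) = 2 ^ S.card * (2 * f (m - 1)) := by ring
      _ ≤ 2 ^ S.card * f (a - 1) := Nat.mul_le_mul_left _ (by omega)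
      _ ≤ N := h1

theorem count_drop (f : ℕ → ℕ) (hf : Antitone f) (N Kc : ℕ) (hN : f 0 ≤ N) (S : Finset ℕ)
    (hS : ∀ j ∈ S, 1 ≤ j ∧ 2 * f j < f (j - 1) ∧ N < f (j - 1) * Kc) :
    S.card ≤ Nat.log 2 Kc + 1 := by
  rcases S.eq_empty_or_nonempty with h | h
  · rw [h, card_empty]; omega
  set a := S.max' h with ha
  have h1 : a ∈ S := S.max'_mem h
  have h2 : 2 ^ (S.erase a).card * f (a - 1) ≤ N := by
    refine pow_drop f hf N hN (S.erase a) (fun j hj => ?_) a (fun j hj => ?_)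
    · have := hS j (mem_of_mem_erase hj); exact ⟨this.1, this.2.1⟩
    · exact S.lt_max'_of_mem_erase_max' h hj
  have h3 := hS a h1
  have h4 : 2 ^ (S.erase a).card ≤ Kc := by
    by_contra hc
    rw [not_le] at hc
    have : f (a - 1) * Kc ≤ 2 ^ (S.erase a).card * f (a - 1) := by
      rw [mul_comm]; exact Nat.mul_le_mul_right _ hc.le
    omega
  have h5 := Nat.le_log_of_pow_le (by norm_num) h4
  have h6 := card_erase_add_one h1
  omega

/-- The enlarged cells. -/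
noncomputable def Yi (p : ℕ) (X : Finset ℤ) (x : ℤ) (i : ℕ) : Finset ℤ :=
  cls (p ^ sInf {j | (cls (p ^ j) X x).card * 2 ^ i ≤ X.card}) X x

theorem br_up {p K T J v : ℕ} {X X' : Finset ℤ} {x : ℤ} (hx : x ∈ X)
    (hX' : X' = cls (p ^ J) X x) (h3 : X.card < X'.card * T) (hb : Br p K X' v) :
    ∃ i ≤ Nat.log 2 T, Br p (2 * K) (Yi p X x i) v := by
  have hxX' : x ∈ X' := by rw [hX']; exact self_mem_cls hx
  have hc : 0 < X'.card := card_pos.2 ⟨x, hxX'⟩
  have hcX : X'.card ≤ X.card := by rw [hX']; exact card_le_card (cls_subset _ _ _)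
  have hq : X.card / X'.card ≠ 0 := by
    have := Nat.div_pos hcX hc; omega
  set i := Nat.log 2 (X.card / X'.card) with hi
  have h4 : 2 ^ i ≤ X.card / X'.card := Nat.pow_log_le_self 2 hq
  have h5 : X'.card * 2 ^ i ≤ X.card := by
    rw [mul_comm]; exact (Nat.le_div_iff_mul_le hc).1 h4
  have h6 : X.card < 2 ^ (i + 1) * X'.card :=
    (Nat.div_lt_iff_lt_mul hc).1 (Nat.lt_pow_succ_log_self (by norm_num) _)
  have h7 : 2 ^ i ≤ T := by
    by_contra hcc
    rw [not_le] at hcc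
    have : X'.card * T ≤ X'.card * 2 ^ i := Nat.mul_le_mul_left _ hcc.le
    omega
  refine ⟨i, Nat.le_log_of_pow_le (by norm_num) h7, ?_⟩
  have hJm : J ∈ {j | (cls (p ^ j) X x).card * 2 ^ i ≤ X.card} := by
    show (cls (p ^ J) X x).card * 2 ^ i ≤ X.card
    rw [← hX']; exact h5
  have hle : sInf {j | (cls (p ^ j) X x).card * 2 ^ i ≤ X.card} ≤ J := Nat.sInf_le hJm
  have hmem : (Yi p X x i).card * 2 ^ i ≤ X.card := Nat.sInf_mem ⟨J, hJm⟩
  have hsub : X' ⊆ Yi p X x i := by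
    rw [hX']; exact cls_anti (pow_dvd_pow p hle)
  have h8 : (Yi p X x i).card ≤ 2 * X'.card := by
    have h9 : (Yi p X x i).card * 2 ^ i < (2 * X'.card) * 2 ^ i := by
      calc _ ≤ X.card := hmem
        _ < 2 ^ (i + 1) * X'.card := h6
        _ = _ := by ring
    exact (lt_of_mul_lt_mul_right h9 (Nat.zero_le _)).le
  have hmono : ∀ (q : ℕ) (y : ℤ), (cls q X' y).card ≤ (cls q (Yi p X x i) y).card := by
    intro q y
    refine card_le_card (fun z hz => ?_)
    rw [mem_cls] at hz ⊢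
    exact ⟨hsub hz.1, hz.2⟩
  obtain ⟨y, hy, y', hy', d1, d2, c1, c2⟩ := hb
  refine ⟨y, hsub hy, y', hsub hy', d1, d2, ?_, ?_⟩
  · calc (Yi p X x i).card ≤ 2 * X'.card := h8
      _ ≤ 2 * ((cls (p ^ (v + 1)) X' y).card * K) := by gcongr
      _ ≤ 2 * ((cls (p ^ (v + 1)) (Yi p X x i) y).card * K) := by
        exact Nat.mul_le_mul_left _ (Nat.mul_le_mul_right _ (hmono _ _))
      _ = _ := by ring
  · calc (Yi p X x i).card ≤ 2 * X'.card := h8
      _ ≤ 2 * ((cls (p ^ (v + 1)) X' y').card * K) := by gcongr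
      _ ≤ 2 * ((cls (p ^ (v + 1)) (Yi p X x i) y').card * K) := by
        exact Nat.mul_le_mul_left _ (Nat.mul_le_mul_right _ (hmono _ _))
      _ = _ := by ring

theorem count_br (h5 : S_N5) {p : ℕ} (hp : p.Prime) (K M : ℕ) (Z : ℕ → Finset ℤ) (V : Finset ℕ)
    (hV : ∀ v ∈ V, ∃ i ≤ M, Br p K (Z i) v) : V.card ≤ (M + 1) * K ^ 2 := by
  have h1 : V ⊆ (range (M + 1)).biUnion (fun i => V.filter (fun v => Br p K (Z i) v)) := by
    intro v hv
    obtain ⟨i, hi, hb⟩ := hV v hv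
    rw [mem_biUnion]
    exact ⟨i, mem_range.2 (by omega), mem_filter.2 ⟨hv, hb⟩⟩
  calc V.card ≤ _ := card_le_card h1
    _ ≤ ∑ i ∈ range (M + 1), (V.filter (fun v => Br p K (Z i) v)).card := card_biUnion_le
    _ ≤ ∑ i ∈ range (M + 1), K ^ 2 := sum_le_sum (fun i _ =>
        h5 p K (Z i) _ hp (fun v hv => (mem_filter.1 hv).2))
    _ = (M + 1) * K ^ 2 := by rw [sum_const, card_range, smul_eq_mul]

theorem pair_count (E : Finset ℕ) (P Q : ℕ → Prop) (nP nQ : ℕ)
    (hP : ∀ S : Finset ℕ, (∀ j ∈ S, P j) → S.card ≤ nP)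
    (hQ : ∀ S : Finset ℕ, (∀ j ∈ S, Q j) → S.card ≤ nQ)
    (h : ∀ e ∈ E, ∃ j k, P j ∧ Q k ∧ k = j + e) : E.card ≤ nP * nQ := by
  choose! f g hfg using h
  have h1 : E.card ≤ (E.image f ×ˢ E.image g).card := by
    refine card_le_card_of_injOn (fun e => (f e, g e)) (fun e he => ?_) (fun e he e' he' hee => ?_)
    · exact mem_coe.2 (mem_product.2 ⟨mem_image_of_mem _ he, mem_image_of_mem _ he⟩)
    · have h2 := (hfg e he).2.2
      have h3 := (hfg e' he').2.2
      have h4 : f e = f e' := congrArg Prod.fst hee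
      have h5 : g e = g e' := congrArg Prod.snd hee
      omega
  rw [card_product] at h1
  refine h1.trans (Nat.mul_le_mul (hP _ ?_) (hQ _ ?_))
  · intro j hj
    obtain ⟨e, he, rfl⟩ := mem_image.1 hj
    exact (hfg e he).1
  · intro j hj
    obtain ⟨e, he, rfl⟩ := mem_image.1 hj
    exact (hfg e he).2.1

theorem p_N6 (h5 : S_N5) : S_N6 := by
  intro t A R p X B x b Es hp ht hA hx hb hE
  have ht1 : 1 ≤ t := by omega
  have htA1 : 1 ≤ t ^ A := Nat.one_le_pow _ _ ht1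
  have hXc : 0 < X.card := card_pos.2 ⟨x, hx⟩
  have hBc : 0 < B.card := card_pos.2 ⟨b, hb⟩
  -- the data of the final cell
  have hdat : ∀ e ∈ Es, ∃ C : Finset ℤ × Finset ℤ, C = mul2 t A p e R (X, B) x b ∧
      (∃ J, C.1 = cls (p ^ J) X x) ∧ (∃ L, C.2 = cls (p ^ L) B b) ∧
      X.card < C.1.card * t ^ R ∧ B.card < C.2.card * t ^ R ∧
      ¬ (C.1.card ≤ t ∧ C.2.card ≤ t ^ A) ∧ ¬ U1 t A p e C.1 C.2 x b ∧
      ¬ (U0 t A p e C.1 C.2 x b ∧
        (light p (t ^ (A ^ 2)) C.1 x (fst p t C.1 x) ∨ Gen2 t A p e C.1 C.2)) := by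
    intro e he
    obtain ⟨h1, h2⟩ := hE e he
    obtain ⟨⟨J, hJ⟩, ⟨L, hL⟩⟩ := mul2_shp (t := t) (A := A) (e := e) R (X, B) (shp_init p X B x b)
    have h3 : st2 t A p e (mul2 t A p e R (X, B) x b) x b = mul2 t A p e R (X, B) x b := by
      rcases mul2_card (t := t) (p := p) (e := e) hA (x := x) (b := b) R (X, B) with h | h
      · exact h
      · exact absurd h2 (not_lt.2 h)
    obtain ⟨h4, h6⟩ := st2_ne ht1 h3
    have h7 : (mul2 t A p e R (X, B) x b).1.card ≤ X.card := by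
      rw [hJ]; exact card_le_card (cls_subset _ _ _)
    have h8 : (mul2 t A p e R (X, B) x b).2.card ≤ B.card := by
      rw [hL]; exact card_le_card (cls_subset _ _ _)
    refine ⟨_, rfl, ⟨J, hJ⟩, ⟨L, hL⟩, ?_, ?_, h1, h4, h6⟩
    · have h9 : X.card * B.card < ((mul2 t A p e R (X, B) x b).1.card * t ^ R) * B.card := by
        calc _ < _ := h2
          _ = ((mul2 t A p e R (X, B) x b).1.card * t ^ R) *
              (mul2 t A p e R (X, B) x b).2.card := by ring
          _ ≤ _ := Nat.mul_le_mul_left _ h8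
      exact lt_of_mul_lt_mul_right h9 (Nat.zero_le _)
    · have h9 : B.card * X.card < ((mul2 t A p e R (X, B) x b).2.card * t ^ R) * X.card := by
        calc B.card * X.card = X.card * B.card := by ring
          _ < _ := h2
          _ = ((mul2 t A p e R (X, B) x b).2.card * t ^ R) *
              (mul2 t A p e R (X, B) x b).1.card := by ring
          _ ≤ _ := Nat.mul_le_mul_left _ h7
      exact lt_of_mul_lt_mul_right h9 (Nat.zero_le _)
  -- case (a)
  have hantX : Antitone (fun j => (cls (p ^ j) X x).card) := fun i j hij =>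
    card_le_card (cls_anti (pow_dvd_pow p hij))
  have hantB : Antitone (fun j => (cls (p ^ j) B b).card) := fun i j hij =>
    card_le_card (cls_anti (pow_dvd_pow p hij))
  have hA' : (Es.filter (fun e => ¬ U0 t A p e (mul2 t A p e R (X, B) x b).1
      (mul2 t A p e R (X, B) x b).2 x b)).card ≤
      (Nat.log 2 (t * t ^ R) + 1) * (Nat.log 2 (t ^ A * t ^ R) + 1) := by
    refine pair_count _
      (fun j => 1 ≤ j ∧ 2 * (cls (p ^ j) X x).card < (cls (p ^ (j - 1)) X x).card ∧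
        X.card < (cls (p ^ (j - 1)) X x).card * (t * t ^ R))
      (fun j => 1 ≤ j ∧ 2 * (cls (p ^ j) B b).card < (cls (p ^ (j - 1)) B b).card ∧
        B.card < (cls (p ^ (j - 1)) B b).card * (t ^ A * t ^ R)) _ _
      (fun S hS => count_drop _ hantX X.card _ (card_le_card (cls_subset _ _ _)) S hS)
      (fun S hS => count_drop _ hantB B.card _ (card_le_card (cls_subset _ _ _)) S hS) ?_
    intro e he
    obtain ⟨he1, he2⟩ := mem_filter.1 he
    obtain ⟨C, hC, ⟨J, hJ⟩, ⟨L, hL⟩, h3, h4, h6, h7, h8⟩ := hdat e he1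
    rw [← hC] at he2
    obtain ⟨j, k, ⟨j1, j2, j3⟩, ⟨k1, k2, k3⟩, hjk⟩ := caseA hp.two_le ht1 h6 h7 he2
    exact ⟨j, k, drop ht1 hJ j1 j2 j3 h3, drop htA1 hL k1 k2 k3 h4, hjk⟩
  have hB' : (Es.filter (fun e => ¬ ¬ U0 t A p e (mul2 t A p e R (X, B) x b).1
      (mul2 t A p e R (X, B) x b).2 x b)).card ≤
      ((Nat.log 2 (t ^ R) + 1) * (2 * t ^ (A ^ 2)) ^ 2) *
        ((Nat.log 2 (t ^ R) + 1) * (2 * (2 * t ^ A)) ^ 2) := by
    refine pair_count _
      (fun v => ∃ i ≤ Nat.log 2 (t ^ R), Br p (2 * t ^ (A ^ 2)) (Yi p X x i) v)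
      (fun v => ∃ i ≤ Nat.log 2 (t ^ R), Br p (2 * (2 * t ^ A)) (Yi p B b i) v) _ _
      (fun S hS => count_br h5 hp _ _ _ S hS) (fun S hS => count_br h5 hp _ _ _ S hS) ?_
    intro e he
    obtain ⟨he1, he2⟩ := mem_filter.1 he
    obtain ⟨C, hC, ⟨J, hJ⟩, ⟨L, hL⟩, h3, h4, h6, h7, h8⟩ := hdat e he1
    rw [not_not, ← hC] at he2
    have h9 : ¬ Gen2 t A p e C.1 C.2 := fun h => h8 ⟨he2, Or.inr h⟩
    unfold Gen2 at h9
    push Not at h9
    obtain ⟨v, hv1, hv2⟩ := h9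
    exact ⟨v, e + v, br_up hx hJ h3 hv1, br_up hb hL h4 hv2, by ring⟩
  have hsum := card_filter_add_card_filter_not (s := Es) (fun e =>
    ¬ U0 t A p e (mul2 t A p e R (X, B) x b).1 (mul2 t A p e R (X, B) x b).2 x b)
  rw [← hsum]
  refine (Nat.add_le_add hA' hB').trans (le_of_eq ?_)
  unfold bd
  ring

end Pool.Agent.Helper5.RD.PN6

namespace Pool.Agent.Helper5.RD

/-- Package N6. -/
theorem p_N6 (h5 : S_N5) : S_N6 := PN6.p_N6 h5

end Pool.Agent.Helper5.RD
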