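import Pool.Agent.Helper5.RD.Stm3
import Pool.Agent.Helper5.RD.PB

/-! # Project RD, package N7: the index vectors along which the run does not finish -/

set_option autoImplicit false

namespace Pool.Agent.Helper5.RD.PN7

open Finset Classical Pool.Agent.Helper5.RD

theorem st2_mem {t A p e : ℕ} {C : Finset ℤ × Finset ℤ} {x b : ℤ} (hx : x ∈ C.1)
    (hb : b ∈ C.2) : x ∈ (st2 t A p e C x b).1 ∧ b ∈ (st2 t A p e C x b).2 := by
  rw [st2]
  split_ifs
  · exact ⟨PB.self_mem_cls hx, PB.self_mem_cls hb⟩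
  · exact ⟨PB.self_mem_cls hx, PB.self_mem_cls hb⟩
  · exact ⟨hx, hb⟩

theorem st2_sub {t A p e : ℕ} {C : Finset ℤ × Finset ℤ} {x b : ℤ} :
    (st2 t A p e C x b).1 ⊆ C.1 ∧ (st2 t A p e C x b).2 ⊆ C.2 := by
  rw [st2]
  split_ifs
  · exact ⟨PB.cls_sub _ _ _, PB.cls_sub _ _ _⟩
  · exact ⟨PB.cls_sub _ _ _, PB.cls_sub _ _ _⟩
  · exact ⟨Subset.rfl, Subset.rfl⟩

theorem mul2_mem {t A p e : ℕ} (R : ℕ) {C : Finset ℤ × Finset ℤ} {x b : ℤ} (hx : x ∈ C.1)
    (hb : b ∈ C.2) : x ∈ (mul2 t A p e R C x b).1 ∧ b ∈ (mul2 t A p e R C x b).2 := by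
  induction R generalizing C with
  | zero => exact ⟨hx, hb⟩
  | succ R ih => exact ih (st2_mem hx hb).1 (st2_mem hx hb).2

theorem mul2_sub {t A p e : ℕ} (R : ℕ) {C : Finset ℤ × Finset ℤ} {x b : ℤ} :
    (mul2 t A p e R C x b).1 ⊆ C.1 ∧ (mul2 t A p e R C x b).2 ⊆ C.2 := by
  induction R generalizing C with
  | zero => exact ⟨Subset.rfl, Subset.rfl⟩
  | succ R ih =>
    have h1 := ih (C := st2 t A p e C x b)
    have h2 := st2_sub (t := t) (A := A) (p := p) (e := e) (C := C) (x := x) (b := b)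
    exact ⟨h1.1.trans h2.1, h1.2.trans h2.2⟩

theorem run2_sub {A R : ℕ} (L : List (ℕ × ℕ × ℕ)) {C : Finset ℤ × Finset ℤ} {x b : ℤ} :
    (run2 A R L C x b).1 ⊆ C.1 ∧ (run2 A R L C x b).2 ⊆ C.2 := by
  induction L generalizing C with
  | nil => exact ⟨Subset.rfl, Subset.rfl⟩
  | cons q L ih =>
    have h1 := ih (C := mul2 q.2.1 A q.1 q.2.2 R C x b)
    have h2 := mul2_sub (t := q.2.1) (A := A) (p := q.1) (e := q.2.2) R (C := C) (x := x) (b := b)
    exact ⟨h1.1.trans h2.1, h1.2.trans h2.2⟩

theorem run2_fin {A R Y : ℕ} (L : List (ℕ × ℕ × ℕ)) {C : Finset ℤ × Finset ℤ} {x b : ℤ}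
    (h : Fin2 Y C) : Fin2 Y (run2 A R L C x b) := by
  have h1 := run2_sub (A := A) (R := R) L (C := C) (x := x) (b := b)
  exact ⟨(card_le_card h1.1).trans h.1, (card_le_card h1.2).trans h.2⟩

theorem slice_card_mul (E : Finset (List ℕ)) (i : ℕ)
    (hdown : ∀ l ∈ E, ∀ l', List.Forall₂ (· ≤ ·) l' l → l' ∈ E) :
    (i + 1) * (PB.slice E i).card ≤ E.card := by
  have h1 : (range (i + 1) ×ˢ PB.slice E i).card ≤ E.card := by
    refine card_le_card_of_injOn (fun q => q.1 :: q.2) ?_ ?_
    · intro q hq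
      have hq' := mem_product.1 (mem_coe.1 hq)
      exact mem_coe.2 (hdown _ (PB.mem_slice.1 hq'.2) _ (List.Forall₂.cons
        (Nat.lt_succ_iff.1 (mem_range.1 hq'.1)) (List.forall₂_refl _)))
    · intro q _ q' _ h
      have h2 := List.cons.inj h
      exact Prod.ext h2.1 h2.2
  rwa [card_product, card_range] at h1

theorem main (hN6 : S_N6) : S_N7 := by
  intro A R G g Y γ t w hγ hA hw ps
  induction ps with
  | nil =>
    intro _ x b C hx hb E hE _
    have hR : (1 : ℝ) ≤ ((C.1.card : ℝ) * C.2.card) ^ γ := by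
      refine Real.one_le_rpow ?_ hγ
      have h1 : 0 < C.1.card := card_pos.2 ⟨x, hx⟩
      have h2 : 0 < C.2.card := card_pos.2 ⟨b, hb⟩
      exact_mod_cast Nat.mul_pos h1 h2
    calc _ ≤ (E.card : ℝ) := by exact_mod_cast card_le_card (filter_subset _ _)
      _ ≤ _ := by
        rw [List.map_nil, List.prod_nil, mul_one]
        exact le_mul_of_one_le_right (Nat.cast_nonneg _) hR
  | cons p ps ih =>
    intro hps x b C hx hb E hE hdown
    obtain ⟨hp, ht2, htY, htAY, hsum⟩ := hps p List.mem_cons_self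
    have hps' := fun q hq => hps q (List.mem_cons_of_mem _ hq)
    have hne : ∀ l ∈ E, l ≠ [] := by
      intro l hl h1
      have h2 := hE l hl
      rw [h1] at h2
      simp at h2
    obtain ⟨X, B⟩ := C
    simp only at hx hb
    set M : ℝ := (ps.map (fun p => ((t p : ℝ) ^ g)⁻¹)).prod with hM
    have hM0 : 0 ≤ M := by
      refine List.prod_nonneg fun a ha => ?_
      obtain ⟨q, _, rfl⟩ := List.mem_map.1 ha
      positivity
    set ρ : ℝ := ((X.card : ℝ) * B.card) ^ γ with hρ
    have hρ0 : 0 ≤ ρ := by positivity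
    have hT0 : (0 : ℝ) < t p := by exact_mod_cast (by omega : 0 < t p)
    set κ : ℝ := ((t p : ℝ) ^ R) ^ (-γ) with hκ
    have hκ0 : 0 ≤ κ := Real.rpow_nonneg (by positivity) _
    set c : ℕ → Finset ℤ × Finset ℤ := fun i => mul2 (t p) A p (w p * i) R (X, B) x b with hc
    -- the stuck indices
    set S : Finset ℕ := (E.image List.headI).filter (fun i => t p ^ G ≤ i ∧
      ¬ ((c i).1.card ≤ t p ∧ (c i).2.card ≤ t p ^ A) ∧
      X.card * B.card < (c i).1.card * (c i).2.card * t p ^ R) with hS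
    have hScard : S.card ≤ bd (t p) A R := by
      have h1 : (S.image (fun i => w p * i)).card = S.card :=
        card_image_of_injective _ fun a a' h => Nat.eq_of_mul_eq_mul_left (hw p) h
      rw [← h1]
      refine hN6 (t p) A R p X B x b _ hp ht2 hA hx hb ?_
      intro e he
      obtain ⟨i, hi, rfl⟩ := mem_image.1 he
      exact (mem_filter.1 hi).2.2
    -- the slices
    have hsl : ∀ i, (∑ l' ∈ PB.slice E i,
        if (∀ q ∈ (p :: ps).zip (i :: l'), t q.1 ^ G ≤ q.2) ∧
          ¬ Fin2 Y (run2 A R (trip t w (p :: ps) (i :: l')) (X, B) x b) then (1 : ℝ) else 0) ≤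
        (PB.slice E i).card * M * (((c i).1.card : ℝ) * (c i).2.card) ^ γ := by
      intro i
      have h1 : ∀ l ∈ PB.slice E i, l.length = ps.length := by
        intro l hl
        have h2 := hE _ (PB.mem_slice.1 hl)
        simpa using h2
      have h2 : ∀ l ∈ PB.slice E i, ∀ l', List.Forall₂ (· ≤ ·) l' l → l' ∈ PB.slice E i := by
        intro l hl l' hl'
        exact PB.mem_slice.2 (hdown _ (PB.mem_slice.1 hl) _ (List.Forall₂.cons le_rfl hl'))
      have h3 := ih hps' x b (c i) (mul2_mem R hx hb).1 (mul2_mem R hx hb).2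
        (PB.slice E i) h1 h2
      refine le_trans ?_ h3
      rw [card_filter, Nat.cast_sum]
      refine sum_le_sum fun l _ => ?_
      by_cases h6 : (∀ q ∈ (p :: ps).zip (i :: l), t q.1 ^ G ≤ q.2) ∧
          ¬ Fin2 Y (run2 A R (trip t w (p :: ps) (i :: l)) (X, B) x b)
      · rw [if_pos h6, if_pos, Nat.cast_one]
        refine ⟨fun q hq => h6.1 q ?_, h6.2⟩
        rw [List.zip_cons_cons]
        exact List.mem_cons_of_mem _ hq
      · rw [if_neg h6]
        positivity
    have hzero : ∀ i, (i < t p ^ G ∨ ((c i).1.card ≤ t p ∧ (c i).2.card ≤ t p ^ A)) →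
        (∑ l' ∈ PB.slice E i,
        if (∀ q ∈ (p :: ps).zip (i :: l'), t q.1 ^ G ≤ q.2) ∧
          ¬ Fin2 Y (run2 A R (trip t w (p :: ps) (i :: l')) (X, B) x b) then (1 : ℝ) else 0) = 0 := by
      intro i hi
      refine sum_eq_zero fun l _ => ?_
      rw [if_neg]
      rintro ⟨h1, h2⟩
      rcases hi with hi | hi
      · have h3 := h1 (p, i) (by rw [List.zip_cons_cons]; exact List.mem_cons_self)
        simp only at h3
        omega
      · refine h2 (run2_fin (C := c i) _ ⟨hi.1.trans htY, hi.2.trans htAY⟩)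
    have hterm : ∀ i ∈ E.image List.headI, (∑ l' ∈ PB.slice E i,
        if (∀ q ∈ (p :: ps).zip (i :: l'), t q.1 ^ G ≤ q.2) ∧
          ¬ Fin2 Y (run2 A R (trip t w (p :: ps) (i :: l')) (X, B) x b) then (1 : ℝ) else 0) ≤
        κ * M * ρ * (PB.slice E i).card +
          (if i ∈ S then E.card / (t p : ℝ) ^ G * M * ρ else 0) := by
      intro i hi
      have hnn : (0 : ℝ) ≤ if i ∈ S then E.card / (t p : ℝ) ^ G * M * ρ else 0 := by
        split_ifs <;> positivity
      by_cases h0 : i < t p ^ G ∨ ((c i).1.card ≤ t p ∧ (c i).2.card ≤ t p ^ A)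
      · rw [hzero i h0]
        positivity
      rw [not_or, not_lt] at h0
      have hsub := mul2_sub (t := t p) (A := A) (p := p) (e := w p * i) R (C := (X, B))
        (x := x) (b := b)
      by_cases h1 : (c i).1.card * (c i).2.card * t p ^ R ≤ X.card * B.card
      · have h2 : (((c i).1.card : ℝ) * (c i).2.card) ^ γ ≤ κ * ρ := by
          have hTR : (0 : ℝ) < (t p : ℝ) ^ R := by positivity
          have h3 : ((c i).1.card : ℝ) * (c i).2.card ≤
              ((t p : ℝ) ^ R)⁻¹ * ((X.card : ℝ) * B.card) := by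
            rw [inv_mul_eq_div, le_div_iff₀ hTR]
            exact_mod_cast h1
          calc _ ≤ (((t p : ℝ) ^ R)⁻¹ * ((X.card : ℝ) * B.card)) ^ γ :=
                Real.rpow_le_rpow (by positivity) h3 hγ
            _ = κ * ρ := by
                rw [Real.mul_rpow (by positivity) (by positivity), Real.inv_rpow hTR.le,
                  ← Real.rpow_neg hTR.le]
        calc _ ≤ (PB.slice E i).card * M * (((c i).1.card : ℝ) * (c i).2.card) ^ γ := hsl i
          _ ≤ (PB.slice E i).card * M * (κ * ρ) := by gcongr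
          _ = κ * M * ρ * (PB.slice E i).card := by ring
          _ ≤ _ := le_add_of_nonneg_right hnn
      · have h2 : i ∈ S := mem_filter.2 ⟨hi, h0.1, h0.2, not_le.1 h1⟩
        rw [if_pos h2]
        have h3 : ((PB.slice E i).card : ℝ) ≤ E.card / (t p : ℝ) ^ G := by
          rw [le_div_iff₀ (by positivity)]
          have h4 := slice_card_mul E i hdown
          have h5 : (PB.slice E i).card * t p ^ G ≤ E.card :=
            calc (PB.slice E i).card * t p ^ G ≤ (PB.slice E i).card * (i + 1) :=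
                  Nat.mul_le_mul_left _ (h0.1.trans (Nat.le_succ i))
              _ = (i + 1) * (PB.slice E i).card := Nat.mul_comm _ _
              _ ≤ E.card := h4
          exact_mod_cast h5
        have h4 : (((c i).1.card : ℝ) * (c i).2.card) ^ γ ≤ ρ := by
          refine Real.rpow_le_rpow (by positivity) ?_ hγ
          have h5 : (c i).1.card ≤ X.card := card_le_card hsub.1
          have h6 : (c i).2.card ≤ B.card := card_le_card hsub.2
          exact_mod_cast Nat.mul_le_mul h5 h6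
        calc _ ≤ (PB.slice E i).card * M * (((c i).1.card : ℝ) * (c i).2.card) ^ γ := hsl i
          _ ≤ E.card / (t p : ℝ) ^ G * M * ρ := by gcongr
          _ ≤ _ := le_add_of_nonneg_left (by positivity)
    rw [card_filter, Nat.cast_sum]
    push_cast
    rw [PB.slice_sum E hne]
    calc _ ≤ ∑ i ∈ E.image List.headI, (κ * M * ρ * (PB.slice E i).card +
            (if i ∈ S then E.card / (t p : ℝ) ^ G * M * ρ else 0)) := by
          refine sum_le_sum fun i hi => ?_
          refine le_trans (le_of_eq (sum_congr rfl fun l _ => ?_)) (hterm i hi)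
          rfl
      _ = κ * M * ρ * E.card + S.card * (E.card / (t p : ℝ) ^ G * M * ρ) := by
          have h1 : (E.image List.headI).filter (· ∈ S) = S := by
            ext i
            rw [mem_filter]
            exact ⟨fun h => h.2, fun h => ⟨(mem_filter.1 h).1, h⟩⟩
          rw [sum_add_distrib, ← mul_sum, ← PB.slice_card E hne, ← sum_filter, sum_const,
            nsmul_eq_mul, h1]
      _ ≤ κ * M * ρ * E.card + bd (t p) A R * (E.card / (t p : ℝ) ^ G * M * ρ) := by
          gcongr
      _ = E.card * M * ρ * (κ + bd (t p) A R / (t p : ℝ) ^ G) := by ring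
      _ ≤ E.card * M * ρ * ((t p : ℝ) ^ g)⁻¹ := by gcongr
      _ = E.card * ((p :: ps).map (fun p => ((t p : ℝ) ^ g)⁻¹)).prod * ρ := by
          rw [List.map_cons, List.prod_cons]
          ring

end Pool.Agent.Helper5.RD.PN7

namespace Pool.Agent.Helper5.RD

theorem p_N7 (hN6 : S_N6) : S_N7 := PN7.main hN6

end Pool.Agent.Helper5.RD
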