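import Pool.Agent.Helper5.RD.Stm3

/-! # Project RD, package N8: unfinished runs over a divisor-closed set -/

set_option autoImplicit false

namespace Pool.Agent.Helper5.RD.PN8

open Finset Classical Pool.Agent.Helper5.RD

/-- a vector indexed by a list without repetitions is a function -/
theorem exists_fun (ps : List ℕ) (hnd : ps.Nodup) (l : List ℕ) (hl : l.length = ps.length) :
    ∃ g : ℕ → ℕ, ps.map g = l := by
  induction ps generalizing l with
  | nil => exact ⟨fun _ => 0, by simpa using (List.length_eq_zero_iff.1 hl).symm⟩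
  | cons p ps ih =>
    cases l with
    | nil => simp at hl
    | cons a l =>
      obtain ⟨g, hg⟩ := ih (List.nodup_cons.1 hnd).2 l (by simpa using hl)
      refine ⟨Function.update g p a, ?_⟩
      have hp : p ∉ ps := (List.nodup_cons.1 hnd).1
      rw [List.map_cons, Function.update_self, ← hg]
      congr 1
      refine List.map_congr_left fun q hq => ?_
      rw [Function.update_of_ne]
      rintro rfl
      exact hp hq

/-- a product of powers of the primes of `Q` -/
def pp (Q : Finset ℕ) (g : ℕ → ℕ) : ℕ := ∏ q ∈ Q, q ^ g q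

lemma pp_ne {Q : Finset ℕ} (hQ : ∀ q ∈ Q, q.Prime) (g : ℕ → ℕ) : pp Q g ≠ 0 :=
  Finset.prod_ne_zero_iff.2 fun q hq => pow_ne_zero _ (hQ q hq).ne_zero

lemma pp_fact {Q : Finset ℕ} (hQ : ∀ q ∈ Q, q.Prime) (g : ℕ → ℕ) (p : ℕ) :
    (pp Q g).factorization p = if p ∈ Q then g p else 0 := by
  unfold pp
  rw [Nat.factorization_prod (fun q hq => pow_ne_zero _ (hQ q hq).ne_zero),
    Finsupp.finsetSum_apply]
  have h : ∀ q ∈ Q, (q ^ g q).factorization p = if p = q then g q else 0 := by
    intro q hq
    rw [(hQ q hq).factorization_pow, Finsupp.single_apply]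
    by_cases h : p = q
    · subst h; simp
    · rw [if_neg h, if_neg (Ne.symm h)]
  rw [Finset.sum_congr rfl h, Finset.sum_ite_eq]

lemma prt2_eq (w : ℕ → ℕ) (Q : Finset ℕ) (d : ℕ) :
    prt2 w Q d = pp Q (fun q => w q * (d.factorization q / w q)) := rfl

lemma prt2_dvd {w : ℕ → ℕ} {Q : Finset ℕ} (hQ : ∀ q ∈ Q, q.Prime) {d : ℕ} (hd : d ≠ 0) :
    prt2 w Q d ∣ d := by
  rw [prt2_eq, ← Nat.factorization_le_iff_dvd (pp_ne hQ _) hd]
  intro p
  rw [pp_fact hQ]
  split_ifs
  · exact Nat.mul_div_le _ _
  · exact Nat.zero_le _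

theorem main (h7 : S_N7) : S_N8 := by
  intro A R G g Y γ t w hγ hA hw ps hnd hps D hD0 hDd B b hb
  have hQ : ∀ q ∈ ps.toFinset, q.Prime := fun q hq => (hps q (List.mem_toFinset.1 hq)).1
  obtain ⟨fib, hfib⟩ : ∃ fib : ℕ → Finset ℕ,
      fib = fun z => D.filter (fun d => d / prt2 w ps.toFinset d = z) := ⟨_, rfl⟩
  obtain ⟨bad, hbad⟩ : ∃ bad : ℕ → Prop, bad = fun d =>
      (∀ p ∈ ps, t p ^ G ≤ d.factorization p / w p) ∧
      ¬ Fin2 Y (run2 A R (trip t w ps (ps.map (fun p => d.factorization p / w p)))
        (D.image (Nat.cast : ℕ → ℤ), B) ((d / prt2 w ps.toFinset d : ℕ) : ℤ) b) := ⟨_, rfl⟩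
  have hDcard : (D.image (Nat.cast : ℕ → ℤ)).card = D.card :=
    card_image_of_injective _ Nat.cast_injective
  set N : ℝ := (ps.map (fun p => ((t p : ℝ) ^ g)⁻¹)).prod * ((D.card : ℝ) * B.card) ^ γ with hN
  have key : ∀ y : ℕ, (((fib y).filter bad).card : ℝ) ≤ (fib y).card * N := by
    intro y
    have hel : ∀ d ∈ fib y, d ∈ D ∧ d ≠ 0 ∧ d / prt2 w ps.toFinset d = y ∧
        prt2 w ps.toFinset d * y = d := by
      intro d hd
      rw [hfib] at hd
      obtain ⟨h1, h2⟩ := Finset.mem_filter.1 hd
      refine ⟨h1, hD0 d h1, h2, ?_⟩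
      rw [← h2]
      exact Nat.mul_div_cancel' (prt2_dvd hQ (hD0 d h1))
    rcases (fib y).eq_empty_or_nonempty with he | ⟨d0, hd0⟩
    · rw [he]; simp
    have hy0 : y ≠ 0 := by
      obtain ⟨-, h2, -, h4⟩ := hel d0 hd0
      rintro rfl
      rw [mul_zero] at h4
      exact h2 h4.symm
    have hyQ : ∀ q ∈ ps.toFinset, y.factorization q < w q := by
      obtain ⟨-, h2, -, h4⟩ := hel d0 hd0
      intro q hq
      have h5 : d0.factorization q = (prt2 w ps.toFinset d0).factorization q +
          y.factorization q := by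
        conv_lhs => rw [← h4]
        rw [Nat.factorization_mul (by rw [prt2_eq]; exact pp_ne hQ _) hy0, Finsupp.add_apply]
      rw [prt2_eq, pp_fact hQ, if_pos hq] at h5
      have h6 := Nat.mod_lt (d0.factorization q) (Nat.lt_of_lt_of_le Nat.zero_lt_one (hw q))
      have h8 := Nat.div_add_mod (d0.factorization q) (w q)
      omega
    -- the index vectors
    have hinj : Set.InjOn (fun d : ℕ => ps.map (fun p => d.factorization p / w p)) (fib y) := by
      intro d hd d' hd' h
      have h1 : ∀ p ∈ ps, d.factorization p / w p = d'.factorization p / w p :=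
        List.map_inj_left.1 h
      have h2 : prt2 w ps.toFinset d = prt2 w ps.toFinset d' := by
        unfold prt2
        exact prod_congr rfl fun p hp => by rw [h1 p (List.mem_toFinset.1 hp)]
      rw [← (hel d hd).2.2.2, ← (hel d' hd').2.2.2, h2]
    obtain ⟨E, hE⟩ : ∃ E : Finset (List ℕ),
        E = (fib y).image (fun d : ℕ => ps.map (fun p => d.factorization p / w p)) := ⟨_, rfl⟩
    have hEcard : E.card = (fib y).card := by rw [hE]; exact card_image_of_injOn hinj
    have hElen : ∀ l ∈ E, l.length = ps.length := by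
      intro l hl
      rw [hE] at hl
      obtain ⟨d, -, rfl⟩ := mem_image.1 hl
      simp
    have hEdown : ∀ l ∈ E, ∀ l', List.Forall₂ (· ≤ ·) l' l → l' ∈ E := by
      intro l hl l' hl'
      have hlen : l'.length = ps.length := by rw [hl'.length_eq, hElen l hl]
      rw [hE] at hl
      obtain ⟨d, hd, rfl⟩ := mem_image.1 hl
      obtain ⟨h1, h2, h3, h4⟩ := hel d hd
      obtain ⟨k, rfl⟩ := exists_fun ps hnd l' hlen
      have h5 : ∀ p ∈ ps, k p ≤ d.factorization p / w p := by
        have h6 : List.Forall₂ (· ≤ ·) (ps.map k)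
          (ps.map (fun p => d.factorization p / w p)) := hl'
        rw [List.forall₂_map_left_iff, List.forall₂_map_right_iff, List.forall₂_same] at h6
        exact h6
      obtain ⟨s, hs⟩ : ∃ s, s = pp ps.toFinset (fun p => w p * k p) := ⟨_, rfl⟩
      have hs0 : s ≠ 0 := by rw [hs]; exact pp_ne hQ _
      have hsy : ∀ p ∈ ps.toFinset, (s * y).factorization p / w p = k p := by
        intro p hp
        rw [Nat.factorization_mul hs0 hy0, Finsupp.add_apply, hs, pp_fact hQ, if_pos hp,
          Nat.mul_add_div (Nat.lt_of_lt_of_le Nat.zero_lt_one (hw p)),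
          Nat.div_eq_of_lt (hyQ p hp), add_zero]
      have hsd : s ∣ prt2 w ps.toFinset d := by
        rw [hs]
        unfold prt2 pp
        exact prod_dvd_prod_of_dvd _ _ fun p hp =>
          pow_dvd_pow _ (Nat.mul_le_mul_left _ (h5 p (List.mem_toFinset.1 hp)))
      have hpt : prt2 w ps.toFinset (s * y) = s := by
        conv_rhs => rw [hs]
        unfold prt2 pp
        exact prod_congr rfl fun p hp => by rw [hsy p hp]
      have hmem : s * y ∈ D := hDd d h1 _ (by
        have h9 := Nat.mul_dvd_mul_right hsd y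
        rw [h4] at h9
        exact h9)
      rw [hE]
      refine mem_image.2 ⟨s * y, ?_, ?_⟩
      · rw [hfib]
        refine mem_filter.2 ⟨hmem, ?_⟩
        rw [hpt, Nat.mul_div_cancel_left _ (Nat.pos_of_ne_zero hs0)]
      · exact List.map_congr_left fun p hp => hsy p (List.mem_toFinset.2 hp)
    have hxmem : ((y : ℕ) : ℤ) ∈ D.image (Nat.cast : ℕ → ℤ) := by
      refine mem_image_of_mem _ ?_
      obtain ⟨h1, -, -, h4⟩ := hel d0 hd0
      exact hDd d0 h1 _ ⟨_, (by rw [mul_comm]; exact h4.symm)⟩
    have hBy := h7 A R G g Y γ t w hγ hA hw ps hps ((y : ℕ) : ℤ) b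
      (D.image (Nat.cast : ℕ → ℤ), B) hxmem hb E hElen hEdown
    have hR : (((D.image (Nat.cast : ℕ → ℤ), B).1.card : ℝ) *
        ((D.image (Nat.cast : ℕ → ℤ), B) : Finset ℤ × Finset ℤ).2.card) =
        (D.card : ℝ) * B.card := by
      show ((D.image (Nat.cast : ℕ → ℤ)).card : ℝ) * B.card = _
      rw [hDcard]
    rw [hR, hEcard, mul_assoc] at hBy
    refine le_trans ?_ hBy
    -- injection of the bad points
    have h1 : ((fib y).filter bad).card =
        (((fib y).filter bad).image
          (fun d : ℕ => ps.map (fun p => d.factorization p / w p))).card := by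
      rw [card_image_of_injOn]
      intro d hd d' hd' h
      exact hinj (mem_filter.1 hd).1 (mem_filter.1 hd').1 h
    rw [h1]
    refine Nat.cast_le.2 (card_le_card ?_)
    intro l hl
    obtain ⟨d, hd, rfl⟩ := mem_image.1 hl
    obtain ⟨h2, h3⟩ := mem_filter.1 hd
    rw [hbad] at h3
    obtain ⟨h4, h5⟩ := h3
    refine mem_filter.2 ⟨by rw [hE]; exact mem_image_of_mem _ h2, ?_, ?_⟩
    · intro q hq
      rw [List.zip_map_right] at hq
      obtain ⟨q', hq', rfl⟩ := List.mem_map.1 hq
      have h6 : q'.1 = q'.2 ∧ q'.1 ∈ ps := by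
        clear hq
        revert hq'
        generalize ps = qs
        intro h
        induction qs with
        | nil => simp at h
        | cons a qs ih =>
          rw [List.zip_cons_cons, List.mem_cons] at h
          rcases h with h | h
          · rw [h]; simp
          · obtain ⟨h7, h8⟩ := ih h
            exact ⟨h7, List.mem_cons_of_mem _ h8⟩
      show t q'.1 ^ G ≤ d.factorization q'.2 / w q'.2
      rw [← h6.1]
      exact h4 _ h6.2
    · rw [(hel d h2).2.2.1] at h5
      exact h5
  -- the sum over the fibres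
  have hsum1 : (D.filter bad).card = ∑ z ∈ D.image (fun d => d / prt2 w ps.toFinset d),
      ((fib z).filter bad).card := by
    rw [Finset.card_eq_sum_card_fiberwise (f := fun d => d / prt2 w ps.toFinset d)
      (t := D.image (fun d => d / prt2 w ps.toFinset d)) (fun d hd =>
        Finset.mem_image_of_mem _ (Finset.mem_filter.1 hd).1)]
    refine Finset.sum_congr rfl fun z _ => ?_
    congr 1
    rw [hfib]
    ext d
    simp only [Finset.mem_filter]
    tauto
  have hsum2 : D.card = ∑ z ∈ D.image (fun d => d / prt2 w ps.toFinset d), (fib z).card := by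
    rw [Finset.card_eq_sum_card_fiberwise (f := fun d => d / prt2 w ps.toFinset d)
      (t := D.image (fun d => d / prt2 w ps.toFinset d)) (fun d hd =>
        Finset.mem_image_of_mem _ hd)]
    rw [hfib]
  have hfinal : ((D.filter bad).card : ℝ) ≤ D.card * N := by
    rw [hsum1]
    conv_rhs => rw [hsum2]
    push_cast
    rw [sum_mul]
    exact sum_le_sum fun z _ => key z
  have hbad' : D.filter bad = D.filter (fun d => (∀ p ∈ ps, t p ^ G ≤ d.factorization p / w p) ∧
      ¬ Fin2 Y (run2 A R (trip t w ps (ps.map (fun p => d.factorization p / w p)))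
        (D.image (Nat.cast : ℕ → ℤ), B) ((d / prt2 w ps.toFinset d : ℕ) : ℤ) b)) := by
    ext d
    simp only [mem_filter, hbad]
  rw [← hbad', mul_assoc]
  exact hfinal

end Pool.Agent.Helper5.RD.PN8

namespace Pool.Agent.Helper5.RD

theorem p_N8 (h7 : S_N7) : S_N8 := PN8.main h7

end Pool.Agent.Helper5.RD
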