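import Pool.Agent.Helper5.RD.Stm5
import Pool.Agent.Helper5.RD.PN9

/-! # Project RD, package N9 -/

namespace Pool.Agent.Helper5.RD

open Finset Classical

noncomputable section

namespace PN9r

theorem prime_mem {w : ℕ → ℕ} {Q : Finset ℕ} (hQ : ∀ q ∈ Q, q.Prime) {d r : ℕ} (hr : r.Prime)
    (h : r ∣ prt2 w Q d) : r ∈ Q := by
  unfold prt2 at h
  obtain ⟨q, hq, h1⟩ := (Prime.dvd_finset_prod_iff hr.prime _).1 h
  have h2 : r = q := (Nat.prime_dvd_prime_iff_eq hr (hQ q hq)).1 (hr.dvd_of_dvd_pow h1)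
  rw [h2]
  exact hq

end PN9r

open PN9 in
theorem p_N9r (hN4 : S_N4) : S_N9r := by
  intro A R Y γ t w hγ hA hAγ hw ps hnd hps D A' hD0 hRC hAD B hbad
  have hQQ : ∀ q ∈ ps.toFinset, q.Prime := fun q hq => (hps q (List.mem_toFinset.1 hq)).1
  obtain ⟨Gd, hGd⟩ : ∃ Gd : Finset (ℕ × ℤ), Gd = (A' ×ˢ B).filter (fun q =>
      Fin2 Y (run2 A R (trip t w ps (ps.map (fun p => q.1.factorization p / w p)))
        (D.image (Nat.cast : ℕ → ℤ), B)
        ((q.1 / prt2 w ps.toFinset q.1 : ℕ) : ℤ) q.2)) := ⟨_, rfl⟩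
  have hGdc : A'.card * B.card ≤ 2 * Gd.card := by
    have h1 := Finset.card_filter_add_card_filter_not (s := A' ×ˢ B) (fun q : ℕ × ℤ =>
      Fin2 Y (run2 A R (trip t w ps (ps.map (fun p => q.1.factorization p / w p)))
        (D.image (Nat.cast : ℕ → ℤ), B)
        ((q.1 / prt2 w ps.toFinset q.1 : ℕ) : ℤ) q.2))
    rw [Finset.card_product] at h1
    rw [hGd]
    omega
  obtain ⟨W, hW⟩ : ∃ W : ℝ, W = Y * 2 ^ ps.length * ((D.card : ℝ) * B.card) ^ γ := ⟨_, rfl⟩
  obtain ⟨SA, hSA⟩ : ∃ SA : Finset ℕ, SA = A'.image (prt2 w ps.toFinset) := ⟨_, rfl⟩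
  obtain ⟨SM, hSM⟩ : ∃ SM : Finset ℤ,
    SM = (A'.image (Nat.cast : ℕ → ℤ) ×ˢ B).image (fun q => q.1 + q.2) := ⟨_, rfl⟩
  rw [← hW, ← hSA, ← hSM]
  have hquot : ∀ (a p : ℕ), p ∈ ps →
      (prt2 w ps.toFinset a).factorization p / w p = a.factorization p / w p := by
    intro a p hp
    rw [prt2_fact hQQ, if_pos (List.mem_toFinset.2 hp), Nat.mul_div_cancel_left _ (hw p)]
  -- the fibres
  have hfib : ∀ z ∈ SA ×ˢ SM, ((Gd.filter (fun q => (prt2 w ps.toFinset q.1,
      (q.1 : ℤ) + q.2) = z)).card : ℝ) ≤ W := by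
    rintro ⟨s, n⟩ ht
    have hs : s ∈ SA := (Finset.mem_product.1 ht).1
    have hsa : ∃ a, prt2 w ps.toFinset a = s := by
      rw [hSA] at hs
      obtain ⟨a, -, h⟩ := Finset.mem_image.1 hs
      exact ⟨a, h⟩
    obtain ⟨a₀, ha₀⟩ := hsa
    have hs0 : s ≠ 0 := by
      rw [← ha₀]
      exact prt2_ne hQQ a₀
    have hsf : ∀ p ∈ ps, w p * (s.factorization p / w p) = s.factorization p := by
      intro p hp
      rw [← ha₀, hquot a₀ p hp, prt2_fact hQQ, if_pos (List.mem_toFinset.2 hp)]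
    have h3 := hN4 A R Y s γ hγ hA hAγ
      (trip t w ps (ps.map (fun p => s.factorization p / w p))) (by
      intro q hq
      unfold trip at hq
      rw [List.mem_map] at hq
      obtain ⟨r, hr, rfl⟩ := hq
      have h1 : r.1 ∈ ps := (List.of_mem_zip hr).1
      have h2 : r.2 = s.factorization r.1 / w r.1 := by
        rw [List.zip_map_right, List.mem_map] at hr
        obtain ⟨r', hr', rfl⟩ := hr
        have h4 : r'.1 = r'.2 := by
          have := List.mem_iff_getElem.1 hr'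
          obtain ⟨i, hi, hir⟩ := this
          rw [List.getElem_zip] at hir
          rw [← hir]
        simp [h4]
      refine ⟨(hps r.1 h1).1, ⟨s / r.1 ^ s.factorization r.1, ?_, ?_⟩, (hps r.1 h1).2.1,
        (hps r.1 h1).2.2⟩
      · show s = r.1 ^ (w r.1 * r.2) * (s / r.1 ^ s.factorization r.1)
        rw [h2, hsf r.1 h1]
        exact (Nat.mul_div_cancel' (Nat.ordProj_dvd s r.1)).symm
      · exact Nat.not_dvd_ordCompl (hps r.1 h1).1 hs0) (D.image (Nat.cast : ℕ → ℤ)) B n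
    have hlen : (trip t w ps (ps.map (fun p => s.factorization p / w p))).length =
        ps.length := by simp [trip]
    have hXc : (D.image (Nat.cast : ℕ → ℤ)).card = D.card :=
      Finset.card_image_of_injective _ Nat.cast_injective
    rw [hlen, hXc, ← hW] at h3
    refine le_trans ?_ h3
    rw [Nat.cast_le]
    refine Finset.card_le_card_of_injOn (fun q => (((q.1 / s : ℕ) : ℤ), q.2)) ?_ ?_
    · intro q hq
      obtain ⟨hq1, hq2⟩ := Finset.mem_filter.1 hq
      rw [hGd] at hq1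
      obtain ⟨hq3, hq4⟩ := Finset.mem_filter.1 hq1
      obtain ⟨hqA, hqB⟩ := Finset.mem_product.1 hq3
      rw [Prod.mk.injEq] at hq2
      obtain ⟨e1, e2⟩ := hq2
      have ha0 := hD0 q.1 (hAD hqA)
      have hdv : s ∣ q.1 := by rw [← e1]; exact prt2_dvd hQQ ha0
      have hfac : ps.map (fun p => q.1.factorization p / w p) =
          ps.map (fun p => s.factorization p / w p) := by
        refine List.map_congr_left fun p hp => ?_
        rw [← e1, hquot _ p hp]
      rw [hfac, e1] at hq4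
      refine Finset.mem_filter.2 ⟨Finset.mem_product.2 ⟨?_, hqB⟩, ?_, hq4⟩
      · exact Finset.mem_image_of_mem _ (hRC q.1 (hAD hqA) s hdv
          (fun r hr hrs => PN9r.prime_mem hQQ hr (by rw [e1]; exact hrs)))
      · show (s : ℤ) * ((q.1 / s : ℕ) : ℤ) + q.2 = n
        rw [← Nat.cast_mul, Nat.mul_div_cancel' hdv]
        exact e2
    · intro q hq q' hq' h
      obtain ⟨-, hq2⟩ := Finset.mem_filter.1 hq
      obtain ⟨-, hq2'⟩ := Finset.mem_filter.1 hq'
      rw [Prod.mk.injEq] at hq2 hq2' h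
      have h2 : q.2 = q'.2 := h.2
      have h4 : (q.1 : ℤ) = q'.1 := by
        have := hq2.2.trans hq2'.2.symm
        rw [h2] at this
        linarith
      exact Prod.ext (by exact_mod_cast h4) h2
  have hsum : (Gd.card : ℝ) ≤ (SA.card : ℝ) * SM.card * W := by
    have h1 := Finset.card_eq_sum_card_fiberwise (s := Gd) (t := SA ×ˢ SM)
      (f := fun q => (prt2 w ps.toFinset q.1, (q.1 : ℤ) + q.2)) (by
        intro q hq
        rw [hGd] at hq
        obtain ⟨hqA, hqB⟩ := Finset.mem_product.1 (Finset.mem_filter.1 hq).1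
        rw [hSA, hSM]
        refine Finset.mem_product.2 ⟨Finset.mem_image_of_mem _ hqA, ?_⟩
        exact Finset.mem_image.2 ⟨((q.1 : ℤ), q.2),
          Finset.mem_product.2 ⟨Finset.mem_image_of_mem _ hqA, hqB⟩, rfl⟩)
    rw [h1, Nat.cast_sum]
    refine (Finset.sum_le_sum hfib).trans (le_of_eq ?_)
    rw [Finset.sum_const, Finset.card_product, nsmul_eq_mul]
    push_cast
    ring
  have h2 : ((A'.card * B.card : ℕ) : ℝ) ≤ ((2 * Gd.card : ℕ) : ℝ) := by exact_mod_cast hGdc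
  push_cast at h2
  calc (A'.card : ℝ) * B.card ≤ 2 * Gd.card := h2
    _ ≤ 2 * ((SA.card : ℝ) * SM.card * W) := by linarith
    _ = 2 * SA.card * W * SM.card := by ring

end

end Pool.Agent.Helper5.RD
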