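import Pool.Agent.Helper5.RD.Stm5

/-! # Project RD, part 3: package O1 -/

set_option autoImplicit false

namespace Pool.Agent.Helper5.RD.PO1

open Finset Pool.Agent.Helper5.RD

theorem card_div (v : ℕ → ℕ) (Q : Finset ℕ) (hQ : ∀ q ∈ Q, q.Prime) :
    (∏ q ∈ Q, q ^ v q).divisors.card = ∏ q ∈ Q, (v q + 1) := by
  classical
  induction Q using Finset.induction_on with
  | empty => simp
  | insert p s hp ih =>
    rw [Finset.prod_insert hp, Finset.prod_insert hp, ← ih (fun q hq => hQ q (mem_insert_of_mem hq))]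
    have hpp : p.Prime := hQ p (mem_insert_self _ _)
    have hco : Nat.Coprime (p ^ v p) (∏ q ∈ s, q ^ v q) := by
      apply Nat.Coprime.prod_right
      intro q hq
      apply Nat.Coprime.pow
      exact (Nat.coprime_primes hpp (hQ q (mem_insert_of_mem hq))).2 (fun h => hp (h ▸ hq))
    rw [Nat.Coprime.card_divisors_mul hco, Nat.divisors_prime_pow hpp, Finset.card_map,
      Finset.card_range]

theorem part_dvd {Q : Finset ℕ} {a : ℕ} (hQ : ∀ q ∈ Q, q.Prime) (ha : a ≠ 0) : part Q a ∣ a := by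
  classical
  have h1 : ∏ q ∈ Q ∪ a.primeFactors, q ^ a.factorization q = a := by
    conv_rhs => rw [← Nat.factorization_prod_pow_eq_self ha]
    symm
    refine Finset.prod_subset Finset.subset_union_right fun q _ hq2 => ?_
    have : a.factorization q = 0 := Finsupp.notMem_support_iff.1 hq2
    simp [this]
  conv_rhs => rw [← h1]
  exact Finset.prod_dvd_prod_of_subset _ _ _ Finset.subset_union_left

theorem prime_dvd {Q : Finset ℕ} {a r : ℕ} (hQ : ∀ q ∈ Q, q.Prime) (hr : r.Prime)
    (h : r ∣ part Q a) : r ∈ Q := by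
  unfold part at h
  obtain ⟨q, hq, hd⟩ := (Prime.dvd_finset_prod_iff hr.prime _).1 h
  have h2 : r ∣ q := hr.dvd_of_dvd_pow hd
  rw [(Nat.prime_dvd_prime_iff_eq hr (hQ q hq)).1 h2]
  exact hq

theorem p_O1 : S_O1 := by
  classical
  intro Q D hQ hD hRC a ha
  have ha0 := hD a ha
  have hpd := part_dvd hQ ha0
  have h1 : ∏ q ∈ Q, (a.factorization q + 1) ≤ D.card := by
    rw [← card_div a.factorization Q hQ]
    apply Finset.card_le_card_of_injOn (fun m => a / m)
    · intro m hm
      have hm' : m ∣ part Q a := Nat.dvd_of_mem_divisors hm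
      exact hRC a ha m (hm'.trans hpd) (fun r hr hrm => prime_dvd hQ hr (hrm.trans hm'))
    · intro m hm m' hm' h
      have e1 : m ∣ a := (Nat.dvd_of_mem_divisors hm).trans hpd
      have e2 : m' ∣ a := (Nat.dvd_of_mem_divisors hm').trans hpd
      have h2 : a / m = a / m' := h
      have h3 : a / m ≠ 0 := (Nat.div_pos (Nat.le_of_dvd (Nat.pos_of_ne_zero ha0) e1)
        (Nat.pos_of_dvd_of_pos e1 (Nat.pos_of_ne_zero ha0))).ne'
      have h4 := Nat.div_mul_cancel e1
      have h5 := Nat.div_mul_cancel e2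
      rw [← h2] at h5
      exact Nat.eq_of_mul_eq_mul_left (Nat.pos_of_ne_zero h3) (h4.trans h5.symm)
  refine ⟨h1, le_trans ?_ h1⟩
  have h2 : 2 ^ (Q.filter (· ∣ a)).card = ∏ q ∈ Q.filter (· ∣ a), 2 := by
    rw [Finset.prod_const]
  have h3 : 2 ^ (Q.filter (· ∣ a)).card ≤ ∏ q ∈ Q, (a.factorization q + 1) := by
    rw [h2]
    calc ∏ q ∈ Q.filter (· ∣ a), 2 ≤ ∏ q ∈ Q.filter (· ∣ a), (a.factorization q + 1) := by
          apply Finset.prod_le_prod'
          intro q hq
          rw [Finset.mem_filter] at hq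
          have := (hQ q hq.1).factorization_pos_of_dvd ha0 hq.2
          omega
      _ ≤ ∏ q ∈ Q, (a.factorization q + 1) :=
          Finset.prod_le_prod_of_subset_of_one_le' (Finset.filter_subset _ _)
            (fun q _ _ => Nat.le_add_left 1 _)
  convert h3

end Pool.Agent.Helper5.RD.PO1

theorem Pool.Agent.Helper5.RD.p_O1 : Pool.Agent.Helper5.RD.S_O1 :=
  Pool.Agent.Helper5.RD.PO1.p_O1
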