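import Pool.Agent.Helper5.RD.Defs

/-! # Project RD: the statements of the packages -/

namespace Pool.Agent.Helper5.RD

open Finset Classical

noncomputable section

/-- A1: on a line `s x + b = n` the points of type 1 lie in at most `K0` cells. -/
def S_A1 : Prop := ∀ (P : Par) (p e u : ℕ) (X B : Finset ℤ) (n : ℤ), p.Prime → ¬ p ∣ u →
  (((X ×ˢ B).filter (fun q => ((p ^ e * u : ℕ) : ℤ) * q.1 + q.2 = n ∧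
      T1 P p e X B q.1 q.2)).image (fun q => nxt1 P p e X B q.1 q.2)).card ≤ P.K0

/-- A2: on a line `s x + b = n` the points of type 0 lie in at most `K1` cells. -/
def S_A2 : Prop := ∀ (P : Par) (p e u : ℕ) (X B : Finset ℤ) (n : ℤ), p.Prime → ¬ p ∣ u →
  (((X ×ˢ B).filter (fun q => ((p ^ e * u : ℕ) : ℤ) * q.1 + q.2 = n ∧
      T0 P p e X B q.1 q.2)).image (fun q => nxt0 P p e X B q.1 q.2)).card ≤ P.K1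

/-- A3: the number of points of a line with a good run (uses A1, A2). -/
def S_A3 : Prop := ∀ (P : Par) (s : ℕ) (ε Λ : ℝ), 0 < ε → 1 ≤ P.K0 → 1 ≤ P.K1 → 1 ≤ P.K2 →
  1 + (P.K0 : ℝ) * (P.K1 : ℝ) ^ (-ε) + (P.K1 : ℝ) * (P.K2 : ℝ) ^ (-ε) + (P.K0 : ℝ) ^ (-ε) ≤ Λ →
  ∀ (L : List (ℕ × ℕ)), (∀ q ∈ L, q.1.Prime ∧ ∃ u, s = q.1 ^ q.2 * u ∧ ¬ q.1 ∣ u) →
  ∀ (X B : Finset ℤ) (F : ℕ) (n : ℤ),
  (((X ×ˢ B).filter (fun q => (s : ℤ) * q.1 + q.2 = n ∧ Fin1 P (run P L (X, B) q.1 q.2) ∧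
      bads P s L (X, B) q.1 q.2 ≤ F)).card : ℝ) ≤
    P.K0 * Λ ^ L.length * ((X.card : ℝ) * B.card) ^ ε * (P.K1 : ℝ) ^ F

/-- B: the exponent vectors along which the run does not finish. -/
def S_B : Prop := ∀ (P : Par) (γ : ℝ), 0 ≤ γ → 1 ≤ P.K0 → P.K0 ≤ P.K1 →
  ∀ (ps : List ℕ), (∀ p ∈ ps, p.Prime) → ∀ (x b : ℤ) (C : Finset ℤ × Finset ℤ), x ∈ C.1 → b ∈ C.2 →
  ∀ (E : Finset (List ℕ)), (∀ l ∈ E, l.length = ps.length) →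
  (∀ l ∈ E, ∀ l', List.Forall₂ (· ≤ ·) l' l → l' ∈ E) →
  ∑ l ∈ E.filter (fun l => ¬ Fin1 P (run P (ps.zip l) C x b)), (2 : ℝ) ^ (l.countP (· ≠ 0)) ≤
    E.card * (1 + 2 * (P.K0 : ℝ) ^ (-γ)) ^ ps.length * ((C.1.card : ℝ) * C.2.card) ^ γ

/-- C: few elements of a divisor-closed set are in the sets `Z p` for many primes `p`. -/
def S_C : Prop := ∀ (E0 : Finset ℕ), (∀ t ∈ E0, t ≠ 0) → (∀ t ∈ E0, ∀ t', t' ∣ t → t' ∈ E0) →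
  ∀ (I : Finset ℕ), (∀ p ∈ I, p.Prime) →
  (∀ t ∈ E0, ∀ r : ℕ, r.Prime → r ∣ t → ∀ p ∈ I, r < p) →
  ∀ (Z : ℕ → Finset ℕ) (K : ℕ), (∀ p ∈ I, (Z p).card ≤ K) → ∀ (F k f : ℕ),
  F.choose f * k.choose f *
    (E0.filter (fun t => k ≤ t.primeFactors.card ∧ F ≤ (I.filter (fun p => t % p ∈ Z p)).card)).card
    ≤ K ^ f * I.card.choose f * E0.card

/-- D1: the non generic dilations of a cell. -/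
def S_D1 : Prop := ∀ (P : Par) (p e : ℕ) (X B : Finset ℤ), 1 ≤ P.K1 → 1 ≤ P.K2 → p.Prime →
  ∃ Z : Finset ℕ, Z.card ≤ (P.K1 * P.K2) ^ 2 ∧
    ∀ u : ℕ, ¬ p ∣ u → ¬ Gen P p e (p ^ e * u) X B → u % p ∈ Z

/-- D2: the number of non generic steps of a run (uses D1). -/
def S_D2 : Prop := ∀ (P : Par), 1 ≤ P.K1 → 1 ≤ P.K2 → ∀ (ps : List ℕ), ps.Nodup →
  (∀ p ∈ ps, p.Prime) → ∀ (l : List ℕ) (C : Finset ℤ × Finset ℤ) (x b : ℤ),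
  ∃ Z : ℕ → Finset ℕ, (∀ p, (Z p).card ≤ (P.K1 * P.K2) ^ 2) ∧
    ∀ s : ℕ, s ≠ 0 → ps.map s.factorization = l →
      bads P s (ps.zip l) C x b ≤
        (ps.toFinset.filter (fun p => (s / p ^ s.factorization p) % p ∈ Z p)).card

/-- E1: unfinished runs over a divisor-closed set (uses B). -/
def S_E1 : Prop := ∀ (P : Par) (γ : ℝ), 0 ≤ γ → 1 ≤ P.K0 → P.K0 ≤ P.K1 →
  ∀ (D : Finset ℕ), (∀ d ∈ D, d ≠ 0) → (∀ d ∈ D, ∀ d', d' ∣ d → d' ∈ D) →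
  ∀ (Q0 : Finset ℕ) (ps : List ℕ), (∀ q ∈ Q0, q.Prime) → (∀ p ∈ ps, p.Prime) → ps.Nodup →
  (∀ q ∈ Q0, ∀ p ∈ ps, q < p) → ∀ (B : Finset ℤ), ∀ b ∈ B, ∀ (k : ℕ),
  ((D.filter (fun d => k ≤ (ps.toFinset.filter (· ∣ d)).card ∧
      ¬ Fin1 P (run P (ps.zip (ps.map d.factorization)) (D.image (Nat.cast : ℕ → ℤ), B)
        ((d / part (Q0 ∪ ps.toFinset) d : ℕ) : ℤ) b))).card : ℝ) ≤
    D.card * (1 + 2 * (P.K0 : ℝ) ^ (-γ)) ^ ps.length * ((D.card : ℝ) * B.card) ^ γ / 2 ^ k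

/-- E2: runs with many non generic steps over a divisor-closed set (uses C, D2). -/
def S_E2 : Prop := ∀ (P : Par), 1 ≤ P.K1 → 1 ≤ P.K2 →
  ∀ (D : Finset ℕ), (∀ d ∈ D, d ≠ 0) → (∀ d ∈ D, ∀ d', d' ∣ d → d' ∈ D) →
  ∀ (Q0 : Finset ℕ) (ps : List ℕ), (∀ q ∈ Q0, q.Prime) → (∀ p ∈ ps, p.Prime) → ps.Nodup →
  (∀ q ∈ Q0, ∀ p ∈ ps, q < p) → ∀ (B : Finset ℤ), ∀ b ∈ B, ∀ (F k f : ℕ),
  (F + 1).choose f * k.choose f *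
    (D.filter (fun d => k ≤ (Q0.filter (· ∣ d)).card ∧
      F < bads P (part (Q0 ∪ ps.toFinset) d) (ps.zip (ps.map d.factorization))
        (D.image (Nat.cast : ℕ → ℤ), B) ((d / part (Q0 ∪ ps.toFinset) d : ℕ) : ℤ) b)).card
    ≤ ((P.K1 * P.K2) ^ 2) ^ f * ps.length.choose f * D.card

/-- G1: the pigeonhole on the dilation (uses A3). -/
def S_G1 : Prop := ∀ (P : Par) (ε Λ : ℝ), 0 < ε → 1 ≤ P.K0 → 1 ≤ P.K1 → 1 ≤ P.K2 →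
  1 + (P.K0 : ℝ) * (P.K1 : ℝ) ^ (-ε) + (P.K1 : ℝ) * (P.K2 : ℝ) ^ (-ε) + (P.K0 : ℝ) ^ (-ε) ≤ Λ →
  ∀ (D A : Finset ℕ), (∀ d ∈ D, d ≠ 0) → (∀ d ∈ D, ∀ d', d' ∣ d → d' ∈ D) → A ⊆ D →
  ∀ (Q0 : Finset ℕ) (ps : List ℕ), (∀ q ∈ Q0, q.Prime) → (∀ p ∈ ps, p.Prime) → ps.Nodup →
  (∀ q ∈ Q0, ∀ p ∈ ps, q < p) → ∀ (B : Finset ℤ) (F : ℕ),
  2 * ((A ×ˢ B).filter (fun q =>
      ¬ (Fin1 P (run P (ps.zip (ps.map q.1.factorization)) (D.image (Nat.cast : ℕ → ℤ), B)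
          ((q.1 / part (Q0 ∪ ps.toFinset) q.1 : ℕ) : ℤ) q.2) ∧
        bads P (part (Q0 ∪ ps.toFinset) q.1) (ps.zip (ps.map q.1.factorization))
          (D.image (Nat.cast : ℕ → ℤ), B) ((q.1 / part (Q0 ∪ ps.toFinset) q.1 : ℕ) : ℤ) q.2
          ≤ F))).card ≤ A.card * B.card →
  (A.card : ℝ) * B.card ≤ 2 * (A.image (part (Q0 ∪ ps.toFinset))).card *
    (P.K0 * Λ ^ ps.length * ((D.card : ℝ) * B.card) ^ ε * (P.K1 : ℝ) ^ F) *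
    ((A.image (Nat.cast : ℕ → ℤ) ×ˢ B).image (fun q => q.1 + q.2)).card

/-- H1: the number of `Q`-parts of numbers with few prime factors in `Q` and few prime factors. -/
def S_H1 : Prop := ∀ (Q A : Finset ℕ), (∀ q ∈ Q, q.Prime) → (∀ a ∈ A, a ≠ 0) →
  ∀ (j H : ℕ), (∀ a ∈ A, (Q.filter (· ∣ a)).card ≤ j ∧ a.primeFactorsList.length ≤ H) →
  ∀ (δ ρ : ℝ), 0 < δ → δ ≤ 1 → 0 < ρ → ρ < 1 →
  ((A.image (part Q)).card : ℝ) * (δ ^ j * ρ ^ H) ≤ (1 + δ / (1 - ρ)) ^ Q.card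

/-- H2: two blocks of primes. -/
def S_H2 : Prop := ∀ (Q : Finset ℕ) (g T : ℕ), 1 ≤ g → Q.card ≤ T * g →
  ∀ (A : Finset ℕ), A.Nonempty → (∀ a ∈ A, 2 * g ≤ (Q.filter (· ∣ a)).card) →
  ∃ Q0 Q1 : Finset ℕ, Q0 ⊆ Q ∧ Q1 ⊆ Q ∧ (∀ q ∈ Q0, ∀ p ∈ Q1, q < p) ∧ Q0.card ≤ g ∧ Q1.card ≤ g ∧
    A.card ≤ T ^ 2 * (A.filter (fun a => g ≤ T * (Q0.filter (· ∣ a)).card ∧
      g ≤ T * (Q1.filter (· ∣ a)).card)).card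

/-- H3: the number of distinct prime factors and the number of popular primes. -/
def S_H3 : Prop := ∀ (A : Finset ℕ), (∀ a ∈ A, a ≠ 0) → ∀ (M L : ℕ), 1 ≤ L →
  (A.biUnion (fun a => a.divisors)).card ≤ 2 ^ M →
  (∀ a ∈ A, a.primeFactors.card ≤ M) ∧
  ∀ (Q : Finset ℕ), (∀ q ∈ Q, q.Prime ∧ A.card ≤ L * (A.filter (q ∣ ·)).card) → A.Nonempty →
    Q.card ≤ L * M

/-- K: the choice of the constants. -/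
def S_K : Prop := ∀ (ε h κ : ℝ) (L : ℕ), 0 < ε → ε ≤ 1 → 1 ≤ h → 1 ≤ κ → 1 ≤ L →
  ∃ (P : Par) (γ Λ η δ ρ : ℝ) (T N0 : ℕ), 1 ≤ P.K0 ∧ P.K0 ≤ P.K1 ∧ 1 ≤ P.K2 ∧ 0 < γ ∧ 0 < η ∧
    η ≤ 1 ∧ 0 < δ ∧ δ ≤ 1 ∧ 0 < ρ ∧ ρ < 1 ∧ 1 ≤ T ∧ 2 ≤ N0 ∧
    1 + (P.K0 : ℝ) * (P.K1 : ℝ) ^ (-γ) + (P.K1 : ℝ) * (P.K2 : ℝ) ^ (-γ) + (P.K0 : ℝ) ^ (-γ) ≤ Λ ∧
    ∀ N : ℕ, N0 ≤ N → ∃ g k F f M H : ℕ, 1 ≤ g ∧ L * M ≤ T * g ∧ T * k ≤ g ∧ f ≤ k ∧ f ≤ F + 1 ∧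
      κ * (N : ℝ) ^ (1 + η) ≤ 2 ^ M ∧ h * (1 + Real.log N) ≤ H ∧
      (1 + δ / (1 - ρ)) ^ (L * M) ≤ (N : ℝ) ^ (ε / 4) * (δ ^ (2 * g) * ρ ^ H) ∧
      8 * (T : ℝ) ^ 2 * (κ * (N : ℝ) ^ η) * ((1 + 2 * (P.K0 : ℝ) ^ (-γ)) ^ g *
        (κ * (N : ℝ) ^ (1 + η) * (N : ℝ) ^ (1 / ε)) ^ γ) ≤ 2 ^ k ∧
      (∀ m : ℕ, m ≤ g → 8 * (T : ℝ) ^ 2 * (κ * (N : ℝ) ^ η) *
        (((((P.K1 * P.K2) ^ 2) ^ f * m.choose f : ℕ) : ℝ)) ≤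
          (((F + 1).choose f * k.choose f : ℕ) : ℝ)) ∧
      Λ ^ g * (κ * (N : ℝ) ^ (1 + η) * (N : ℝ) ^ (1 / ε)) ^ γ * (P.K1 : ℝ) ^ F ≤ (N : ℝ) ^ (ε / 4)

/-- J1: the theorem for sets of positive integers (uses E1, E2, G1, H1, H2, H3, K and the library's
inequality `OneUnpopularSet`). -/
def S_J1 : Prop := ∀ (h κ ε : ℝ), 0 < ε → ∃ η > (0 : ℝ), ∃ c > (0 : ℝ), ∀ A : Finset ℕ, A.Nonempty →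
  (∀ a ∈ A, a ≠ 0 ∧ (a.primeFactorsList.length : ℝ) ≤ h * (1 + Real.log A.card)) →
  ((A.biUnion (fun a => a.divisors)).card : ℝ) ≤ κ * (A.card : ℝ) ^ (1 + η) →
  (∀ B : Finset ℤ, B.Nonempty → c * ((A.card : ℝ) * B.card) ^ (1 - ε) ≤
    (((A.image (Nat.cast : ℕ → ℤ) ×ˢ B).image (fun q => q.1 + q.2)).card : ℝ)) ∨
  (∀ B : Finset ℤ, B.Nonempty → 0 ∉ B → c * ((A.card : ℝ) * B.card) ^ (1 - ε) ≤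
    (((A.image (Nat.cast : ℕ → ℤ) ×ˢ B).image (fun q => q.1 * q.2)).card : ℝ))

end

end Pool.Agent.Helper5.RD
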