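import Pool.Agent.Helper5.RD.Stm

/-! # Project RD: further statements -/

namespace Pool.Agent.Helper5.RD

open Finset Classical

noncomputable section

/-- I1: the product side, from the library's inequality `OneUnpopularSet`. -/
def S_I1 : Prop := ∀ (L : ℕ), 3 ≤ L → ∀ (A A2 Q : Finset ℕ), A2 ⊆ A → A2.Nonempty →
  A.card ≤ 2 * A2.card → (∀ a ∈ A, a ≠ 0) → (∀ q ∈ Q, q.Prime) →
  (∀ q : ℕ, q.Prime → q ∉ Q → L * (A.filter (q ∣ ·)).card < A.card) →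
  ∀ B : Finset ℤ, B.Nonempty → 0 ∉ B →
  ((A2.card : ℝ) * B.card) ^ (1 - 9 / Real.log ((L : ℝ) / 2)) ≤
    4 * (A2.image (part Q)).card *
      ((A.image (Nat.cast : ℕ → ℤ) ×ˢ B).image (fun q => q.1 * q.2)).card

open scoped Pointwise in
/-- J2: the theorem for sets of integers (uses J1). -/
def S_J2 : Prop := ∀ (h κ ε : ℝ), 0 < ε → ∃ η > (0 : ℝ), ∃ c > (0 : ℝ), ∀ A : Finset ℤ, A.Nonempty →
  (∀ a ∈ A, a ≠ 0 ∧ (a.natAbs.primeFactorsList.length : ℝ) ≤ h * (1 + Real.log A.card)) →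
  ((A.biUnion (fun a => a.natAbs.divisors)).card : ℝ) ≤ κ * (A.card : ℝ) ^ (1 + η) →
  (∀ B : Finset ℤ, B.Nonempty → c * ((A.card : ℝ) * B.card) ^ (1 - ε) ≤ ((A + B).card : ℝ)) ∨
  (∀ B : Finset ℤ, B.Nonempty → 0 ∉ B →
    c * ((A.card : ℝ) * B.card) ^ (1 - ε) ≤ ((A * B).card : ℝ))

end

end Pool.Agent.Helper5.RD
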