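import Pool.Agent.Helper5.RD.Stm3

/-! # Project RD, second part: the constants of CI -/

namespace Pool.Agent.Helper5.RD

open Finset Classical

noncomputable section

/-- The bound for the number of scale vectors. -/
def Vb (β : ℝ) (L M q0 : ℕ) : ℝ :=
  (2 : ℝ) ^ (β * M) * (1 + (2 : ℝ) ^ (-(β * q0)) / (1 - (2 : ℝ) ^ (-β))) ^ (L * M)

/-- CK: the constants of CI. -/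
def S_CK : Prop := ∀ (ε κ lam1 : ℝ) (L : ℕ), 0 < ε → ε ≤ 1 → 1 ≤ κ → 0 < lam1 → 1 ≤ L →
  ∃ (A R G g τ k0 q0 N0 : ℕ) (γ η β : ℝ), 0 < γ ∧ 1 ≤ A ∧ 2 ≤ A * γ ∧ 0 < η ∧ η ≤ 1 ∧ 0 < β ∧
    1 ≤ q0 ∧ 1 ≤ τ ∧ G ≤ τ ∧ 2 * τ ≤ q0 ∧ τ * k0 ≤ q0 ∧ 2 ≤ N0 ∧
    (∀ t : ℕ, 2 ^ k0 ≤ t → 16 ≤ t ∧ (t : ℝ) ^ (-γ) ≤ 1 / 8 ∧
      ((t : ℝ) ^ R) ^ (-γ) + (bd t A R : ℝ) / (t : ℝ) ^ G ≤ ((t : ℝ) ^ g)⁻¹) ∧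
    ∀ N : ℕ, N0 ≤ N → ∃ M : ℕ, κ * (N : ℝ) ^ (1 + η) ≤ 2 ^ M ∧
      4 * Vb β L M q0 * (κ * (N : ℝ) ^ η) * (κ * (N : ℝ) ^ (1 + η) * (N : ℝ) ^ (1 / ε)) ^ γ ≤
        (2 : ℝ) ^ ((g : ℝ) * (lam1 * Real.log N / (2 * τ))) ∧
      Vb β L M q0 * (2 : ℝ) ^ (G * (M / τ)) * (2 : ℝ) ^ (A * (M / τ)) * (2 : ℝ) ^ (M / q0) *
        (κ * (N : ℝ) ^ (1 + η) * (N : ℝ) ^ (1 / ε)) ^ γ ≤ (N : ℝ) ^ ε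

end

end Pool.Agent.Helper5.RD
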