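import Pool.Agent.Helper5.RD.Stm4

/-! # Project RD, third part: closure under division by the primes of a given set only -/

namespace Pool.Agent.Helper5.RD

open Finset Classical

noncomputable section

/-- `D` is closed under division by numbers composed of primes of `Q`. -/
def RC (Q D : Finset ℕ) : Prop :=
  ∀ d ∈ D, ∀ m, m ∣ d → (∀ r : ℕ, r.Prime → r ∣ m → r ∈ Q) → d / m ∈ D

/-- E1r: as `S_E1`, with `RC` (uses B). -/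
def S_E1r : Prop := ∀ (P : Par) (γ : ℝ), 0 ≤ γ → 1 ≤ P.K0 → P.K0 ≤ P.K1 →
  ∀ (D : Finset ℕ), (∀ d ∈ D, d ≠ 0) →
  ∀ (Q0 : Finset ℕ) (ps : List ℕ), (∀ q ∈ Q0, q.Prime) → (∀ p ∈ ps, p.Prime) → ps.Nodup →
  (∀ q ∈ Q0, ∀ p ∈ ps, q < p) → RC (Q0 ∪ ps.toFinset) D → ∀ (B : Finset ℤ), ∀ b ∈ B, ∀ (k : ℕ),
  ((D.filter (fun d => k ≤ (ps.toFinset.filter (· ∣ d)).card ∧
      ¬ Fin1 P (run P (ps.zip (ps.map d.factorization)) (D.image (Nat.cast : ℕ → ℤ), B)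
        ((d / part (Q0 ∪ ps.toFinset) d : ℕ) : ℤ) b))).card : ℝ) ≤
    D.card * (1 + 2 * (P.K0 : ℝ) ^ (-γ)) ^ ps.length * ((D.card : ℝ) * B.card) ^ γ / 2 ^ k

/-- E2r: as `S_E2`, with `RC` (uses C, D2). -/
def S_E2r : Prop := ∀ (P : Par), 1 ≤ P.K1 → 1 ≤ P.K2 →
  ∀ (D : Finset ℕ), (∀ d ∈ D, d ≠ 0) →
  ∀ (Q0 : Finset ℕ) (ps : List ℕ), (∀ q ∈ Q0, q.Prime) → (∀ p ∈ ps, p.Prime) → ps.Nodup →
  (∀ q ∈ Q0, ∀ p ∈ ps, q < p) → RC (Q0 ∪ ps.toFinset) D →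
  ∀ (B : Finset ℤ), ∀ b ∈ B, ∀ (F k f : ℕ),
  (F + 1).choose f * k.choose f *
    (D.filter (fun d => k ≤ (Q0.filter (· ∣ d)).card ∧
      F < bads P (part (Q0 ∪ ps.toFinset) d) (ps.zip (ps.map d.factorization))
        (D.image (Nat.cast : ℕ → ℤ), B) ((d / part (Q0 ∪ ps.toFinset) d : ℕ) : ℤ) b)).card
    ≤ ((P.K1 * P.K2) ^ 2) ^ f * ps.length.choose f * D.card

/-- G1r: as `S_G1`, with `RC` (uses A3). -/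
def S_G1r : Prop := ∀ (P : Par) (ε Λ : ℝ), 0 < ε → 1 ≤ P.K0 → 1 ≤ P.K1 → 1 ≤ P.K2 →
  1 + (P.K0 : ℝ) * (P.K1 : ℝ) ^ (-ε) + (P.K1 : ℝ) * (P.K2 : ℝ) ^ (-ε) + (P.K0 : ℝ) ^ (-ε) ≤ Λ →
  ∀ (D A : Finset ℕ), (∀ d ∈ D, d ≠ 0) → A ⊆ D →
  ∀ (Q0 : Finset ℕ) (ps : List ℕ), (∀ q ∈ Q0, q.Prime) → (∀ p ∈ ps, p.Prime) → ps.Nodup →
  (∀ q ∈ Q0, ∀ p ∈ ps, q < p) → RC (Q0 ∪ ps.toFinset) D → ∀ (B : Finset ℤ) (F : ℕ),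
  2 * ((A ×ˢ B).filter (fun q =>
      ¬ (Fin1 P (run P (ps.zip (ps.map q.1.factorization)) (D.image (Nat.cast : ℕ → ℤ), B)
          ((q.1 / part (Q0 ∪ ps.toFinset) q.1 : ℕ) : ℤ) q.2) ∧
        bads P (part (Q0 ∪ ps.toFinset) q.1) (ps.zip (ps.map q.1.factorization))
          (D.image (Nat.cast : ℕ → ℤ), B) ((q.1 / part (Q0 ∪ ps.toFinset) q.1 : ℕ) : ℤ) q.2
          ≤ F))).card ≤ A.card * B.card →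
  (A.card : ℝ) * B.card ≤ 2 * (A.image (part (Q0 ∪ ps.toFinset))).card *
    (P.K0 * Λ ^ ps.length * ((D.card : ℝ) * B.card) ^ ε * (P.K1 : ℝ) ^ F) *
    ((A.image (Nat.cast : ℕ → ℤ) ×ˢ B).image (fun q => q.1 + q.2)).card

/-- N8r: as `S_N8`, with `RC` (uses N7). -/
def S_N8r : Prop := ∀ (A R G g Y : ℕ) (γ : ℝ) (t w : ℕ → ℕ), 0 ≤ γ → 1 ≤ A → (∀ p, 1 ≤ w p) →
  ∀ (ps : List ℕ), ps.Nodup → (∀ p ∈ ps, p.Prime ∧ 2 ≤ t p ∧ t p ≤ Y ∧ t p ^ A ≤ Y ∧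
    ((t p : ℝ) ^ R) ^ (-γ) + (bd (t p) A R : ℝ) / (t p : ℝ) ^ G ≤ ((t p : ℝ) ^ g)⁻¹) →
  ∀ (D : Finset ℕ), (∀ d ∈ D, d ≠ 0) → RC ps.toFinset D →
  ∀ (B : Finset ℤ), ∀ b ∈ B,
  ((D.filter (fun d => (∀ p ∈ ps, t p ^ G ≤ d.factorization p / w p) ∧
      ¬ Fin2 Y (run2 A R (trip t w ps (ps.map (fun p => d.factorization p / w p)))
        (D.image (Nat.cast : ℕ → ℤ), B) ((d / prt2 w ps.toFinset d : ℕ) : ℤ) b))).card : ℝ) ≤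
    D.card * (ps.map (fun p => ((t p : ℝ) ^ g)⁻¹)).prod * ((D.card : ℝ) * B.card) ^ γ

/-- N9r: as `S_N9`, with `RC` (uses N4). -/
def S_N9r : Prop := ∀ (A R Y : ℕ) (γ : ℝ) (t w : ℕ → ℕ), 0 < γ → 1 ≤ A → 2 ≤ A * γ →
  (∀ p, 1 ≤ w p) → ∀ (ps : List ℕ), ps.Nodup →
  (∀ p ∈ ps, p.Prime ∧ 16 ≤ t p ∧ (t p : ℝ) ^ (-γ) ≤ 1 / 8) →
  ∀ (D A' : Finset ℕ), (∀ d ∈ D, d ≠ 0) → RC ps.toFinset D → A' ⊆ D →
  ∀ (B : Finset ℤ),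
  2 * ((A' ×ˢ B).filter (fun q =>
      ¬ Fin2 Y (run2 A R (trip t w ps (ps.map (fun p => q.1.factorization p / w p)))
        (D.image (Nat.cast : ℕ → ℤ), B)
        ((q.1 / prt2 w ps.toFinset q.1 : ℕ) : ℤ) q.2))).card ≤ A'.card * B.card →
  (A'.card : ℝ) * B.card ≤ 2 * (A'.image (prt2 w ps.toFinset)).card *
    (Y * 2 ^ ps.length * ((D.card : ℝ) * B.card) ^ γ) *
    ((A'.image (Nat.cast : ℕ → ℤ) ×ˢ B).image (fun q => q.1 + q.2)).card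

/-- N10r: the number of scale vectors, with a hypothesis on the `Q`-part only. -/
def S_N10r : Prop := ∀ (Q A : Finset ℕ) (M q0 : ℕ) (β : ℝ), 0 < β → 1 ≤ q0 → (∀ q ∈ Q, q.Prime) →
  (∀ a ∈ A, a ≠ 0 ∧ ∏ q ∈ Q, (a.factorization q + 1) ≤ 2 ^ M) →
  ((A.image (sv q0 Q)).card : ℝ) ≤
    (2 : ℝ) ^ (β * M) * (1 + (2 : ℝ) ^ (-(β * q0)) / (1 - (2 : ℝ) ^ (-β))) ^ Q.card

/-- O1: the size of the `Q`-part in a set closed under division by primes of `Q`. -/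
def S_O1 : Prop := ∀ (Q D : Finset ℕ), (∀ q ∈ Q, q.Prime) → (∀ d ∈ D, d ≠ 0) → RC Q D →
  ∀ a ∈ D, ∏ q ∈ Q, (a.factorization q + 1) ≤ D.card ∧ 2 ^ (Q.filter (· ∣ a)).card ≤ D.card

/-- CIr: the sum side when the large exponents at the primes of `Q` carry a positive proportion
(uses CK, N8r, N9r, N10r, O1). -/
def S_CIr : Prop := ∀ (ε κ lam1 : ℝ) (L : ℕ), 0 < ε → ε ≤ 1 → 1 ≤ κ → 0 < lam1 → 1 ≤ L →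
  ∃ (q0 N0 : ℕ) (η C0 : ℝ), 0 < η ∧ 1 ≤ C0 ∧ ∀ (A D Q : Finset ℕ), N0 ≤ A.card →
  (∀ d ∈ D, d ≠ 0) → A ⊆ D → RC Q D → (D.card : ℝ) ≤ κ * (A.card : ℝ) ^ (1 + η) →
  (∀ q ∈ Q, q.Prime) → (Q.card : ℝ) ≤ L * Real.log A.card →
  A.card ≤ 2 * (A.filter (fun a => lam1 * Real.log A.card ≤ (lam q0 Q a : ℝ))).card →
  ∀ B : Finset ℤ, B.Nonempty →
  ((A.card : ℝ) * B.card) ^ (1 - ε) ≤ C0 *
    (((A.image (Nat.cast : ℕ → ℤ) ×ˢ B).image (fun q => q.1 + q.2)).card : ℝ)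

/-- J6: the sum theorem for sets of positive integers closed under division by the primes of a set
`Q`, up to a factor `|A| ^ η`
(uses E1r, E2r, G1r, H2, K, N11, CIr). -/
def S_J6 : Prop := ∀ (L : ℕ) (θ κ ε : ℝ), 0 < θ → 0 < ε → ∃ η > (0 : ℝ), ∃ c > (0 : ℝ),
  ∀ (A D Q : Finset ℕ), A.Nonempty → A ⊆ D → (∀ d ∈ D, d ≠ 0) → (∀ q ∈ Q, q.Prime) → RC Q D →
  (D.card : ℝ) ≤ κ * (A.card : ℝ) ^ (1 + η) → (Q.card : ℝ) ≤ L * Real.log A.card →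
  (∀ a ∈ A, θ * Real.log A.card ≤ ((Q.filter (· ∣ a)).card : ℝ)) →
  ∀ B : Finset ℤ, B.Nonempty → c * ((A.card : ℝ) * B.card) ^ (1 - ε) ≤
    (((A.image (Nat.cast : ℕ → ℤ) ×ˢ B).image (fun q => q.1 + q.2)).card : ℝ)

open scoped Pointwise in
/-- J7: the sum theorem for sets of integers (uses J6). `D` contains `A` and is closed under division
by the primes of `Q`. -/
def S_J7 : Prop := ∀ (L : ℕ) (θ κ ε : ℝ), 0 < θ → 0 < ε → ∃ η > (0 : ℝ), ∃ c > (0 : ℝ),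
  ∀ (A D : Finset ℤ) (Q : Finset ℕ), A.Nonempty → A ⊆ D → 0 ∉ D → (∀ q ∈ Q, q.Prime) →
  (∀ q ∈ Q, ∀ d ∈ D, (q : ℤ) ∣ d → d / (q : ℤ) ∈ D) →
  (D.card : ℝ) ≤ κ * (A.card : ℝ) ^ (1 + η) → (Q.card : ℝ) ≤ L * Real.log A.card →
  (∀ a ∈ A, θ * Real.log A.card ≤ ((Q.filter (fun q => (q : ℤ) ∣ a)).card : ℝ)) →
  ∀ B : Finset ℤ, B.Nonempty → c * ((A.card : ℝ) * B.card) ^ (1 - ε) ≤ ((A + B).card : ℝ)

end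

end Pool.Agent.Helper5.RD
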